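import Pool.Agent.Lib.MP_a57f33_nt.PN.Stm1
import Pool.Agent.Lib.MP_a57f33_nt.CycLie

/-!
# Pentagon project (MP_a57f33_nt), Half I: coefficients of Lie elements
-/

namespace Pent

open Pool.Agent.MP_a57f33_nt
open Pool.Agent.MP_a57f33_nt.Cyc (shuffle sh sh_add sh_mul sh_length IsPrim)

attribute [local instance 100] LieRing.ofAssociativeRing

theorem clie_conv {I : Type} (f g : List I → ℚ) (w : List I) :
    Pool.Agent.MP_a57f33_nt.conv w f g = Cyc.conv f g w := by
  induction w generalizing f with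
  | nil => rfl
  | cons b w ih =>
    have : Cyc.conv f g (b :: w) = f [] * g (b :: w) + Cyc.conv (fun t => f (b :: t)) g w := rfl
    rw [this, ← ih]
    rfl

theorem clie_induction {I : Type} {P : FreeAlgebra ℚ I → Prop}
    (hι : ∀ b, P (FreeAlgebra.ι ℚ b)) (h0 : P 0)
    (hadd : ∀ x y, P x → P y → P (x + y)) (hsmul : ∀ (r : ℚ) x, P x → P (r • x))
    (hlie : ∀ x y, P x → P y → P (x * y - y * x)) {ψ : FreeAlgebra ℚ I}
    (h : ψ ∈ LieT I) : P ψ := by
  unfold LieT at h
  have h' : ψ ∈ LieSubalgebra.lieSpan ℚ (FreeAlgebra ℚ I) (Set.range (FreeAlgebra.ι ℚ)) := h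
  induction h' using LieSubalgebra.lieSpan_induction with
  | mem x hx =>
    obtain ⟨b, rfl⟩ := hx
    exact hι b
  | zero => exact h0
  | add x y h1 h2 hx hy => exact hadd x y (hx h1) (hy h2)
  | smul r x h1 hx => exact hsmul r x (hx h1)
  | lie x y h1 h2 hx hy => exact hlie x y (hx h1) (hy h2)

theorem clie_prim {I : Type} [DecidableEq I] {ψ : FreeAlgebra ℚ I} (h : ψ ∈ LieT I) :
    IsPrim (coeff ψ) := by
  refine clie_induction (P := fun ψ => IsPrim (coeff ψ)) ?_ ?_ ?_ ?_ ?_ h
  · intro b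
    refine ⟨by simp [coeff_iota], fun u v hu hv => ?_⟩
    rw [sh_length _ u v rfl _ (fun t => 0 * (0 : ℚ)) ?_, sh_mul]
    · ring
    · intro t ht
      rw [coeff_iota, if_neg]
      · ring
      · rintro rfl
        have h1 := List.length_pos_iff.mpr hu
        have h2 := List.length_pos_iff.mpr hv
        simp at ht
        omega
  · have : coeff (0 : FreeAlgebra ℚ I) = fun t => 0 * (0 : ℚ) := by
      funext t; rw [coeff_zero]; ring
    refine ⟨coeff_zero _, fun u v _ _ => ?_⟩
    rw [this, sh_mul]; ring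
  · intro x y hx hy
    have : coeff (x + y) = fun t => coeff x t + coeff y t := by funext t; exact coeff_add _ _ _
    refine ⟨by rw [coeff_add, hx.1, hy.1]; ring, fun u v hu hv => ?_⟩
    rw [this, sh_add _ _ _ rfl, hx.2 u v hu hv, hy.2 u v hu hv]; ring
  · intro r x hx
    have : coeff (r • x) = fun t => r * coeff x t := by funext t; exact coeff_smul _ _ _
    refine ⟨by rw [coeff_smul, hx.1]; ring, fun u v hu hv => ?_⟩
    rw [this, sh_mul, hx.2 u v hu hv]; ring
  · intro x y hx hy
    have e : coeff (x * y - y * x) = fun t => Cyc.conv (coeff x) (coeff y) t +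
        (-1) * Cyc.conv (coeff y) (coeff x) t := by
      funext t
      rw [coeff_sub, coeff_mul, coeff_mul, clie_conv, clie_conv]; ring
    refine ⟨?_, fun u v hu hv => ?_⟩
    · rw [e]
      simp only [Cyc.conv, Cyc.cut, hx.1, hy.1]; ring
    · rw [e, sh_add _ _ _ rfl, sh_mul, hx.sh_conv hy hu hv, hy.sh_conv hx hu hv]
      ring

theorem p_clie : S_clie := by
  intro I _ f hf
  have h := clie_prim hf
  exact ⟨h.1, fun u v hu hv => h.2 u v hu hv⟩

end Pent
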