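import Pool.Agent.Lib.MP_a57f33_nt.PN.Stm1

/-!
# Pentagon project (MP_a57f33_nt): piece `mV`
-/

namespace Pent

open Pool.Agent.MP_a57f33_nt

noncomputable section

/-- an element all of whose words satisfy `P` is a combination of words satisfying `P` -/
theorem mV_mem_span {X : Type} (P : List X → Prop) (f : FreeAlgebra ℚ X)
    (h : ∀ w, ¬ P w → coeff f w = 0) :
    f ∈ Submodule.span ℚ {x : FreeAlgebra ℚ X | ∃ w, P w ∧ word w = x} := by
  rw [← (FreeAlgebra.basisFreeMonoid ℚ X).linearCombination_repr f,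
    Finsupp.linearCombination_apply, Finsupp.sum]
  apply Submodule.sum_mem
  intro w _
  by_cases hP : P w.toList
  · apply Submodule.smul_mem
    apply Submodule.subset_span
    refine ⟨w.toList, hP, ?_⟩
    rw [← basis_apply, FreeMonoid.ofList_toList]
  · have h1 := h w.toList hP
    unfold coeff at h1
    rw [FreeMonoid.ofList_toList] at h1
    rw [h1, zero_smul]
    exact Submodule.zero_mem _

/-- the span of the words with at least `k` letters `b`, `c` -/
def mV_F (k : ℕ) : Submodule ℚ T3 :=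
  Submodule.span ℚ {x : T3 | ∃ w, k ≤ nbc w ∧ word w = x}

theorem mV_word_mem (k : ℕ) (w : List (Fin 3)) (h : k ≤ nbc w) : word w ∈ mV_F k :=
  Submodule.subset_span ⟨w, h, rfl⟩

theorem mV_Fil_iff (k : ℕ) (f : T3) : Fil k f ↔ f ∈ mV_F k := by
  constructor
  · intro h
    exact mV_mem_span (fun w => k ≤ nbc w) f (fun w hw => h w (by omega))
  · intro h w hw
    have hle : mV_F k ≤ LinearMap.ker (coeffL w) := by
      apply Submodule.span_le.mpr
      rintro x ⟨v, hv, rfl⟩
      rw [SetLike.mem_coe, LinearMap.mem_ker, coeffL_apply, coeff_word, if_neg]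
      rintro rfl
      omega
    have := hle h
    rwa [LinearMap.mem_ker, coeffL_apply] at this

theorem mV_nbc_append (u v : List (Fin 3)) : nbc (u ++ v) = nbc u + nbc v := by
  simp [nbc]

theorem mV_mul (j k : ℕ) (f g : T3) (hf : f ∈ mV_F j) (hg : g ∈ mV_F k) :
    f * g ∈ mV_F (j + k) := by
  have h1 : mV_F j * mV_F k ≤ mV_F (j + k) := by
    unfold mV_F
    rw [Submodule.span_mul_span]
    apply Submodule.span_mono
    intro x hx
    rw [Set.mem_mul] at hx
    obtain ⟨a, ⟨u, hu, rfl⟩, b, ⟨v, hv, rfl⟩, rfl⟩ := hx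
    refine ⟨u ++ v, ?_, word_append u v⟩
    rw [mV_nbc_append]
    omega
  exact h1 (Submodule.mul_mem_mul hf hg)

theorem mV_iota (i : Fin 3) : FreeAlgebra.ι ℚ i ∈ mV_F (nbc [i]) := by
  have : (FreeAlgebra.ι ℚ i : T3) = word [i] := by simp
  rw [this]
  exact mV_word_mem _ _ le_rfl

/-- a linear map raises the filtration by one if it does so on words -/
theorem mV_raise (T : Module.End ℚ T3) (h : ∀ w, T (word w) ∈ mV_F (nbc w + 1)) (j : ℕ) (f : T3)
    (hf : f ∈ mV_F j) : T f ∈ mV_F (j + 1) := by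
  have hle : mV_F j ≤ (mV_F (j + 1)).comap T := by
    apply Submodule.span_le.mpr
    rintro x ⟨v, hv, rfl⟩
    rw [SetLike.mem_coe, Submodule.mem_comap]
    have hmono : mV_F (nbc v + 1) ≤ mV_F (j + 1) := by
      apply Submodule.span_mono
      rintro y ⟨u, hu, rfl⟩
      exact ⟨u, by omega, rfl⟩
    exact hmono (h v)
  exact hle hf

theorem mV_Lb (w : List (Fin 3)) : Lb (word w) ∈ mV_F (nbc w + 1) := by
  have : Lb (word w) = word (1 :: w) := rfl
  rw [this]
  apply mV_word_mem
  simp [nbc]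

theorem mV_Lc (w : List (Fin 3)) : Lc (word w) ∈ mV_F (nbc w + 1) := by
  have : Lc (word w) = word (2 :: w) := rfl
  rw [this]
  apply mV_word_mem
  simp [nbc]

theorem mV_d23_eq : d23 = der (fun k : Fin 3 => if k = 1 then
      FreeAlgebra.ι ℚ 1 * FreeAlgebra.ι ℚ 2 - FreeAlgebra.ι ℚ 2 * FreeAlgebra.ι ℚ 1
      else if k = 2 then
      FreeAlgebra.ι ℚ 2 * FreeAlgebra.ι ℚ 1 - FreeAlgebra.ι ℚ 1 * FreeAlgebra.ι ℚ 2 else 0) := by
  have h : ¬ ((1 : Fin 3) = 2) := by decide
  unfold d23
  simp only [tau]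
  rw [if_neg h]

theorem mV_d23_iota (i : Fin 3) : d23 (FreeAlgebra.ι ℚ i) ∈ mV_F (nbc [i] + 1) := by
  have hd : d23 (FreeAlgebra.ι ℚ i) = if i = 1 then
      FreeAlgebra.ι ℚ 1 * FreeAlgebra.ι ℚ 2 - FreeAlgebra.ι ℚ 2 * FreeAlgebra.ι ℚ 1
      else if i = 2 then
      FreeAlgebra.ι ℚ 2 * FreeAlgebra.ι ℚ 1 - FreeAlgebra.ι ℚ 1 * FreeAlgebra.ι ℚ 2 else 0 := by
    rw [mV_d23_eq, der_iota]
  have h12 : (FreeAlgebra.ι ℚ 1 * FreeAlgebra.ι ℚ 2 : T3) ∈ mV_F 2 :=
    mV_mul 1 1 _ _ (mV_iota 1) (mV_iota 2)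
  have h21 : (FreeAlgebra.ι ℚ 2 * FreeAlgebra.ι ℚ 1 : T3) ∈ mV_F 2 :=
    mV_mul 1 1 _ _ (mV_iota 2) (mV_iota 1)
  rw [hd]
  fin_cases i
  · simp
  · simpa [nbc] using Submodule.sub_mem _ h12 h21
  · simpa [nbc] using Submodule.sub_mem _ h21 h12

theorem mV_d23_mul (f g : T3) : d23 (f * g) = d23 f * g + f * d23 g := by
  rw [mV_d23_eq, der_mul]

theorem mV_d23_one : d23 (1 : T3) = 0 := by
  rw [mV_d23_eq, der_one]

theorem mV_d23 (w : List (Fin 3)) : d23 (word w) ∈ mV_F (nbc w + 1) := by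
  induction w with
  | nil =>
    rw [word_nil, mV_d23_one]
    exact Submodule.zero_mem _
  | cons i w ih =>
    rw [word_cons, mV_d23_mul]
    have e : nbc (i :: w) + 1 = (nbc [i] + 1) + nbc w := by
      have := mV_nbc_append [i] w
      rw [List.singleton_append] at this
      omega
    have e' : nbc (i :: w) + 1 = nbc [i] + (nbc w + 1) := by
      have := mV_nbc_append [i] w
      rw [List.singleton_append] at this
      omega
    apply Submodule.add_mem
    · rw [e]
      exact mV_mul _ _ _ _ (mV_d23_iota i) (mV_word_mem _ _ le_rfl)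
    · rw [e']
      exact mV_mul _ _ _ _ (mV_iota i) ih

theorem mV_ev2 (X Y : Module.End ℚ T3) (hX : ∀ w, X (word w) ∈ mV_F (nbc w + 1))
    (hY : ∀ w, Y (word w) ∈ mV_F (nbc w + 1)) (V : QX) (k : ℕ)
    (hV : ∀ u : List Bool, u.length < k → coeff V u = 0) : Fil k ((ev2 V X Y) 1) := by
  rw [mV_Fil_iff]
  have hword : ∀ (w : List Bool) (j : ℕ) (f : T3), f ∈ mV_F j →
      (ev2 (word w) X Y) f ∈ mV_F (j + w.length) := by
    intro w
    induction w with
    | nil =>
      intro j f hf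
      simp only [ev2, word_nil, map_one, Module.End.one_apply, List.length_nil, add_zero]
      exact hf
    | cons s w ih =>
      intro j f hf
      have h1 := ih j f hf
      have e : ev2 (word (s :: w)) X Y f = (if s then Y else X) (ev2 (word w) X Y f) := by
        simp only [ev2, word_cons, map_mul, Module.End.mul_apply, FreeAlgebra.lift_ι_apply]
      rw [e]
      have h2 : (if s then Y else X) (ev2 (word w) X Y f) ∈ mV_F (j + w.length + 1) := by
        cases s
        · exact mV_raise X hX _ _ h1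
        · exact mV_raise Y hY _ _ h1
      simpa [List.length_cons, add_assoc] using h2
  let L : QX →ₗ[ℚ] T3 :=
    { toFun := fun V => (ev2 V X Y) 1
      map_add' := by
        intro a b
        simp [ev2]
      map_smul' := by
        intro r a
        simp [ev2] }
  have hspan := mV_mem_span (fun w : List Bool => k ≤ w.length) V
    (fun w hw => hV w (by omega))
  have hle : Submodule.span ℚ {x : QX | ∃ w, (fun w : List Bool => k ≤ w.length) w ∧ word w = x}
      ≤ (mV_F k).comap L := by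
    apply Submodule.span_le.mpr
    rintro x ⟨w, hw, rfl⟩
    rw [SetLike.mem_coe, Submodule.mem_comap]
    have h0 : (1 : T3) ∈ mV_F 0 := by
      rw [← word_nil]
      exact mV_word_mem 0 [] (Nat.zero_le _)
    have h1 := hword w 0 1 h0
    have hmono : mV_F (0 + w.length) ≤ mV_F k := by
      apply Submodule.span_mono
      rintro y ⟨u, hu, rfl⟩
      exact ⟨u, by omega, rfl⟩
    exact hmono h1
  exact hle hspan

theorem p_mV : S_mV := by
  intro V k hV
  exact ⟨mV_ev2 Lc d23 mV_Lc mV_d23 V k hV, mV_ev2 Lb d23 mV_Lb mV_d23 V k hV⟩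

end

end Pent
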