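import Pool.Agent.Lib.MP_a57f33_nt.PN.Stm1
import Pool.Agent.Lib.MP_a57f33_nt.CycWords

/-!
# Pentagon project (MP_a57f33_nt), Half I: piece `SP`
-/

namespace Pent

open Pool.Agent.MP_a57f33_nt
open Pool.Agent.MP_a57f33_nt.Cyc (shuffle sh sh_nil_left sh_cons_cons)

noncomputable section

/-! ### words -/

theorem SP_perm {α : Type} (u : List α) : ∀ v : List α, ∀ t ∈ shuffle u v, t.Perm (u ++ v) := by
  induction u with
  | nil =>
    intro v t ht
    simp only [shuffle, List.mem_singleton] at ht
    subst ht
    simp
  | cons a u ihu =>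
    intro v
    induction v with
    | nil =>
      intro t ht
      simp only [shuffle, List.mem_singleton] at ht
      subst ht
      simp
    | cons b v ihv =>
      intro t ht
      simp only [shuffle, List.mem_append, List.mem_map] at ht
      rcases ht with ⟨t', h, rfl⟩ | ⟨t', h, rfl⟩
      · exact (ihu (b :: v) t' h).cons a
      · have := (ihv t' h).cons b
        exact this.trans (List.perm_middle (a := b) (l₁ := a :: u) (l₂ := v)).symm

theorem SP_last {α : Type} (A B t : List α) (x b c : α) (h : A ++ x :: (B ++ [b]) = t ++ [c]) :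
    b = c := by
  have h' : (A ++ x :: B) ++ [b] = t ++ [c] := by simpa using h
  have := (List.append_inj' h' rfl).2
  simpa using this

theorem SP_ins {α : Type} (x : α) (X : List α) : ∀ Y ∈ shuffle [x] X,
    ∃ A B, X = A ++ B ∧ Y = A ++ x :: B := by
  induction X with
  | nil =>
    intro Y hY
    simp only [shuffle, List.mem_singleton] at hY
    exact ⟨[], [], rfl, by simp [hY]⟩
  | cons b X ih =>
    intro Y hY
    simp only [shuffle, List.mem_append, List.mem_map, List.mem_singleton] at hY
    rcases hY with ⟨t', rfl, rfl⟩ | ⟨t', h, rfl⟩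
    · exact ⟨[], b :: X, rfl, rfl⟩
    · obtain ⟨A, B, h1, h2⟩ := ih t' h
      exact ⟨b :: A, B, by simp [h1], by simp [h2]⟩

theorem SP_one (k : ℕ) (X : List (Fin 3)) : ∀ g : List (Fin 3) → ℚ,
    ((shuffle [1] (List.replicate k 1 ++ 2 :: X)).map g).sum
      = ((k : ℚ) + 1) * g (List.replicate (k + 1) 1 ++ 2 :: X)
        + ((shuffle [1] X).map (fun Y => g (List.replicate k 1 ++ 2 :: Y))).sum := by
  induction k with
  | zero =>
    intro g
    have h := sh_cons_cons (k := ℚ) 1 2 [] X g
    simp only [sh] at h
    simp only [List.replicate_zero, List.nil_append]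
    rw [h]
    simp [shuffle]
  | succ k ih =>
    intro g
    have h := sh_cons_cons (k := ℚ) 1 1 [] (List.replicate k 1 ++ 2 :: X) g
    simp only [sh] at h
    rw [List.replicate_succ, List.cons_append, h, ih]
    simp only [shuffle, List.map_cons, List.map_nil, List.sum_cons, List.sum_nil,
      List.replicate_succ, List.cons_append]
    push_cast
    ring

theorem SP_first (A : List (Fin 3)) (h0 : 0 ∉ A) (h2 : 2 ∈ A) :
    ∃ k A', A = List.replicate k 1 ++ 2 :: A' := by
  induction A with
  | nil => simp at h2
  | cons a A ih =>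
    by_cases ha : a = 2
    · exact ⟨0, A, by simp [ha]⟩
    · have ha1 : a = 1 := by
        have : a ≠ 0 := fun h => h0 (by simp [h])
        revert ha this
        fin_cases a <;> simp
      have h2' : 2 ∈ A := by
        rcases List.mem_cons.1 h2 with h | h
        · exact (ha h.symm).elim
        · exact h
      obtain ⟨k, A', h⟩ := ih (fun h => h0 (by simp [h])) h2'
      exact ⟨k + 1, A', by rw [List.replicate_succ, List.cons_append, ← h, ha1]⟩

theorem SP_split (u : List (Fin 3)) (h : u.count 0 = 1) :
    ∃ A B, u = A ++ 0 :: B ∧ 0 ∉ A ∧ 0 ∉ B := by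
  have hm : 0 ∈ u := List.count_pos_iff.1 (by omega)
  obtain ⟨A, B, rfl⟩ := List.append_of_mem hm
  refine ⟨A, B, rfl, ?_, ?_⟩
  · intro hA
    have := List.count_pos_iff.2 hA
    simp at h
    omega
  · intro hB
    have := List.count_pos_iff.2 hB
    simp at h
    omega

/-! ### the combinatorial core -/

structure SP_Hyp (Z : List (Fin 3) → ℚ) : Prop where
  sh : ∀ u v : List (Fin 3), u ≠ [] → v ≠ [] → ((shuffle u v).map Z).sum = 0
  m1 : ∀ (A B : List (Fin 3)) (x : Fin 3), Z (A ++ x :: B) =
      (-1) ^ B.length * ((shuffle A B.reverse).map (fun t => Z (t ++ [x]))).sum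
  m3 : ∀ w : List (Fin 3), w ≠ [] → Z w.reverse = (-1) ^ (w.length + 1) * Z w
  h2 : ∀ u, 2 ∉ u → Z u = 0
  he : ∀ v, (∀ w, v = 0 :: w → 0 ∈ w) → Z (v ++ [2]) = 0

theorem SP_cnt {Z : List (Fin 3) → ℚ} (H : SP_Hyp Z) (u : List (Fin 3)) (h : u.count 0 ≠ 1) :
    Z u = 0 := by
  by_cases hm : 2 ∈ u
  · obtain ⟨A, B, rfl⟩ := List.append_of_mem hm
    rw [H.m1 A B 2]
    have : ((shuffle A B.reverse).map (fun t => Z (t ++ [2]))).sum = 0 := by
      apply List.sum_eq_zero
      intro x hx
      obtain ⟨t, ht, rfl⟩ := List.mem_map.1 hx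
      apply H.he
      rintro w rfl
      have hp := (SP_perm _ _ _ ht).count_eq 0
      by_contra hw
      have := List.count_eq_zero.2 hw
      simp only [List.count_cons_self, List.count_append, List.count_reverse] at hp
      apply h
      simp only [List.count_append, List.count_cons]
      simp
      omega
    rw [this, mul_zero]
  · exact H.h2 u hm

theorem SP_claim {Z : List (Fin 3) → ℚ} (H : SP_Hyp Z) (k : ℕ) : ∀ X : List (Fin 3),
    (∀ t, X ≠ t ++ [0]) → Z (List.replicate k 1 ++ 2 :: X) = 0 := by
  induction k with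
  | zero =>
    intro X hX
    have h := H.m3 (X.reverse ++ [2]) (by simp)
    rw [H.he] at h
    · simpa using h
    · intro w hw
      exfalso
      apply hX w.reverse
      have := congrArg List.reverse hw
      simpa using this
  | succ k ih =>
    intro X hX
    have h := H.sh [1] (List.replicate k 1 ++ 2 :: X) (by simp) (by simp)
    rw [SP_one] at h
    have h' : ((shuffle [1] X).map (fun Y => Z (List.replicate k 1 ++ 2 :: Y))).sum = 0 := by
      apply List.sum_eq_zero
      intro x hx
      obtain ⟨Y, hY, rfl⟩ := List.mem_map.1 hx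
      apply ih
      rintro t rfl
      obtain ⟨A, B, h1, h2⟩ := SP_ins _ _ _ hY
      rcases List.eq_nil_or_concat' B with rfl | ⟨B', b, rfl⟩
      · have := congrArg List.getLast? h2
        simp at this
      · have h3 : b = 0 := (SP_last _ _ _ _ _ _ h2.symm)
        apply hX (A ++ B')
        rw [h1, h3]
        simp
    rw [h', add_zero] at h
    rcases mul_eq_zero.1 h with h | h
    · exfalso
      have : (0 : ℚ) ≤ (k : ℚ) := Nat.cast_nonneg k
      linarith
    · exact h

theorem SP_mid {Z : List (Fin 3) → ℚ} (H : SP_Hyp Z) (A B : List (Fin 3)) (hA : A ≠ [])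
    (hB : B ≠ []) (hA0 : 0 ∉ A) (hB0 : 0 ∉ B) : Z (A ++ 0 :: B) = 0 := by
  have key : ∀ A B : List (Fin 3), B ≠ [] → 0 ∉ A → 0 ∉ B → 2 ∈ A → Z (A ++ 0 :: B) = 0 := by
    intro A B hB hA0 hB0 h2
    obtain ⟨k, A', rfl⟩ := SP_first A hA0 h2
    rw [List.append_assoc, List.cons_append]
    apply SP_claim H
    intro t ht
    rcases List.eq_nil_or_concat' B with rfl | ⟨B', b, rfl⟩
    · exact hB rfl
    · have := SP_last _ _ _ _ _ _ ht
      apply hB0
      simp [this]
  by_cases h2 : 2 ∈ A
  · exact key A B hB hA0 hB0 h2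
  · by_cases h2' : 2 ∈ B
    · have h := H.m3 (A ++ 0 :: B) (by simp)
      have e : (A ++ 0 :: B).reverse = B.reverse ++ 0 :: A.reverse := by simp
      rw [e, key B.reverse A.reverse (by simpa using hA) (by simpa using hB0)
        (by simpa using hA0) (by simpa using h2')] at h
      rcases mul_eq_zero.1 h.symm with h | h
      · exfalso
        exact pow_ne_zero _ (by norm_num) h
      · exact h
    · apply H.h2
      simp [h2, h2']

theorem SP_first_last (hmov : S_mov) {Z : List (Fin 3) → ℚ} (H : SP_Hyp Z) (B : List (Fin 3))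
    (_hB : 0 ∉ B) (hB' : B ≠ []) : Z (0 :: B) = - Z (B ++ [0]) := by
  have hz : ∀ u v : List (Fin 3), u ≠ [] → v ≠ [] →
      ((shuffle u v).map (fun t => Z (t ++ [0]))).sum = 0 := by
    intro u v hu hv
    have h := H.m1 u v.reverse 0
    have h0 : Z (u ++ 0 :: v.reverse) = 0 := by
      by_cases h1 : 0 ∈ u
      · apply SP_cnt H
        have := List.count_pos_iff.2 h1
        simp
        omega
      · by_cases h2 : 0 ∈ v
        · apply SP_cnt H
          have := List.count_pos_iff.2 h2
          simp
          omega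
        · exact SP_mid H u v.reverse hu (by simpa using hv) h1 (by simpa using h2)
    rw [h0, List.reverse_reverse] at h
    rcases mul_eq_zero.1 h.symm with h | h
    · exfalso
      exact pow_ne_zero _ (by norm_num) h
    · exact h
  have h3 := (hmov (Fin 3) (fun t => Z (t ++ [0])) hz).2.2 B hB'
  have h1 := H.m1 [] B 0
  simp only [List.nil_append, shuffle, List.map_cons, List.map_nil, List.sum_cons, List.sum_nil,
    add_zero] at h1
  rw [h1]
  rw [h3, ← mul_assoc, ← pow_add]
  have : (-1 : ℚ) ^ (B.length + (B.length + 1)) = -1 := by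
    rw [← add_assoc, ← two_mul, pow_succ, pow_mul]
    norm_num
  rw [this]
  ring

/-! ### coefficients -/

theorem SP_mul_iota {X : Type} [DecidableEq X] (a b : X) (q : FreeAlgebra ℚ X) (u : List X) :
    coeff (q * FreeAlgebra.ι ℚ a) (u ++ [b]) = if b = a then coeff q u else 0 := by
  have : (coeffL (u ++ [b])).comp (LinearMap.mulRight ℚ (FreeAlgebra.ι ℚ a)) =
      (if b = a then (1 : ℚ) else 0) • coeffL u := by
    apply linear_ext
    intro w
    have hw : word w * FreeAlgebra.ι ℚ a = word (w ++ [a]) := by
      rw [word_append]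
      simp [word]
    simp only [LinearMap.comp_apply, LinearMap.mulRight_apply, LinearMap.smul_apply,
      coeffL_apply, hw, coeff_word]
    by_cases h : b = a
    · subst h
      simp
    · have h' : ¬ (w ++ [a] = u ++ [b]) := by
        intro e
        have := congrArg List.getLast? e
        simp at this
        exact h this.symm
      simp [h, h']
  have h2 := LinearMap.congr_fun this q
  simp only [LinearMap.comp_apply, LinearMap.mulRight_apply, LinearMap.smul_apply,
      coeffL_apply] at h2
  rw [h2]
  split_ifs <;> simp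

theorem SP_mul_iota_nil {X : Type} [DecidableEq X] (a : X) (q : FreeAlgebra ℚ X) :
    coeff (q * FreeAlgebra.ι ℚ a) [] = 0 := by
  have : (coeffL ([] : List X)).comp (LinearMap.mulRight ℚ (FreeAlgebra.ι ℚ a)) = 0 := by
    apply linear_ext
    intro w
    have hw : word w * FreeAlgebra.ι ℚ a = word (w ++ [a]) := by
      rw [word_append]
      simp [word]
    simp only [LinearMap.comp_apply, LinearMap.mulRight_apply, LinearMap.zero_apply,
      coeffL_apply, hw, coeff_word]
    simp
  exact LinearMap.congr_fun this q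

/-- the type of a letter -/
def SP_dec (i : Fin 3) : Bool := decide (i = 2)

theorem SP_dec_lt (x : Bool) : SP_dec (lt3 x) = x := by
  cases x <;> simp [SP_dec, lt3]

theorem SP_lt_dec (i : Fin 3) (h : i ≠ 0) : lt3 (SP_dec i) = i := by
  revert h
  fin_cases i <;> simp [SP_dec, lt3]

theorem SP_lt_ne (x : Bool) : lt3 x ≠ 0 := by
  cases x <;> simp [lt3]

theorem SP_ev_word (w : List Bool) : ev2 (word w) xb xc = word (w.map lt3) := by
  unfold ev2
  induction w with
  | nil => simp
  | cons x w ih =>
    rw [List.map_cons, word_cons, word_cons, map_mul, ih]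
    congr 1
    cases x <;> simp [lt3, xb, xc]

theorem SP_ev (V : QX) (u : List (Fin 3)) :
    coeff (ev2 V xb xc) u = if 0 ∈ u then 0 else coeff V (u.map SP_dec) := by
  have : (coeffL u).comp
      (FreeAlgebra.lift ℚ (fun s : Bool => if s then xc else xb)).toLinearMap =
      (if 0 ∈ u then (0 : ℚ) else 1) • coeffL (u.map SP_dec) := by
    apply linear_ext
    intro w
    have hw : FreeAlgebra.lift ℚ (fun s : Bool => if s then xc else xb) (word w)
        = word (w.map lt3) := SP_ev_word w
    simp only [LinearMap.comp_apply, AlgHom.toLinearMap_apply, LinearMap.smul_apply,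
      coeffL_apply, hw, coeff_word]
    by_cases h : 0 ∈ u
    · have h' : ¬ (w.map lt3 = u) := by
        rintro rfl
        obtain ⟨x, _, hx⟩ := List.mem_map.1 h
        exact SP_lt_ne x hx
      simp [h, h']
    · have h' : w.map lt3 = u ↔ w = u.map SP_dec := by
        constructor
        · rintro rfl
          rw [List.map_map]
          conv_lhs => rw [← List.map_id w]
          apply List.map_congr_left
          intro x _
          exact (SP_dec_lt x).symm
        · rintro rfl
          rw [List.map_map]
          conv_rhs => rw [← List.map_id u]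
          apply List.map_congr_left
          intro x hx
          exact SP_lt_dec x fun e => h (e ▸ hx)
      simp [h, h']
  have h2 := LinearMap.congr_fun this V
  simp only [LinearMap.comp_apply, AlgHom.toLinearMap_apply, LinearMap.smul_apply,
      coeffL_apply] at h2
  unfold ev2
  rw [h2]
  split_ifs <;> simp

theorem SP_exists (Z : T3) : ∃ V : QX, ∀ w, coeff V w = coeff Z (w.map lt3 ++ [0]) := by
  classical
  have inj : Function.Injective
      (fun w : FreeMonoid Bool => FreeMonoid.ofList (w.toList.map lt3 ++ [0])) := by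
    intro w w' h
    have h1 : w.toList.map lt3 ++ [0] = w'.toList.map lt3 ++ [0] := FreeMonoid.ofList.injective h
    have h2 := List.append_cancel_right h1
    have h3 := congrArg (List.map SP_dec) h2
    have h4 : ∀ l : List Bool, (l.map lt3).map SP_dec = l := by
      intro l
      rw [List.map_map]
      conv_rhs => rw [← List.map_id l]
      apply List.map_congr_left
      intro x _
      exact SP_dec_lt x
    rw [h4, h4] at h3
    exact FreeMonoid.toList.injective h3
  refine ⟨(FreeAlgebra.basisFreeMonoid ℚ Bool).repr.symm (Finsupp.comapDomain _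
    ((FreeAlgebra.basisFreeMonoid ℚ (Fin 3)).repr Z) inj.injOn), fun w => ?_⟩
  unfold coeff
  rw [LinearEquiv.apply_symm_apply, Finsupp.comapDomain_apply]
  rfl

attribute [local instance 100] LieRing.ofAssociativeRing

theorem SP_brk (i : Fin 3) (f : T3) (hf : f ∈ LieT (Fin 3)) :
    FreeAlgebra.ι ℚ i * f - f * FreeAlgebra.ι ℚ i ∈ LieT (Fin 3) := by
  unfold LieT at hf ⊢
  have h1 : FreeAlgebra.ι ℚ i ∈
      LieSubalgebra.lieSpan ℚ (FreeAlgebra ℚ (Fin 3)) (Set.range (FreeAlgebra.ι ℚ)) :=
    LieSubalgebra.subset_lieSpan ⟨i, rfl⟩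
  have := LieSubalgebra.lie_mem _ h1 hf
  exact this

theorem SP_add (f g : T3) (hf : f ∈ LieT (Fin 3)) (hg : g ∈ LieT (Fin 3)) :
    f + g ∈ LieT (Fin 3) := by
  unfold LieT at hf hg ⊢
  exact add_mem (S := LieSubalgebra ℚ (FreeAlgebra ℚ (Fin 3))) hf hg

theorem SP_sub (f g : T3) (hf : f ∈ LieT (Fin 3)) (hg : g ∈ LieT (Fin 3)) :
    f - g ∈ LieT (Fin 3) := by
  unfold LieT at hf hg ⊢
  exact sub_mem (S := LieSubalgebra ℚ (FreeAlgebra ℚ (Fin 3))) hf hg

theorem p_SP (h1 : S_clie) (h2 : S_mov) : S_SP := by
  intro R Q P hR hQ hP hno habc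
  set Z : T3 := ((xa + xb + xc) * R - R * (xa + xb + xc)) - ((xa + xb) * Q - Q * (xa + xb))
      + (xa * P - P * xa) with hZ
  have eZ : Z = (((xa * R - R * xa) + (xb * R - R * xb) + (xc * R - R * xc))
      - ((xa * Q - Q * xa) + (xb * Q - Q * xb))) + (xa * P - P * xa) := by
    rw [hZ]
    simp only [add_mul, mul_add]
    abel
  have hZL : Z ∈ LieT (Fin 3) := by
    rw [eZ]
    exact SP_add _ _ (SP_sub _ _ (SP_add _ _ (SP_add _ _ (SP_brk 0 R hR) (SP_brk 1 R hR))
      (SP_brk 2 R hR)) (SP_add _ _ (SP_brk 0 Q hQ) (SP_brk 1 Q hQ))) (SP_brk 0 P hP)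
  obtain ⟨z0, zsh⟩ := h1 (Fin 3) Z hZL
  obtain ⟨m1, m2, m3⟩ := h2 (Fin 3) (coeff Z) zsh
  have cl : ∀ (i : Fin 3) (f : T3) (j : Fin 3) (w : List (Fin 3)),
      coeff (FreeAlgebra.ι ℚ i * f) (j :: w) = if j = i then coeff f w else 0 :=
    fun i f j w => coeff_iota_mul_cons i j f w
  have hno' : ∀ u : List (Fin 3), 2 ∉ u → coeff Z u = 0 := by
    have aux : ∀ (i : Fin 3) (f : T3), (∀ u : List (Fin 3), 2 ∉ u → coeff f u = 0) →
        ∀ u : List (Fin 3), 2 ∉ u →
          coeff (FreeAlgebra.ι ℚ i * f - f * FreeAlgebra.ι ℚ i) u = 0 := by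
      intro i f hf u hu
      rw [coeff_sub]
      have e1 : coeff (FreeAlgebra.ι ℚ i * f) u = 0 := by
        cases u with
        | nil => exact coeff_iota_mul_nil i f
        | cons j w =>
          rw [cl]
          split_ifs
          · exact hf w fun h => hu (by simp [h])
          · rfl
      have e2 : coeff (f * FreeAlgebra.ι ℚ i) u = 0 := by
        rcases List.eq_nil_or_concat' u with rfl | ⟨w, j, rfl⟩
        · exact SP_mul_iota_nil i f
        · rw [SP_mul_iota]
          split_ifs
          · exact hf w fun h => hu (by simp [h])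
          · rfl
      rw [e1, e2, sub_zero]
    have aR := fun i => aux i R (fun u hu => (hno u hu).1)
    have aQ := fun i => aux i Q (fun u hu => (hno u hu).2.1)
    have aP := fun i => aux i P (fun u hu => (hno u hu).2.2)
    intro u hu
    rw [eZ, coeff_add, coeff_sub, coeff_add, coeff_add, coeff_add]
    simp only [xa, xb, xc]
    rw [aR 0 u hu, aR 1 u hu, aR 2 u hu, aQ 0 u hu, aQ 1 u hu, aP 0 u hu]
    ring
  have hend : ∀ v : List (Fin 3), (∀ w, v = 0 :: w → 0 ∈ w) → coeff Z (v ++ [2]) = 0 := by
    intro v hv
    cases v with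
    | nil =>
      rw [eZ, coeff_add, coeff_sub, coeff_add, coeff_add, coeff_add]
      have r0 : ∀ (i : Fin 3) (f : T3),
          coeff (FreeAlgebra.ι ℚ i * f - f * FreeAlgebra.ι ℚ i) [2] = 0 := by
        intro i f
        rw [coeff_sub, cl, ← List.nil_append [(2 : Fin 3)], SP_mul_iota]
        simp
      simp only [xa, xb, xc, List.nil_append]
      rw [r0, r0, r0, r0, r0, r0]
      ring
    | cons i w =>
      rw [eZ, coeff_add, coeff_sub, coeff_add, coeff_add, coeff_add]
      simp only [coeff_sub, xa, xb, xc]
      rw [List.cons_append]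
      simp only [cl]
      rw [← List.cons_append]
      simp only [SP_mul_iota]
      rw [habc.a w, habc.b w, habc.c w]
      revert hv
      fin_cases i
      · intro hv
        have := hv w rfl
        simp [this]
      · simp
      · simp
  have H : SP_Hyp (coeff Z) := ⟨zsh, m1, m3, hno', hend⟩
  obtain ⟨V, hV⟩ := SP_exists Z
  refine ⟨V, ?_⟩
  have hW : ∀ u : List (Fin 3), coeff (ev2 V xb xc) u
      = if 0 ∈ u then 0 else coeff Z (u ++ [0]) := by
    intro u
    rw [SP_ev]
    split_ifs with h
    · rfl
    · rw [hV, List.map_map]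
      congr 2
      conv_rhs => rw [← List.map_id u]
      apply List.map_congr_left
      intro x hx
      exact SP_lt_dec x fun e => h (e ▸ hx)
  apply ext_coeff
  intro u
  rw [coeff_sub]
  have c1 : ∀ (w : List (Fin 3)) (b : Fin 3), coeff (ev2 V xb xc * xa) (w ++ [b])
      = if b = 0 then coeff (ev2 V xb xc) w else 0 := fun w b => SP_mul_iota 0 b _ w
  have c2 : ∀ (w : List (Fin 3)) (b : Fin 3), coeff (xa * ev2 V xb xc) (b :: w)
      = if b = 0 then coeff (ev2 V xb xc) w else 0 := fun w b => cl 0 _ b w
  by_cases hc : u.count 0 = 1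
  · obtain ⟨A, B, rfl, hA, hB⟩ := SP_split u hc
    cases A with
    | nil =>
      rcases List.eq_nil_or_concat' B with rfl | ⟨B', b, rfl⟩
      · have e1 := c1 [] 0
        have e2 := c2 [] 0
        simp only [List.nil_append] at e1
        simp only [List.nil_append]
        rw [e1, e2, hno' [0] (by simp)]
        ring
      · have hb : b ≠ 0 := fun e => hB (by simp [e])
        have e1 := c1 (0 :: B') b
        rw [if_neg hb] at e1
        simp only [List.nil_append]
        rw [c2, if_pos rfl, hW, if_neg hB]
        rw [← List.cons_append, e1]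
        have := SP_first_last h2 H (B' ++ [b]) hB (by simp)
        rw [List.cons_append, this]
        ring
    | cons a A =>
      have ha : a ≠ 0 := fun e => hA (by simp [e])
      rw [List.cons_append, c2, if_neg ha, ← List.cons_append]
      rcases List.eq_nil_or_concat' B with rfl | ⟨B', b, rfl⟩
      · rw [c1, if_pos rfl, hW, if_neg hA]
        ring
      · have hb : b ≠ 0 := fun e => hB (by simp [e])
        have e1 := c1 (a :: A ++ 0 :: B') b
        rw [if_neg hb] at e1
        have e2 : a :: A ++ 0 :: B' ++ [b] = a :: A ++ 0 :: (B' ++ [b]) := by simp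
        rw [e2] at e1
        rw [e1, SP_mid H (a :: A) (B' ++ [b]) (by simp) (by simp) hA hB]
        ring
  · rw [SP_cnt H u hc]
    have e1 : coeff (ev2 V xb xc * xa) u = 0 := by
      rcases List.eq_nil_or_concat' u with rfl | ⟨w, j, rfl⟩
      · exact SP_mul_iota_nil 0 _
      · rw [c1]
        split_ifs with hj
        · rw [hW]
          split_ifs with hw
          · rfl
          · exfalso
            apply hc
            rw [hj]
            have := List.count_eq_zero.2 hw
            simp [this]
        · rfl
    have e2 : coeff (xa * ev2 V xb xc) u = 0 := by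
      cases u with
      | nil => exact coeff_iota_mul_nil 0 _
      | cons j w =>
        rw [c2]
        split_ifs with hj
        · rw [hW]
          split_ifs with hw
          · rfl
          · exfalso
            apply hc
            rw [hj]
            have := List.count_eq_zero.2 hw
            simp [this]
        · rfl
    rw [e1, e2, sub_zero]

end

end Pent
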