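import Pool.Agent.Lib.MP_a57f33_nt.PN.Stm1

/-!
# Pentagon project (MP_a57f33_nt), piece abc: coefficients of the cocycle identity
-/

set_option autoImplicit false

namespace Pent

open Pool.Agent.MP_a57f33_nt
open Pool.Agent.MP_a57f33_nt.Cyc (shuffle)

/-- `ys a` is the sum of the letters `b` with `π b = some a` -/
private structure abc_H (π : Fin 4 → Option (Fin 3)) (ys : Fin 3 → T4) : Prop where
  nil : ∀ a q, coeff (ys a * q) [] = 0
  cons : ∀ a q b u, coeff (ys a * q) (b :: u) = if π b = some a then coeff q u else 0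

private theorem abc_word {π : Fin 4 → Option (Fin 3)} {ys : Fin 3 → T4} (h : abc_H π ys)
    (v : List (Fin 3)) : ∀ u : List (Fin 4),
      coeff (FreeAlgebra.lift ℚ ys (word v)) u = if u.map π = v.map some then 1 else 0 := by
  induction v with
  | nil =>
    intro u
    rw [word_nil, map_one, ← word_nil, coeff_word]
    cases u <;> simp
  | cons a v ih =>
    intro u
    rw [word_cons, map_mul, FreeAlgebra.lift_ι_apply]
    cases u with
    | nil => simp [h.nil]
    | cons b u =>
      rw [h.cons, ih]
      simp only [List.map_cons, List.cons.injEq]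
      by_cases h1 : π b = some a
      · simp [h1]
      · simp [h1]

private theorem abc_some {π : Fin 4 → Option (Fin 3)} {ys : Fin 3 → T4} (h : abc_H π ys)
    (f : T3) {u : List (Fin 4)} {v : List (Fin 3)} (huv : u.map π = v.map some) :
    coeff (FreeAlgebra.lift ℚ ys f) u = coeff f v := by
  have e : (coeffL u).comp (FreeAlgebra.lift ℚ ys).toLinearMap = coeffL v := by
    apply linear_ext
    intro w
    simp only [LinearMap.comp_apply, AlgHom.toLinearMap_apply, coeffL_apply]
    rw [abc_word h, coeff_word, huv]
    have h1 : (v.map some = w.map some) ↔ w = v :=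
      ⟨fun e => ((Option.some_injective _).list_map e).symm, fun e => by rw [e]⟩
    simp only [h1]
  exact LinearMap.congr_fun e f

private theorem abc_none {π : Fin 4 → Option (Fin 3)} {ys : Fin 3 → T4} (h : abc_H π ys)
    (f : T3) {u : List (Fin 4)} (hu : ∀ v : List (Fin 3), u.map π ≠ v.map some) :
    coeff (FreeAlgebra.lift ℚ ys f) u = 0 := by
  have e : (coeffL u).comp (FreeAlgebra.lift ℚ ys).toLinearMap = 0 := by
    apply linear_ext
    intro w
    simp only [LinearMap.comp_apply, AlgHom.toLinearMap_apply, coeffL_apply,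
      LinearMap.zero_apply]
    rw [abc_word h, if_neg (hu w)]
  exact LinearMap.congr_fun e f

private theorem abc_count (v : List (Fin 3)) (x : Fin 3) :
    (v.map some).count (some x) = v.count x :=
  List.count_map_of_injective _ _ (Option.some_injective _) _

private theorem abc_van {π : Fin 4 → Option (Fin 3)} {ys : Fin 3 → T4} (h : abc_H π ys)
    {f : T3} (hf : ∀ w : List (Fin 3), (w.count 1 ≤ 1 ∨ w.count 2 ≤ 1) → coeff f w = 0)
    {u : List (Fin 4)} (hu : (u.map π).count (some 1) ≤ 1 ∨ (u.map π).count (some 2) ≤ 1) :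
    coeff (FreeAlgebra.lift ℚ ys f) u = 0 := by
  by_cases h1 : ∃ v : List (Fin 3), u.map π = v.map some
  · obtain ⟨v, hv⟩ := h1
    rw [abc_some h f hv]
    apply hf
    rw [hv, abc_count, abc_count] at hu
    exact hu
  · exact abc_none h f fun v hv => h1 ⟨v, hv⟩

private theorem abc_H1 : abc_H ![none, some 0, some 1, some 2] ![yl 1, yl 2, yl 3] where
  nil a q := by
    fin_cases a <;> simp [yl, coeff_iota_mul_nil]
  cons a q b u := by
    fin_cases a <;> fin_cases b <;> simp [yl, coeff_iota_mul_cons]

private theorem abc_H2 :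
    abc_H ![some 0, some 0, some 1, some 2] ![yl 0 + yl 1, yl 2, yl 3] where
  nil a q := by
    fin_cases a <;> simp [yl, coeff_iota_mul_nil, add_mul, coeff_add]
  cons a q b u := by
    fin_cases a <;> fin_cases b <;> simp [yl, coeff_iota_mul_cons, add_mul, coeff_add]

private theorem abc_H3 :
    abc_H ![some 0, some 1, some 1, some 2] ![yl 0, yl 1 + yl 2, yl 3] where
  nil a q := by
    fin_cases a <;> simp [yl, coeff_iota_mul_nil, add_mul, coeff_add]
  cons a q b u := by
    fin_cases a <;> fin_cases b <;> simp [yl, coeff_iota_mul_cons, add_mul, coeff_add]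

private theorem abc_H4 :
    abc_H ![some 0, some 1, some 2, some 2] ![yl 0, yl 1, yl 2 + yl 3] where
  nil a q := by
    fin_cases a <;> simp [yl, coeff_iota_mul_nil, add_mul, coeff_add]
  cons a q b u := by
    fin_cases a <;> fin_cases b <;> simp [yl, coeff_iota_mul_cons, add_mul, coeff_add]

/-- a letter which is not a value of `τ` occurs at most once in `w.map τ ++ [k]` -/
private theorem abc_cnt {α β : Type} [BEq β] [LawfulBEq β] (w : List α) (τ : α → β) (x k : β)
    (h : ∀ a, τ a ≠ x) : (w.map τ ++ [k]).count x ≤ 1 := by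
  rw [List.count_append, List.count_eq_zero_of_not_mem]
  · rw [zero_add, List.count_singleton]
    split_ifs <;> omega
  · intro hx
    rw [List.mem_map] at hx
    obtain ⟨a, -, ha⟩ := hx
    exact h a ha

private theorem abc_cnt' {α β : Type} [BEq β] [LawfulBEq β] (w : List α) (τ : α → β) (x k : β)
    (h : ∀ a, τ a ≠ x) : (k :: w.map τ).count x ≤ 1 := by
  rw [List.count_cons, List.count_eq_zero_of_not_mem]
  · split_ifs <;> omega
  · intro hx
    rw [List.mem_map] at hx
    obtain ⟨a, -, ha⟩ := hx
    exact h a ha

private theorem abc_neg (f : T4) (w : List (Fin 4)) : coeff (-f) w = - coeff f w := by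
  rw [← zero_sub, coeff_sub, coeff_zero, zero_sub]

private theorem abc_map_id (w : List (Fin 3)) (τ : Fin 3 → Option (Fin 3))
    (h : ∀ a, τ a = some a) : w.map τ = w.map some :=
  List.map_congr_left fun a _ => h a

theorem p_abc (h1 : S_coc) (h2 : S_lieR) (h3 : S_clie) (h4 : S_mov) : S_abc := by
  intro φ hφ hR
  obtain ⟨E, hE, e1, e2, e3⟩ := h1 φ hφ
  obtain ⟨-, hsh⟩ := h3 (Fin 3) (Rw φ wR) (h2 φ hφ wR).1
  have hrev := (h4 (Fin 3) (coeff (Rw φ wR)) hsh).2.2
  generalize Rw φ wR = R at *
  have hco : ∀ u, coeff E u =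
      - coeff (FreeAlgebra.lift ℚ ![yl 1, yl 2, yl 3] R) u
        + coeff (FreeAlgebra.lift ℚ ![yl 0 + yl 1, yl 2, yl 3] R) u
        - coeff (FreeAlgebra.lift ℚ ![yl 0, yl 1 + yl 2, yl 3] R) u
        + coeff (FreeAlgebra.lift ℚ ![yl 0, yl 1, yl 2 + yl 3] R) u := by
    intro u
    rw [hE]
    simp only [sub3, coeff_add, coeff_sub, abc_neg]
  -- the reversal of a word with a letter at the end
  have hend : ∀ (w : List (Fin 3)) (x : Fin 3),
      (-1) ^ w.length * coeff R (w.reverse ++ [x]) = coeff R (x :: w) := by
    intro w x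
    have h5 := hrev (x :: w) (List.cons_ne_nil _ _)
    rw [List.reverse_cons] at h5
    rw [h5, List.length_cons, ← mul_assoc, ← pow_add,
      Even.neg_one_pow ⟨w.length + 1, by ring⟩, one_mul]
  refine ⟨fun w => ?_, fun w => ?_, fun w => ?_⟩
  · have h5 := e3 (w.map ![0, 1, 2])
    rw [hco, hco] at h5
    rw [abc_van abc_H1 hR (u := w.map ![0, 1, 2] ++ [3]) (Or.inr (by
        rw [List.map_append, List.map_map]
        refine abc_cnt (β := Option (Fin 3)) w _ _ _ ?_; decide)),
      abc_van abc_H2 hR (u := w.map ![0, 1, 2] ++ [3]) (Or.inr (by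
        rw [List.map_append, List.map_map]
        refine abc_cnt (β := Option (Fin 3)) w _ _ _ ?_; decide)),
      abc_van abc_H3 hR (u := w.map ![0, 1, 2] ++ [3]) (Or.inr (by
        rw [List.map_append, List.map_map]
        refine abc_cnt (β := Option (Fin 3)) w _ _ _ ?_; decide)),
      abc_some abc_H4 R (u := w.map ![0, 1, 2] ++ [3]) (v := w ++ [2]) (by
        rw [List.map_append, List.map_map, List.map_append]
        rw [abc_map_id w _ (by decide)]
        rfl),
      abc_van abc_H1 hR (u := 3 :: w.map ![0, 1, 2]) (Or.inr (by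
        rw [List.map_cons, List.map_map]
        refine abc_cnt' (β := Option (Fin 3)) w _ _ _ ?_; decide)),
      abc_van abc_H2 hR (u := 3 :: w.map ![0, 1, 2]) (Or.inr (by
        rw [List.map_cons, List.map_map]
        refine abc_cnt' (β := Option (Fin 3)) w _ _ _ ?_; decide)),
      abc_van abc_H3 hR (u := 3 :: w.map ![0, 1, 2]) (Or.inr (by
        rw [List.map_cons, List.map_map]
        refine abc_cnt' (β := Option (Fin 3)) w _ _ _ ?_; decide)),
      abc_some abc_H4 R (u := 3 :: w.map ![0, 1, 2]) (v := 2 :: w) (by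
        rw [List.map_cons, List.map_map, List.map_cons]
        rw [abc_map_id w _ (by decide)]
        rfl)] at h5
    linarith
  · have h5 := e2 w.reverse
    rw [hco] at h5
    rw [abc_van abc_H1 hR (u := w.reverse.map ![0, 1, 3] ++ [2]) (Or.inl (by
        rw [List.map_append, List.map_map]
        refine abc_cnt (β := Option (Fin 3)) w.reverse _ _ _ ?_; decide)),
      abc_van abc_H2 hR (u := w.reverse.map ![0, 1, 3] ++ [2]) (Or.inl (by
        rw [List.map_append, List.map_map]
        refine abc_cnt (β := Option (Fin 3)) w.reverse _ _ _ ?_; decide)),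
      abc_some abc_H3 R (u := w.reverse.map ![0, 1, 3] ++ [2]) (v := w.reverse ++ [1]) (by
        rw [List.map_append, List.map_map, List.map_append]
        rw [abc_map_id w.reverse _ (by decide)]
        rfl),
      abc_some abc_H4 R (u := w.reverse.map ![0, 1, 3] ++ [2]) (v := w.reverse ++ [2]) (by
        rw [List.map_append, List.map_map, List.map_append]
        rw [abc_map_id w.reverse _ (by decide)]
        rfl),
      List.reverse_reverse, List.length_reverse] at h5
    rw [← hend w 2, ← hend w 1]
    have h6 : (-1 : ℚ) ^ w.length * (-1) ^ w.length = 1 := by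
      rw [← pow_add, Even.neg_one_pow ⟨w.length, rfl⟩]
    calc coeff (Rw φ wQ) (w ++ [2])
        = ((-1 : ℚ) ^ w.length * (-1) ^ w.length) * coeff (Rw φ wQ) (w ++ [2]) := by
          rw [h6, one_mul]
      _ = (-1 : ℚ) ^ w.length * ((-1) ^ w.length * coeff (Rw φ wQ) (w ++ [2])) := by ring
      _ = _ := by rw [← h5]; ring
  · have h5 := e1 w.reverse
    rw [hco] at h5
    rw [abc_some abc_H2 R (u := w.reverse.map ![0, 2, 3] ++ [1]) (v := w.reverse ++ [0]) (by
        rw [List.map_append, List.map_map, List.map_append]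
        rw [abc_map_id w.reverse _ (by decide)]
        rfl),
      abc_some abc_H3 R (u := w.reverse.map ![0, 2, 3] ++ [1]) (v := w.reverse ++ [1]) (by
        rw [List.map_append, List.map_map, List.map_append]
        rw [abc_map_id w.reverse _ (by decide)]
        rfl),
      abc_van abc_H4 hR (u := w.reverse.map ![0, 2, 3] ++ [1]) (Or.inl (by
        rw [List.map_append, List.map_map]
        refine abc_cnt (β := Option (Fin 3)) w.reverse _ _ _ ?_; decide)),
      List.reverse_reverse, List.length_reverse] at h5
    rw [← hend w 1, ← hend w 0]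
    have h6 : (-1 : ℚ) ^ w.length * (-1) ^ w.length = 1 := by
      rw [← pow_add, Even.neg_one_pow ⟨w.length, rfl⟩]
    have h7 : coeff (Rw φ wP) (w ++ [2]) =
        (-1 : ℚ) ^ w.length * ((-1) ^ w.length * coeff (Rw φ wP) (w ++ [2])) := by
      rw [← mul_assoc, h6, one_mul]
    rw [h7, ← h5]
    by_cases hw : (0 : Fin 3) ∈ w
    · rw [if_pos hw, abc_none abc_H1 R (u := w.reverse.map ![0, 2, 3] ++ [1])]
      · ring
      · intro v hv
        have h8 : (none : Option (Fin 3)) ∈ v.map some := by
          rw [← hv, List.mem_map]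
          exact ⟨0, List.mem_append_left _ (List.mem_map.2 ⟨0, List.mem_reverse.2 hw, rfl⟩), rfl⟩
        rw [List.mem_map] at h8
        obtain ⟨x, -, hx⟩ := h8
        exact Option.some_ne_none x hx
    · rw [if_neg hw, abc_some abc_H1 R (u := w.reverse.map ![0, 2, 3] ++ [1])
        (v := w.reverse ++ [0])]
      · ring
      · rw [List.map_append, List.map_map, List.map_append]
        congr 1
        refine List.map_congr_left fun a ha => ?_
        have ha0 : a ≠ 0 := by
          rintro rfl
          exact hw (List.mem_reverse.1 ha)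
        revert ha0
        revert a
        intro a _ ha0
        fin_cases a
        · exact absurd rfl ha0
        · rfl
        · rfl

end Pent
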