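import Pool.Agent.Lib.MP_a57f33_nt.PN.Stm1

/-!
# Pentagon project (MP_a57f33_nt), piece `forg`
-/

namespace Pent

open Pool.Agent.MP_a57f33_nt

noncomputable section

private theorem forg_ev2_lie {A : Type*} [Ring A] [Algebra ℚ A] (x y : A) {φ : QX}
    (h : φ ∈ LieX) :
    ev2 φ x 0 = coeff φ [false] • x ∧ ev2 φ 0 y = coeff φ [true] • y := by
  refine lie_induction (P := fun φ => ev2 φ x 0 = coeff φ [false] • x ∧
    ev2 φ 0 y = coeff φ [true] • y) ?_ ?_ ?_ ?_ ?_ h
  · intro b
    cases b <;> simp [ev2, coeff_iota]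
  · simp [ev2, coeff_zero]
  · rintro f g ⟨h1, h2⟩ ⟨h3, h4⟩
    unfold ev2 at *
    rw [map_add, map_add, h1, h2, h3, h4, coeff_add, coeff_add, add_smul, add_smul]
    exact ⟨rfl, rfl⟩
  · rintro r f ⟨h1, h2⟩
    unfold ev2 at *
    rw [map_smul, map_smul, h1, h2, coeff_smul, coeff_smul, mul_smul, mul_smul]
    exact ⟨rfl, rfl⟩
  · rintro f g hf hg ⟨h1, h2⟩ ⟨h3, h4⟩
    have ef := (lie_ins hf).1
    have eg := (lie_ins hg).1
    unfold ev2 at *
    rw [map_sub, map_sub, map_mul, map_mul, map_mul, map_mul, h1, h2, h3, h4, coeff_sub,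
      coeff_sub, coeff_mul, coeff_mul, coeff_mul, coeff_mul]
    simp only [conv, ef, eg, smul_mul_smul_comm]
    constructor
    · rw [mul_comm (coeff f [false])]; simp
    · rw [mul_comm (coeff f [true])]; simp

private theorem forg_ev2_right {A : Type*} [Ring A] [Algebra ℚ A] (x : A) {φ : QX}
    (h : Good φ) : ev2 φ x 0 = 0 := by
  rw [(forg_ev2_lie x 0 h.1).1, h.2.1, zero_smul]

private theorem forg_ev2_left {A : Type*} [Ring A] [Algebra ℚ A] (y : A) {φ : QX}
    (h : Good φ) : ev2 φ 0 y = 0 := by
  rw [(forg_ev2_lie 0 y h.1).2, h.2.2, zero_smul]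

private theorem forg_pent_zero {A : Type*} [Ring A] [Algebra ℚ A] {φ : QX} (h : Good φ)
    (s : Fin 4 → Fin 4 → A) (k : Fin 4) (h1 : ∀ j, s k j = 0) (h2 : ∀ j, s j k = 0) :
    pent φ s = 0 := by
  unfold pent
  fin_cases k
  · have a1 := h1 1
    have a2 := h1 2
    simp only [Fin.zero_eta, Fin.isValue] at a1 a2
    rw [a1, a2]
    simp only [zero_add, forg_ev2_left _ h]
    simp
  · have a1 := h2 0
    have a2 := h1 2
    have a3 := h1 3
    simp only [Fin.mk_one, Fin.isValue] at a1 a2 a3
    rw [a1, a2, a3]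
    simp only [zero_add, add_zero, forg_ev2_left _ h]
    simp
  · have a1 := h2 0
    have a2 := h2 1
    have a3 := h1 3
    simp only [Fin.reduceFinMk, Fin.isValue] at a1 a2 a3
    rw [a1, a2, a3]
    simp only [zero_add, add_zero, forg_ev2_left _ h, forg_ev2_right _ h]
    simp
  · have a1 := h2 1
    have a2 := h2 2
    simp only [Fin.reduceFinMk, Fin.isValue] at a1 a2
    rw [a1, a2]
    simp only [add_zero, forg_ev2_right _ h]
    simp

/-- the tuple with the strand `some i` forgotten -/
private def forg_t (i : Fin 3) (p q : Option (Fin 3)) : Module.End ℚ T3 :=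
  if p = some i ∨ q = some i then 0 else tau p q

private theorem forg_braid (h2 : S_tau) (i : Fin 3) : Braid (forg_t i) := by
  have hb := h2 (Fin 3)
  refine ⟨?_, ?_, ?_⟩
  · intro p q
    unfold forg_t
    by_cases h : p = some i ∨ q = some i
    · rw [if_pos h, if_pos (Or.symm h)]
    · rw [if_neg h, if_neg (fun e => h (Or.symm e)), hb.symm]
  · intro p q r s a1 a2 a3 a4 a5 a6
    unfold forg_t
    split_ifs <;> first | exact hb.four p q r s a1 a2 a3 a4 a5 a6 | simp
  · intro p q r a1 a2 a3
    unfold forg_t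
    by_cases hp : p = some i
    · subst hp
      have hq : q ≠ some i := fun e => a1 e.symm
      simp
    · by_cases hq : q = some i
      · subst hq
        simp
      · by_cases hr : r = some i
        · subst hr
          simp
        · simp only [hp, hq, hr, or_self, if_false]
          exact hb.three p q r a1 a2 a3

private theorem forg_lift_word (i : Fin 3) (v : List (Fin 3)) :
    FreeAlgebra.lift ℚ (fun j => forg_t i (some j) none) (word v) 1 =
      if i ∈ v then 0 else word v := by
  induction v with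
  | nil => simp
  | cons j v ih =>
    rw [word_cons, map_mul, Module.End.mul_apply, ih, FreeAlgebra.lift_ι_apply]
    by_cases hj : i = j
    · subst hj
      simp [forg_t]
    · have hj' : ¬ j = i := fun e => hj e.symm
      have e1 : forg_t i (some j) none = LinearMap.mulLeft ℚ (FreeAlgebra.ι ℚ j) := by
        simp [forg_t, hj', tau]
      rw [e1, LinearMap.mulLeft_apply]
      by_cases hv : i ∈ v
      · rw [if_pos hv, if_pos (List.mem_cons_of_mem _ hv), mul_zero]
      · rw [if_neg hv, if_neg (by simp [hj, hv])]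

theorem p_forg (h1 : S_univ.{0}) (h2 : S_tau) : S_forg := by
  intro φ hφ w hw i u hu
  have hbij : Function.Bijective w := by
    rw [Fintype.bijective_iff_injective_and_card]
    exact ⟨hw, by simp⟩
  obtain ⟨k, hk⟩ := hbij.2 (some i)
  have e1 := h1 φ hφ w hw (Module.End ℚ T3) (forg_t i) (forg_braid h2 i)
  have e2 : pent φ (fun a b => forg_t i (w a) (w b)) = 0 := by
    apply forg_pent_zero hφ _ k
    · intro j; simp [forg_t, hk]
    · intro j; simp [forg_t, hk]
  rw [e2] at e1
  let F : T3 →ₗ[ℚ] ℚ := (coeffL u).comp ((LinearMap.applyₗ (1 : T3)).comp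
    (FreeAlgebra.lift ℚ (fun j => forg_t i (some j) none)).toLinearMap)
  have hF : F = coeffL u := by
    apply linear_ext
    intro v
    change coeffL u (FreeAlgebra.lift ℚ (fun j => forg_t i (some j) none) (word v) 1) =
      coeffL u (word v)
    rw [forg_lift_word]
    by_cases hv : i ∈ v
    · rw [if_pos hv, map_zero, coeffL_apply, coeff_word, if_neg]
      intro e
      exact hu (e ▸ hv)
    · rw [if_neg hv]
  have e3 : F (Rw φ w) = coeff (Rw φ w) u := by
    rw [hF, coeffL_apply]
  rw [← e3]
  change coeffL u (FreeAlgebra.lift ℚ (fun j => forg_t i (some j) none) (Rw φ w) 1) = 0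
  rw [← e1]
  simp

end

end Pent
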