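import Pool.Agent.Lib.MP_a57f33_nt.PN.Stm1

/-!
# Pentagon project (MP_a57f33_nt), piece lieR: the `R_w` are Lie elements without terms of
degree one
-/

set_option autoImplicit false

namespace Pent

open Pool.Agent.MP_a57f33_nt

attribute [local instance 100] LieRing.ofAssociativeRing

private theorem lieR_mem {I : Type} {f : FreeAlgebra ℚ I} :
    f ∈ LieT I ↔
      f ∈ LieSubalgebra.lieSpan ℚ (FreeAlgebra ℚ I) (Set.range (FreeAlgebra.ι ℚ)) := Iff.rfl

private theorem lieR_iota {I : Type} (i : I) : FreeAlgebra.ι ℚ i ∈ LieT I :=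
  lieR_mem.2 (LieSubalgebra.subset_lieSpan ⟨i, rfl⟩)

private theorem lieR_zero {I : Type} : (0 : FreeAlgebra ℚ I) ∈ LieT I :=
  lieR_mem.2 (zero_mem _)

private theorem lieR_add {I : Type} {f g : FreeAlgebra ℚ I} (hf : f ∈ LieT I) (hg : g ∈ LieT I) :
    f + g ∈ LieT I := lieR_mem.2 (add_mem (lieR_mem.1 hf) (lieR_mem.1 hg))

private theorem lieR_sub {I : Type} {f g : FreeAlgebra ℚ I} (hf : f ∈ LieT I) (hg : g ∈ LieT I) :
    f - g ∈ LieT I := lieR_mem.2 (sub_mem (lieR_mem.1 hf) (lieR_mem.1 hg))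

private theorem lieR_smul {I : Type} {f : FreeAlgebra ℚ I} (r : ℚ) (hf : f ∈ LieT I) :
    r • f ∈ LieT I := lieR_mem.2 (SMulMemClass.smul_mem r (lieR_mem.1 hf))

private theorem lieR_lie {I : Type} {f g : FreeAlgebra ℚ I} (hf : f ∈ LieT I) (hg : g ∈ LieT I) :
    f * g - g * f ∈ LieT I :=
  lieR_mem.2 ((LieSubalgebra.lieSpan ℚ (FreeAlgebra ℚ I)
    (Set.range (FreeAlgebra.ι ℚ))).lie_mem (lieR_mem.1 hf) (lieR_mem.1 hg))

private theorem lieR_induction {I : Type} {P : FreeAlgebra ℚ I → Prop}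
    (hι : ∀ b, P (FreeAlgebra.ι ℚ b)) (h0 : P 0)
    (hadd : ∀ x y, P x → P y → P (x + y)) (hsmul : ∀ (r : ℚ) x, P x → P (r • x))
    (hlie : ∀ x y, x ∈ LieT I → y ∈ LieT I → P x → P y → P (x * y - y * x))
    {ψ : FreeAlgebra ℚ I} (h : ψ ∈ LieT I) : P ψ := by
  have h' := lieR_mem.1 h
  clear h
  induction h' using LieSubalgebra.lieSpan_induction with
  | mem x hx =>
    obtain ⟨b, rfl⟩ := hx
    exact hι b
  | zero => exact h0
  | add x y _ _ hx hy => exact hadd x y hx hy
  | smul r x _ hx => exact hsmul r x hx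
  | lie x y h1 h2 hx hy => exact hlie x y h1 h2 hx hy

private theorem lieR_der {I : Type} {u : I → FreeAlgebra ℚ I} (hu : ∀ i, u i ∈ LieT I)
    {f : FreeAlgebra ℚ I} (hf : f ∈ LieT I) : der u f ∈ LieT I := by
  refine lieR_induction (P := fun f => der u f ∈ LieT I) ?_ ?_ ?_ ?_ ?_ hf
  · intro b
    rw [der_iota]
    exact hu b
  · rw [map_zero]
    exact lieR_zero
  · intro x y hx hy
    rw [map_add]
    exact lieR_add hx hy
  · intro r x hx
    rw [map_smul]
    exact lieR_smul r hx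
  · intro x y hx hy h1 h2
    rw [map_sub, der_mul, der_mul]
    have e : der u x * y + x * der u y - (der u y * x + y * der u x) =
        (der u x * y - y * der u x) + (x * der u y - der u y * x) := by abel
    rw [e]
    exact lieR_add (lieR_lie h1 hy) (lieR_lie hx h2)

/-- operators `L_r + d` -/
private def lieR_O {I : Type} (X : Module.End ℚ (FreeAlgebra ℚ I)) : Prop :=
  ∃ r ∈ LieT I, ∃ u : I → FreeAlgebra ℚ I, (∀ i, u i ∈ LieT I) ∧
    X = LinearMap.mulLeft ℚ r + der u

private theorem lieR_der_zero {I : Type} : der (fun _ : I => (0 : FreeAlgebra ℚ I)) = 0 :=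
  (der_unique _ 0 (fun f g => by simp) (fun i => by simp)).symm

private theorem lieR_der_add {I : Type} (u v : I → FreeAlgebra ℚ I) :
    der (fun i => u i + v i) = der u + der v :=
  (der_unique _ (der u + der v) (fun f g => by
    simp only [LinearMap.add_apply, der_mul, add_mul, mul_add]
    abel) (fun i => by simp only [LinearMap.add_apply, der_iota])).symm

private theorem lieR_der_smul {I : Type} (r : ℚ) (u : I → FreeAlgebra ℚ I) :
    der (fun i => r • u i) = r • der u :=
  (der_unique _ (r • der u) (fun f g => by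
    simp only [LinearMap.smul_apply, der_mul, smul_add, smul_mul_assoc, mul_smul_comm])
    (fun i => by simp only [LinearMap.smul_apply, der_iota])).symm

private theorem lieR_der_lie {I : Type} (u v : I → FreeAlgebra ℚ I) :
    der (fun i => der u (v i) - der v (u i)) = der u * der v - der v * der u :=
  (der_unique _ (der u * der v - der v * der u) (fun f g => by
    simp only [LinearMap.sub_apply, Module.End.mul_apply, der_mul, map_add, sub_mul, mul_sub]
    abel) (fun i => by
      simp only [LinearMap.sub_apply, Module.End.mul_apply, der_iota])).symm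

private theorem lieR_O_zero {I : Type} : lieR_O (0 : Module.End ℚ (FreeAlgebra ℚ I)) :=
  ⟨0, lieR_zero, fun _ => 0, fun _ => lieR_zero, by
    rw [lieR_der_zero]
    ext f
    simp⟩

private theorem lieR_O_add {I : Type} {X Y : Module.End ℚ (FreeAlgebra ℚ I)} (hX : lieR_O X)
    (hY : lieR_O Y) : lieR_O (X + Y) := by
  obtain ⟨r, hr, u, hu, rfl⟩ := hX
  obtain ⟨s, hs, v, hv, rfl⟩ := hY
  refine ⟨r + s, lieR_add hr hs, fun i => u i + v i, fun i => lieR_add (hu i) (hv i), ?_⟩
  rw [lieR_der_add]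
  apply LinearMap.ext
  intro f
  simp only [LinearMap.add_apply, LinearMap.mulLeft_apply, add_mul]
  abel

private theorem lieR_O_smul {I : Type} {X : Module.End ℚ (FreeAlgebra ℚ I)} (c : ℚ)
    (hX : lieR_O X) : lieR_O (c • X) := by
  obtain ⟨r, hr, u, hu, rfl⟩ := hX
  refine ⟨c • r, lieR_smul c hr, fun i => c • u i, fun i => lieR_smul c (hu i), ?_⟩
  rw [lieR_der_smul]
  apply LinearMap.ext
  intro f
  simp only [LinearMap.smul_apply, LinearMap.add_apply, LinearMap.mulLeft_apply, smul_add,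
    smul_mul_assoc]

private theorem lieR_O_lie {I : Type} {X Y : Module.End ℚ (FreeAlgebra ℚ I)} (hX : lieR_O X)
    (hY : lieR_O Y) : lieR_O (X * Y - Y * X) := by
  obtain ⟨r, hr, u, hu, rfl⟩ := hX
  obtain ⟨s, hs, v, hv, rfl⟩ := hY
  refine ⟨(r * s - s * r) + (der u s - der v r),
    lieR_add (lieR_lie hr hs) (lieR_sub (lieR_der hu hs) (lieR_der hv hr)),
    fun i => der u (v i) - der v (u i),
    fun i => lieR_sub (lieR_der hu (hv i)) (lieR_der hv (hu i)), ?_⟩
  rw [lieR_der_lie]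
  apply LinearMap.ext
  intro f
  simp only [LinearMap.sub_apply, LinearMap.add_apply, Module.End.mul_apply,
    LinearMap.mulLeft_apply, der_mul, add_mul, sub_mul, mul_add, mul_assoc]
  abel

private theorem lieR_O_one {I : Type} {X : Module.End ℚ (FreeAlgebra ℚ I)} (hX : lieR_O X) :
    X 1 ∈ LieT I := by
  obtain ⟨r, hr, u, hu, rfl⟩ := hX
  rw [LinearMap.add_apply, LinearMap.mulLeft_apply, mul_one, der_one, add_zero]
  exact hr

private theorem lieR_O_tau {I : Type} [DecidableEq I] (p q : Option I) :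
    lieR_O (tau p q : Module.End ℚ (FreeAlgebra ℚ I)) := by
  have h1 : ∀ i : I, lieR_O (LinearMap.mulLeft ℚ (FreeAlgebra.ι ℚ i)) := fun i =>
    ⟨_, lieR_iota i, fun _ => 0, fun _ => lieR_zero, by rw [lieR_der_zero, add_zero]⟩
  rcases p with _ | i <;> rcases q with _ | j
  · exact lieR_O_zero
  · exact h1 j
  · exact h1 i
  · simp only [tau]
    split_ifs with hij
    · exact lieR_O_zero
    · refine ⟨0, lieR_zero, _, fun k => ?_, by
        rw [LinearMap.mulLeft_zero_eq_zero, zero_add]⟩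
      split_ifs
      · exact lieR_lie (lieR_iota i) (lieR_iota j)
      · exact lieR_lie (lieR_iota j) (lieR_iota i)
      · exact lieR_zero

/-- `X` raises the degree -/
private def lieR_D {I : Type} (X : Module.End ℚ (FreeAlgebra ℚ I)) (ρ : I → ℚ) : Prop :=
  ∀ f, coeff (X f) [] = 0 ∧ ∀ i, coeff (X f) [i] = ρ i * coeff f []

private theorem lieR_D_zero {I : Type} : lieR_D (0 : Module.End ℚ (FreeAlgebra ℚ I)) 0 := by
  intro f
  simp [coeff_zero]

private theorem lieR_D_add {I : Type} {X Y : Module.End ℚ (FreeAlgebra ℚ I)} {ρ σ : I → ℚ}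
    (hX : lieR_D X ρ) (hY : lieR_D Y σ) : lieR_D (X + Y) (ρ + σ) := by
  intro f
  refine ⟨?_, fun i => ?_⟩
  · rw [LinearMap.add_apply, coeff_add, (hX f).1, (hY f).1, add_zero]
  · rw [LinearMap.add_apply, coeff_add, (hX f).2, (hY f).2, Pi.add_apply, add_mul]

private theorem lieR_D_smul {I : Type} {X : Module.End ℚ (FreeAlgebra ℚ I)} {ρ : I → ℚ} (c : ℚ)
    (hX : lieR_D X ρ) : lieR_D (c • X) (c • ρ) := by
  intro f
  refine ⟨?_, fun i => ?_⟩
  · rw [LinearMap.smul_apply, coeff_smul, (hX f).1, mul_zero]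
  · rw [LinearMap.smul_apply, coeff_smul, (hX f).2, Pi.smul_apply, smul_eq_mul, mul_assoc]

private theorem lieR_D_lie {I : Type} {X Y : Module.End ℚ (FreeAlgebra ℚ I)} {ρ σ : I → ℚ}
    (hX : lieR_D X ρ) (hY : lieR_D Y σ) : lieR_D (X * Y - Y * X) 0 := by
  intro f
  refine ⟨?_, fun i => ?_⟩
  · rw [LinearMap.sub_apply, coeff_sub, Module.End.mul_apply, Module.End.mul_apply, (hX _).1,
      (hY _).1, sub_zero]
  · rw [LinearMap.sub_apply, coeff_sub, Module.End.mul_apply, Module.End.mul_apply, (hX _).2,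
      (hY _).2, (hX _).1, (hY _).1, Pi.zero_apply]
    ring

private theorem lieR_D_mulLeft {I : Type} [DecidableEq I] (i : I) :
    lieR_D (LinearMap.mulLeft ℚ (FreeAlgebra.ι ℚ i)) (fun j => if j = i then 1 else 0) := by
  intro f
  refine ⟨?_, fun j => ?_⟩
  · rw [LinearMap.mulLeft_apply, coeff_iota_mul_nil]
  · rw [LinearMap.mulLeft_apply, coeff_iota_mul_cons]
    show _ = (if j = i then (1 : ℚ) else 0) * coeff f []
    split_ifs <;> simp

/-- derivations with values of degree at least two -/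
private theorem lieR_D_der {I : Type} [DecidableEq I] (u : I → FreeAlgebra ℚ I)
    (h0 : ∀ i, coeff (u i) [] = 0) (h1 : ∀ i j, coeff (u i) [j] = 0) : lieR_D (der u) 0 := by
  have key : ∀ v : List I, coeff (der u (word v)) [] = 0 ∧
      ∀ j, coeff (der u (word v)) [j] = 0 := by
    intro v
    induction v with
    | nil =>
      rw [word_nil, der_one]
      exact ⟨coeff_zero _, fun j => coeff_zero _⟩
    | cons a v ih =>
      rw [word_cons, der_mul, der_iota]
      refine ⟨?_, fun j => ?_⟩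
      · rw [coeff_add, coeff_mul, coeff_iota_mul_nil]
        simp [conv, h0]
      · rw [coeff_add, coeff_mul, coeff_iota_mul_cons, ih.1]
        simp [conv, h0, h1]
  intro f
  refine ⟨?_, fun j => ?_⟩
  · have e : (coeffL ([] : List I)).comp (der u) = 0 := by
      apply linear_ext
      intro w
      simp only [LinearMap.comp_apply, coeffL_apply, LinearMap.zero_apply]
      exact (key w).1
    exact LinearMap.congr_fun e f
  · have e : (coeffL [j]).comp (der u) = 0 := by
      apply linear_ext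
      intro w
      simp only [LinearMap.comp_apply, coeffL_apply, LinearMap.zero_apply]
      exact (key w).2 j
    rw [Pi.zero_apply, zero_mul]
    exact LinearMap.congr_fun e f

private theorem lieR_comm0 {I : Type} [DecidableEq I] (i j : I) :
    coeff (FreeAlgebra.ι ℚ i * FreeAlgebra.ι ℚ j - FreeAlgebra.ι ℚ j * FreeAlgebra.ι ℚ i) [] = 0 :=
  by rw [coeff_sub, coeff_iota_mul_nil, coeff_iota_mul_nil, sub_zero]

private theorem lieR_comm1 {I : Type} [DecidableEq I] (i j k : I) :
    coeff (FreeAlgebra.ι ℚ i * FreeAlgebra.ι ℚ j - FreeAlgebra.ι ℚ j * FreeAlgebra.ι ℚ i) [k] = 0 :=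
  by
  rw [coeff_sub, coeff_iota_mul_cons, coeff_iota_mul_cons, coeff_iota, coeff_iota]
  simp

private theorem lieR_D_tau {I : Type} [DecidableEq I] (p q : Option I) :
    ∃ ρ, lieR_D (tau p q : Module.End ℚ (FreeAlgebra ℚ I)) ρ := by
  rcases p with _ | i <;> rcases q with _ | j
  · exact ⟨0, lieR_D_zero⟩
  · exact ⟨_, lieR_D_mulLeft j⟩
  · exact ⟨_, lieR_D_mulLeft i⟩
  · simp only [tau]
    split_ifs with hij
    · exact ⟨0, lieR_D_zero⟩
    · refine ⟨0, lieR_D_der _ (fun k => ?_) (fun k l => ?_)⟩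
      · split_ifs
        · exact lieR_comm0 i j
        · exact lieR_comm0 j i
        · exact coeff_zero _
      · split_ifs
        · exact lieR_comm1 i j l
        · exact lieR_comm1 j i l
        · exact coeff_zero _

/-- both properties -/
private def lieR_OD {I : Type} (X : Module.End ℚ (FreeAlgebra ℚ I)) : Prop :=
  lieR_O X ∧ ∃ ρ, lieR_D X ρ

private theorem lieR_OD_add {I : Type} {X Y : Module.End ℚ (FreeAlgebra ℚ I)} (hX : lieR_OD X)
    (hY : lieR_OD Y) : lieR_OD (X + Y) := by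
  obtain ⟨h1, ρ, h2⟩ := hX
  obtain ⟨h3, σ, h4⟩ := hY
  exact ⟨lieR_O_add h1 h3, ρ + σ, lieR_D_add h2 h4⟩

private theorem lieR_OD_tau {I : Type} [DecidableEq I] (p q : Option I) :
    lieR_OD (tau p q : Module.End ℚ (FreeAlgebra ℚ I)) :=
  ⟨lieR_O_tau p q, lieR_D_tau p q⟩

private theorem lieR_coeff_lie (x y : QX) (b : Bool) : coeff (x * y - y * x) [b] = 0 := by
  rw [coeff_sub, coeff_mul, coeff_mul]
  simp only [conv]
  ring

private theorem lieR_ev2 {I : Type} {X Y : Module.End ℚ (FreeAlgebra ℚ I)} (hX : lieR_OD X)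
    (hY : lieR_OD Y) {φ : QX} (hφ : Good φ) :
    ev2 φ X Y 1 ∈ LieT I ∧ ∀ i, coeff (ev2 φ X Y 1) [i] = 0 := by
  obtain ⟨h1, ρ, h2⟩ := hX
  obtain ⟨h3, σ, h4⟩ := hY
  have key : lieR_O (ev2 φ X Y) ∧
      lieR_D (ev2 φ X Y) (coeff φ [false] • ρ + coeff φ [true] • σ) := by
    refine lie_induction (P := fun φ => lieR_O (ev2 φ X Y) ∧
      lieR_D (ev2 φ X Y) (coeff φ [false] • ρ + coeff φ [true] • σ)) ?_ ?_ ?_ ?_ ?_ hφ.1
    · intro b
      unfold ev2
      rw [FreeAlgebra.lift_ι_apply, coeff_iota, coeff_iota]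
      cases b
      · simpa using And.intro h1 h2
      · simpa using And.intro h3 h4
    · unfold ev2
      rw [map_zero, coeff_zero, coeff_zero]
      refine ⟨lieR_O_zero, ?_⟩
      simpa using lieR_D_zero
    · rintro x y ⟨hx1, hx2⟩ ⟨hy1, hy2⟩
      have e : ev2 (x + y) X Y = ev2 x X Y + ev2 y X Y := map_add _ _ _
      rw [e, coeff_add, coeff_add]
      refine ⟨lieR_O_add hx1 hy1, ?_⟩
      have h5 := lieR_D_add hx2 hy2
      have e2 : coeff x [false] • ρ + coeff x [true] • σ +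
          (coeff y [false] • ρ + coeff y [true] • σ) =
          (coeff x [false] + coeff y [false]) • ρ + (coeff x [true] + coeff y [true]) • σ := by
        rw [add_smul, add_smul]
        abel
      rw [e2] at h5
      exact h5
    · rintro r x ⟨hx1, hx2⟩
      have e : ev2 (r • x) X Y = r • ev2 x X Y := map_smul _ _ _
      rw [e, coeff_smul, coeff_smul]
      refine ⟨lieR_O_smul r hx1, ?_⟩
      have h5 := lieR_D_smul r hx2
      rw [smul_add, smul_smul, smul_smul] at h5
      exact h5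
    · rintro x y - - ⟨hx1, hx2⟩ ⟨hy1, hy2⟩
      have e : ev2 (x * y - y * x) X Y = ev2 x X Y * ev2 y X Y - ev2 y X Y * ev2 x X Y := by
        unfold ev2
        rw [map_sub, map_mul, map_mul]
      rw [e, lieR_coeff_lie, lieR_coeff_lie]
      refine ⟨lieR_O_lie hx1 hy1, ?_⟩
      have h5 := lieR_D_lie hx2 hy2
      simpa using h5
  refine ⟨lieR_O_one key.1, fun i => ?_⟩
  rw [(key.2 1).2 i, hφ.2.1, hφ.2.2]
  simp

theorem p_lieR : S_lieR := by
  intro φ hφ w
  have ht : ∀ i j, lieR_OD (tau (w i) (w j) : Module.End ℚ T3) := fun i j => lieR_OD_tau _ _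
  have h1 := lieR_ev2 (ht 1 2) (ht 2 3) hφ
  have h2 := lieR_ev2 (lieR_OD_add (ht 0 2) (ht 1 2)) (ht 2 3) hφ
  have h3 := lieR_ev2 (lieR_OD_add (ht 0 1) (ht 0 2)) (lieR_OD_add (ht 1 3) (ht 2 3)) hφ
  have h4 := lieR_ev2 (ht 0 1) (lieR_OD_add (ht 1 2) (ht 1 3)) hφ
  have h5 := lieR_ev2 (ht 0 1) (ht 1 2) hφ
  unfold Rw pent
  simp only [LinearMap.add_apply, LinearMap.sub_apply]
  refine ⟨lieR_add (lieR_sub (lieR_add (lieR_sub h1.1 h2.1) h3.1) h4.1) h5.1, fun i => ?_⟩
  rw [coeff_add, coeff_sub, coeff_add, coeff_sub, h1.2, h2.2, h3.2, h4.2, h5.2]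
  ring

end Pent
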