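import Pool.Agent.Lib.MP_a57f33_nt.PN.Stm1

/-!
# Pentagon project (MP_a57f33_nt), Half I: the fibre module
-/

set_option linter.unusedSimpArgs false

namespace Pent

open Pool.Agent.MP_a57f33_nt

section

variable {I : Type} [DecidableEq I]

theorem tau_comm (A B : Module.End ℚ (FreeAlgebra ℚ I))
    (hA : ∀ f g, A (f * g) = A f * g + f * A g) (hB : ∀ f g, B (f * g) = B f * g + f * B g)
    (h : ∀ i, A (B (FreeAlgebra.ι ℚ i)) = B (A (FreeAlgebra.ι ℚ i))) : A * B = B * A := by
  have h1 : ∀ C : Module.End ℚ (FreeAlgebra ℚ I), (∀ f g, C (f * g) = C f * g + f * C g) →
      C 1 = 0 := by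
    intro C hC
    have := hC 1 1
    simp only [mul_one, one_mul] at this
    simpa using this
  ext f
  change A (B f) = B (A f)
  induction f using FreeAlgebra.induction with
  | grade0 r =>
    rw [Algebra.algebraMap_eq_smul_one, map_smul B, map_smul A, map_smul A, map_smul B,
      h1 B hB, h1 A hA, map_zero, map_zero]
  | grade1 i => exact h i
  | mul a b ha hb =>
    rw [hB, hA, map_add, map_add, hA, hA, hB, hB, ha, hb]
    abel
  | add a b ha hb => rw [map_add, map_add, map_add, map_add, ha, hb]

theorem tau_leib (i j : I) (f g : FreeAlgebra ℚ I) :
    tau (some i) (some j) (f * g) =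
      tau (some i) (some j) f * g + f * tau (some i) (some j) g := by
  by_cases h : i = j
  · simp [tau, h]
  · simp only [tau, if_neg h]
    exact der_mul _ f g

theorem tau_val (i j k : I) (h : i ≠ j) : tau (some i) (some j) (FreeAlgebra.ι ℚ k) =
    if k = i then FreeAlgebra.ι ℚ i * FreeAlgebra.ι ℚ j - FreeAlgebra.ι ℚ j * FreeAlgebra.ι ℚ i
        else if k = j then
          FreeAlgebra.ι ℚ j * FreeAlgebra.ι ℚ i - FreeAlgebra.ι ℚ i * FreeAlgebra.ι ℚ j
        else 0 := by
  simp only [tau, if_neg h]
  exact der_iota _ k

theorem tau_symm (p q : Option I) : (tau p q : Module.End ℚ (FreeAlgebra ℚ I)) = tau q p := by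
  cases p with
  | none => cases q <;> rfl
  | some i =>
    cases q with
    | none => rfl
    | some j =>
      by_cases h : i = j
      · subst h; rfl
      · have h' : ¬ j = i := fun e => h e.symm
        simp only [tau, if_neg h, if_neg h']
        congr 1
        funext k
        by_cases h1 : k = i
        · subst h1
          rw [if_pos rfl, if_neg h, if_pos rfl]
        · rw [if_neg h1]
          by_cases h2 : k = j
          · rw [if_pos h2, if_pos h2]
          · rw [if_neg h2, if_neg h2, if_neg h1]

theorem tau_L (i j k : I) (g : FreeAlgebra ℚ I) :
    (tau (some i) (some j) * tau (some k) none) g =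
      tau (some i) (some j) (FreeAlgebra.ι ℚ k) * g +
        (tau (some k) none * tau (some i) (some j)) g := by
  change tau (some i) (some j) (FreeAlgebra.ι ℚ k * g) = _ + FreeAlgebra.ι ℚ k * _
  rw [tau_leib]

theorem tau_four_some (i j k l : I) (hik : i ≠ k) (hil : i ≠ l) (hjk : j ≠ k)
    (hjl : j ≠ l) (hij : i ≠ j) (hkl : k ≠ l) :
    (tau (some i) (some j) * tau (some k) (some l) : Module.End ℚ (FreeAlgebra ℚ I)) =
      tau (some k) (some l) * tau (some i) (some j) := by
  apply tau_comm _ _ (tau_leib i j) (tau_leib k l)
  intro m
  rw [tau_val k l m hkl, tau_val i j m hij]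
  have e1 : tau (some i) (some j) (FreeAlgebra.ι ℚ k) = 0 := by
    rw [tau_val i j k hij, if_neg hik.symm, if_neg hjk.symm]
  have e2 : tau (some i) (some j) (FreeAlgebra.ι ℚ l) = 0 := by
    rw [tau_val i j l hij, if_neg hil.symm, if_neg hjl.symm]
  have e3 : tau (some k) (some l) (FreeAlgebra.ι ℚ i) = 0 := by
    rw [tau_val k l i hkl, if_neg hik, if_neg hil]
  have e4 : tau (some k) (some l) (FreeAlgebra.ι ℚ j) = 0 := by
    rw [tau_val k l j hkl, if_neg hjk, if_neg hjl]
  split_ifs <;> simp [tau_leib, e1, e2, e3, e4]

theorem tau_four_none (i j k : I) (hik : i ≠ k) (hjk : j ≠ k) (hij : i ≠ j) :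
    (tau (some i) (some j) * tau (some k) none : Module.End ℚ (FreeAlgebra ℚ I)) =
      tau (some k) none * tau (some i) (some j) := by
  ext g
  have e1 : tau (some i) (some j) (FreeAlgebra.ι ℚ k) = 0 := by
    rw [tau_val i j k hij, if_neg hik.symm, if_neg hjk.symm]
  rw [tau_L, e1, zero_mul, zero_add]

theorem tau_three_some (i j k : I) (hij : i ≠ j) (hik : i ≠ k) (hjk : j ≠ k) :
    (tau (some i) (some j) * (tau (some i) (some k) + tau (some j) (some k)) :
      Module.End ℚ (FreeAlgebra ℚ I)) =
      (tau (some i) (some k) + tau (some j) (some k)) * tau (some i) (some j) := by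
  apply tau_comm _ _ (tau_leib i j)
  · intro f g
    simp only [LinearMap.add_apply, tau_leib]
    noncomm_ring
  · intro m
    have v1 := tau_val i j i hij
    have v2 := tau_val i j j hij
    have v3 := tau_val i j k hij
    have v4 := tau_val i k i hik
    have v5 := tau_val i k j hik
    have v6 := tau_val i k k hik
    have v7 := tau_val j k i hjk
    have v8 := tau_val j k j hjk
    have v9 := tau_val j k k hjk
    simp only [if_true, if_neg hij, if_neg hij.symm, if_neg hik, if_neg hik.symm, if_neg hjk,
      if_neg hjk.symm] at v1 v2 v3 v4 v5 v6 v7 v8 v9
    by_cases h1 : m = i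
    · subst h1
      simp only [LinearMap.add_apply, v1, v2, v3, v4, v5, v6, v7, v8, v9, map_sub, map_add,
        map_zero, tau_leib, add_zero, zero_add]
      noncomm_ring
    · by_cases h2 : m = j
      · subst h2
        simp only [LinearMap.add_apply, v1, v2, v3, v4, v5, v6, v7, v8, v9, map_sub, map_add,
          map_zero, tau_leib, add_zero, zero_add]
        noncomm_ring
      · by_cases h3 : m = k
        · subst h3
          simp only [LinearMap.add_apply, v1, v2, v3, v4, v5, v6, v7, v8, v9, map_sub, map_add,
            map_zero, tau_leib, add_zero, zero_add]
          noncomm_ring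
        · have u1 := tau_val i j m hij
          have u2 := tau_val i k m hik
          have u3 := tau_val j k m hjk
          simp only [if_neg h1, if_neg h2, if_neg h3] at u1 u2 u3
          simp only [LinearMap.add_apply, u1, u2, u3, map_zero, add_zero]

theorem tau_three_none (i j : I) (hij : i ≠ j) :
    (tau (some i) (some j) * (tau (some i) none + tau (some j) none) :
      Module.End ℚ (FreeAlgebra ℚ I)) =
      (tau (some i) none + tau (some j) none) * tau (some i) (some j) := by
  have v1 := tau_val i j i hij
  have v2 := tau_val i j j hij
  simp only [if_true, if_neg hij.symm] at v1 v2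
  ext g
  rw [mul_add, add_mul, LinearMap.add_apply, LinearMap.add_apply, tau_L, tau_L, v1, v2]
  noncomm_ring

theorem tau_three_none' (j k : I) (hjk : j ≠ k) :
    (tau none (some j) * (tau none (some k) + tau (some j) (some k)) :
      Module.End ℚ (FreeAlgebra ℚ I)) =
      (tau none (some k) + tau (some j) (some k)) * tau none (some j) := by
  have v2 := tau_val j k j hjk
  simp only [if_true] at v2
  ext g
  rw [mul_add, add_mul, LinearMap.add_apply, LinearMap.add_apply, tau_symm none (some j),
    tau_symm none (some k), tau_L, v2]
  have e1 : (tau (some j) none * tau (some k) none : Module.End ℚ (FreeAlgebra ℚ I)) g =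
      FreeAlgebra.ι ℚ j * (FreeAlgebra.ι ℚ k * g) := rfl
  have e2 : (tau (some k) none * tau (some j) none : Module.End ℚ (FreeAlgebra ℚ I)) g =
      FreeAlgebra.ι ℚ k * (FreeAlgebra.ι ℚ j * g) := rfl
  rw [e1, e2]
  noncomm_ring

end

theorem p_tau : S_tau := by
  intro I _
  refine ⟨tau_symm, ?_, ?_⟩
  · intro i j k l hij hik hil hjk hjl hkl
    cases i with
    | none =>
      cases j with
      | none => exact absurd rfl hij
      | some j =>
        cases k with
        | none => exact absurd rfl hik
        | some k =>
          cases l with
          | none => exact absurd rfl hil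
          | some l =>
            have := tau_four_none k l j (by simpa using hjk.symm) (by simpa using hjl.symm)
              (by simpa using hkl)
            rw [tau_symm none (some j), this]
    | some i =>
      cases j with
      | none =>
        cases k with
        | none => exact absurd rfl hjk
        | some k =>
          cases l with
          | none => exact absurd rfl hjl
          | some l =>
            have := tau_four_none k l i (by simpa using hik.symm) (by simpa using hil.symm)
              (by simpa using hkl)
            rw [this]
      | some j =>
        cases k with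
        | none =>
          cases l with
          | none => exact absurd rfl hkl
          | some l =>
            have := tau_four_none i j l (by simpa using hil) (by simpa using hjl)
              (by simpa using hij)
            rw [tau_symm none (some l), this]
        | some k =>
          cases l with
          | none =>
            exact tau_four_none i j k (by simpa using hik) (by simpa using hjk)
              (by simpa using hij)
          | some l =>
            exact tau_four_some i j k l (by simpa using hik) (by simpa using hil)
              (by simpa using hjk) (by simpa using hjl) (by simpa using hij)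
              (by simpa using hkl)
  · intro i j k hij hik hjk
    cases i with
    | none =>
      cases j with
      | none => exact absurd rfl hij
      | some j =>
        cases k with
        | none => exact absurd rfl hik
        | some k => exact tau_three_none' j k (by simpa using hjk)
    | some i =>
      cases j with
      | none =>
        cases k with
        | none => exact absurd rfl hjk
        | some k =>
          have := tau_three_none' i k (by simpa using hik)
          rw [tau_symm (some i) none, add_comm, this]
      | some j =>
        cases k with
        | none => exact tau_three_none i j (by simpa using hij)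
        | some k =>
          exact tau_three_some i j k (by simpa using hij) (by simpa using hik)
            (by simpa using hjk)

end Pent
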