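import Pool.Agent.Lib.MP_a57f33_nt.PN.Stm1

/-!
# Pentagon project (MP_a57f33_nt), piece univ: the universal lemma
-/

namespace Pent

open Pool.Agent.MP_a57f33_nt

universe v

noncomputable section

section rel

variable {A : Type v} [Ring A] [Algebra ℚ A]

private theorem univ_add (φ ψ : QX) (a b : A) : ev2 (φ + ψ) a b = ev2 φ a b + ev2 ψ a b :=
  map_add _ _ _

private theorem univ_zero (a b : A) : ev2 (0 : QX) a b = 0 := map_zero _

private theorem univ_smul (r : ℚ) (φ : QX) (a b : A) : ev2 (r • φ) a b = r • ev2 φ a b :=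
  map_smul _ _ _

private theorem univ_br (φ ψ : QX) (a b : A) : ev2 (φ * ψ - ψ * φ) a b =
    ev2 φ a b * ev2 ψ a b - ev2 ψ a b * ev2 φ a b := by
  unfold ev2
  rw [map_sub, map_mul, map_mul]

private theorem univ_iota (s : Bool) (a b : A) :
    ev2 (FreeAlgebra.ι ℚ s) a b = if s then b else a := by
  unfold ev2
  rw [FreeAlgebra.lift_ι_apply]

/-- `x θ(g) = θ(X g) + θ(g) h` -/
private def univ_Rel (θ : T3 →ₐ[ℚ] A) (x : A) (X : Module.End ℚ T3) (h : A) : Prop :=
  ∀ g : T3, x * θ g = θ (X g) + θ g * h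

private theorem univ_Rel_add {θ : T3 →ₐ[ℚ] A} {x y : A} {X Y : Module.End ℚ T3} {h k : A}
    (hx : univ_Rel θ x X h) (hy : univ_Rel θ y Y k) : univ_Rel θ (x + y) (X + Y) (h + k) := by
  intro g
  rw [add_mul, hx g, hy g, LinearMap.add_apply, map_add, mul_add]
  abel

private theorem univ_Rel_sub {θ : T3 →ₐ[ℚ] A} {x y : A} {X Y : Module.End ℚ T3} {h k : A}
    (hx : univ_Rel θ x X h) (hy : univ_Rel θ y Y k) : univ_Rel θ (x - y) (X - Y) (h - k) := by
  intro g
  rw [sub_mul, hx g, hy g, LinearMap.sub_apply, map_sub, mul_sub]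
  abel

private theorem univ_Rel_smul {θ : T3 →ₐ[ℚ] A} {x : A} {X : Module.End ℚ T3} {h : A} (r : ℚ)
    (hx : univ_Rel θ x X h) : univ_Rel θ (r • x) (r • X) (r • h) := by
  intro g
  rw [smul_mul_assoc, hx g, LinearMap.smul_apply, map_smul, mul_smul_comm, smul_add]

private theorem univ_Rel_br {θ : T3 →ₐ[ℚ] A} {x y : A} {X Y : Module.End ℚ T3} {h k : A}
    (hx : univ_Rel θ x X h) (hy : univ_Rel θ y Y k) :
    univ_Rel θ (x * y - y * x) (X * Y - Y * X) (h * k - k * h) := by
  intro g
  have h1 : x * y * θ g = θ (X (Y g)) + θ (Y g) * h + (θ (X g) + θ g * h) * k := by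
    rw [mul_assoc, hy g, mul_add, hx (Y g), ← mul_assoc, hx g]
  have h2 : y * x * θ g = θ (Y (X g)) + θ (X g) * k + (θ (Y g) + θ g * k) * h := by
    rw [mul_assoc, hx g, mul_add, hy (X g), ← mul_assoc, hy g]
  rw [sub_mul, h1, h2, LinearMap.sub_apply, map_sub, Module.End.mul_apply, Module.End.mul_apply]
  noncomm_ring

private theorem univ_Rel_ev2 {θ : T3 →ₐ[ℚ] A} {x y : A} {X Y : Module.End ℚ T3} {h k : A}
    (hx : univ_Rel θ x X h) (hy : univ_Rel θ y Y k) {φ : QX} (hφ : φ ∈ LieX) :
    univ_Rel θ (ev2 φ x y) (ev2 φ X Y) (ev2 φ h k) := by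
  refine lie_induction (P := fun φ => univ_Rel θ (ev2 φ x y) (ev2 φ X Y) (ev2 φ h k))
    ?_ ?_ ?_ ?_ ?_ hφ
  · intro s
    rw [univ_iota, univ_iota, univ_iota]
    cases s
    · exact hx
    · exact hy
  · rw [univ_zero, univ_zero, univ_zero]
    intro g
    rw [zero_mul, LinearMap.zero_apply, map_zero, mul_zero, add_zero]
  · intro φ ψ h1 h2
    rw [univ_add, univ_add, univ_add]
    exact univ_Rel_add h1 h2
  · intro r φ h1
    rw [univ_smul, univ_smul, univ_smul]
    exact univ_Rel_smul r h1
  · intro φ ψ _ _ h1 h2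
    rw [univ_br, univ_br, univ_br]
    exact univ_Rel_br h1 h2

/-- one argument zero -/
private theorem univ_ev2_zero {φ : QX} (hφ : φ ∈ LieX) (x : A) :
    ev2 φ x 0 = coeff φ [false] • x ∧ ev2 φ 0 x = coeff φ [true] • x := by
  refine lie_induction (P := fun φ => ev2 φ x 0 = coeff φ [false] • x ∧
    ev2 φ 0 x = coeff φ [true] • x) ?_ ?_ ?_ ?_ ?_ hφ
  · intro s
    rw [univ_iota, univ_iota, coeff_iota, coeff_iota]
    cases s <;> simp
  · rw [univ_zero, univ_zero, coeff_zero, coeff_zero, zero_smul]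
    exact ⟨rfl, rfl⟩
  · intro φ ψ h1 h2
    rw [univ_add, univ_add, coeff_add, coeff_add, h1.1, h1.2, h2.1, h2.2, add_smul, add_smul]
    exact ⟨rfl, rfl⟩
  · intro r φ h1
    rw [univ_smul, univ_smul, coeff_smul, coeff_smul, h1.1, h1.2, smul_smul, smul_smul]
    exact ⟨rfl, rfl⟩
  · intro φ ψ _ _ h1 h2
    rw [univ_br, univ_br, h1.1, h1.2, h2.1, h2.2]
    have h3 : ∀ s : Bool, coeff (φ * ψ - ψ * φ) [s] = 0 := by
      intro s
      rw [coeff_sub, coeff_mul, coeff_mul]
      simp only [conv]
      ring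
    rw [h3, h3, zero_smul]
    refine ⟨?_, ?_⟩
    · rw [smul_mul_smul_comm, smul_mul_smul_comm, mul_comm (coeff ψ [false]), sub_self]
    · rw [smul_mul_smul_comm, smul_mul_smul_comm, mul_comm (coeff ψ [true]), sub_self]

private theorem univ_pent_zero {φ : QX} (hφ : Good φ) (t : Fin 4 → Fin 4 → A) (i : Fin 4)
    (h1 : ∀ j, t i j = 0) (h2 : ∀ j, t j i = 0) : pent φ t = 0 := by
  obtain ⟨hL, hf, ht⟩ := hφ
  have e1 : ∀ x : A, ev2 φ x 0 = 0 := fun x => by
    rw [(univ_ev2_zero hL x).1, hf, zero_smul]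
  have e2 : ∀ x : A, ev2 φ 0 x = 0 := fun x => by
    rw [(univ_ev2_zero hL x).2, ht, zero_smul]
  unfold pent
  fin_cases i
  · have a1 := h1 1
    have a2 := h1 2
    simp only [Fin.zero_eta] at a1 a2
    rw [a1, a2]
    simp only [zero_add, add_zero, e2, sub_self]
  · have a1 := h2 0
    have a2 := h1 2
    have a3 := h1 3
    simp only [Fin.mk_one] at a1 a2 a3
    rw [a1, a2, a3]
    simp only [zero_add, add_zero, e2, sub_zero]
    abel
  · have a1 := h2 0
    have a2 := h2 1
    have a3 := h1 3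
    simp only [Fin.reduceFinMk] at a1 a2 a3
    rw [a1, a2, a3]
    simp only [zero_add, add_zero, e1, sub_self]
  · have a1 := h2 1
    have a2 := h2 2
    simp only [Fin.reduceFinMk] at a1 a2
    rw [a1, a2]
    simp only [add_zero, e1, sub_self]
    abel

private theorem univ_Rel_tau {t : Option (Fin 3) → Option (Fin 3) → A} (ht : Braid t)
    (p q : Option (Fin 3)) (hpq : p ≠ q) :
    univ_Rel (FreeAlgebra.lift ℚ (fun i => t (some i) none)) (t p q) (tau p q)
      (if p = none ∨ q = none then 0 else t p q) := by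
  classical
  obtain ⟨θ, hθ⟩ : ∃ θ, θ = FreeAlgebra.lift ℚ (fun i => t (some i) none) := ⟨_, rfl⟩
  rw [← hθ]
  have hι : ∀ i, θ (FreeAlgebra.ι ℚ i) = t (some i) none := fun i => by
    rw [hθ, FreeAlgebra.lift_ι_apply]
  cases p with
  | none =>
    cases q with
    | none => exact absurd rfl hpq
    | some j =>
      rw [if_pos (Or.inl rfl)]
      intro g
      show t none (some j) * θ g = θ (FreeAlgebra.ι ℚ j * g) + θ g * 0
      rw [map_mul, hι, mul_zero, add_zero, ht.symm none]
  | some i =>
    cases q with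
    | none =>
      rw [if_pos (Or.inr rfl)]
      intro g
      show t (some i) none * θ g = θ (FreeAlgebra.ι ℚ i * g) + θ g * 0
      rw [map_mul, hι, mul_zero, add_zero]
    | some j =>
      have hij : i ≠ j := fun h => hpq (by rw [h])
      rw [if_neg (by simp)]
      obtain ⟨u, hu, htau⟩ : ∃ u : Fin 3 → T3, (∀ k, u k = if k = i then
          FreeAlgebra.ι ℚ i * FreeAlgebra.ι ℚ j - FreeAlgebra.ι ℚ j * FreeAlgebra.ι ℚ i
          else if k = j then
          FreeAlgebra.ι ℚ j * FreeAlgebra.ι ℚ i - FreeAlgebra.ι ℚ i * FreeAlgebra.ι ℚ j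
          else 0) ∧ tau (some i) (some j) = der u := by
        refine ⟨_, fun _ => rfl, ?_⟩
        simp only [tau]
        rw [if_neg hij]
      rw [htau]
      -- the three relations
      have t1 := ht.three (some i) (some j) none (by simpa using hij) (by simp) (by simp)
      have t2 := ht.three (some i) none (some j) (by simp) (by simpa using hij) (by simp)
      have t3 := ht.three (some j) none (some i) (by simp) (by simpa using hij.symm) (by simp)
      rw [ht.symm none (some j)] at t2
      rw [ht.symm none (some i), ht.symm (some j) (some i)] at t3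
      intro g
      induction g using FreeAlgebra.induction with
      | grade0 r =>
        rw [der_algebraMap, map_zero, zero_add, AlgHom.commutes]
        exact (Algebra.commutes r _).symm
      | grade1 k =>
        rw [der_iota, hu, hι]
        by_cases hki : k = i
        · rw [if_pos hki, map_sub, map_mul, map_mul, hι, hι, hki]
          rw [mul_add, add_mul] at t2
          rw [eq_sub_of_add_eq t2.symm]
          abel
        · rw [if_neg hki]
          by_cases hkj : k = j
          · rw [if_pos hkj, map_sub, map_mul, map_mul, hι, hι, hkj]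
            rw [mul_add, add_mul] at t3
            rw [eq_sub_of_add_eq t3.symm]
            abel
          · rw [if_neg hkj, map_zero, zero_add]
            exact ht.four (some i) (some j) (some k) none (by simpa using hij)
              (by simpa using fun h => hki h.symm) (by simp)
              (by simpa using fun h => hkj h.symm) (by simp) (by simp)
      | mul g h hg hh =>
        rw [der_mul, map_add, map_mul, map_mul, map_mul, ← mul_assoc, hg, add_mul, mul_assoc (θ g),
          hh, mul_add, ← mul_assoc]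
        noncomm_ring
      | add g h hg hh =>
        rw [map_add, map_add, map_add, mul_add, add_mul, hg, hh]
        abel

end rel

theorem p_univ : S_univ.{v} := by
  classical
  intro φ hφ w hw A _ _ t ht
  obtain ⟨θ, hθ⟩ : ∃ θ, θ = FreeAlgebra.lift ℚ (fun i => t (some i) none) := ⟨_, rfl⟩
  obtain ⟨t', ht'⟩ : ∃ t' : Fin 4 → Fin 4 → A, t' = fun i j =>
    if w i = none ∨ w j = none then 0 else t (w i) (w j) := ⟨_, rfl⟩
  have hbij : Function.Bijective w :=
    (Fintype.bijective_iff_injective_and_card w).2 ⟨hw, by simp⟩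
  obtain ⟨i, hi⟩ := hbij.2 none
  have h0 : pent φ t' = 0 := by
    apply univ_pent_zero hφ t' i
    · intro j
      rw [ht']
      exact if_pos (Or.inl hi)
    · intro j
      rw [ht']
      exact if_pos (Or.inr hi)
  have hrel : ∀ i j : Fin 4, i ≠ j → univ_Rel θ (t (w i) (w j)) (tau (w i) (w j)) (t' i j) := by
    intro i j hij
    rw [ht', hθ]
    exact univ_Rel_tau ht _ _ (hw.ne hij)
  have r12 := hrel 1 2 (by decide)
  have r23 := hrel 2 3 (by decide)
  have r02 := hrel 0 2 (by decide)
  have r01 := hrel 0 1 (by decide)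
  have r13 := hrel 1 3 (by decide)
  have hL := hφ.1
  have key : univ_Rel θ (pent φ (fun i j => t (w i) (w j)))
      (pent φ (fun i j => tau (w i) (w j))) (pent φ t') := by
    unfold pent
    exact univ_Rel_add (univ_Rel_sub (univ_Rel_add (univ_Rel_sub (univ_Rel_ev2 r12 r23 hL)
      (univ_Rel_ev2 (univ_Rel_add r02 r12) r23 hL))
      (univ_Rel_ev2 (univ_Rel_add r01 r02) (univ_Rel_add r13 r23) hL))
      (univ_Rel_ev2 r01 (univ_Rel_add r12 r13) hL)) (univ_Rel_ev2 r01 r12 hL)
  have h1 := key 1
  rw [h0, mul_zero, add_zero, map_one, mul_one] at h1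
  rw [h1, hθ]
  rfl

end

end Pent
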