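import Pool.Agent.Lib.MP_a57f33_nt.PN.Stm2

/-!
# Pentagon project (MP_a57f33_nt): piece `B`
-/

namespace Pent

/-! ### sums over modifications -/

/-- the list of the modifications of a list of slots -/
def B_mods (md : Sl → List (ℚ × Sl)) : List Sl → List (ℚ × List Sl)
  | [] => []
  | g :: gs => ((md g).map fun p => (p.1, p.2 :: gs))
      ++ ((B_mods md gs).map fun p => (p.1, g :: p.2))

theorem B_osum_eq (md : Sl → List (ℚ × Sl)) : ∀ (gs : List Sl) (F : ℚ → List Sl → ℚ),
    osum md F gs = ((B_mods md gs).map fun p => F p.1 p.2).sum := by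
  intro gs
  induction gs with
  | nil => intro F; simp [osum, B_mods]
  | cons g gs ih =>
    intro F
    rw [osum, ih, B_mods, List.map_append, List.sum_append, List.map_map, List.map_map]
    rfl

theorem B_osum_congr (md : Sl → List (ℚ × Sl)) (gs : List Sl) (F G : ℚ → List Sl → ℚ)
    (h : ∀ p ∈ B_mods md gs, F p.1 p.2 = G p.1 p.2) : osum md F gs = osum md G gs := by
  rw [B_osum_eq, B_osum_eq, List.map_congr_left h]

theorem B_osum_zero (md : Sl → List (ℚ × Sl)) (gs : List Sl) (F : ℚ → List Sl → ℚ)
    (h : ∀ p ∈ B_mods md gs, F p.1 p.2 = 0) : osum md F gs = 0 := by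
  rw [B_osum_eq]
  apply List.sum_eq_zero
  intro z hz
  rw [List.mem_map] at hz
  obtain ⟨p, hp, rfl⟩ := hz
  exact h p hp

theorem B_osum_add (md : Sl → List (ℚ × Sl)) (gs : List Sl) (F G : ℚ → List Sl → ℚ) :
    osum md (fun r t => F r t + G r t) gs = osum md F gs + osum md G gs := by
  rw [B_osum_eq, B_osum_eq, B_osum_eq, List.sum_map_add]

theorem B_osum_sum (md : Sl → List (ℚ × Sl)) (gs : List Sl) {ι : Type} (l : List ι)
    (F : ι → ℚ → List Sl → ℚ) :
    osum md (fun r t => (l.map fun i => F i r t).sum) gs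
      = (l.map fun i => osum md (F i) gs).sum := by
  induction l with
  | nil =>
    simp only [List.map_nil, List.sum_nil]
    exact B_osum_zero _ _ _ (fun _ _ => rfl)
  | cons i l ih =>
    simp only [List.map_cons, List.sum_cons]
    rw [B_osum_add, ih]

/-- two modifications of one slot commute -/
def B_comm (md1 md2 : Sl → List (ℚ × Sl)) : Prop :=
  ∀ (g : Sl) (H : ℚ → ℚ → Sl → ℚ),
    ((md1 g).map fun p => ((md2 p.2).map fun q => H p.1 q.1 q.2).sum).sum
      = ((md2 g).map fun q => ((md1 q.2).map fun p => H p.1 q.1 p.2).sum).sum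

theorem B_osum_comm (md1 md2 : Sl → List (ℚ × Sl)) (hc : B_comm md1 md2) :
    ∀ (gs : List Sl) (H : ℚ → ℚ → List Sl → ℚ),
      osum md1 (fun r t => osum md2 (fun r' t' => H r r' t') t) gs
        = osum md2 (fun r' t => osum md1 (fun r t' => H r r' t') t) gs := by
  intro gs
  induction gs with
  | nil => intro H; rfl
  | cons g gs ih =>
    intro H
    simp only [osum]
    rw [B_osum_add, B_osum_add, List.sum_map_add, List.sum_map_add]
    rw [ih (fun r r' t => H r r' (g :: t))]
    rw [B_osum_sum, B_osum_sum]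
    rw [hc g (fun r r' t => H r r' (t :: gs))]
    ring

theorem B_comm_dv_du : B_comm dv du := by
  rintro ⟨u, v⟩ H
  unfold dv du
  by_cases h1 : 2 ≤ v.length <;> by_cases h2 : 2 ≤ u.length <;> simp [h1, h2]

theorem B_headD_append {v : List ℚ} (h : 1 ≤ v.length) (w : List ℚ) :
    (v ++ w).headD 0 = v.headD 0 := by
  cases v with
  | nil => simp at h
  | cons a v => rfl

theorem B_tail_append {v : List ℚ} (h : 1 ≤ v.length) (w : List ℚ) :
    (v ++ w).tail = v.tail ++ w := by
  cases v with
  | nil => simp at h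
  | cons a v => rfl

theorem B_comm_dv_gam : B_comm dv gam := by
  rintro ⟨u, v⟩ H
  unfold dv gam
  by_cases h1 : 2 ≤ v.length
  · have e1 : v.dropLast.headD 0 = v.headD 0 := headD_dropLast v h1
    have e2 : v.tail.getLastD 0 = v.getLastD 0 := getLastD_tail v h1
    have e3 : v.tail.dropLast = v.dropLast.tail := tail_dropLast' v
    have hl : 1 ≤ v.dropLast.length := by simp; omega
    have e4 : (v.dropLast ++ [u.getLastD 0 + v.getLastD 0]).headD 0 = v.headD 0 := by
      rw [B_headD_append hl, e1]
    have e5 : (v.dropLast ++ [u.getLastD 0 + v.getLastD 0]).tail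
        = v.dropLast.tail ++ [u.getLastD 0 + v.getLastD 0] := B_tail_append hl _
    have e6 : 2 ≤ (v.dropLast ++ [u.getLastD 0 + v.getLastD 0]).length := by simp; omega
    have e7 : v.dropLast.length = v.tail.length := by simp
    by_cases h2 : 2 ≤ u.length <;> by_cases h3 : 2 ≤ v.tail.length <;>
      simp only [h1, h2, h3, e6, e7, if_true, if_false, List.map_cons, List.map_nil,
        List.sum_cons, List.sum_nil, List.cons_append, List.nil_append, e1, e2, e3, e4, e5,
        add_zero]
  · have e6 : ¬ 2 ≤ (v.dropLast ++ [u.getLastD 0 + v.getLastD 0]).length := by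
      simp
      omega
    by_cases h2 : 2 ≤ u.length
    · simp only [h1, h2, e6, if_true, if_false, List.map_cons, List.map_nil,
          List.sum_cons, List.sum_nil, List.append_nil, add_zero]
    · simp only [h1, h2, if_false, List.map_nil, List.sum_nil, List.append_nil]

/-! ### admissibility and sizes of modifications -/

/-- a modification of one slot removes one letter and keeps both words nonempty -/
def B_good (md : Sl → List (ℚ × Sl)) : Prop :=
  ∀ g : Sl, g.1 ≠ [] → g.2 ≠ [] → ∀ p ∈ md g,
    p.2.1 ≠ [] ∧ p.2.2 ≠ [] ∧ p.2.1.length + p.2.2.length + 1 = g.1.length + g.2.length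

theorem B_ne_nil {α : Type} {l : List α} (h : 1 ≤ l.length) : l ≠ [] := by
  rintro rfl
  simp at h

theorem B_one_le {α : Type} {l : List α} (h : l ≠ []) : 1 ≤ l.length :=
  List.length_pos_iff.mpr h

theorem B_good_dv : B_good dv := by
  intro g h1 h2 p hp
  unfold dv at hp
  split_ifs at hp with h
  · simp only [List.mem_singleton] at hp
    subst hp
    refine ⟨h1, B_ne_nil (by simp; omega), by simp; omega⟩
  · simp at hp

theorem B_good_du : B_good du := by
  intro g h1 h2 p hp
  unfold du at hp
  split_ifs at hp with h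
  · simp only [List.mem_singleton] at hp
    subst hp
    refine ⟨B_ne_nil (by simp; omega), h2, by simp; omega⟩
  · simp at hp

theorem B_good_gam : B_good gam := by
  intro g h1 h2 p hp
  have a1 := B_one_le h1
  have a2 := B_one_le h2
  unfold gam at hp
  rw [List.mem_append] at hp
  rcases hp with hp | hp
  · split_ifs at hp with h
    · simp only [List.mem_singleton] at hp
      subst hp
      refine ⟨B_ne_nil (by simp; omega), by simp, by simp; omega⟩
    · simp at hp
  · split_ifs at hp with h
    · simp only [List.mem_singleton] at hp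
      subst hp
      refine ⟨by simp, B_ne_nil (by simp; omega), by simp; omega⟩
    · simp at hp

theorem B_mods_good (md : Sl → List (ℚ × Sl)) (hmd : B_good md) : ∀ gs : List Sl, uvok gs →
    ∀ p ∈ B_mods md gs, uvok p.2 ∧ p.2.length = gs.length ∧ nl p.2 + 1 = nl gs := by
  intro gs
  induction gs with
  | nil => intro _ p hp; simp [B_mods] at hp
  | cons g gs ih =>
    intro hok p hp
    have hg := hok g (by simp)
    have hgs : uvok gs := fun x hx => hok x (by simp [hx])
    rw [B_mods, List.mem_append, List.mem_map, List.mem_map] at hp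
    rcases hp with ⟨q, hq, rfl⟩ | ⟨q, hq, rfl⟩
    · obtain ⟨a1, a2, a3⟩ := hmd g hg.1 hg.2 q hq
      refine ⟨?_, by simp, ?_⟩
      · intro x hx
        rcases List.mem_cons.mp hx with rfl | hx
        · exact ⟨a1, a2⟩
        · exact hgs x hx
      · simp only [nl, List.map_cons, List.sum_cons]
        omega
    · obtain ⟨a1, a2, a3⟩ := ih hgs q hq
      refine ⟨?_, by simp [a2], ?_⟩
      · intro x hx
        rcases List.mem_cons.mp hx with rfl | hx
        · exact hg
        · exact a1 x hx
      · simp only [nl, List.map_cons, List.sum_cons] at a3 ⊢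
        omega

/-- total length of the `v` -/
def B_vl (gs : List Sl) : ℕ := (gs.map fun g => g.2.length).sum

/-- total length of the `u` -/
def B_ul (gs : List Sl) : ℕ := (gs.map fun g => g.1.length).sum

theorem B_mods_dv_vl : ∀ gs : List Sl, ∀ p ∈ B_mods dv gs, B_vl p.2 + 1 = B_vl gs := by
  intro gs
  induction gs with
  | nil => intro p hp; simp [B_mods] at hp
  | cons g gs ih =>
    intro p hp
    rw [B_mods, List.mem_append, List.mem_map, List.mem_map] at hp
    rcases hp with ⟨q, hq, rfl⟩ | ⟨q, hq, rfl⟩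
    · unfold dv at hq
      split_ifs at hq with h
      · simp only [List.mem_singleton] at hq
        subst hq
        simp only [B_vl, List.map_cons, List.sum_cons, List.length_tail]
        omega
      · simp at hq
    · have := ih q hq
      simp only [B_vl, List.map_cons, List.sum_cons] at this ⊢
      omega

theorem B_mods_du_ul : ∀ gs : List Sl, ∀ p ∈ B_mods du gs, B_ul p.2 + 1 = B_ul gs := by
  intro gs
  induction gs with
  | nil => intro p hp; simp [B_mods] at hp
  | cons g gs ih =>
    intro p hp
    rw [B_mods, List.mem_append, List.mem_map, List.mem_map] at hp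
    rcases hp with ⟨q, hq, rfl⟩ | ⟨q, hq, rfl⟩
    · unfold du at hq
      split_ifs at hq with h
      · simp only [List.mem_singleton] at hq
        subst hq
        simp only [B_ul, List.map_cons, List.sum_cons, List.length_tail]
        omega
      · simp at hq
    · have := ih q hq
      simp only [B_ul, List.map_cons, List.sum_cons] at this ⊢
      omega

theorem B_sum_headD_tail {v : List ℚ} (h : 1 ≤ v.length) : v.headD 0 + v.tail.sum = v.sum := by
  cases v with
  | nil => simp at h
  | cons a v => simp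

theorem B_mods_dv_sum : ∀ gs : List Sl, ∀ p ∈ B_mods dv gs,
    p.1 + (flat p.2).sum = (flat gs).sum ∧ p.1 + vsum p.2 = vsum gs := by
  intro gs
  induction gs with
  | nil => intro p hp; simp [B_mods] at hp
  | cons g gs ih =>
    intro p hp
    rw [B_mods, List.mem_append, List.mem_map, List.mem_map] at hp
    rcases hp with ⟨q, hq, rfl⟩ | ⟨q, hq, rfl⟩
    · unfold dv at hq
      split_ifs at hq with h
      · simp only [List.mem_singleton] at hq
        subst hq
        have e := B_sum_headD_tail (v := g.2) (by omega)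
        constructor
        · simp only [flat, List.flatMap_cons, List.sum_append]
          linarith
        · simp only [vsum, List.map_cons, List.sum_cons]
          linarith
      · simp at hq
    · obtain ⟨a1, a2⟩ := ih q hq
      constructor
      · simp only [flat, List.flatMap_cons, List.sum_append] at a1 ⊢
        linarith
      · simp only [vsum, List.map_cons, List.sum_cons] at a2 ⊢
        linarith

/-! ### two induction principles -/

theorem B_ind_dv (p m : ℕ) (Z : List Sl → ℚ) (Φ : List Sl → ℚ)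
    (hΦ : ∀ (ρ : ℚ) (u v : List ℚ) (rest : List Sl),
      Φ ((u, ρ :: v) :: rest) = ρ + Φ ((u, v) :: rest))
    (hZ : ∀ (ρ : ℚ) (u v : List ℚ) (rest : List Sl),
      ((u, ρ :: v) :: rest).length = p → u ≠ [] → v ≠ [] → uvok rest →
      nl ((u, ρ :: v) :: rest) = m + 1 → Φ ((u, ρ :: v) :: rest) = 0 →
      osum dv (fun _ t => Z t) ((u, ρ :: v) :: rest) = 0) (hp : 1 ≤ p) :
    ∀ (n : ℕ) (gs : List Sl), B_vl gs.tail = n → gs.length = p → uvok gs → nl gs = m →
      Z gs = 0 := by
  intro n
  induction n using Nat.strong_induction_on with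
  | _ n ih =>
    intro gs hn hgs hok hm
    cases gs with
    | nil => simp at hgs; omega
    | cons g rest =>
      obtain ⟨u, v⟩ := g
      have hg := hok (u, v) (by simp)
      have hr : uvok rest := fun x hx => hok x (by simp [hx])
      have hu : u ≠ [] := hg.1
      have hv : v ≠ [] := hg.2
      have hv1 := B_one_le hv
      have h := hZ (- Φ ((u, v) :: rest)) u v rest (by simpa using hgs) hu hv hr (by
        simp only [nl, List.map_cons, List.sum_cons, List.length_cons] at hm ⊢
        omega) (by rw [hΦ]; ring)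
      rw [osum] at h
      have e : dv (u, (- Φ ((u, v) :: rest)) :: v) = [(- Φ ((u, v) :: rest), (u, v))] := by
        unfold dv
        rw [if_pos (by simp; omega)]
        simp
      rw [e] at h
      have h0 : osum dv (fun _ t => Z ((u, (- Φ ((u, v) :: rest)) :: v) :: t)) rest = 0 := by
        apply B_osum_zero
        intro q hq
        obtain ⟨a1, a2, a3⟩ := B_mods_good dv B_good_dv rest hr q hq
        have a4 := B_mods_dv_vl rest q hq
        apply ih (B_vl q.2)
        · simp only [List.tail_cons] at hn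
          omega
        · rfl
        · simp only [List.length_cons] at hgs ⊢
          omega
        · intro x hx
          rcases List.mem_cons.mp hx with rfl | hx
          · exact ⟨hu, by simp⟩
          · exact a1 x hx
        · simp only [nl, List.map_cons, List.sum_cons, List.length_cons] at hm a3 ⊢
          omega
      rw [h0] at h
      simpa using h

theorem B_ind_du (p m : ℕ) (Z : List Sl → ℚ) (Φ : List Sl → ℚ)
    (hΦ : ∀ (ρ : ℚ) (u v : List ℚ) (rest : List Sl),
      Φ ((ρ :: u, v) :: rest) = ρ + Φ ((u, v) :: rest))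
    (hZ : ∀ (ρ : ℚ) (u v : List ℚ) (rest : List Sl),
      ((ρ :: u, v) :: rest).length = p → u ≠ [] → v ≠ [] → uvok rest →
      nl ((ρ :: u, v) :: rest) = m + 1 → Φ ((ρ :: u, v) :: rest) = 0 →
      osum du (fun _ t => Z t) ((ρ :: u, v) :: rest) = 0) (hp : 1 ≤ p) :
    ∀ (n : ℕ) (gs : List Sl), B_ul gs.tail = n → gs.length = p → uvok gs → nl gs = m →
      Z gs = 0 := by
  intro n
  induction n using Nat.strong_induction_on with
  | _ n ih =>
    intro gs hn hgs hok hm
    cases gs with
    | nil => simp at hgs; omega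
    | cons g rest =>
      obtain ⟨u, v⟩ := g
      have hg := hok (u, v) (by simp)
      have hr : uvok rest := fun x hx => hok x (by simp [hx])
      have hu : u ≠ [] := hg.1
      have hv : v ≠ [] := hg.2
      have hu1 := B_one_le hu
      have h := hZ (- Φ ((u, v) :: rest)) u v rest (by simpa using hgs) hu hv hr (by
        simp only [nl, List.map_cons, List.sum_cons, List.length_cons] at hm ⊢
        omega) (by rw [hΦ]; ring)
      rw [osum] at h
      have e : du ((- Φ ((u, v) :: rest)) :: u, v) = [(- Φ ((u, v) :: rest), (u, v))] := by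
        unfold du
        rw [if_pos (by simp; omega)]
        simp
      rw [e] at h
      have h0 : osum du (fun _ t => Z (((- Φ ((u, v) :: rest)) :: u, v) :: t)) rest = 0 := by
        apply B_osum_zero
        intro q hq
        obtain ⟨a1, a2, a3⟩ := B_mods_good du B_good_du rest hr q hq
        have a4 := B_mods_du_ul rest q hq
        apply ih (B_ul q.2)
        · simp only [List.tail_cons] at hn
          omega
        · rfl
        · simp only [List.length_cons] at hgs ⊢
          omega
        · intro x hx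
          rcases List.mem_cons.mp hx with rfl | hx
          · exact ⟨by simp, hv⟩
          · exact a1 x hx
        · simp only [nl, List.map_cons, List.sum_cons, List.length_cons] at hm a3 ⊢
          omega
      rw [h0] at h
      simpa using h

/-! ### the function `E` -/

/-- the function `E`, with fuel -/
def B_EF (D : List Sl → ℚ) : ℕ → ℚ → List Sl → ℚ
  | _, _, [] => 0
  | 0, ρ, g :: rest => D ((g.1, ρ :: g.2) :: rest)
  | n + 1, ρ, g :: rest => D ((g.1, ρ :: g.2) :: rest)
      - osum dv (fun r t => B_EF D n r ((g.1, ρ :: g.2) :: t)) rest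

/-- the function `E` -/
def B_E (D : List Sl → ℚ) (ρ : ℚ) (gs : List Sl) : ℚ := B_EF D (B_vl gs.tail) ρ gs

theorem B_E_rec (D : List Sl → ℚ) (ρ : ℚ) (u v : List ℚ) (rest : List Sl) :
    B_E D ρ ((u, v) :: rest) = D ((u, ρ :: v) :: rest)
      - osum dv (fun r t => B_E D r ((u, ρ :: v) :: t)) rest := by
  unfold B_E
  simp only [List.tail_cons]
  rcases hn : B_vl rest with _ | n
  · rw [B_EF, B_osum_zero, sub_zero]
    intro p hp
    have := B_mods_dv_vl rest p hp
    omega
  · rw [B_EF]
    congr 1
    apply B_osum_congr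
    intro p hp
    have := B_mods_dv_vl rest p hp
    have e : B_vl p.2 = n := by omega
    rw [e]

theorem B_D_of_E (D : List Sl → ℚ) (ρ : ℚ) (u v : List ℚ) (rest : List Sl) (hv : v ≠ []) :
    D ((u, ρ :: v) :: rest) = osum dv (B_E D) ((u, ρ :: v) :: rest) := by
  rw [osum]
  have hv1 := B_one_le hv
  have e : dv (u, ρ :: v) = [(ρ, (u, v))] := by
    unfold dv
    rw [if_pos (by simp; omega)]
    simp
  rw [e]
  simp only [List.map_cons, List.map_nil, List.sum_cons, List.sum_nil, add_zero]
  rw [B_E_rec]
  ring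

/-! ### the identities (1), (2) -/

theorem B_flat_dv (ρ : ℚ) (u v : List ℚ) (rest : List Sl) :
    (flat ((u, ρ :: v) :: rest)).sum = ρ + (flat ((u, v) :: rest)).sum := by
  simp only [flat, List.flatMap_cons, List.sum_append, List.sum_cons]
  ring

theorem B_flat_du (ρ : ℚ) (u v : List ℚ) (rest : List Sl) :
    (flat ((ρ :: u, v) :: rest)).sum = ρ + (flat ((u, v) :: rest)).sum := by
  simp only [flat, List.flatMap_cons, List.sum_append, List.sum_cons]
  ring

theorem B_vsum_dv (ρ : ℚ) (u v : List ℚ) (rest : List Sl) :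
    vsum ((u, ρ :: v) :: rest) = ρ + vsum ((u, v) :: rest) := by
  simp only [vsum, List.map_cons, List.sum_cons]
  ring

theorem B_X (p m : ℕ) (D D' : List Sl → ℚ) (h : KK p m D D') (hp : 1 ≤ p) :
    ∀ gs : List Sl, gs.length = p → uvok gs → nl gs = m →
      D gs = osum dv (B_E D) gs ∧
      D' gs = osum du (fun _ t => B_E D (- (flat gs).sum) t) gs := by
  -- the identity for the differences
  have key : ∀ gs : List Sl, gs.length = p → uvok gs → nl gs = m + 1 → (flat gs).sum = 0 →
      osum dv (fun _ t => D' t - osum du (fun _ t' => B_E D (- (flat t).sum) t') t) gs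
        = osum du (fun _ t => D t - osum dv (B_E D) t) gs := by
    intro gs h1 h2 h3 h4
    have k := h.K2 gs h1 h2 h3 h4
    have e1 : osum dv (fun _ t => D' t) gs
        = osum dv (fun _ t => D' t - osum du (fun _ t' => B_E D (- (flat t).sum) t') t) gs
          + osum dv (fun r t => osum du (fun _ t' => B_E D r t') t) gs := by
      rw [← B_osum_add]
      apply B_osum_congr
      intro q hq
      have := (B_mods_dv_sum gs q hq).1
      have e : - (flat q.2).sum = q.1 := by linarith
      rw [e]
      ring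
    have e2 : osum du (fun _ t => D t) gs
        = osum du (fun _ t => D t - osum dv (B_E D) t) gs
          + osum du (fun _ t => osum dv (fun r t' => B_E D r t') t) gs := by
      rw [← B_osum_add]
      apply B_osum_congr
      intro q hq
      ring
    have e3 := B_osum_comm dv du B_comm_dv_du gs (fun r _ t => B_E D r t)
    rw [e1, e2, e3] at k
    exact add_right_cancel k
  have X0 : ∀ (ρ : ℚ) (u v : List ℚ) (rest : List Sl), v ≠ [] →
      D ((u, ρ :: v) :: rest) - osum dv (B_E D) ((u, ρ :: v) :: rest) = 0 := by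
    intro ρ u v rest hv
    rw [B_D_of_E D ρ u v rest hv, sub_self]
  have X' : ∀ gs : List Sl, gs.length = p → uvok gs → nl gs = m →
      D' gs - osum du (fun _ t' => B_E D (- (flat gs).sum) t') gs = 0 := by
    intro gs h1 h2 h3
    refine B_ind_dv p m (fun gs => D' gs
      - osum du (fun _ t' => B_E D (- (flat gs).sum) t') gs) (fun gs => (flat gs).sum)
      B_flat_dv ?_ hp _ gs rfl h1 h2 h3
    intro ρ u v rest g1 g2 g3 g4 g5 g6
    have hok : uvok ((u, ρ :: v) :: rest) := by
      intro x hx
      rcases List.mem_cons.mp hx with rfl | hx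
      · exact ⟨g2, by simp⟩
      · exact g4 x hx
    rw [key _ g1 hok g5 g6, osum]
    have a1 : ((du (u, ρ :: v)).map fun q => (fun _ t => D t - osum dv (B_E D) t) q.1
        (q.2 :: rest)).sum = 0 := by
      unfold du
      split_ifs with hh
      · simp only [List.map_cons, List.map_nil, List.sum_cons, List.sum_nil, add_zero]
        exact X0 _ _ _ _ g3
      · simp
    have a2 : osum du (fun _ t => D ((u, ρ :: v) :: t)
        - osum dv (B_E D) ((u, ρ :: v) :: t)) rest = 0 := by
      apply B_osum_zero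
      intro q _
      exact X0 _ _ _ _ g3
    rw [a1, a2, add_zero]
  have X : ∀ gs : List Sl, gs.length = p → uvok gs → nl gs = m →
      D gs - osum dv (B_E D) gs = 0 := by
    intro gs h1 h2 h3
    refine B_ind_du p m (fun gs => D gs - osum dv (B_E D) gs) (fun gs => (flat gs).sum)
      B_flat_du ?_ hp _ gs rfl h1 h2 h3
    intro ρ u v rest g1 g2 g3 g4 g5 g6
    have hok : uvok ((ρ :: u, v) :: rest) := by
      intro x hx
      rcases List.mem_cons.mp hx with rfl | hx
      · exact ⟨by simp, g3⟩
      · exact g4 x hx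
    rw [← key _ g1 hok g5 g6]
    apply B_osum_zero
    intro q hq
    obtain ⟨b1, b2, b3⟩ := B_mods_good dv B_good_dv _ hok q hq
    exact X' q.2 (by omega) b1 (by omega)
  intro gs h1 h2 h3
  exact ⟨sub_eq_zero.mp (X gs h1 h2 h3), sub_eq_zero.mp (X' gs h1 h2 h3)⟩

theorem B_Y (p m : ℕ) (D D' : List Sl → ℚ) (h : KK p m D D') (hp : 1 ≤ p) :
    ∀ gs : List Sl, gs.length = p → uvok gs → nl gs = m →
      D gs + D' gs = osum gam (fun _ t => B_E D (- vsum gs) t) gs := by
  intro gs h1 h2 h3
  apply sub_eq_zero.mp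
  refine B_ind_dv p m (fun gs => D gs + D' gs
    - osum gam (fun _ t' => B_E D (- vsum gs) t') gs) vsum
    B_vsum_dv ?_ hp _ gs rfl h1 h2 h3
  intro ρ u v rest g1 g2 g3 g4 g5 g6
  obtain ⟨hs, hhs⟩ : ∃ hs, hs = (u, ρ :: v) :: rest := ⟨_, rfl⟩
  have hok : uvok hs := by
    rw [hhs]
    intro x hx
    rcases List.mem_cons.mp hx with rfl | hx
    · exact ⟨g2, by simp⟩
    · exact g4 x hx
  rw [← hhs] at g1 g5 g6 ⊢
  have k := h.K4 hs g1 hok g5 g6
  have e1 : osum dv (fun _ t => D t + D' t) hs
      = osum dv (fun _ t => D t + D' t - osum gam (fun _ t' => B_E D (- vsum t) t') t) hs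
        + osum dv (fun r t => osum gam (fun _ t' => B_E D r t') t) hs := by
    rw [← B_osum_add]
    apply B_osum_congr
    intro q hq
    have := (B_mods_dv_sum hs q hq).2
    have e : - vsum q.2 = q.1 := by linarith
    rw [e]
    ring
  have e2 : osum gam (fun _ t => D t) hs
      = osum gam (fun _ t => osum dv (fun r t' => B_E D r t') t) hs := by
    apply B_osum_congr
    intro q hq
    obtain ⟨b1, b2, b3⟩ := B_mods_good gam B_good_gam _ hok q hq
    exact (B_X p m D D' h hp q.2 (by omega) b1 (by omega)).1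
  have e3 := B_osum_comm dv gam B_comm_dv_gam hs (fun r _ t => B_E D r t)
  rw [e1, e2, e3] at k
  linarith

/-! ### consecutive differences -/

/-- consecutive differences -/
def B_dif {K : Type} [AddCommGroup K] : List K → List K
  | [] => []
  | [_] => []
  | a :: b :: l => (a - b) :: B_dif (b :: l)

theorem B_dif_length {K : Type} [AddCommGroup K] : ∀ l : List K,
    (B_dif l).length = l.length - 1
  | [] => rfl
  | [_] => rfl
  | a :: b :: l => by
      rw [B_dif, List.length_cons, B_dif_length (b :: l)]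
      simp

theorem B_dif_tail {K : Type} [AddCommGroup K] : ∀ l : List K,
    B_dif l.tail = (B_dif l).tail
  | [] => rfl
  | [_] => rfl
  | a :: b :: l => rfl

theorem B_dif_dropLast {K : Type} [AddCommGroup K] : ∀ l : List K,
    B_dif l.dropLast = (B_dif l).dropLast
  | [] => rfl
  | [_] => rfl
  | [_, _] => rfl
  | a :: b :: c :: l => by
      have ih := B_dif_dropLast (b :: c :: l)
      have e1 : (a :: b :: c :: l).dropLast = a :: b :: (c :: l).dropLast := rfl
      rw [e1, B_dif]
      have e2 : b :: (c :: l).dropLast = (b :: c :: l).dropLast := rfl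
      rw [e2, ih]
      rfl

theorem B_dif_concat {K : Type} [AddCommGroup K] : ∀ (l : List K) (a : K), 1 ≤ l.length →
    B_dif (l ++ [a]) = B_dif l ++ [l.getLastD 0 - a]
  | [], a, h => by simp at h
  | [b], a, _ => rfl
  | b :: c :: l, a, _ => by
      have ih := B_dif_concat (c :: l) a (by simp)
      have e1 : (b :: c :: l) ++ [a] = b :: c :: (l ++ [a]) := rfl
      rw [e1, B_dif]
      have e2 : c :: (l ++ [a]) = (c :: l) ++ [a] := rfl
      rw [e2, ih, B_dif]
      simp [List.getLastD_eq_getLast?]

theorem B_dif_cons {K : Type} [AddCommGroup K] (a : K) (l : List K) (h : 1 ≤ l.length) :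
    B_dif (a :: l) = (a - l.headD 0) :: B_dif l := by
  cases l with
  | nil => simp at h
  | cons b l => rfl

theorem B_dif_sum {K : Type} [AddCommGroup K] : ∀ (l : List K), 1 ≤ l.length →
    (B_dif l).sum = l.headD 0 - l.getLastD 0
  | [], h => by simp at h
  | [b], _ => by simp [B_dif]
  | b :: c :: l, _ => by
      have ih := B_dif_sum (c :: l) (by simp)
      rw [B_dif, List.sum_cons, ih]
      simp [List.getLastD_eq_getLast?]

theorem B_dif_map {K K' : Type} [AddCommGroup K] [AddCommGroup K'] (f : K →+ K') :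
    ∀ l : List K, B_dif (l.map f) = (B_dif l).map f
  | [] => rfl
  | [_] => rfl
  | a :: b :: l => by
      have ih := B_dif_map f (b :: l)
      simp only [List.map_cons] at ih ⊢
      rw [B_dif, ih, B_dif, List.map_cons, map_sub]

/-- the momenta of a slot -/
def B_mom {K : Type} [AddCommGroup K] (a : Slot K) : List K × List K :=
  (B_dif (a.L ++ [a.m]), (B_dif (a.m :: a.R)).reverse)

theorem B_mom_len1 {K : Type} [AddCommGroup K] (a : Slot K) :
    (B_mom a).1.length = a.L.length := by
  simp [B_mom, B_dif_length]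

theorem B_mom_len2 {K : Type} [AddCommGroup K] (a : Slot K) :
    (B_mom a).2.length = a.R.length := by
  simp [B_mom, B_dif_length]

theorem B_reverse_headD (l : List ℚ) : l.reverse.headD 0 = l.getLastD 0 := by
  rw [List.headD_eq_head?_getD, List.head?_reverse, List.getLastD_eq_getLast?]

theorem B_reverse_getLastD (l : List ℚ) : l.reverse.getLastD 0 = l.headD 0 := by
  rw [List.headD_eq_head?_getD, List.getLastD_eq_getLast?, List.getLast?_reverse]

theorem B_tail_reverse {K : Type} (l : List K) : l.dropLast.reverse = l.reverse.tail := by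
  simp

theorem B_dropLast_reverse {K : Type} (l : List K) : l.tail.reverse = l.reverse.dropLast := by
  simp

theorem B_low1 (L R : List ℚ) (m : ℚ) (hL : 2 ≤ L.length) :
    B_mom ⟨L.tail, m, R⟩ = ((B_mom ⟨L, m, R⟩).1.tail, (B_mom ⟨L, m, R⟩).2) := by
  simp only [B_mom]
  rw [← B_dif_tail, B_tail_append (by omega)]

theorem B_low2 (L R : List ℚ) (m : ℚ) (hL : 1 ≤ L.length) (hR : 1 ≤ R.length) :
    B_mom ⟨L.dropLast, L.getLastD 0, R⟩ = ((B_mom ⟨L, m, R⟩).1.dropLast,
      (B_mom ⟨L, m, R⟩).2.dropLast ++
        [(B_mom ⟨L, m, R⟩).1.getLastD 0 + (B_mom ⟨L, m, R⟩).2.getLastD 0]) := by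
  simp only [B_mom]
  rw [dropLast_getLastD L hL, ← B_dif_dropLast, List.dropLast_concat, B_reverse_getLastD,
    ← B_dropLast_reverse, B_dif_cons _ _ hR, B_dif_cons _ _ hR, B_dif_concat _ _ hL]
  simp

theorem B_low3 (L R : List ℚ) (m : ℚ) (hL : 1 ≤ L.length) (hR : 1 ≤ R.length) :
    B_mom ⟨L, R.headD 0, R.tail⟩ = ((B_mom ⟨L, m, R⟩).1.dropLast ++
        [(B_mom ⟨L, m, R⟩).1.getLastD 0 + (B_mom ⟨L, m, R⟩).2.getLastD 0],
      (B_mom ⟨L, m, R⟩).2.dropLast) := by
  simp only [B_mom]
  rw [headD_tail R hR, ← B_dif_dropLast, List.dropLast_concat, B_reverse_getLastD,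
    ← B_dropLast_reverse, B_dif_cons _ _ hR, B_dif_concat _ _ hL, B_dif_concat _ _ hL]
  simp

theorem B_low4 (L R : List ℚ) (m : ℚ) (hR : 1 ≤ R.length) :
    B_mom ⟨L, m, R.dropLast⟩ = ((B_mom ⟨L, m, R⟩).1, (B_mom ⟨L, m, R⟩).2.tail) := by
  simp only [B_mom]
  rw [← B_tail_reverse, ← B_dif_dropLast]
  have : (m :: R).dropLast = m :: R.dropLast := by
    cases R with
    | nil => simp at hR
    | cons a R => rfl
  rw [this]

theorem B_low4_label (L R : List ℚ) (m : ℚ) (hR : 2 ≤ R.length) :
    (B_mom ⟨L, m, R⟩).2.headD 0 = R.dropLast.getLastD 0 - R.getLastD 0 := by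
  simp only [B_mom]
  rw [B_reverse_headD]
  have e1 : m :: R = (m :: R.dropLast) ++ [R.getLastD 0] := by
    rw [List.cons_append, dropLast_getLastD R (by omega)]
  rw [e1, B_dif_concat _ _ (by simp), List.getLastD_concat]
  congr 1
  have h2 : 1 ≤ R.dropLast.length := by simp; omega
  obtain ⟨b, t, hb⟩ : ∃ b t, R.dropLast = b :: t := by
    cases h : R.dropLast with
    | nil => rw [h] at h2; simp at h2
    | cons b t => exact ⟨b, t, rfl⟩
  rw [hb]
  simp [List.getLastD_eq_getLast?]

/-- total length of the right words -/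
def B_rl (l : List (Slot ℚ)) : ℕ := (l.map fun a => a.R.length).sum

theorem B_rl_cons (a : Slot ℚ) (l : List (Slot ℚ)) : B_rl (a :: l) = a.R.length + B_rl l := by
  simp [B_rl]

theorem B_sE_cons (a : Slot ℚ) (l : List (Slot ℚ)) : sE (a :: l) = a.R.getLastD 0 + sE l := by
  simp [sE]

theorem B_PSsum : ∀ (l : List (Slot ℚ)), (∀ a ∈ l, a.ok) →
    ∀ (Y : ℚ → List Sl → ℚ) (σ c s mm e : ℚ), e = c + sE l →
    PSsum (fun w t => σ * (-1) ^ (B_rl t) * Y (c + sE t - w) (t.map B_mom)) s mm e l
      = σ * (-1) ^ (B_rl l) * (osum dv Y (l.map B_mom)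
          + osum du (fun _ t => Y (e - s) t) (l.map B_mom)
          - osum gam (fun _ t => Y (e - mm) t) (l.map B_mom)) := by
  intro l
  induction l with
  | nil =>
    intro _ Y σ c s mm e _
    simp [PSsum, osum]
  | cons a l ih =>
    intro hok Y σ c s mm e he
    have ha := hok a (by simp)
    obtain ⟨L, m, R⟩ := a
    have hL : 1 ≤ L.length := ha.1
    have hR : 1 ≤ R.length := ha.2
    rw [PSsum]
    have h3 : PSsum (fun w t => σ * (-1) ^ (B_rl (⟨L, m, R⟩ :: t))
        * Y (c + sE (⟨L, m, R⟩ :: t) - w) ((⟨L, m, R⟩ :: t : List (Slot ℚ)).map B_mom)) s mm e l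
        = σ * (-1) ^ (B_rl (⟨L, m, R⟩ :: l)) *
          (osum dv (fun r t => Y r (B_mom ⟨L, m, R⟩ :: t)) (l.map B_mom)
          + osum du (fun _ t => Y (e - s) (B_mom ⟨L, m, R⟩ :: t)) (l.map B_mom)
          - osum gam (fun _ t => Y (e - mm) (B_mom ⟨L, m, R⟩ :: t)) (l.map B_mom)) := by
      have h4 := ih (fun b hb => hok b (by simp [hb]))
        (fun r t => Y r (B_mom ⟨L, m, R⟩ :: t)) (σ * (-1) ^ R.length) (c + R.getLastD 0)
        s mm e (by rw [he, B_sE_cons]; ring)
      rw [B_rl_cons, pow_add]
      have e5 : σ * ((-1) ^ R.length * (-1) ^ (B_rl l)) = σ * (-1) ^ R.length * (-1) ^ (B_rl l) := by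
        ring
      rw [e5, ← h4]
      congr 1
      funext w t
      rw [B_rl_cons, B_sE_cons, pow_add, List.map_cons]
      have e6 : c + (R.getLastD 0 + sE t) - w = c + R.getLastD 0 + sE t - w := by ring
      simp only
      rw [e6]
      ring
    rw [h3]
    have g1 : (Slot.lowL (⟨L, m, R⟩ : Slot ℚ)) = if 2 ≤ L.length then
        [(⟨L.tail, m, R⟩, ⟨L.dropLast, L.getLastD 0, R⟩)] else [] := rfl
    have g2 : (Slot.lowR (⟨L, m, R⟩ : Slot ℚ)) = if 2 ≤ R.length then
        [(⟨L, R.headD 0, R.tail⟩, ⟨L, m, R.dropLast⟩)] else [] := rfl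
    have q1 : (B_mom (⟨L, m, R⟩ : Slot ℚ)).1.length = L.length := B_mom_len1 _
    have q2 : (B_mom (⟨L, m, R⟩ : Slot ℚ)).2.length = R.length := B_mom_len2 _
    rw [g1, g2]
    simp only [List.map_cons, osum]
    have k1 : ((if 2 ≤ L.length then
        [((⟨L.tail, m, R⟩ : Slot ℚ), (⟨L.dropLast, L.getLastD 0, R⟩ : Slot ℚ))] else []).map
          fun p => σ * (-1) ^ (B_rl (p.1 :: l)) * Y (c + sE (p.1 :: l) - s)
            (B_mom p.1 :: l.map B_mom)
          - σ * (-1) ^ (B_rl (p.2 :: l)) * Y (c + sE (p.2 :: l) - mm)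
            (B_mom p.2 :: l.map B_mom)).sum
        = σ * (-1) ^ (B_rl (⟨L, m, R⟩ :: l)) *
          (((du (B_mom (⟨L, m, R⟩ : Slot ℚ))).map fun p => Y (e - s) (p.2 :: l.map B_mom)).sum
          - (if 2 ≤ L.length then Y (e - mm)
              (((B_mom (⟨L, m, R⟩ : Slot ℚ)).1.dropLast,
      (B_mom (⟨L, m, R⟩ : Slot ℚ)).2.dropLast ++
        [(B_mom (⟨L, m, R⟩ : Slot ℚ)).1.getLastD 0
          + (B_mom (⟨L, m, R⟩ : Slot ℚ)).2.getLastD 0]) :: l.map B_mom)
              else 0)) := by
      unfold du
      rw [q1]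
      split_ifs with hh
      · simp only [List.map_cons, List.map_nil, List.sum_cons, List.sum_nil, add_zero]
        rw [B_low1 L R m hh, B_low2 L R m hL hR, B_rl_cons, B_rl_cons, B_rl_cons, B_sE_cons,
          B_sE_cons, he, B_sE_cons]
        simp only
        ring
      · simp
    have k2 : ((if 2 ≤ R.length then
        [((⟨L, R.headD 0, R.tail⟩ : Slot ℚ), (⟨L, m, R.dropLast⟩ : Slot ℚ))] else []).map
          fun p => σ * (-1) ^ (B_rl (p.1 :: l)) * Y (c + sE (p.1 :: l) - mm)
            (B_mom p.1 :: l.map B_mom)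
          - σ * (-1) ^ (B_rl (p.2 :: l)) * Y (c + sE (p.2 :: l) - e)
            (B_mom p.2 :: l.map B_mom)).sum
        = σ * (-1) ^ (B_rl (⟨L, m, R⟩ :: l)) *
          (((dv (B_mom (⟨L, m, R⟩ : Slot ℚ))).map fun p => Y p.1 (p.2 :: l.map B_mom)).sum
          - (if 2 ≤ R.length then Y (e - mm)
              (((B_mom (⟨L, m, R⟩ : Slot ℚ)).1.dropLast ++
        [(B_mom (⟨L, m, R⟩ : Slot ℚ)).1.getLastD 0
          + (B_mom (⟨L, m, R⟩ : Slot ℚ)).2.getLastD 0],
      (B_mom (⟨L, m, R⟩ : Slot ℚ)).2.dropLast) :: l.map B_mom)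
              else 0)) := by
      unfold dv
      rw [q2]
      split_ifs with hh
      · simp only [List.map_cons, List.map_nil, List.sum_cons, List.sum_nil, add_zero]
        rw [B_low3 L R m hL hR, B_low4 L R m hR, B_low4_label L R m hh, B_rl_cons, B_rl_cons,
          B_rl_cons, B_sE_cons, B_sE_cons, he, B_sE_cons]
        simp only
        rw [getLastD_tail R hh]
        obtain ⟨k, hk⟩ : ∃ k, R.length = k + 1 := ⟨R.length - 1, by omega⟩
        have t1 : R.tail.length = k := by simp [hk]
        have t2 : R.dropLast.length = k := by simp [hk]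
        rw [t1, t2, hk]
        have t3 : c + (R.dropLast.getLastD 0 + sE l) - (c + (R.getLastD 0 + sE l))
            = R.dropLast.getLastD 0 - R.getLastD 0 := by ring
        rw [t3]
        ring
      · simp
    rw [k1, k2]
    have k3 : ((gam (B_mom (⟨L, m, R⟩ : Slot ℚ))).map fun p =>
          Y (e - mm) (p.2 :: l.map B_mom)).sum
        = (if 2 ≤ L.length then Y (e - mm)
              (((B_mom (⟨L, m, R⟩ : Slot ℚ)).1.dropLast,
      (B_mom (⟨L, m, R⟩ : Slot ℚ)).2.dropLast ++
        [(B_mom (⟨L, m, R⟩ : Slot ℚ)).1.getLastD 0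
          + (B_mom (⟨L, m, R⟩ : Slot ℚ)).2.getLastD 0]) :: l.map B_mom)
              else 0)
          + (if 2 ≤ R.length then Y (e - mm)
              (((B_mom (⟨L, m, R⟩ : Slot ℚ)).1.dropLast ++
        [(B_mom (⟨L, m, R⟩ : Slot ℚ)).1.getLastD 0
          + (B_mom (⟨L, m, R⟩ : Slot ℚ)).2.getLastD 0],
      (B_mom (⟨L, m, R⟩ : Slot ℚ)).2.dropLast) :: l.map B_mom)
              else 0) := by
      unfold gam
      rw [q1, q2]
      by_cases h1 : 2 ≤ L.length <;> by_cases h2 : 2 ≤ R.length <;> simp [h1, h2]
    rw [k3]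
    ring

/-! ### polynomiality -/

/-- evaluation of slots with polynomial momenta -/
noncomputable def B_evs (s : ℕ → ℚ) (GS : List (List (MvPolynomial ℕ ℚ) × List (MvPolynomial ℕ ℚ))) :
    List Sl :=
  GS.map fun g => (g.1.map (MvPolynomial.eval s), g.2.map (MvPolynomial.eval s))

/-- a polynomial function of a number and a list of slots (with a parameter) -/
def B_pol (F : (ℕ → ℚ) → ℚ → List Sl → ℚ) : Prop :=
  ∀ (ρ : MvPolynomial ℕ ℚ) (GS : List (List (MvPolynomial ℕ ℚ) × List (MvPolynomial ℕ ℚ))),
    ∃ P : MvPolynomial ℕ ℚ, ∀ s : ℕ → ℚ,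
      F s (MvPolynomial.eval s ρ) (B_evs s GS) = MvPolynomial.eval s P

theorem B_eval_aeval (s : ℕ → ℚ) (f : ℕ → MvPolynomial ℕ ℚ) (F : MvPolynomial ℕ ℚ) :
    MvPolynomial.eval s (MvPolynomial.aeval f F)
      = MvPolynomial.eval (fun i => MvPolynomial.eval s (f i)) F := by
  have h : (MvPolynomial.eval s).comp (MvPolynomial.aeval f : _ →ₐ[ℚ] MvPolynomial ℕ ℚ).toRingHom
      = MvPolynomial.eval (fun i => MvPolynomial.eval s (f i)) := by
    apply MvPolynomial.ringHom_ext
    · intro r
      simp
    · intro i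
      simp
  exact RingHom.congr_fun h F

theorem B_flat_evs (s : ℕ → ℚ)
    (GS : List (List (MvPolynomial ℕ ℚ) × List (MvPolynomial ℕ ℚ))) :
    flat (B_evs s GS) = (GS.flatMap fun g => g.1 ++ g.2).map (MvPolynomial.eval s) := by
  induction GS with
  | nil => rfl
  | cons g GS ih =>
    simp only [B_evs, flat, List.map_cons, List.flatMap_cons, List.map_append] at ih ⊢
    rw [ih]

theorem B_getD_map (s : ℕ → ℚ) (l : List (MvPolynomial ℕ ℚ)) (i : ℕ) :
    (l.map (MvPolynomial.eval s)).getD i 0 = MvPolynomial.eval s (l.getD i 0) := by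
  rw [List.getD_eq_getElem?_getD, List.getD_eq_getElem?_getD, List.getElem?_map]
  cases l[i]? <;> simp

theorem B_headD_map (s : ℕ → ℚ) (l : List (MvPolynomial ℕ ℚ)) :
    (l.map (MvPolynomial.eval s)).headD 0 = MvPolynomial.eval s (l.headD 0) := by
  cases l <;> simp

theorem B_getLastD_map (s : ℕ → ℚ) (l : List (MvPolynomial ℕ ℚ)) :
    (l.map (MvPolynomial.eval s)).getLastD 0 = MvPolynomial.eval s (l.getLastD 0) := by
  rw [List.getLastD_eq_getLast?, List.getLastD_eq_getLast?, List.getLast?_map]
  cases l.getLast? <;> simp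

theorem B_pol_D (D : List Sl → ℚ) (hD : PolyS D) : B_pol (fun _ _ gs => D gs) := by
  intro ρ GS
  obtain ⟨F, hF⟩ := hD (GS.map fun g => (g.1.length, g.2.length))
  refine ⟨MvPolynomial.aeval (fun i => (GS.flatMap fun g => g.1 ++ g.2).getD i 0) F, ?_⟩
  intro s
  show D (B_evs s GS) = _
  rw [B_eval_aeval, hF (B_evs s GS) (by simp [B_evs, Function.comp_def]), B_flat_evs]
  congr 2
  funext i
  rw [B_getD_map]

theorem B_pol_osum : ∀ (GS : List (List (MvPolynomial ℕ ℚ) × List (MvPolynomial ℕ ℚ)))
    (F : (ℕ → ℚ) → ℚ → List Sl → ℚ), B_pol F →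
    ∃ P : MvPolynomial ℕ ℚ, ∀ s : ℕ → ℚ,
      osum dv (F s) (B_evs s GS) = MvPolynomial.eval s P := by
  intro GS
  induction GS with
  | nil =>
    intro F _
    exact ⟨0, fun s => by simp [B_evs, osum]⟩
  | cons g GS ih =>
    intro F hF
    obtain ⟨P1, hP1⟩ := hF (g.2.headD 0) ((g.1, g.2.tail) :: GS)
    obtain ⟨P2, hP2⟩ := ih (fun s r t => F s r
      ((g.1.map (MvPolynomial.eval s), g.2.map (MvPolynomial.eval s)) :: t)) (by
        intro ρ GS'
        exact hF ρ (g :: GS'))
    by_cases h : 2 ≤ g.2.length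
    · refine ⟨P1 + P2, ?_⟩
      intro s
      have e : B_evs s (g :: GS) = (g.1.map (MvPolynomial.eval s),
        g.2.map (MvPolynomial.eval s)) :: B_evs s GS := rfl
      rw [e, osum, hP2, map_add]
      congr 1
      unfold dv
      rw [if_pos (by simpa using h)]
      simp only [List.map_cons, List.map_nil, List.sum_cons, List.sum_nil, add_zero]
      rw [B_headD_map, ← hP1]
      congr 1
      simp [B_evs]
    · refine ⟨P2, ?_⟩
      intro s
      have e : B_evs s (g :: GS) = (g.1.map (MvPolynomial.eval s),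
        g.2.map (MvPolynomial.eval s)) :: B_evs s GS := rfl
      rw [e, osum, hP2]
      unfold dv
      rw [if_neg (by simpa using h)]
      simp

theorem B_pol_EF (D : List Sl → ℚ) (hD : PolyS D) : ∀ n : ℕ, B_pol (fun _ r gs => B_EF D n r gs) := by
  intro n
  induction n with
  | zero =>
    intro ρ GS
    cases GS with
    | nil => exact ⟨0, fun s => by simp [B_evs, B_EF]⟩
    | cons g GS =>
      obtain ⟨P, hP⟩ := B_pol_D D hD ρ ((g.1, ρ :: g.2) :: GS)
      exact ⟨P, fun s => hP s⟩
  | succ n ih =>
    intro ρ GS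
    cases GS with
    | nil => exact ⟨0, fun s => by simp [B_evs, B_EF]⟩
    | cons g GS =>
      obtain ⟨P, hP⟩ := B_pol_D D hD ρ ((g.1, ρ :: g.2) :: GS)
      obtain ⟨P2, hP2⟩ := B_pol_osum GS (fun s r t => B_EF D n r
        ((g.1.map (MvPolynomial.eval s), MvPolynomial.eval s ρ :: g.2.map (MvPolynomial.eval s))
          :: t)) (by
        intro ρ' GS'
        exact ih ρ' ((g.1, ρ :: g.2) :: GS'))
      refine ⟨P - P2, ?_⟩
      intro s
      have e : B_evs s (g :: GS) = (g.1.map (MvPolynomial.eval s),
        g.2.map (MvPolynomial.eval s)) :: B_evs s GS := rfl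
      show B_EF D (n + 1) (MvPolynomial.eval s ρ) (B_evs s (g :: GS)) = _
      rw [e, B_EF, map_sub, ← hP2, ← hP]
      rfl

theorem B_pol_E (D : List Sl → ℚ) (hD : PolyS D) : B_pol (fun _ r gs => B_E D r gs) := by
  intro ρ GS
  obtain ⟨P, hP⟩ := B_pol_EF D hD (GS.tail.map fun g => g.2.length).sum ρ GS
  refine ⟨P, ?_⟩
  intro s
  rw [← hP]
  show B_E D (MvPolynomial.eval s ρ) (B_evs s GS) = B_EF D _ (MvPolynomial.eval s ρ) (B_evs s GS)
  unfold B_E
  congr 1
  unfold B_vl B_evs
  rw [← List.map_tail, List.map_map]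
  congr 1
  apply List.map_congr_left
  intro g _
  simp

/-- the function on lists of slots `(L, m, R)` -/
def B_x (D : List Sl → ℚ) (w : ℚ) (l : List (Slot ℚ)) : ℚ :=
  (-1) ^ (B_rl l) * B_E D (sE l - w) (l.map B_mom)

/-- evaluation of slots `(L, m, R)` -/
noncomputable def B_evl (s : ℕ → ℚ) (l : List (Slot (MvPolynomial ℕ ℚ))) : List (Slot ℚ) :=
  l.map fun a => ⟨a.L.map (MvPolynomial.eval s), MvPolynomial.eval s a.m,
    a.R.map (MvPolynomial.eval s)⟩

theorem B_dif_eval (s : ℕ → ℚ) (l : List (MvPolynomial ℕ ℚ)) :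
    B_dif (l.map (MvPolynomial.eval s)) = (B_dif l).map (MvPolynomial.eval s) :=
  B_dif_map (MvPolynomial.eval s).toAddMonoidHom l

theorem B_pol_x (D : List Sl → ℚ) (hD : PolyS D) (w : MvPolynomial ℕ ℚ)
    (l : List (Slot (MvPolynomial ℕ ℚ))) :
    ∃ P : MvPolynomial ℕ ℚ, ∀ s : ℕ → ℚ,
      B_x D (MvPolynomial.eval s w) (B_evl s l) = MvPolynomial.eval s P := by
  obtain ⟨P, hP⟩ := B_pol_E D hD (sE l - w) (l.map B_mom)
  refine ⟨(-1) ^ ((l.map fun a => a.R.length).sum) * P, ?_⟩
  intro s
  unfold B_x
  have e1 : B_rl (B_evl s l) = (l.map fun a => a.R.length).sum := by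
    unfold B_rl B_evl
    rw [List.map_map]
    congr 1
    apply List.map_congr_left
    intro a _
    simp
  have e2 : sE (B_evl s l) = MvPolynomial.eval s (sE l) := by
    unfold sE B_evl
    rw [map_list_sum, List.map_map, List.map_map]
    congr 1
    apply List.map_congr_left
    intro a _
    simp only [Function.comp_apply]
    rw [B_getLastD_map]
  have e3 : (B_evl s l).map B_mom = B_evs s (l.map B_mom) := by
    unfold B_evl B_evs
    rw [List.map_map, List.map_map]
    apply List.map_congr_left
    intro a _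
    simp only [Function.comp_apply, B_mom]
    rw [List.map_reverse, ← B_dif_eval, ← B_dif_eval]
    simp
  rw [e1, e2, e3, map_mul, ← hP]
  simp

theorem B_vars (n : ℕ) (l : List ℚ) (hl : l.length = n) :
    ((List.range n).map fun i => (MvPolynomial.X i : MvPolynomial ℕ ℚ)).map
      (MvPolynomial.eval (fun i => l.getD i 0)) = l := by
  rw [List.map_map]
  apply List.ext_getElem
  · simp [hl]
  · intro i h1 h2
    simp [h2]

theorem B_PolyED (D : List Sl → ℚ) (hD : PolyS D) (a b c : ℚ) (R L : List ℚ)
    (t : List (Slot ℚ)) :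
    PolyED (fun w A B => B_x D (w + a)
        (⟨A.dropLast.map (· + b), A.getLastD 0 + b, R⟩
          :: ⟨L, B.headD 0 + c, B.tail.map (· + c)⟩ :: t)) := by
  intro p q
  obtain ⟨V, hV⟩ : ∃ V : List (MvPolynomial ℕ ℚ),
    V = (List.range (1 + p + q)).map fun i => MvPolynomial.X i := ⟨_, rfl⟩
  obtain ⟨P, hP⟩ := B_pol_x D hD (V.headD 0 + MvPolynomial.C a)
    (⟨((V.drop 1).take p).dropLast.map (· + MvPolynomial.C b),
        ((V.drop 1).take p).getLastD 0 + MvPolynomial.C b, R.map MvPolynomial.C⟩
      :: ⟨L.map MvPolynomial.C, ((V.drop 1).drop p).headD 0 + MvPolynomial.C c,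
        ((V.drop 1).drop p).tail.map (· + MvPolynomial.C c)⟩
      :: t.map fun a => ⟨a.L.map MvPolynomial.C, MvPolynomial.C a.m, a.R.map MvPolynomial.C⟩)
  refine ⟨P, ?_⟩
  intro l hl
  rw [← hP]
  have hv := B_vars (1 + p + q) l hl
  rw [← hV] at hv
  obtain ⟨s, hs⟩ : ∃ s : ℕ → ℚ, s = fun i => l.getD i 0 := ⟨_, rfl⟩
  rw [← hs] at hv ⊢
  have hC : ∀ r : List ℚ, (r.map (MvPolynomial.C : ℚ →+* MvPolynomial ℕ ℚ)).map
      (MvPolynomial.eval s) = r := by
    intro r
    rw [List.map_map]
    conv_rhs => rw [← List.map_id r]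
    apply List.map_congr_left
    intro x _
    simp
  have hadd : ∀ (r : List (MvPolynomial ℕ ℚ)) (d : ℚ),
      (r.map (· + MvPolynomial.C d)).map (MvPolynomial.eval s)
        = (r.map (MvPolynomial.eval s)).map (· + d) := by
    intro r d
    rw [List.map_map, List.map_map]
    apply List.map_congr_left
    intro x _
    simp
  have ht : ((t.map fun a => (⟨a.L.map MvPolynomial.C, MvPolynomial.C a.m,
      a.R.map MvPolynomial.C⟩ : Slot (MvPolynomial ℕ ℚ))).map
      fun a => (⟨a.L.map (MvPolynomial.eval s), MvPolynomial.eval s a.m,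
    a.R.map (MvPolynomial.eval s)⟩ : Slot ℚ)) = t := by
    rw [List.map_map]
    conv_rhs => rw [← List.map_id t]
    apply List.map_congr_left
    intro x _
    simp only [Function.comp_apply, id]
    rw [hC, hC, MvPolynomial.eval_C]
  simp only [B_evl, List.map_cons]
  have k1 : ((V.drop 1).take p).map (MvPolynomial.eval s) = (l.drop 1).take p := by
    rw [List.map_take, List.map_drop, hv]
  have k2 : ((V.drop 1).drop p).map (MvPolynomial.eval s) = (l.drop 1).drop p := by
    rw [List.map_drop, List.map_drop, hv]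
  have k3 : ((V.drop 1).take p).dropLast.map (MvPolynomial.eval s)
      = ((l.drop 1).take p).dropLast := by
    rw [List.map_dropLast, k1]
  have k4 : ((V.drop 1).drop p).tail.map (MvPolynomial.eval s)
      = ((l.drop 1).drop p).tail := by
    rw [List.map_tail, k2]
  rw [ht, hC, hC, hadd, hadd, map_add, map_add, map_add, MvPolynomial.eval_C,
    MvPolynomial.eval_C, MvPolynomial.eval_C, ← B_headD_map, ← B_headD_map, ← B_getLastD_map,
    k1, k2, k3, k4, hv]

/-! ### values at zero -/

theorem B_EF_zero (D : List Sl → ℚ) (hD : ∀ gs : List Sl, (∀ x ∈ flat gs, x = 0) → D gs = 0) :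
    ∀ (n : ℕ) (gs : List Sl), (∀ x ∈ flat gs, x = 0) → B_EF D n 0 gs = 0 := by
  intro n
  induction n with
  | zero =>
    intro gs h
    cases gs with
    | nil => rfl
    | cons g rest =>
      rw [B_EF]
      apply hD
      intro x hx
      simp only [flat, List.flatMap_cons, List.mem_append, List.mem_cons] at hx h
      rcases hx with (hx | hx | hx) | hx
      · exact h x (Or.inl (Or.inl hx))
      · exact hx
      · exact h x (Or.inl (Or.inr hx))
      · exact h x (Or.inr hx)
  | succ n ih =>
    intro gs h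
    cases gs with
    | nil => rfl
    | cons g rest =>
      have h0 : ∀ x ∈ flat ((g.1, (0 : ℚ) :: g.2) :: rest), x = 0 := by
        intro x hx
        simp only [flat, List.flatMap_cons, List.mem_append, List.mem_cons] at hx h
        rcases hx with (hx | hx | hx) | hx
        · exact h x (Or.inl (Or.inl hx))
        · exact hx
        · exact h x (Or.inl (Or.inr hx))
        · exact h x (Or.inr hx)
      rw [B_EF, hD _ h0, zero_sub, neg_eq_zero]
      have hmem : ∀ (rest : List Sl), (∀ x ∈ flat rest, x = 0) → ∀ q ∈ B_mods dv rest,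
          q.1 = 0 ∧ ∀ x ∈ flat q.2, x = 0 := by
        intro rest
        induction rest with
        | nil => intro _ q hq; simp [B_mods] at hq
        | cons g' rest ih' =>
          intro hr q hq
          have hr' : ∀ x ∈ flat rest, x = 0 := by
            intro x hx
            apply hr
            simp only [flat, List.flatMap_cons, List.mem_append] at hx ⊢
            exact Or.inr hx
          rw [B_mods, List.mem_append, List.mem_map, List.mem_map] at hq
          rcases hq with ⟨r, hr1, rfl⟩ | ⟨r, hr1, rfl⟩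
          · unfold dv at hr1
            split_ifs at hr1 with hh
            · simp only [List.mem_singleton] at hr1
              subst hr1
              constructor
              · apply hr
                simp only [flat, List.flatMap_cons, List.mem_append]
                left; right
                cases hg : g'.2 with
                | nil => rw [hg] at hh; simp at hh
                | cons y v => simp
              · intro x hx
                apply hr
                simp only [flat, List.flatMap_cons, List.mem_append] at hx ⊢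
                rcases hx with (hx | hx) | hx
                · exact Or.inl (Or.inl hx)
                · exact Or.inl (Or.inr (List.mem_of_mem_tail hx))
                · exact Or.inr hx
            · simp at hr1
          · obtain ⟨b1, b2⟩ := ih' hr' r hr1
            refine ⟨b1, ?_⟩
            intro x hx
            simp only [flat, List.flatMap_cons, List.mem_append] at hx
            rcases hx with hx | hx
            · apply hr
              simp only [flat, List.flatMap_cons, List.mem_append]
              exact Or.inl hx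
            · exact b2 x hx
      apply B_osum_zero
      intro q hq
      have hrest : ∀ x ∈ flat rest, x = 0 := by
        intro x hx
        apply h
        simp only [flat, List.flatMap_cons, List.mem_append] at hx ⊢
        exact Or.inr hx
      obtain ⟨b1, b2⟩ := hmem rest hrest q hq
      rw [b1]
      apply ih
      intro x hx
      simp only [flat, List.flatMap_cons, List.mem_append, List.mem_cons] at hx h
      rcases hx with (hx | hx | hx) | hx
      · exact h x (Or.inl (Or.inl hx))
      · exact hx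
      · exact h x (Or.inl (Or.inr hx))
      · exact b2 x hx

theorem B_dif_replicate (n : ℕ) : ∀ x ∈ B_dif (List.replicate n (0 : ℚ)), x = 0 := by
  induction n with
  | zero => intro x hx; simp [B_dif] at hx
  | succ n ih =>
    cases n with
    | zero => intro x hx; simp [B_dif] at hx
    | succ n =>
      intro x hx
      rw [List.replicate_succ, List.replicate_succ, B_dif, List.mem_cons] at hx
      rcases hx with rfl | hx
      · ring
      · rw [← List.replicate_succ] at hx
        exact ih x hx

theorem B_x_zero (D : List Sl → ℚ) (hD : ∀ gs : List Sl, (∀ x ∈ flat gs, x = 0) → D gs = 0)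
    (l : List (Slot ℚ)) :
    B_x D 0 (l.map fun a => ⟨List.replicate a.L.length 0, 0, List.replicate a.R.length 0⟩)
      = 0 := by
  unfold B_x
  have e1 : sE (l.map fun a => (⟨List.replicate a.L.length 0, 0, List.replicate a.R.length 0⟩ :
      Slot ℚ)) = 0 := by
    unfold sE
    rw [List.map_map]
    apply List.sum_eq_zero
    intro x hx
    rw [List.mem_map] at hx
    obtain ⟨a, _, rfl⟩ := hx
    simp only [Function.comp_apply]
    cases h : a.R.length with
    | zero => simp
    | succ k => rw [List.replicate_succ', List.getLastD_concat]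
  rw [e1, sub_zero]
  unfold B_E
  rw [B_EF_zero D hD, mul_zero]
  intro x hx
  simp only [flat, List.mem_flatMap, List.mem_map, List.mem_append] at hx
  obtain ⟨g, ⟨a, ⟨b, _, rfl⟩, rfl⟩, hx⟩ := hx
  simp only [B_mom] at hx
  rcases hx with hx | hx
  · rw [← List.replicate_succ'] at hx
    exact B_dif_replicate _ x hx
  · rw [List.mem_reverse, ← List.replicate_succ] at hx
    exact B_dif_replicate _ x hx

/-! ### positions from momenta -/

theorem B_ex_L (c : ℚ) : ∀ u : List ℚ, ∃ L : List ℚ, B_dif (L ++ [c]) = u := by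
  intro u
  induction u with
  | nil => exact ⟨[], rfl⟩
  | cons a u ih =>
    obtain ⟨L, hL⟩ := ih
    refine ⟨(a + (L ++ [c]).headD 0) :: L, ?_⟩
    rw [List.cons_append, B_dif_cons _ _ (by simp), hL]
    congr 1
    ring

theorem B_ex_R : ∀ (v : List ℚ) (c : ℚ), ∃ R : List ℚ, B_dif (c :: R) = v := by
  intro v
  induction v with
  | nil => intro c; exact ⟨[], rfl⟩
  | cons a v ih =>
    intro c
    obtain ⟨R, hR⟩ := ih (c - a)
    refine ⟨(c - a) :: R, ?_⟩
    rw [B_dif, hR]
    congr 1
    ring

theorem B_ex_slot (g : Sl) : ∃ a : Slot ℚ, B_mom a = g := by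
  obtain ⟨L, hL⟩ := B_ex_L 0 g.1
  obtain ⟨R, hR⟩ := B_ex_R g.2.reverse 0
  refine ⟨⟨L, 0, R⟩, ?_⟩
  simp only [B_mom]
  rw [hL, hR, List.reverse_reverse]

theorem B_ex_slots : ∀ gs : List Sl, ∃ l : List (Slot ℚ), l.map B_mom = gs := by
  intro gs
  induction gs with
  | nil => exact ⟨[], rfl⟩
  | cons g gs ih =>
    obtain ⟨a, ha⟩ := B_ex_slot g
    obtain ⟨l, hl⟩ := ih
    exact ⟨a :: l, by rw [List.map_cons, ha, hl]⟩

theorem B_nl_mom (l : List (Slot ℚ)) : nl (l.map B_mom) = tsize l := by
  unfold nl tsize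
  rw [List.map_map]
  congr 1
  apply List.map_congr_left
  intro a _
  simp only [Function.comp_apply]
  rw [B_mom_len1, B_mom_len2]
  rfl

theorem B_ok_mom (l : List (Slot ℚ)) : (∀ a ∈ l, a.ok) ↔ uvok (l.map B_mom) := by
  constructor
  · intro h g hg
    rw [List.mem_map] at hg
    obtain ⟨a, ha, rfl⟩ := hg
    have := h a ha
    exact ⟨B_ne_nil (by rw [B_mom_len1]; exact this.1), B_ne_nil (by rw [B_mom_len2]; exact this.2)⟩
  · intro h a ha
    have := h (B_mom a) (List.mem_map_of_mem ha)
    exact ⟨by rw [← B_mom_len1]; exact B_one_le this.1,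
      by rw [← B_mom_len2]; exact B_one_le this.2⟩

theorem B_flat_mom (l : List (Slot ℚ)) (hl : ∀ a ∈ l, a.ok) :
    (flat (l.map B_mom)).sum = sF l - sE l ∧ vsum (l.map B_mom) = sM l - sE l := by
  induction l with
  | nil => simp [flat, vsum, sF, sM, sE]
  | cons a l ih =>
    obtain ⟨i1, i2⟩ := ih (fun b hb => hl b (by simp [hb]))
    have ha := hl a (by simp)
    have hL : 1 ≤ a.L.length := ha.1
    have hR : 1 ≤ a.R.length := ha.2
    have e1 : (B_mom a).1.sum = a.L.headD 0 - a.m := by
      simp only [B_mom]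
      rw [B_dif_sum _ (by simp), B_headD_append hL, List.getLastD_concat]
    have e2 : (B_mom a).2.sum = a.m - a.R.getLastD 0 := by
      simp only [B_mom]
      rw [List.sum_reverse, B_dif_sum _ (by simp)]
      obtain ⟨b, t, hb⟩ : ∃ b t, a.R = b :: t := by
        cases h : a.R with
        | nil => rw [h] at hR; simp at hR
        | cons b t => exact ⟨b, t, rfl⟩
      rw [hb]
      simp [List.getLastD_eq_getLast?]
    constructor
    · simp only [flat, List.map_cons, List.flatMap_cons, List.sum_append, sF, sE,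
        List.sum_cons] at i1 ⊢
      rw [e1, e2, i1]
      ring
    · simp only [vsum, List.map_cons, sM, sE, List.sum_cons] at i2 ⊢
      rw [e2, i2]
      ring

/-! ### the piece -/

theorem p_B : S_B := by
  intro hED p m D D' hp hK
  obtain ⟨k, rfl⟩ : ∃ k, p = k + 2 := ⟨p - 2, by omega⟩
  intro gs hgs hok hm
  obtain ⟨N, rfl⟩ : ∃ N, m = N + 1 := by
    refine ⟨m - 1, ?_⟩
    have : 1 ≤ nl gs := by
      cases gs with
      | nil => simp at hgs
      | cons g gs =>
        have := B_one_le (hok g (by simp)).1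
        simp only [nl, List.map_cons, List.sum_cons]
        omega
    omega
  have hPS : PSeq (B_x D) (k + 2) N := by
    intro l h1 h2 h3
    have g1 : uvok (l.map B_mom) := (B_ok_mom l).mp h1
    have g2 : (l.map B_mom).length = k + 2 := by simpa using h2
    have g3 : nl (l.map B_mom) = N + 1 := by rw [B_nl_mom, h3]
    obtain ⟨x1, x2⟩ := B_X (k + 2) (N + 1) D D' hK (by omega) _ g2 g1 g3
    have x3 := B_Y (k + 2) (N + 1) D D' hK (by omega) _ g2 g1 g3
    obtain ⟨f1, f2⟩ := B_flat_mom l h1
    have e1 : - (flat (l.map B_mom)).sum = sE l - sF l := by rw [f1]; ring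
    have e2 : - vsum (l.map B_mom) = sE l - sM l := by rw [f2]; ring
    rw [e1] at x2
    rw [e2] at x3
    have h := B_PSsum l h1 (B_E D) 1 0 (sF l) (sM l) (sE l) (by ring)
    have e3 : (fun (w : ℚ) (t : List (Slot ℚ)) =>
        1 * (-1) ^ (B_rl t) * B_E D (0 + sE t - w) (t.map B_mom)) = B_x D := by
      funext w t
      unfold B_x
      rw [one_mul, zero_add]
    rw [e3] at h
    rw [h, ← x1, ← x2, ← x3, sub_self, mul_zero]
  have hcon := PS_of_ED PolyED hED (B_x D) (B_PolyED D hK.polD) k N hPS
  have hE : ∀ (ρ : ℚ) (hs : List Sl), hs.length = k + 2 → uvok hs → nl hs = N →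
      B_E D ρ hs = 0 := by
    intro ρ hs h1 h2 h3
    obtain ⟨l, rfl⟩ := B_ex_slots hs
    have ok : ∀ a ∈ l, a.ok := (B_ok_mom l).mpr h2
    have len : l.length = k + 2 := by simpa using h1
    have sz : tsize l = N := by rw [← B_nl_mom, h3]
    have h := hcon (sE l - ρ) 0 l
      (l.map fun a => ⟨List.replicate a.L.length 0, 0, List.replicate a.R.length 0⟩) ok len sz
      (by
        rw [List.forall₂_map_right_iff]
        apply List.forall₂_same.mpr
        intro a _
        constructor <;> simp)
    rw [B_x_zero D hK.zeroD] at h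
    unfold B_x at h
    rw [sub_sub_cancel] at h
    rcases mul_eq_zero.mp h with h | h
    · exact absurd h (pow_ne_zero _ (by norm_num))
    · exact h
  obtain ⟨x1, x2⟩ := B_X (k + 2) (N + 1) D D' hK (by omega) gs hgs hok hm
  constructor
  · rw [x1]
    apply B_osum_zero
    intro q hq
    obtain ⟨b1, b2, b3⟩ := B_mods_good dv B_good_dv gs hok q hq
    exact hE _ _ (by omega) b1 (by omega)
  · rw [x2]
    apply B_osum_zero
    intro q hq
    obtain ⟨b1, b2, b3⟩ := B_mods_good du B_good_du gs hok q hq
    exact hE _ _ (by omega) b1 (by omega)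

end Pent
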