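import Pool.Agent.Lib.MP_a57f33_nt.PN.Stm1

/-!
# Pentagon project (MP_a57f33_nt), piece `F1`
-/

namespace Pent

open Pool.Agent.MP_a57f33_nt
open Pool.Agent.MP_a57f33_nt.Cyc (shuffle)

attribute [local instance 100] LieRing.ofAssociativeRing

noncomputable section

/-! ### The involution on coefficient functions -/

private def F1_Inv : (List (Fin 3) → ℚ) → List (Fin 3) → ℚ
  | g, [] => g []
  | g, i :: w => (if i = 0 then 0 else F1_Inv (fun t => g (i :: t)) w) -
      F1_Inv (fun t => g (0 :: t)) w

private theorem F1_Inv_smul (w : List (Fin 3)) : ∀ (r : ℚ) (g : List (Fin 3) → ℚ),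
    F1_Inv (fun t => r * g t) w = r * F1_Inv g w := by
  induction w with
  | nil => intro r g; rfl
  | cons i w ih =>
    intro r g
    simp only [F1_Inv, ih]
    split_ifs <;> ring

private theorem F1_coeff_inv (f : T3) (w : List (Fin 3)) :
    coeff (inv3 f) w = F1_Inv (coeff f) w := by
  have key : ∀ (v w : List (Fin 3)), coeff (inv3 (word v)) w = F1_Inv (coeff (word v)) w := by
    intro v
    induction v with
    | nil =>
      intro w
      cases w with
      | nil => simp [F1_Inv]
      | cons i w =>
        have e : ∀ j : Fin 3, (fun t => coeff (word ([] : List (Fin 3))) (j :: t)) =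
            fun t => 0 * (0 : ℚ) := by
          intro j; funext t; rw [coeff_word]; simp
        simp only [F1_Inv, e, F1_Inv_smul]
        rw [word_nil, map_one, ← word_nil, coeff_word]
        simp
    | cons j v ih =>
      intro w
      have e1 : inv3 (word (j :: v)) = (![-xa - xb - xc, xb, xc] j) * inv3 (word v) := by
        rw [word_cons, map_mul]
        unfold inv3
        rw [FreeAlgebra.lift_ι_apply]
      cases w with
      | nil =>
        have e2 : ∀ q : T3, coeff ((![-xa - xb - xc, xb, xc] j) * q) [] = 0 := by
          intro q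
          fin_cases j
          · simp only [Fin.zero_eta, Fin.isValue, Matrix.cons_val_zero]
            rw [sub_mul, sub_mul, neg_mul, coeff_sub, coeff_sub, ← neg_one_smul ℚ (xa * q),
              coeff_smul]
            unfold xa xb xc
            rw [coeff_iota_mul_nil, coeff_iota_mul_nil, coeff_iota_mul_nil]
            ring
          · exact coeff_iota_mul_nil _ _
          · exact coeff_iota_mul_nil _ _
        rw [e1, e2]
        simp only [F1_Inv]
        rw [word_cons, coeff_iota_mul_nil]
      | cons i w =>
        have e2 : ∀ q : T3, coeff ((![-xa - xb - xc, xb, xc] j) * q) (i :: w) =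
            (if i = 0 then 0 else if i = j then coeff q w else 0) -
              (if (0 : Fin 3) = j then coeff q w else 0) := by
          intro q
          fin_cases j
          · simp only [Fin.zero_eta, Fin.isValue, Matrix.cons_val_zero]
            rw [sub_mul, sub_mul, neg_mul, coeff_sub, coeff_sub, ← neg_one_smul ℚ (xa * q),
              coeff_smul]
            unfold xa xb xc
            rw [coeff_iota_mul_cons, coeff_iota_mul_cons, coeff_iota_mul_cons]
            fin_cases i <;> simp
          · simp only [Fin.mk_one, Fin.isValue, Matrix.cons_val_one, Matrix.cons_val_zero]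
            unfold xb
            rw [coeff_iota_mul_cons]
            fin_cases i <;> simp
          · have e3 : (![-xa - xb - xc, xb, xc] : Fin 3 → T3) ⟨2, by decide⟩ =
              FreeAlgebra.ι ℚ 2 := rfl
            rw [e3, coeff_iota_mul_cons]
            fin_cases i <;> simp
        have e4 : ∀ k : Fin 3, (fun t => coeff (word (j :: v)) (k :: t)) =
            fun t => (if k = j then (1 : ℚ) else 0) * coeff (word v) t := by
          intro k; funext t
          rw [word_cons, coeff_iota_mul_cons]
          split_ifs <;> simp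
        rw [e1, e2, ih]
        simp only [F1_Inv, e4, F1_Inv_smul]
        split_ifs <;> simp
  let F : T3 →ₗ[ℚ] ℚ :=
    { toFun := fun f => F1_Inv (coeff f) w
      map_add' := by
        intro x y
        have h : ∀ (w : List (Fin 3)) (g g' : List (Fin 3) → ℚ),
            F1_Inv (fun t => g t + g' t) w = F1_Inv g w + F1_Inv g' w := by
          intro w
          induction w with
          | nil => intro g g'; rfl
          | cons i w ih =>
            intro g g'
            simp only [F1_Inv, ih]
            split_ifs <;> ring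
        rw [← h]
        congr 1
        funext t; exact coeff_add _ _ _
      map_smul' := by
        intro r x
        simp only [RingHom.id_apply, smul_eq_mul]
        rw [← F1_Inv_smul]
        congr 1
        funext t; exact coeff_smul _ _ _ }
  have : (coeffL w).comp inv3.toLinearMap = F := by
    apply linear_ext
    intro v
    exact key v w
  exact LinearMap.congr_fun this f

private theorem F1_inv_inv (f : T3) : inv3 (inv3 f) = f := by
  have h : inv3.comp inv3 = AlgHom.id ℚ T3 := by
    apply FreeAlgebra.hom_ext
    funext i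
    simp only [Function.comp_apply, AlgHom.coe_comp, AlgHom.id_apply]
    have h0 : inv3 xa = -xa - xb - xc := by
      unfold inv3 xa; rw [FreeAlgebra.lift_ι_apply]; rfl
    have h1 : inv3 xb = xb := by
      unfold inv3 xb; rw [FreeAlgebra.lift_ι_apply]; rfl
    have h2 : inv3 xc = xc := by
      unfold inv3 xc; rw [FreeAlgebra.lift_ι_apply]; rfl
    fin_cases i
    · change inv3 (inv3 xa) = xa
      rw [h0, map_sub, map_sub, map_neg, h0, h1, h2]
      abel
    · change inv3 (inv3 xb) = xb
      rw [h1, h1]
    · change inv3 (inv3 xc) = xc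
      rw [h2, h2]
  exact AlgHom.congr_fun h f

/-- the words in which no `b` is before a `c` -/
private def F1_cls (t : List (Fin 3)) : Prop := t.Pairwise fun x y => ¬ (x = 1 ∧ y = 2)

private theorem F1_cls_split {t : List (Fin 3)} (h : F1_cls t) :
    ∃ u w, t = u ++ w ∧ 1 ∉ u ∧ 2 ∉ w := by
  induction t with
  | nil => exact ⟨[], [], rfl, by simp, by simp⟩
  | cons i t ih =>
    unfold F1_cls at h ih
    rw [List.pairwise_cons] at h
    by_cases hi : i = 1
    · refine ⟨[], i :: t, rfl, by simp, ?_⟩
      intro h2
      rcases List.mem_cons.mp h2 with h2 | h2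
      · rw [hi] at h2; exact absurd h2 (by decide)
      · exact h.1 2 h2 ⟨hi, rfl⟩
    · obtain ⟨u, w, e, h1, h2⟩ := ih h.2
      refine ⟨i :: u, w, by rw [e]; rfl, ?_, h2⟩
      intro h3
      rcases List.mem_cons.mp h3 with h3 | h3
      · exact hi h3.symm
      · exact h1 h3

private theorem F1_cls_append {u w : List (Fin 3)} (h1 : 1 ∉ u) (h2 : 2 ∉ w) :
    F1_cls (u ++ w) := by
  unfold F1_cls
  rw [List.pairwise_append]
  refine ⟨?_, ?_, ?_⟩
  · apply List.Pairwise.imp_of_mem (R := fun _ _ => True)
    · intro a b ha _ _ h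
      exact h1 (h.1 ▸ ha)
    · exact List.pairwise_of_forall (fun _ _ => trivial)
  · apply List.Pairwise.imp_of_mem (R := fun _ _ => True)
    · intro a b _ hb _ h
      exact h2 (h.2 ▸ hb)
    · exact List.pairwise_of_forall (fun _ _ => trivial)
  · intro a ha b _ h
    exact h1 (h.1 ▸ ha)

/-- words without a letter `x ≠ 0` -/
private theorem F1_Inv_no (x : Fin 3) (hx : x ≠ 0) (w : List (Fin 3)) :
    ∀ g : List (Fin 3) → ℚ, (∀ t, x ∉ t → g t = 0) → x ∉ w → F1_Inv g w = 0 := by
  induction w with
  | nil => intro g hg _; exact hg [] (by simp)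
  | cons i w ih =>
    intro g hg hw
    have hi : i ≠ x := fun e => hw (by rw [e]; exact List.mem_cons_self)
    have hw' : x ∉ w := fun e => hw (List.mem_cons_of_mem _ e)
    simp only [F1_Inv]
    rw [ih (fun t => g (i :: t)) (fun t ht => hg _ (by simp [ht, hi.symm])) hw',
      ih (fun t => g (0 :: t)) (fun t ht => hg _ (by simp [ht, hx])) hw']
    simp

private theorem F1_Inv_cls (u w : List (Fin 3)) (h1 : 1 ∉ u) (h2 : 2 ∉ w) :
    ∀ g : List (Fin 3) → ℚ, (∀ u w, 1 ∉ u → 2 ∉ w → g (u ++ w) = 0) →
      F1_Inv g (u ++ w) = 0 := by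
  induction u with
  | nil =>
    intro g hg
    exact F1_Inv_no 2 (by decide) w g (fun t ht => hg [] t (by simp) ht) h2
  | cons i u ih =>
    intro g hg
    have hi : i ≠ 1 := fun e => h1 (by rw [e]; exact List.mem_cons_self)
    have h1' : 1 ∉ u := fun e => h1 (List.mem_cons_of_mem _ e)
    rw [List.cons_append]
    simp only [F1_Inv]
    rw [ih h1' (fun t => g (i :: t)) (fun p q hp hq => hg (i :: p) q (by simp [hp, hi.symm]) hq),
      ih h1' (fun t => g (0 :: t)) (fun p q hp hq => hg (0 :: p) q (by simp [hp]) hq)]
    simp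

private theorem F1_Inv_cls' {t : List (Fin 3)} (ht : F1_cls t) (g : List (Fin 3) → ℚ)
    (hg : ∀ t, F1_cls t → g t = 0) : F1_Inv g t = 0 := by
  obtain ⟨u, w, rfl, h1, h2⟩ := F1_cls_split ht
  exact F1_Inv_cls u w h1 h2 g (fun u w h1 h2 => hg _ (F1_cls_append h1 h2))

private theorem F1_cls_zero_cons {t : List (Fin 3)} (ht : F1_cls t) : F1_cls (0 :: t) := by
  unfold F1_cls at *
  rw [List.pairwise_cons]
  exact ⟨fun y _ h => absurd h.1 (by decide), ht⟩

/-- words of the class without the letter `0`, for functions vanishing on words of the class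
with the letter `0` -/
private theorem F1_Inv_eq (t : List (Fin 3)) : ∀ g : List (Fin 3) → ℚ,
    F1_cls t → 0 ∉ t → (∀ s, F1_cls s → 0 ∈ s → g s = 0) → F1_Inv g t = g t := by
  induction t with
  | nil => intro g _ _ _; rfl
  | cons i t ih =>
    intro g ht h0 hg
    have hi : i ≠ 0 := fun e => h0 (by rw [e]; exact List.mem_cons_self)
    have h0' : 0 ∉ t := fun e => h0 (List.mem_cons_of_mem _ e)
    have ht' : F1_cls t := by
      unfold F1_cls at *
      exact (List.pairwise_cons.mp ht).2
    simp only [F1_Inv, if_neg hi]
    have e1 : F1_Inv (fun t => g (0 :: t)) t = 0 :=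
      F1_Inv_cls' ht' _ (fun s hs => hg _ (F1_cls_zero_cons hs) (by simp))
    by_cases hi1 : i = 1
    · -- words in the letters `0`, `1`
      have hno2 : 2 ∉ t := by
        intro h2
        unfold F1_cls at ht
        exact (List.pairwise_cons.mp ht).1 2 h2 ⟨hi1, rfl⟩
      have key : ∀ (t : List (Fin 3)) (g : List (Fin 3) → ℚ), 2 ∉ t → 0 ∉ t →
          (∀ s, 2 ∉ s → 0 ∈ s → g s = 0) → F1_Inv g t = g t := by
        intro t
        induction t with
        | nil => intro g _ _ _; rfl
        | cons j t ih2 =>
          intro g k2 k0 kg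
          have hj0 : j ≠ 0 := fun e => k0 (by rw [e]; exact List.mem_cons_self)
          have hj2 : j ≠ 2 := fun e => k2 (by rw [e]; exact List.mem_cons_self)
          have k0' : 0 ∉ t := fun e => k0 (List.mem_cons_of_mem _ e)
          have k2' : 2 ∉ t := fun e => k2 (List.mem_cons_of_mem _ e)
          simp only [F1_Inv, if_neg hj0]
          rw [ih2 (fun t => g (j :: t)) k2' k0' (fun s hs hs0 => kg _ (by simp [hs, hj2.symm])
            (List.mem_cons_of_mem _ hs0)),
            F1_Inv_no 2 (by decide) t (fun t => g (0 :: t))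
              (fun s hs => kg _ (by simp [hs]) (by simp)) k2']
          ring
      rw [key t (fun t => g (i :: t)) hno2 h0' (fun s hs hs0 => hg _ ?_
        (List.mem_cons_of_mem _ hs0)), e1]
      · ring
      · have : i :: s = [] ++ (i :: s) := rfl
        rw [this]
        apply F1_cls_append (by simp)
        rw [hi1]
        simp [hs]
    · rw [ih (fun t => g (i :: t)) ht' h0' (fun s hs hs0 => hg _ ?_
        (List.mem_cons_of_mem _ hs0)), e1]
      · ring
      · unfold F1_cls at *
        rw [List.pairwise_cons]
        exact ⟨fun y _ h => hi1 h.1, hs⟩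

/-! ### Words `wPV` -/

private def F1_B (x : Fin 3) (V : List ℕ+) : List (Fin 3) :=
  V.flatMap fun n : ℕ+ => List.replicate ((n : ℕ) - 1) 0 ++ [x]

private theorem F1_coe (x : Fin 3) (V : List ℕ+) :
    (V.flatMap fun n => List.replicate ((n : ℕ) - 1) 0 ++ [x]) = F1_B x V := by
  unfold F1_B
  induction V with
  | nil => rfl
  | cons n V ih =>
    rw [List.flatMap_cons (x := n), ← ih]
    rfl

private theorem F1_wPV (p V : List ℕ+) : wPV p V = F1_B 2 p.reverse ++ F1_B 1 V := by
  rw [← F1_coe, ← F1_coe]
  rfl

private theorem F1_B_ex (x : Fin 3) (w : List (Fin 3)) (h : ∀ i ∈ w, i = 0 ∨ i = x) :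
    ∃ V : List ℕ+, V ≠ [] ∧ w ++ [x] = F1_B x V := by
  induction w with
  | nil => exact ⟨[1], by simp, by simp [F1_B]⟩
  | cons i w ih =>
    obtain ⟨V, hV, e⟩ := ih (fun j hj => h j (List.mem_cons_of_mem _ hj))
    obtain ⟨n, V', rfl⟩ := List.exists_cons_of_ne_nil hV
    rcases h i List.mem_cons_self with hi | hi
    · refine ⟨(n + 1) :: V', by simp, ?_⟩
      have e2 : (((n + 1 : ℕ+) : ℕ) - 1) = ((n : ℕ) - 1) + 1 := by
        have := n.pos
        rw [PNat.add_coe, PNat.one_coe]
        omega
      rw [List.cons_append, e]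
      unfold F1_B
      rw [List.flatMap_cons, List.flatMap_cons, e2, List.replicate_succ, hi]
      simp
    · refine ⟨1 :: n :: V', by simp, ?_⟩
      rw [List.cons_append, e]
      unfold F1_B
      rw [List.flatMap_cons (x := 1)]
      simp [hi]

private theorem F1_B_ex2 (u : List (Fin 3)) (h : 1 ∉ u) :
    ∃ (p : List ℕ+) (k : ℕ), u = F1_B 2 p ++ List.replicate k 0 := by
  induction u using List.reverseRecOn with
  | nil => exact ⟨[], 0, by simp [F1_B]⟩
  | append_singleton u i ih =>
    have hi : i ≠ 1 := fun e => h (by simp [e])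
    have hu : 1 ∉ u := fun e => h (by simp [e])
    by_cases h0 : i = 0
    · obtain ⟨p, k, e⟩ := ih hu
      refine ⟨p, k + 1, ?_⟩
      rw [e, h0, List.replicate_succ', List.append_assoc]
    · have h2 : i = 2 := by
        fin_cases i
        · exact absurd rfl h0
        · exact absurd rfl hi
        · rfl
      obtain ⟨V, _, e⟩ := F1_B_ex 2 u (fun j hj => by
        fin_cases j
        · left; rfl
        · exact absurd hj hu
        · right; rfl)
      refine ⟨V, 0, ?_⟩
      rw [h2, e]
      simp

private theorem F1_wPV_ex {t : List (Fin 3)} (h : F1_cls t) :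
    ∃ p V : List ℕ+, V ≠ [] ∧ t ++ [1] = wPV p V := by
  obtain ⟨u, w, rfl, h1, h2⟩ := F1_cls_split h
  obtain ⟨p, k, e⟩ := F1_B_ex2 u h1
  obtain ⟨V, hV, e2⟩ := F1_B_ex 1 (List.replicate k 0 ++ w) (fun j hj => by
    rcases List.mem_append.mp hj with hj | hj
    · left; exact List.eq_of_mem_replicate hj
    · fin_cases j
      · left; rfl
      · right; rfl
      · exact absurd hj h2)
  refine ⟨p.reverse, V, hV, ?_⟩
  rw [F1_wPV, List.reverse_reverse, ← e2, e]
  simp

private def F1_s (l : List ℕ+) : ℕ := (l.map fun n : ℕ+ => (n : ℕ)).sum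

private theorem F1_B_count (x : Fin 3) (hx : x ≠ 0) (V : List ℕ+) :
    (F1_B x V).count 0 + V.length = F1_s V := by
  induction V with
  | nil => simp [F1_B, F1_s]
  | cons n V ih =>
    have e : F1_B x (n :: V) = List.replicate ((n : ℕ) - 1) 0 ++ [x] ++ F1_B x V := by
      simp [F1_B]
    have e2 : F1_s (n :: V) = n + F1_s V := by simp [F1_s]
    rw [e, e2, List.count_append, List.count_append, List.count_replicate_self, ← ih]
    have h0 : List.count 0 [x] = 0 := by
      rw [List.count_eq_zero]
      simp [hx.symm]
    rw [h0, List.length_cons]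
    have := n.pos
    omega

private theorem F1_s_append (l l' : List ℕ+) : F1_s (l ++ l') = F1_s l + F1_s l' := by
  simp [F1_s]

private theorem F1_s_reverse (l : List ℕ+) : F1_s l.reverse = F1_s l := by
  simp [F1_s]

private theorem F1_lt (p V : List ℕ+) (h : 0 ∈ wPV p V) :
    p.length + V.length < F1_s p + F1_s V := by
  have h1 := F1_B_count 2 (by decide) p.reverse
  have h2 := F1_B_count 1 (by decide) V
  rw [F1_s_reverse, List.length_reverse] at h1
  have h3 : 0 < (wPV p V).count 0 := List.count_pos_iff.mpr h
  rw [F1_wPV, List.count_append] at h3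
  omega

private theorem F1_FF_congr (n : ℕ) : ∀ (p V : List ℕ+) (Z Z' : List ℕ+ → ℚ),
    p.length + V.length ≤ n →
    (∀ u, u.length ≤ p.length + V.length → F1_s u = F1_s p + F1_s V → Z u = Z' u) →
    FF Z p V = FF Z' p V := by
  induction n with
  | zero =>
    intro p V Z Z' hn h
    have hp : p = [] := by
      apply List.eq_nil_of_length_eq_zero; omega
    subst hp
    rw [FF, FF]
    exact h V (by simp) (by simp [F1_s])
  | succ n ih =>
    intro p V Z Z' hn h
    cases p with
    | nil =>
      rw [FF, FF]
      exact h V (by simp) (by simp [F1_s])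
    | cons m p =>
      cases V with
      | nil => rw [FF, FF]
      | cons k V =>
        have es : ∀ (k : ℕ+) (u : List ℕ+), F1_s (k :: u) = k + F1_s u := by
          intro k u; simp [F1_s]
        simp only [List.length_cons] at hn h
        rw [FF, FF]
        rw [ih (m :: p) V (fun u => Z (k :: u)) (fun u => Z' (k :: u))
            (by simp only [List.length_cons]; omega)
            (fun u hu hs => h _ (by simp only [List.length_cons] at *; omega)
              (by rw [es, hs, es, es]; omega)),
          ih p (m :: V) (fun u => Z (k :: u)) (fun u => Z' (k :: u))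
            (by simp only [List.length_cons]; omega)
            (fun u hu hs => h _ (by simp only [List.length_cons] at *; omega)
              (by rw [es, hs, es, es, es]; omega)),
          ih p ((m + k) :: V) Z Z'
            (by simp only [List.length_cons]; omega)
            (fun u hu hs => h _ (by simp only [List.length_cons] at *; omega)
              (by rw [hs, es, es, es, PNat.add_coe]; omega))]

/-! ### Coefficients of evaluations -/

private def F1_N (i : Fin 3) (f : T3) : Prop := ∀ w, i ∈ w → coeff f w = 0

private theorem F1_conv (i : Fin 3) (w : List (Fin 3)) : ∀ f g : List (Fin 3) → ℚ,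
    (∀ t, i ∈ t → f t = 0) → (∀ t, i ∈ t → g t = 0) → i ∈ w → conv w f g = 0 := by
  induction w with
  | nil => intro f g _ _ h; simp at h
  | cons b w ih =>
    intro f g hf hg h
    simp only [conv]
    rw [hg _ h, mul_zero, zero_add]
    by_cases hb : i = b
    · have : (fun t => f (b :: t)) = fun _ => 0 := by
        funext t; exact hf _ (by simp [hb])
      rw [this, conv_zero_left]
    · have hw : i ∈ w := by
        rcases List.mem_cons.mp h with h | h
        · exact absurd h hb
        · exact h
      exact ih _ _ (fun t ht => hf _ (List.mem_cons_of_mem _ ht)) hg hw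

private theorem F1_N_ev2 (i : Fin 3) (φ : QX) (x y : T3) (hx : F1_N i x) (hy : F1_N i y) :
    F1_N i (ev2 φ x y) := by
  unfold ev2
  induction φ using FreeAlgebra.induction with
  | grade0 r =>
    intro w hw
    rw [AlgHom.commutes, Algebra.algebraMap_eq_smul_one, coeff_smul, ← word_nil, coeff_word,
      if_neg, mul_zero]
    intro e
    rw [← e] at hw
    simp at hw
  | grade1 b =>
    rw [FreeAlgebra.lift_ι_apply]
    cases b
    · exact hx
    · exact hy
  | mul a b ha hb =>
    intro w hw
    rw [map_mul, coeff_mul]
    exact F1_conv i w _ _ ha hb hw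
  | add a b ha hb =>
    intro w hw
    rw [map_add, coeff_add, ha w hw, hb w hw, add_zero]

private theorem F1_N_iota (i j : Fin 3) (h : i ≠ j) : F1_N i (FreeAlgebra.ι ℚ j) := by
  intro w hw
  rw [coeff_iota, if_neg]
  intro e
  rw [e] at hw
  simp [h] at hw

private theorem F1_N_sub (i : Fin 3) (f g : T3) (hf : F1_N i f) (hg : F1_N i g) :
    F1_N i (f - g) := by
  intro w hw
  rw [coeff_sub, hf w hw, hg w hw, sub_zero]

private theorem F1_N_neg (i : Fin 3) (f : T3) (hf : F1_N i f) : F1_N i (-f) := by
  intro w hw
  rw [← neg_one_smul ℚ f, coeff_smul, hf w hw, mul_zero]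

private theorem F1_third (φ : QX) (w : List (Fin 3)) :
    coeff (ev2 φ xa (xb + xc)) w = coeff φ (w.map fun i => decide (i ≠ 0)) := by
  have key : ∀ (v : List Bool) (w : List (Fin 3)), coeff (ev2 (word v) xa (xb + xc)) w =
      coeff (word v) (w.map fun i => decide (i ≠ 0)) := by
    intro v
    induction v with
    | nil =>
      intro w
      have e : ev2 (word ([] : List Bool)) xa (xb + xc) = word ([] : List (Fin 3)) := by
        simp [ev2]
      rw [e, coeff_word, coeff_word]
      cases w <;> simp
    | cons s v ih =>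
      intro w
      have e : ev2 (word (s :: v)) xa (xb + xc) = (if s then xb + xc else xa) *
          ev2 (word v) xa (xb + xc) := by
        unfold ev2
        rw [word_cons, map_mul, FreeAlgebra.lift_ι_apply]
      rw [e]
      cases w with
      | nil =>
        rw [List.map_nil, word_cons, coeff_iota_mul_nil]
        cases s
        · exact coeff_iota_mul_nil _ _
        · rw [if_pos rfl, add_mul, coeff_add]
          unfold xb xc
          rw [coeff_iota_mul_nil, coeff_iota_mul_nil, add_zero]
      | cons i w =>
        rw [List.map_cons, word_cons, coeff_iota_mul_cons, ← ih]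
        cases s
        · simp only [Bool.false_eq_true, if_false]
          unfold xa
          rw [coeff_iota_mul_cons]
          fin_cases i <;> simp
        · rw [if_pos rfl, add_mul, coeff_add]
          unfold xb xc
          rw [coeff_iota_mul_cons, coeff_iota_mul_cons]
          fin_cases i <;> simp
  let G : QX →ₗ[ℚ] T3 :=
    (FreeAlgebra.lift ℚ (fun s : Bool => if s then xb + xc else xa)).toLinearMap
  have : (coeffL w).comp G = coeffL (w.map fun i => decide (i ≠ 0)) := by
    apply linear_ext
    intro v
    exact key v w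
  exact LinearMap.congr_fun this φ

private theorem F1_coeff_sgn (ψ : QX) (w : List Bool) :
    coeff (sgn ψ) w = (-1) ^ (w.count true) * coeff ψ w := by
  have key : ∀ v : List Bool, ev2 (word v) (FreeAlgebra.ι ℚ false) (-FreeAlgebra.ι ℚ true) =
      ((-1 : ℚ) ^ (v.count true)) • word v := by
    intro v
    induction v with
    | nil => simp [ev2]
    | cons s v ih =>
      have e : ev2 (word (s :: v)) (FreeAlgebra.ι ℚ false) (-FreeAlgebra.ι ℚ true) =
          (if s then -FreeAlgebra.ι ℚ true else FreeAlgebra.ι ℚ false) *
          ev2 (word v) (FreeAlgebra.ι ℚ false) (-FreeAlgebra.ι ℚ true) := by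
        unfold ev2
        rw [word_cons, map_mul, FreeAlgebra.lift_ι_apply]
      rw [e, ih, word_cons]
      cases s
      · simp
      · simp [pow_succ]
  let G : QX →ₗ[ℚ] QX := (FreeAlgebra.lift ℚ (fun s : Bool =>
    if s then -FreeAlgebra.ι ℚ true else FreeAlgebra.ι ℚ false)).toLinearMap
  have : (coeffL w).comp G = ((-1 : ℚ) ^ (w.count true)) • coeffL w := by
    apply linear_ext
    intro v
    have h := key v
    change coeffL w (ev2 (word v) (FreeAlgebra.ι ℚ false) (-FreeAlgebra.ι ℚ true)) = _
    rw [h, map_smul, LinearMap.smul_apply, coeffL_apply, coeff_word]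
    by_cases hvw : v = w
    · rw [hvw]
    · rw [if_neg hvw]; simp
  exact LinearMap.congr_fun this ψ

private theorem F1_toX_count (u : List ℕ+) : (toX u).count true = u.length := by
  induction u with
  | nil => simp [toX]
  | cons n u ih =>
    rw [toX, List.count_append, List.count_cons_self, ih, List.length_cons,
      List.count_eq_zero.mpr]
    · omega
    · intro h
      exact absurd (List.eq_of_mem_replicate h) (by decide)

private theorem F1_toX_append (u v : List ℕ+) : toX (u ++ v) = toX u ++ toX v := by
  induction u with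
  | nil => simp [toX]
  | cons n u ih => simp [toX, ih]

private theorem F1_B_map (x : Fin 3) (hx : x ≠ 0) (V : List ℕ+) :
    (F1_B x V).map (fun i => decide (i ≠ 0)) = toX V := by
  induction V with
  | nil => simp [F1_B, toX]
  | cons n V ih =>
    have e : F1_B x (n :: V) = List.replicate ((n : ℕ) - 1) 0 ++ [x] ++ F1_B x V := by
      simp [F1_B]
    rw [e, List.map_append, List.map_append, ih, toX, List.map_replicate]
    simp [hx]

private theorem F1_wPV_map (p V : List ℕ+) :
    (wPV p V).map (fun i => decide (i ≠ 0)) = toX (p.reverse ++ V) := by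
  rw [F1_wPV, List.map_append, F1_B_map 2 (by decide), F1_B_map 1 (by decide), F1_toX_append]

/-! ### Lie elements -/

private theorem F1_ev2_lie {x y : QX} (hx : x ∈ LieX) (hy : y ∈ LieX) {φ : QX}
    (h : φ ∈ LieX) : ev2 φ x y ∈ LieX := by
  refine lie_induction (P := fun φ => ev2 φ x y ∈ LieX) ?_ ?_ ?_ ?_ ?_ h
  · intro b
    cases b
    · simpa [ev2] using hx
    · simpa [ev2] using hy
  · unfold ev2; rw [map_zero]; exact zero_mem _
  · intro f g hf hg
    unfold ev2 at *
    rw [map_add]; exact add_mem hf hg
  · intro r f hf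
    unfold ev2 at *
    rw [map_smul]; exact LieX.smul_mem r hf
  · intro f g _ _ hf hg
    unfold ev2 at *
    rw [map_sub, map_mul, map_mul]
    exact LieX.lie_mem hf hg

private theorem F1_good {ψ : QX} (h : ψ ∈ dm0) : Good (sgn ψ) := by
  refine ⟨?_, ?_, ?_⟩
  · unfold sgn
    apply F1_ev2_lie _ _ h.1
    · exact LieSubalgebra.subset_lieSpan ⟨false, rfl⟩
    · exact LieX.neg_mem (LieSubalgebra.subset_lieSpan ⟨true, rfl⟩)
  · rw [F1_coeff_sgn, h.2.1, mul_zero]
  · rw [F1_coeff_sgn, h.2.2.1, mul_zero]

private theorem F1_inv_lie {f : T3} (h : f ∈ LieT (Fin 3)) : inv3 f ∈ LieT (Fin 3) := by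
  have hgen : ∀ i : Fin 3, FreeAlgebra.ι ℚ i ∈ LieSubalgebra.lieSpan ℚ T3
      (Set.range (FreeAlgebra.ι ℚ)) := fun i => LieSubalgebra.subset_lieSpan ⟨i, rfl⟩
  have h' : f ∈ LieSubalgebra.lieSpan ℚ T3 (Set.range (FreeAlgebra.ι ℚ)) := h
  change inv3 f ∈ LieSubalgebra.lieSpan ℚ T3 (Set.range (FreeAlgebra.ι ℚ))
  clear h
  induction h' using LieSubalgebra.lieSpan_induction with
  | mem x hx =>
    obtain ⟨b, rfl⟩ := hx
    unfold inv3
    rw [FreeAlgebra.lift_ι_apply]
    fin_cases b
    · exact sub_mem (sub_mem (neg_mem (hgen 0)) (hgen 1)) (hgen 2)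
    · exact hgen 1
    · exact hgen 2
  | zero => rw [map_zero]; exact zero_mem _
  | add x y _ _ hx hy => rw [map_add]; exact add_mem hx hy
  | smul r x _ hx =>
    rw [map_smul]
    exact LieSubalgebra.smul_mem _ r hx
  | lie x y _ _ hx hy =>
    change inv3 (x * y - y * x) ∈ _
    rw [map_sub, map_mul, map_mul]
    exact LieSubalgebra.lie_mem _ hx hy

/-! ### Shuffles -/

private theorem F1_shuffle (A : List (Fin 3)) : ∀ (B : List (Fin 3)), ∀ t ∈ shuffle A B,
    (∀ x, x ∈ t ↔ x ∈ A ∨ x ∈ B) ∧ ((∀ x ∈ B, x = 0) → F1_cls A → F1_cls t) := by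
  induction A with
  | nil =>
    intro v t ht
    rw [shuffle] at ht
    simp only [List.mem_singleton] at ht
    subst ht
    refine ⟨fun x => by simp, fun h _ => ?_⟩
    unfold F1_cls
    apply List.Pairwise.imp_of_mem (R := fun _ _ => True)
    · intro a b ha _ _ k
      have := h a ha
      rw [this] at k
      exact absurd k.1 (by decide)
    · exact List.pairwise_of_forall (fun _ _ => trivial)
  | cons a u ih1 =>
    intro B
    induction B with
    | nil =>
      intro t ht
      rw [shuffle] at ht
      simp only [List.mem_singleton] at ht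
      subst ht
      exact ⟨fun x => by simp, fun _ h => h⟩
    | cons b v ih2 =>
      intro t ht
      rw [shuffle] at ht
      rw [List.mem_append, List.mem_map, List.mem_map] at ht
      rcases ht with ⟨t', ht', rfl⟩ | ⟨t', ht', rfl⟩
      · obtain ⟨k1, k2⟩ := ih1 _ t' ht'
        refine ⟨fun x => ?_, fun h hc => ?_⟩
        · rw [List.mem_cons, k1, List.mem_cons (l := u), or_assoc]
        · unfold F1_cls at *
          rw [List.pairwise_cons] at hc ⊢
          refine ⟨fun y hy k => ?_, k2 h hc.2⟩
          rcases (k1 y).mp hy with h3 | h3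
          · exact hc.1 y h3 k
          · rw [h y h3] at k
            exact absurd k.2 (by decide)
      · obtain ⟨k1, k2⟩ := ih2 t' ht'
        refine ⟨fun x => ?_, fun h hc => ?_⟩
        · rw [List.mem_cons, k1, List.mem_cons (l := v)]
          tauto
        · unfold F1_cls at *
          rw [List.pairwise_cons]
          refine ⟨fun y hy k => ?_, k2 (fun x hx => h x (List.mem_cons_of_mem _ hx)) hc⟩
          rw [h b List.mem_cons_self] at k
          exact absurd k.1 (by decide)

/-! ### The result -/

theorem p_F1 (h1 : S_lieR) (h2 : S_forg) (h3 : S_mov) (h4 : S_clie) (h5 : S_Rp) (h6 : S_dual)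
    (h7 : S_FF) : S_F1 := by
  intro ψ hψ
  have hφ := F1_good hψ
  have hw : Function.Injective wR := by
    intro i j h
    fin_cases i <;> fin_cases j <;> first | rfl | (simp [wR] at h)
  have hforg : ∀ (i : Fin 3) (u : List (Fin 3)), i ∉ u → coeff (Rw (sgn ψ) wR) u = 0 :=
    h2 _ hφ wR hw
  have hlieR := (h1 _ hφ wR).1
  have hRp := h5 _ hφ
  set φ := sgn ψ with hφdef
  set R := Rw φ wR with hR
  set g : List (Fin 3) → ℚ := coeff (inv3 R) with hg
  -- the star coefficients
  let Z : List ℕ+ → ℚ := fun u => (-1) ^ u.length * starCoeff ψ u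
  have hZ : ∀ u v : List ℕ+, u ≠ [] → v ≠ [] →
      ((stuffle u v).map fun w => (-1) ^ w.length * Z w).sum = 0 := by
    intro u v hu hv
    have e : (fun w : List ℕ+ => (-1 : ℚ) ^ w.length * Z w) = starCoeff ψ := by
      funext w
      change (-1 : ℚ) ^ w.length * ((-1) ^ w.length * starCoeff ψ w) = _
      rw [← mul_assoc, ← mul_pow]
      simp
    rw [e]
    exact dm0_stuffle hψ hu hv
  have hZφ : ∀ u : List ℕ+, u.length < F1_s u → coeff φ (toX u) = Z u := by
    intro u hu
    change _ = (-1) ^ u.length * starCoeff ψ u
    rw [hφdef, F1_coeff_sgn, F1_toX_count]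
    unfold starCoeff
    rw [if_neg, add_zero]
    rintro ⟨_, e⟩
    have : F1_s u = u.length := by
      rw [e]
      simp [F1_s]
    omega
  -- (1)
  have c1 : ∀ t, F1_cls t → 0 ∈ t → g (t ++ [1]) = 0 := by
    intro t ht h0
    obtain ⟨p, V, hV, e⟩ := F1_wPV_ex ht
    have h0' : 0 ∈ wPV p V := by
      rw [← e]; simp [h0]
    have h1' : 1 ∈ wPV p V := by
      rw [← e]; simp
    have hlt := F1_lt p V h0'
    rw [e, hg, hRp, coeff_sub, coeff_add, coeff_sub, h6 φ p V hV, F1_third, F1_wPV_map]
    have z1 : coeff (ev2 φ (-xb - xc) xc) (wPV p V) = 0 := by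
      apply F1_N_ev2 0 φ _ _ _ _ _ h0'
      · exact F1_N_sub 0 _ _ (F1_N_neg 0 _ (F1_N_iota 0 1 (by decide)))
          (F1_N_iota 0 2 (by decide))
      · exact F1_N_iota 0 2 (by decide)
    have z2 : coeff (ev2 φ xa xc) (wPV p V) = 0 := by
      apply F1_N_ev2 1 φ _ _ _ _ _ h1'
      · exact F1_N_iota 1 0 (by decide)
      · exact F1_N_iota 1 2 (by decide)
    rw [z1, z2]
    have z3 : FF (fun u => coeff φ (toX u)) p V = FF Z p V := by
      apply F1_FF_congr (p.length + V.length) p V _ _ le_rfl
      intro u hu hs
      apply hZφ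
      rw [hs]
      omega
    rw [z3, h7 Z hZ p V hV, hZφ]
    · ring
    · rw [F1_s_append, F1_s_reverse, List.length_append, List.length_reverse]
      exact hlt
  -- (2)
  have c2 : ∀ x : Fin 3, x ≠ 0 → ∀ t, x ∉ t → g t = 0 := by
    intro x hx t ht
    rw [hg, F1_coeff_inv]
    exact F1_Inv_no x hx t _ (fun s hs => hforg x s hs) ht
  -- (3)
  have hlie := F1_inv_lie hlieR
  have hshuf := (h4 (Fin 3) _ hlie).2
  have hmov := (h3 (Fin 3) g hshuf).1
  have c3 : ∀ t, F1_cls t → 0 ∈ t → g t = 0 := by
    intro t ht h0
    by_cases hone : 1 ∈ t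
    · -- last occurrence of the letter `1`
      have hsplit : ∀ t : List (Fin 3), 1 ∈ t → ∃ A B, t = A ++ 1 :: B ∧ 1 ∉ B := by
        intro t
        induction t using List.reverseRecOn with
        | nil => intro h; simp at h
        | append_singleton t i ih =>
          intro h
          by_cases hi : i = 1
          · exact ⟨t, [], by rw [hi], by simp⟩
          · have : 1 ∈ t := by
              rcases List.mem_append.mp h with h | h
              · exact h
              · simp only [List.mem_singleton] at h
                exact absurd h.symm hi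
            obtain ⟨A, B, e, hB⟩ := ih this
            refine ⟨A, B ++ [i], by rw [e]; simp, ?_⟩
            intro h'
            rcases List.mem_append.mp h' with h' | h'
            · exact hB h'
            · simp only [List.mem_singleton] at h'
              exact hi h'.symm
      obtain ⟨A, B, e, hB⟩ := hsplit t hone
      have hcl : F1_cls (A ++ 1 :: B) := e ▸ ht
      have hcl' := hcl
      unfold F1_cls at hcl'
      rw [List.pairwise_append, List.pairwise_cons] at hcl'
      have hB0 : ∀ x ∈ B, x = 0 := by
        intro x hx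
        fin_cases x
        · rfl
        · exact absurd hx hB
        · exact absurd ⟨rfl, rfl⟩ (hcl'.2.1.1 2 hx)
      rw [e, hmov]
      have hz : ∀ s ∈ shuffle A B.reverse, g (s ++ [1]) = 0 := by
        intro s hs
        obtain ⟨k1, k2⟩ := F1_shuffle A B.reverse s hs
        apply c1
        · exact k2 (fun x hx => hB0 x (List.mem_reverse.mp hx)) hcl'.1
        · rw [k1, List.mem_reverse]
          rw [e] at h0
          rcases List.mem_append.mp h0 with h0 | h0
          · left; exact h0
          · right
            rcases List.mem_cons.mp h0 with h0 | h0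
            · exact absurd h0 (by decide)
            · exact h0
      rw [List.map_congr_left (g := fun _ => (0 : ℚ)) (fun s hs => hz s hs)]
      simp
    · exact c2 1 (by decide) t hone
  -- (4)
  have c4 : ∀ t, F1_cls t → g t = 0 := by
    intro t ht
    by_cases h0 : 0 ∈ t
    · exact c3 t ht h0
    · have e := F1_Inv_eq t g ht h0 c3
      rw [← e, hg, ← F1_coeff_inv, F1_inv_inv]
      exact hforg 0 t h0
  intro u w hu hw'
  rw [← F1_inv_inv R, F1_coeff_inv]
  exact F1_Inv_cls' (F1_cls_append hu hw') _ c4

end

end Pent
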