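import Pool.Agent.Lib.MP_a57f33_nt.PN.Stm1

/-!
# Pentagon project (MP_a57f33_nt), Half I: piece `FF`

The recursion `FF`, in the unsigned form `FF_H`, is computed by sums over the coarsenings of a
list: `H Y p (n V) = ∑ Y(c₀ (c' ⋆ V))`, the sum over the coarsenings `c₀ c'` of `n :: p`, and
`H Y (m p) V + H Y p (m V) = ∑ Y(c ⋆ V)`, the sum over the coarsenings `c` of `m :: p`.
-/

namespace Pent

open Pool.Agent.MP_a57f33_nt
open Pool.Agent.MP_a57f33_nt.Cyc (shuffle)

/-- sum over the stuffles -/
private def FF_st (u v : List ℕ+) (Y : List ℕ+ → ℚ) : ℚ := ((stuffle u v).map Y).sum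

private theorem FF_st_nil_left (v : List ℕ+) (f : List ℕ+ → ℚ) : FF_st [] v f = f v := by
  simp [FF_st, stuffle]

private theorem FF_st_nil_right (u : List ℕ+) (f : List ℕ+ → ℚ) : FF_st u [] f = f u := by
  cases u <;> simp [FF_st, stuffle]

private theorem FF_st_cons (a b : ℕ+) (u v : List ℕ+) (f : List ℕ+ → ℚ) :
    FF_st (a :: u) (b :: v) f = FF_st u (b :: v) (fun t => f (a :: t)) +
      FF_st (a :: u) v (fun t => f (b :: t)) + FF_st u v (fun t => f ((a + b) :: t)) := by
  simp only [FF_st, stuffle, List.map_append, List.map_map, List.sum_append]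
  rfl

/-- sum over the coarsenings of `m :: p` -/
private def FF_CS : (ℕ+ → List ℕ+ → ℚ) → ℕ+ → List ℕ+ → ℚ
  | F, m, [] => F m []
  | F, m, k :: p => FF_CS (fun c0 c' => F m (c0 :: c')) k p + FF_CS F (m + k) p

private theorem FF_CS_add (p : List ℕ+) : ∀ (F G : ℕ+ → List ℕ+ → ℚ) (m : ℕ+),
    FF_CS (fun c0 c' => F c0 c' + G c0 c') m p = FF_CS F m p + FF_CS G m p := by
  induction p with
  | nil => intro F G m; rfl
  | cons k p ih =>
    intro F G m
    simp only [FF_CS]
    rw [ih, ih]
    ring

private theorem FF_CS_shift (p : List ℕ+) : ∀ (F : ℕ+ → List ℕ+ → ℚ) (m n : ℕ+),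
    FF_CS F (m + n) p = FF_CS (fun c0 c' => F (c0 + n) c') m p := by
  induction p with
  | nil => intro F m n; rfl
  | cons k p ih =>
    intro F m n
    simp only [FF_CS]
    rw [← ih, add_right_comm]

private theorem FF_CS_zero (p : List ℕ+) : ∀ (F : ℕ+ → List ℕ+ → ℚ) (m : ℕ+),
    (∀ c0 c', F c0 c' = 0) → FF_CS F m p = 0 := by
  induction p with
  | nil => intro F m h; exact h _ _
  | cons k p ih =>
    intro F m h
    simp only [FF_CS]
    rw [ih _ _ fun c0 c' => h _ _, ih _ _ h, add_zero]

/-- the unsigned recursion -/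
private def FF_H : (List ℕ+ → ℚ) → List ℕ+ → List ℕ+ → ℚ
  | Z, [], V => Z V
  | _, _ :: _, [] => 0
  | Z, m :: p, n :: V =>
      FF_H (fun u => Z (n :: u)) (m :: p) V + FF_H (fun u => Z (n :: u)) p (m :: V)
        + FF_H Z p ((m + n) :: V)
termination_by _ p V => p.length + V.length

private theorem FF_H_nil (Z : List ℕ+ → ℚ) (V : List ℕ+) : FF_H Z [] V = Z V := by
  rw [FF_H]

private theorem FF_H_cons_nil (Z : List ℕ+ → ℚ) (m : ℕ+) (p : List ℕ+) :
    FF_H Z (m :: p) [] = 0 := by
  rw [FF_H]

private theorem FF_H_cons_cons (Z : List ℕ+ → ℚ) (m n : ℕ+) (p V : List ℕ+) :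
    FF_H Z (m :: p) (n :: V) = FF_H (fun u => Z (n :: u)) (m :: p) V +
      FF_H (fun u => Z (n :: u)) p (m :: V) + FF_H Z p ((m + n) :: V) := by
  rw [FF_H]

/-- the second formula, given the first -/
private theorem FF_F2 (p : List ℕ+) (h : ∀ (Y : List ℕ+ → ℚ) (n : ℕ+) (V : List ℕ+),
    FF_H Y p (n :: V) = FF_CS (fun c0 c' => FF_st c' V fun t => Y (c0 :: t)) n p) :
    ∀ (V : List ℕ+) (Y : List ℕ+ → ℚ) (m : ℕ+),
    FF_H Y (m :: p) V + FF_H Y p (m :: V) = FF_CS (fun c0 c' => FF_st (c0 :: c') V Y) m p := by
  intro V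
  induction V with
  | nil =>
    intro Y m
    rw [FF_H_cons_nil, h, zero_add]
    congr 1
    funext c0 c'
    rw [FF_st_nil_right, FF_st_nil_right]
  | cons n V ih =>
    intro Y m
    have e : (fun c0 c' => FF_st (c0 :: c') (n :: V) Y) = fun c0 c' =>
        (FF_st c' (n :: V) (fun t => Y (c0 :: t)) + FF_st (c0 :: c') V (fun t => Y (n :: t))) +
          FF_st c' V (fun t => Y ((c0 + n) :: t)) := by
      funext c0 c'
      rw [FF_st_cons]
    rw [e, FF_CS_add, FF_CS_add, FF_H_cons_cons, h Y m (n :: V), ← ih, h Y (m + n) V,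
      FF_CS_shift]
    ring

/-- the first formula -/
private theorem FF_F1 (p : List ℕ+) : ∀ (Y : List ℕ+ → ℚ) (n : ℕ+) (V : List ℕ+),
    FF_H Y p (n :: V) = FF_CS (fun c0 c' => FF_st c' V fun t => Y (c0 :: t)) n p := by
  induction p with
  | nil =>
    intro Y n V
    rw [FF_H_nil]
    simp only [FF_CS]
    rw [FF_st_nil_left]
  | cons m p ih =>
    intro Y n V
    rw [FF_H_cons_cons, FF_F2 p ih]
    simp only [FF_CS]
    rw [ih, add_comm m n]

/-- the value of `FF_H` if `Y` kills proper stuffles -/
private theorem FF_val (Y : List ℕ+ → ℚ)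
    (hY : ∀ u v : List ℕ+, u ≠ [] → v ≠ [] → ((stuffle u v).map Y).sum = 0) (p : List ℕ+) :
    ∀ V : List ℕ+, V ≠ [] → FF_H Y p V = (-1) ^ p.length * Y (p.reverse ++ V) := by
  induction p with
  | nil =>
    intro V _
    rw [FF_H_nil]
    simp
  | cons m p ih =>
    intro V hV
    have h := FF_F2 p (FF_F1 p) V Y m
    have h0 : FF_CS (fun c0 c' => FF_st (c0 :: c') V Y) m p = 0 :=
      FF_CS_zero _ _ _ (fun c0 c' => hY (c0 :: c') V (by simp) hV)
    rw [h0, ih (m :: V) (by simp)] at h
    have e : (m :: p).reverse ++ V = p.reverse ++ m :: V := by simp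
    rw [e, List.length_cons, pow_succ]
    linarith

/-- the two recursions -/
private theorem FF_sign : ∀ (k : ℕ) (Z : List ℕ+ → ℚ) (p V : List ℕ+), p.length + V.length = k →
    FF Z p V = (-1) ^ V.length * FF_H (fun w => (-1) ^ w.length * Z w) p V := by
  intro k
  induction k using Nat.strong_induction_on with
  | _ k ih =>
    intro Z p V hk
    cases p with
    | nil =>
      rw [FF, FF_H_nil, ← mul_assoc, ← pow_add, ← two_mul, pow_mul]
      simp
    | cons m p =>
      cases V with
      | nil =>
        rw [FF, FF_H_cons_nil]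
        simp
      | cons n V =>
        rw [FF, FF_H_cons_cons]
        have hneg : ∀ (Y : List ℕ+ → ℚ) (q W : List ℕ+), FF_H (fun u => - Y u) q W =
            - FF_H Y q W := by
          intro Y q W
          generalize hj : q.length + W.length = j
          induction j using Nat.strong_induction_on generalizing Y q W with
          | _ j ihj =>
            cases q with
            | nil => rw [FF_H_nil, FF_H_nil]
            | cons a q =>
              cases W with
              | nil => rw [FF_H_cons_nil, FF_H_cons_nil, neg_zero]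
              | cons b W =>
                rw [FF_H_cons_cons, FF_H_cons_cons]
                simp only [List.length_cons] at hj
                rw [ihj (q.length + 1 + W.length) (by omega) (fun u => Y (b :: u)) (a :: q) W
                    (by simp),
                  ihj (q.length + (W.length + 1)) (by omega) (fun u => Y (b :: u)) q (a :: W)
                    (by simp),
                  ihj (q.length + (W.length + 1)) (by omega) Y q ((a + b) :: W) (by simp)]
                ring
        have e : (fun u : List ℕ+ => (-1 : ℚ) ^ (n :: u).length * Z (n :: u)) =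
            fun u => - ((-1) ^ u.length * Z (n :: u)) := by
          funext u
          rw [List.length_cons, pow_succ]
          ring
        rw [e, hneg, hneg]
        simp only [List.length_cons] at hk
        rw [ih (p.length + 1 + V.length) (by omega) (fun u => Z (n :: u)) (m :: p) V (by simp),
          ih (p.length + (V.length + 1)) (by omega) (fun u => Z (n :: u)) p (m :: V) (by simp),
          ih (p.length + (V.length + 1)) (by omega) Z p ((m + n) :: V) (by simp)]
        simp only [List.length_cons, pow_succ]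
        ring

/-- Piece `FF`. -/
theorem p_FF : S_FF := by
  intro Z hZ p V hV
  rw [FF_sign _ Z p V rfl, FF_val _ hZ p V hV, List.length_append, List.length_reverse, pow_add]
  have h1 : ((-1 : ℚ) ^ V.length) * (-1) ^ V.length = 1 := by
    rw [← pow_add, ← two_mul, pow_mul]; simp
  have h2 : ((-1 : ℚ) ^ p.length) * (-1) ^ p.length = 1 := by
    rw [← pow_add, ← two_mul, pow_mul]; simp
  linear_combination (Z (p.reverse ++ V)) * ((-1 : ℚ) ^ p.length * (-1) ^ p.length) * h1 +
    Z (p.reverse ++ V) * h2

end Pent
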