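import Pool.Agent.Lib.MP_a57f33_nt.PN.Stm2

/-!
# Pentagon project (MP_a57f33_nt), piece O2: slots with an empty `u`
-/

namespace Pent

open Pool.Agent.MP_a57f33_nt.Cyc (shuffle)

private theorem O2_fstep (ws : List Wd) (g : Sl) (h1 : g.1 = []) (h2 : g.2 ≠ []) :
    fstep ws [] g.2 = ostep ws g := by
  unfold fstep ostep
  rw [if_neg h2, if_pos rfl, List.append_nil, h1]

theorem p_O2 (h : S_free) : S_O2 := by
  intro p f hp hf hL gs hgs hv hex
  obtain ⟨g, hg, hg1⟩ := hex
  obtain ⟨hs, hs', rfl⟩ := List.append_of_mem hg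
  have hl : hs.length + hs'.length = p := by
    simp only [List.length_append, List.length_cons] at hgs
    omega
  have hv1 : vok hs := fun x hx => hv x (by simp [hx])
  have hv2 : vok hs' := fun x hx => hv x (by simp [hx])
  have hg2 : g.2 ≠ [] := hv g hg
  have key := h p f hp hf hL hs hs' [] g.2 hl hv1 hv2 (Or.inr hg2)
  rw [O2_fstep (OS hs) g hg1 hg2] at key
  have e : OS (hs ++ g :: hs') = hs'.foldl ostep (ostep (OS hs) g) := by
    unfold OS
    rw [List.foldl_append, List.foldl_cons]
  unfold LL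
  rw [e]
  exact key

end Pent
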