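import Pool.Agent.Lib.MP_a57f33_nt.PN.Stm2
import Pool.Agent.Lib.MP_a57f33_nt.CycWords

/-!
# Pentagon project (MP_a57f33_nt), Half II: the bracket with `b`
-/

namespace Pent

open Pool.Agent.MP_a57f33_nt.Cyc (shuffle sh sh_nil_left sh_nil_right sh_cons_cons)

theorem O3_add {α : Type} (u v : List α) (F G : List α → ℚ) :
    sh u v (fun t => F t + G t) = sh u v F + sh u v G := by
  unfold sh
  rw [← List.sum_map_add]

theorem O3_zero {α : Type} (u v : List α) : sh u v (fun _ => (0 : ℚ)) = 0 := by
  unfold sh
  simp

/-- dual of `ostep` -/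
def O3_o (g : Sl) (F : Wd → ℚ) (w : Wd) : ℚ :=
  sh w (bw g.1) (fun t => sh t (cw g.2.dropLast)
    (fun s => F (s ++ cw (g.2.drop (g.2.length - 1)))))

theorem O3_o_add (g : Sl) (F G : Wd → ℚ) (w : Wd) :
    O3_o g (fun t => F t + G t) w = O3_o g F w + O3_o g G w := by
  unfold O3_o
  simp only [O3_add]

theorem O3_o_zero (g : Sl) (w : Wd) : O3_o g (fun _ => 0) w = 0 := by
  unfold O3_o
  simp only [O3_zero]

theorem O3_sum_flat {β : Type} (l : List β) (H : β → List Wd) (F : Wd → ℚ) :
    ((l.flatMap H).map F).sum = (l.map fun w => ((H w).map F).sum).sum := by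
  induction l with
  | nil => rfl
  | cons a l ih => simp [ih]

theorem O3_ostep (ws : List Wd) (g : Sl) (F : Wd → ℚ) :
    ((ostep ws g).map F).sum = (ws.map (O3_o g F)).sum := by
  unfold ostep
  rw [O3_sum_flat]
  congr 1
  apply List.map_congr_left
  intro w _
  rw [List.map_map, O3_sum_flat]
  rfl

theorem O3_fold (gs : List Sl) (F : Wd → ℚ) : ∀ ws : List Wd,
    ((gs.foldl ostep ws).map F).sum = (ws.map (gs.foldr O3_o F)).sum := by
  induction gs with
  | nil => intro ws; rfl
  | cons g gs ih =>
    intro ws
    rw [List.foldl_cons, ih, O3_ostep]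
    rfl

theorem O3_LL (gs : List Sl) (F : Wd → ℚ) : LL F gs = gs.foldr O3_o F [] := by
  unfold LL OS
  rw [O3_fold]
  simp

theorem O3_fst (x : Bool) : ∀ (u v : Wd) (F : Wd → ℚ),
    sh u v (fstL x F) = fstL x (fun t => sh t v F) u + fstL x (fun t => sh u t F) v
  | [], v, F => by
      simp only [sh_nil_left, fstL, zero_add]
  | a :: u, [], F => by
      simp only [sh_nil_right, fstL, add_zero]
  | a :: u, b :: v, F => by
      rw [sh_cons_cons]
      simp only [fstL]
      have h0 : ∀ (c : Bool) (u v : Wd), sh u v (fun t => if c = x then F t else 0) =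
          if c = x then sh u v F else 0 := by
        intro c u v
        split_ifs
        · rfl
        · exact O3_zero u v
      rw [h0, h0]

theorem O3_fst_cw (v : List ℚ) (F : Wd → ℚ) : fstL false F (cw v) = 0 := by
  cases v with
  | nil => rfl
  | cons a v => simp [cw, fstL]

/-- remove the first letter of `u` if there is one -/
def O3_d (g : Sl) : List (ℚ × Sl) :=
  if g.1 = [] then [] else [(g.1.headD 0, (g.1.tail, g.2))]

theorem O3_step (g : Sl) (hg : g.2 ≠ []) (F : Wd → ℚ) (w : Wd) :
    O3_o g (fstL false F) w = fstL false (O3_o g F) w +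
      ((O3_d g).map fun p => O3_o p.2 F w).sum := by
  obtain ⟨u, v⟩ := g
  obtain ⟨v, z, rfl⟩ : ∃ v' z, v = v' ++ [z] := by
    rcases List.eq_nil_or_concat v with rfl | ⟨v', z, rfl⟩
    · exact absurd rfl hg
    · exact ⟨v', z, by rw [List.concat_eq_append]⟩
  have em : ∀ u : List ℚ, ∀ G : Wd → ℚ, O3_o (u, v ++ [z]) G =
      fun w => sh w (bw u) (fun t => sh t (cw v) (fun s => G (s ++ [(true, z)]))) := by
    intro u G
    funext w
    simp [O3_o, cw]
  have e1 : (fun s : Wd => fstL false F (s ++ [(true, z)])) =
      fstL false (fun s : Wd => F (s ++ [(true, z)])) := by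
    funext s
    cases s with
    | nil => simp [fstL]
    | cons a s => simp [fstL]
  rw [em, em]
  simp only [e1, O3_fst, O3_fst_cw, add_zero]
  congr 1
  cases u with
  | nil => simp [O3_d, fstL, bw]
  | cons a u =>
    simp [O3_d, fstL, bw, em]

theorem O3_osum_o (md : Sl → List (ℚ × Sl)) (g : Sl) (w : Wd) (gs : List Sl) :
    ∀ K : ℚ → List Sl → Wd → ℚ,
      O3_o g (fun w => osum md (fun r t => K r t w) gs) w =
        osum md (fun r t => O3_o g (K r t) w) gs := by
  induction gs with
  | nil =>
    intro K
    simp only [osum]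
    exact O3_o_zero g w
  | cons h gs ih =>
    intro K
    simp only [osum]
    rw [O3_o_add, ih]
    congr 1
    generalize md h = l
    induction l with
    | nil => exact O3_o_zero g w
    | cons a l ihl =>
      simp only [List.map_cons, List.sum_cons]
      rw [O3_o_add, ihl]

theorem O3_all (gs : List Sl) : vok gs → ∀ (F : Wd → ℚ) (w : Wd),
    gs.foldr O3_o (fstL false F) w = fstL false (gs.foldr O3_o F) w +
      osum O3_d (fun _ t => t.foldr O3_o F w) gs := by
  induction gs with
  | nil => intro _ F w; simp [osum]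
  | cons g gs ih =>
    intro hv F w
    have hv' : vok gs := fun g hg => hv g (by simp [hg])
    have ih' := ih hv' F
    simp only [List.foldr_cons, osum]
    have e : gs.foldr O3_o (fstL false F) = fun w => fstL false (gs.foldr O3_o F) w +
      osum O3_d (fun _ t => t.foldr O3_o F w) gs := by
      funext w
      exact ih' w
    rw [e, O3_o_add, O3_osum_o O3_d g w gs (fun _ t => t.foldr O3_o F)]
    have := O3_step g (hv g (by simp)) (gs.foldr O3_o F) w
    change O3_o g (fstL false (gs.foldr O3_o F)) w + _ = _
    rw [this]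
    ring

theorem O3_du (gs : List Sl) : vok gs → ∀ K : ℚ → List Sl → ℚ,
    (∀ r t, t.length = gs.length → vok t → (∃ g ∈ t, g.1 = []) → K r t = 0) →
    osum du K gs = osum O3_d K gs := by
  induction gs with
  | nil => intro _ K _; rfl
  | cons g gs ih =>
    intro hv K hK
    have hv' : vok gs := fun g hg => hv g (by simp [hg])
    simp only [osum]
    rw [ih hv' (fun r t => K r (g :: t))]
    · congr 1
      obtain ⟨u, v⟩ := g
      cases u with
      | nil => simp [du, O3_d]
      | cons a u =>
        cases u with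
        | nil =>
          have := hK a (([], v) :: gs) (by simp) (by
            intro g hg
            rcases List.mem_cons.mp hg with rfl | hg
            · exact hv (([a], v)) (by simp)
            · exact hv' g hg) ⟨([], v), by simp, rfl⟩
          simp [du, O3_d, this]
        | cons b u => simp [du, O3_d]
    · intro r t h1 h2 h3
      apply hK
      · simp [h1]
      · intro g' hg'
        rcases List.mem_cons.mp hg' with rfl | hg'
        · exact hv g' (by simp)
        · exact h2 g' hg'
      · obtain ⟨g', h4, h5⟩ := h3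
        exact ⟨g', by simp [h4], h5⟩

theorem O3_end (gs : List Sl) (hne : gs ≠ []) (h : vok gs) : ∀ w ∈ OS gs,
    ∃ w' z, w = w' ++ [(true, z)] := by
  rcases List.eq_nil_or_concat gs with rfl | ⟨gs, g, rfl⟩
  · exact absurd rfl hne
  · rw [List.concat_eq_append] at h ⊢
    intro w hw
    unfold OS at hw
    rw [List.foldl_append] at hw
    simp only [List.foldl_cons, List.foldl_nil, ostep, List.mem_flatMap, List.mem_map] at hw
    obtain ⟨w1, hw1, w2, hw2, rfl⟩ := hw
    have hg : g.2 ≠ [] := h g (by simp)
    rcases List.eq_nil_or_concat g.2 with h0 | ⟨v, z, h0⟩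
    · exact absurd h0 hg
    · refine ⟨w2, z, ?_⟩
      rw [h0]
      simp [cw]

theorem p_O3 (h : S_O2) : S_O3 := by
  intro p f hp hf hL gs hlen hu
  have hv : vok gs := fun g hg => (hu g hg).2
  have hne : gs ≠ [] := by
    intro h0
    rw [h0] at hlen
    simp at hlen
  have e1 : LL (brk false f) gs = LL (fstL false f) gs := by
    unfold LL
    congr 1
    apply List.map_congr_left
    intro w hw
    obtain ⟨w', z, rfl⟩ := O3_end gs hne hv w hw
    simp [brk, lstL, fstL]
  rw [e1, O3_LL, O3_all gs hv, O3_du gs hv]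
  · simp only [fstL, zero_add, ← O3_LL]
  · intro r t h1 h2 h3
    exact h p f hp hf hL t (by rw [h1, hlen]) h2 h3

end Pent
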