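import Pool.Agent.Lib.MP_a57f33_nt.PN.Stm2

/-!
# Pentagon project (MP_a57f33_nt), piece O4: the bracket with `c`
-/

set_option autoImplicit false

namespace Pent

open Pool.Agent.MP_a57f33_nt.Cyc (shuffle)

/-- sum of `F` over the shuffles of `a` and `b` -/
private def O4_sh (a b : Wd) (F : Wd → ℚ) : ℚ := ((shuffle a b).map F).sum

private theorem O4_nil_right (a : Wd) : shuffle a [] = [a] := by
  cases a <;> simp [shuffle]

private theorem O4_sh_fst (x : Bool) (F : Wd → ℚ) (a b : Wd) :
    O4_sh a b (fstL x F) =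
      fstL x (fun a' => O4_sh a' b F) a + fstL x (fun b' => O4_sh a b' F) b := by
  unfold O4_sh
  cases a with
  | nil => cases b <;> simp [shuffle, fstL]
  | cons a1 a' =>
    cases b with
    | nil => simp [O4_nil_right, fstL]
    | cons b1 b' =>
      rw [shuffle, List.map_append, List.sum_append, List.map_map, List.map_map]
      congr 1
      · by_cases h : a1.1 = x
        · simp [Function.comp_def, fstL, h]
        · simp [Function.comp_def, fstL, h]
      · by_cases h : b1.1 = x
        · simp [Function.comp_def, fstL, h]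
        · simp [Function.comp_def, fstL, h]

private theorem O4_sh_congr {a b : Wd} {F G : Wd → ℚ} (h : ∀ w ∈ shuffle a b, F w = G w) :
    O4_sh a b F = O4_sh a b G := by
  unfold O4_sh
  rw [List.map_congr_left h]

private theorem O4_sh_add (a b : Wd) (F G : Wd → ℚ) :
    O4_sh a b (fun w => F w + G w) = O4_sh a b F + O4_sh a b G := by
  unfold O4_sh
  exact List.sum_map_add

private theorem O4_sh_sub (a b : Wd) (F G : Wd → ℚ) :
    O4_sh a b (fun w => F w - G w) = O4_sh a b F - O4_sh a b G := by
  unfold O4_sh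
  induction shuffle a b with
  | nil => simp
  | cons w l ih =>
    simp only [List.map_cons, List.sum_cons, ih]
    ring

private theorem O4_sh_zero (a b : Wd) : O4_sh a b (fun _ => 0) = 0 := by
  unfold O4_sh
  simp

private theorem O4_ne_of_mem {a b w : Wd} (hw : w ∈ shuffle a b) (h : a ≠ [] ∨ b ≠ []) :
    w ≠ [] := by
  cases a with
  | nil =>
    rw [shuffle, List.mem_singleton] at hw
    subst hw
    rcases h with h | h
    · exact absurd rfl h
    · exact h
  | cons a1 a' =>
    cases b with
    | nil =>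
      rw [O4_nil_right, List.mem_singleton] at hw
      subst hw
      exact List.cons_ne_nil _ _
    | cons b1 b' =>
      rw [shuffle, List.mem_append, List.mem_map, List.mem_map] at hw
      rcases hw with ⟨t, -, rfl⟩ | ⟨t, -, rfl⟩
      · exact List.cons_ne_nil _ _
      · exact List.cons_ne_nil _ _

/-- one more slot, dual form -/
private def O4_stp (g : Sl) (F : Wd → ℚ) (w : Wd) : ℚ :=
  O4_sh w (bw g.1) fun w' => O4_sh w' (cw g.2.dropLast) fun t =>
    F (t ++ cw (g.2.drop (g.2.length - 1)))

private def O4_T : List Sl → (Wd → ℚ) → Wd → ℚ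
  | [], F, w => F w
  | g :: gs, F, w => O4_stp g (O4_T gs F) w

private theorem O4_sum_flatMap {α β : Type} (l : List α) (φ : α → List β) (F : β → ℚ) :
    ((l.flatMap φ).map F).sum = (l.map fun a => ((φ a).map F).sum).sum := by
  induction l with
  | nil => rfl
  | cons a l ih => rw [List.flatMap_cons, List.map_append, List.sum_append, ih, List.map_cons,
      List.sum_cons]

private theorem O4_ostep (ws : List Wd) (g : Sl) (F : Wd → ℚ) :
    ((ostep ws g).map F).sum = (ws.map (O4_stp g F)).sum := by
  unfold ostep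
  rw [O4_sum_flatMap]
  congr 1
  refine List.map_congr_left fun w _ => ?_
  unfold O4_stp O4_sh
  rw [List.map_map, O4_sum_flatMap]
  rfl

private theorem O4_foldl (gs : List Sl) (F : Wd → ℚ) (ws : List Wd) :
    ((gs.foldl ostep ws).map F).sum = (ws.map (O4_T gs F)).sum := by
  induction gs generalizing ws with
  | nil => rfl
  | cons g gs ih =>
    rw [List.foldl_cons, ih, O4_ostep]
    rfl

private theorem O4_LL (gs : List Sl) (F : Wd → ℚ) : LL F gs = O4_T gs F [] := by
  unfold LL OS
  rw [O4_foldl]
  simp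

private theorem O4_stp_add (g : Sl) (F G : Wd → ℚ) (w : Wd) :
    O4_stp g (fun t => F t + G t) w = O4_stp g F w + O4_stp g G w := by
  unfold O4_stp
  rw [← O4_sh_add]
  exact O4_sh_congr fun w' _ => O4_sh_add _ _ _ _

private theorem O4_stp_zero (g : Sl) (w : Wd) : O4_stp g (fun _ => 0) w = 0 := by
  unfold O4_stp
  simp only [O4_sh_zero]

private theorem O4_stp_sum (g : Sl) {α : Type} (l : List α) (F : α → Wd → ℚ) (w : Wd) :
    O4_stp g (fun t => (l.map fun p => F p t).sum) w = (l.map fun p => O4_stp g (F p) w).sum := by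
  induction l with
  | nil => simpa using O4_stp_zero g w
  | cons a l ih =>
    simp only [List.map_cons, List.sum_cons]
    rw [O4_stp_add, ih]

private theorem O4_stp_osum (g : Sl) (md : Sl → List (ℚ × Sl)) (gs : List Sl)
    (F : ℚ → List Sl → Wd → ℚ) (w : Wd) :
    O4_stp g (fun t => osum md (fun r s => F r s t) gs) w =
      osum md (fun r s => O4_stp g (F r s) w) gs := by
  induction gs generalizing F with
  | nil => exact O4_stp_zero g w
  | cons h hs ih =>
    simp only [osum]
    rw [O4_stp_add, O4_stp_sum g (md h) (fun p => F p.1 (p.2 :: hs)), ih fun r s => F r (h :: s)]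

private theorem O4_fst_append (x : Bool) (F : Wd → ℚ) {w : Wd} (hw : w ≠ []) (m : Wd) :
    fstL x F (w ++ m) = fstL x (fun t => F (t ++ m)) w := by
  cases w with
  | nil => exact absurd rfl hw
  | cons a w => rfl

private theorem O4_fst_bw (F : Wd → ℚ) (u : List ℚ) : fstL true F (bw u) = 0 := by
  cases u with
  | nil => rfl
  | cons a u => simp [bw, fstL]

private theorem O4_bw_ne {u : List ℚ} (hu : u ≠ []) : bw u ≠ ([] : Wd) := by
  cases u with
  | nil => exact absurd rfl hu
  | cons a u => exact List.cons_ne_nil _ _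

/-- removing the first letter, one slot -/
private theorem O4_step (g : Sl) (h1 : g.1 ≠ []) (h2 : g.2 ≠ []) (G : Wd → ℚ) (w : Wd) :
    O4_stp g (fstL true G) w =
      fstL true (O4_stp g G) w + ((dv g).map fun p => O4_stp p.2 G w).sum := by
  obtain ⟨u, v⟩ := g
  simp only at h1 h2
  have e1 : O4_stp (u, v) (fstL true G) w = O4_sh w (bw u) (fun w' =>
      fstL true (fun a' => O4_sh a' (cw v.dropLast) fun t => G (t ++ cw (v.drop (v.length - 1)))) w'
        + fstL true (fun b' => O4_sh w' b' fun t => G (t ++ cw (v.drop (v.length - 1))))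
          (cw v.dropLast)) := by
    unfold O4_stp
    refine O4_sh_congr fun w' hw' => ?_
    rw [← O4_sh_fst]
    refine O4_sh_congr fun w'' hw'' => ?_
    exact O4_fst_append true G
      (O4_ne_of_mem hw'' (Or.inl (O4_ne_of_mem hw' (Or.inr (O4_bw_ne h1))))) _
  rw [e1, O4_sh_add, O4_sh_fst, O4_fst_bw, add_zero]
  congr 1
  obtain ⟨v', y, rfl⟩ : ∃ v' y, v = v' ++ [y] := ⟨v.dropLast, v.getLast h2,
    (List.dropLast_append_getLast h2).symm⟩
  cases v' with
  | nil =>
    simp [dv, cw, fstL, O4_sh_zero]
  | cons y1 v'' =>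
    have e2 : dv (u, (y1 :: v'') ++ [y]) = [(y1, (u, v'' ++ [y]))] := by
      simp [dv]
    rw [e2]
    simp only [O4_stp, List.dropLast_concat, List.map_cons, List.map_nil, List.sum_cons,
      List.sum_nil, add_zero]
    simp [cw, fstL]

private theorem O4_main (gs : List Sl) (hg : uvok gs) (F : Wd → ℚ) (w : Wd) :
    O4_T gs (fstL true F) w = fstL true (O4_T gs F) w + osum dv (fun _ t => O4_T t F w) gs := by
  induction gs generalizing w with
  | nil =>
    simp only [osum, add_zero]
    cases w <;> rfl
  | cons g gs ih =>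
    have hg' : uvok gs := fun h hh => hg h (List.mem_cons_of_mem _ hh)
    have e1 : O4_T gs (fstL true F) = fun t =>
        fstL true (O4_T gs F) t + osum dv (fun _ s => O4_T s F t) gs := funext fun t => ih hg' t
    show O4_stp g (O4_T gs (fstL true F)) w = _
    rw [e1, O4_stp_add, O4_step g (hg g List.mem_cons_self).1 (hg g List.mem_cons_self).2,
      O4_stp_osum g dv gs (fun _ s => O4_T s F)]
    simp only [osum, O4_T, add_assoc]

private theorem O4_cw_last (v : List ℚ) (hv : v ≠ []) :
    cw (v.drop (v.length - 1)) = [(true, v.getLast hv)] := by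
  rw [List.drop_length_sub_one hv]
  rfl

private theorem O4_lst (F : Wd → ℚ) (t : Wd) (y : ℚ) : lstL true F (t ++ [(true, y)]) = F t := by
  simp [lstL, fstL]

/-- removing the last letter -/
private theorem O4_last (f : Wd → ℚ) (hf : LieFn f) (g : Sl) (h1 : g.1 ≠ []) (h2 : g.2 ≠ [])
    (w : Wd) (hw : w ≠ []) : O4_stp g (lstL true f) w = 0 := by
  have e1 : O4_stp g (lstL true f) w =
      O4_sh w (bw g.1) fun w' => O4_sh w' (cw g.2.dropLast) f := by
    unfold O4_stp
    refine O4_sh_congr fun w' _ => O4_sh_congr fun t _ => ?_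
    rw [O4_cw_last _ h2, O4_lst]
  rw [e1]
  by_cases hv : g.2.dropLast = []
  · rw [hv]
    have e2 : (fun w' : Wd => O4_sh w' (cw []) f) = f := by
      funext w'
      show ((shuffle w' []).map f).sum = f w'
      rw [O4_nil_right]
      simp
    rw [e2]
    exact hf w (bw g.1) hw (O4_bw_ne h1)
  · rw [← O4_sh_zero w (bw g.1)]
    refine O4_sh_congr fun w' hw' => ?_
    refine hf w' _ (O4_ne_of_mem hw' (Or.inl hw)) ?_
    intro h0
    exact hv (List.map_eq_nil_iff.1 h0)

private theorem O4_OS_ne (hs : List Sl) (hv : ∀ g ∈ hs, g.2 ≠ []) (hne : hs ≠ []) :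
    ∀ w ∈ (OS hs : List Wd), w ≠ [] := by
  obtain ⟨hs', g, rfl⟩ : ∃ hs' g, hs = hs' ++ [g] := ⟨hs.dropLast, hs.getLast hne,
    (List.dropLast_append_getLast hne).symm⟩
  intro w hw
  have h2 := hv g (by simp)
  unfold OS at hw
  rw [List.foldl_append, List.foldl_cons, List.foldl_nil] at hw
  unfold ostep at hw
  rw [List.mem_flatMap] at hw
  obtain ⟨x, -, hx⟩ := hw
  rw [List.mem_map] at hx
  obtain ⟨t, -, rfl⟩ := hx
  rw [O4_cw_last _ h2]
  simp

theorem p_O4 : S_O4 := by
  intro p f hp hf gs hl hg
  have e1 : LL (brk true f) gs = LL (fstL true f) gs - LL (lstL true f) gs := by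
    unfold LL
    induction (OS gs : List Wd) with
    | nil => simp
    | cons w l ih =>
      simp only [List.map_cons, List.sum_cons, ih, brk]
      ring
  have e2 : LL (lstL true f) gs = 0 := by
    have hne : gs ≠ [] := by
      rintro rfl
      simp at hl
    obtain ⟨hs, g, rfl⟩ : ∃ hs g, gs = hs ++ [g] := ⟨gs.dropLast, gs.getLast hne,
      (List.dropLast_append_getLast hne).symm⟩
    have hhs : hs ≠ [] := by
      rintro rfl
      simp at hl
      omega
    have hgg := hg g (by simp)
    unfold LL OS
    rw [List.foldl_append, List.foldl_cons, List.foldl_nil, O4_ostep]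
    apply List.sum_eq_zero
    intro x hx
    rw [List.mem_map] at hx
    obtain ⟨w, hw, rfl⟩ := hx
    exact O4_last f hf g hgg.1 hgg.2 w
      (O4_OS_ne hs (fun h hh => (hg h (by simp [hh])).2) hhs w hw)
  rw [e1, e2, sub_zero, O4_LL, O4_main gs hg]
  simp only [fstL, zero_add, O4_LL]

end Pent
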