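import Pool.Agent.Lib.MP_a57f33_nt.PN.Stm2

/-!
# Pentagon project (MP_a57f33_nt), Half II: piece `O6` (merging)

The merging operator `mrg` is a derivation for the shuffle product. For the ordered shuffles there
remain the merges of the last letter of some `u_j` with the mark of the same slot.
-/

namespace Pent

open Pool.Agent.MP_a57f33_nt.Cyc (shuffle)

/-- sum over the shuffles -/
private def O6_sS (w v : Wd) (f : Wd → ℚ) : ℚ := ((shuffle w v).map f).sum

private theorem O6_sS_nil_left (v : Wd) (f : Wd → ℚ) : O6_sS [] v f = f v := by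
  simp [O6_sS, shuffle]

private theorem O6_sS_nil_right (u : Wd) (f : Wd → ℚ) : O6_sS u [] f = f u := by
  cases u <;> simp [O6_sS, shuffle]

private theorem O6_sS_cons (a b : Bool × ℚ) (u v : Wd) (f : Wd → ℚ) :
    O6_sS (a :: u) (b :: v) f = O6_sS u (b :: v) (fun t => f (a :: t)) +
      O6_sS (a :: u) v (fun t => f (b :: t)) := by
  simp only [O6_sS, shuffle, List.map_append, List.map_map, List.sum_append]
  rfl

private theorem O6_sS_add (u v : Wd) (f g : Wd → ℚ) :
    O6_sS u v (fun t => f t + g t) = O6_sS u v f + O6_sS u v g := by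
  simp only [O6_sS]
  rw [List.sum_map_add]

private theorem O6_sS_neg (u v : Wd) (f : Wd → ℚ) :
    O6_sS u v (fun t => - f t) = - O6_sS u v f := by
  have h := O6_sS_add u v f (fun t => - f t)
  have h0 : O6_sS u v (fun _ => (0 : ℚ)) = 0 := by simp [O6_sS]
  have h1 : (fun t => f t + - f t) = fun _ : Wd => (0 : ℚ) := by funext t; ring
  rw [h1, h0] at h
  linarith

private theorem O6_sS_zero (u v : Wd) : O6_sS u v (fun _ => (0 : ℚ)) = 0 := by simp [O6_sS]

private theorem O6_sS_sub (u v : Wd) (f g : Wd → ℚ) :
    O6_sS u v (fun t => f t - g t) = O6_sS u v f - O6_sS u v g := by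
  have h := O6_sS_add u v f (fun t => - g t)
  rw [O6_sS_neg] at h
  simpa [sub_eq_add_neg] using h

private theorem O6_sS_snoc (a b : Bool × ℚ) : ∀ (n : ℕ) (u v : Wd) (f : Wd → ℚ),
    u.length + v.length = n →
    O6_sS (u ++ [a]) (v ++ [b]) f = O6_sS u (v ++ [b]) (fun t => f (t ++ [a])) +
      O6_sS (u ++ [a]) v (fun t => f (t ++ [b])) := by
  intro n
  induction n with
  | zero =>
    intro u v f h
    have hu : u = [] := List.length_eq_zero_iff.1 (by omega)
    have hv : v = [] := List.length_eq_zero_iff.1 (by omega)
    subst hu hv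
    simp only [List.nil_append, O6_sS_nil_left, O6_sS_nil_right, O6_sS_cons, List.cons_append]
    ring
  | succ n ih =>
    intro u v f h
    cases u with
    | nil =>
      cases v with
      | nil => simp at h
      | cons d v =>
        have h1 := ih [] v (fun t => f (d :: t)) (by simpa using h)
        simp only [List.nil_append, List.cons_append, O6_sS_nil_left, O6_sS_cons] at h1 ⊢
        rw [h1]
        ring
    | cons c u =>
      cases v with
      | nil =>
        have h1 := ih u [] (fun t => f (c :: t)) (by simpa using h)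
        simp only [List.nil_append, List.cons_append, O6_sS_nil_right, O6_sS_cons] at h1 ⊢
        rw [h1]
        ring
      | cons d v =>
        have h1 := ih u (d :: v) (fun t => f (c :: t)) (by simp at h ⊢; omega)
        have h2 := ih (c :: u) v (fun t => f (d :: t)) (by simp at h ⊢; omega)
        simp only [List.cons_append] at h1 h2 ⊢
        rw [O6_sS_cons, h1, h2, O6_sS_cons, O6_sS_cons]
        simp only [List.cons_append]
        ring

/-- merging of two letters -/
private def O6_mm (f : Wd → ℚ) (p q : Bool × ℚ) (w : Wd) : ℚ :=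
  if p.1 = q.1 then 0
  else if q.1 then f ((false, p.2 + q.2) :: w) - f ((true, p.2 + q.2) :: w)
  else f ((true, p.2 + q.2) :: w) - f ((false, p.2 + q.2) :: w)

private theorem O6_mrg_cons_cons (f : Wd → ℚ) (p q : Bool × ℚ) (w : Wd) :
    mrg f (p :: q :: w) = O6_mm f p q w + mrg (fun t => f (p :: t)) (q :: w) := by
  obtain ⟨x, μ⟩ := p
  obtain ⟨y, ν⟩ := q
  rfl

/-- merging of the first letter `a` and the first letter of `t` -/
private def O6_hd (f : Wd → ℚ) (a : Bool × ℚ) : Wd → ℚ
  | [] => 0
  | c :: t => O6_mm f a c t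

private theorem O6_mrg_cons (f : Wd → ℚ) (a : Bool × ℚ) (t : Wd) :
    mrg f (a :: t) = O6_hd f a t + mrg (fun s => f (a :: s)) t := by
  cases t with
  | nil => simp [mrg, O6_hd]
  | cons c t => exact O6_mrg_cons_cons f a c t

private theorem O6_mm_add (f g : Wd → ℚ) (p q : Bool × ℚ) (w : Wd) :
    O6_mm (fun t => f t + g t) p q w = O6_mm f p q w + O6_mm g p q w := by
  unfold O6_mm
  split_ifs <;> ring

private theorem O6_mm_anti (f : Wd → ℚ) (p q : Bool × ℚ) (w : Wd) :
    O6_mm f p q w = - O6_mm f q p w := by
  obtain ⟨x, μ⟩ := p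
  obtain ⟨y, ν⟩ := q
  unfold O6_mm
  cases x <;> cases y <;> simp [add_comm μ ν]

private theorem O6_mrg_add (w : Wd) : ∀ f g : Wd → ℚ,
    mrg (fun t => f t + g t) w = mrg f w + mrg g w := by
  induction w with
  | nil => intro f g; simp [mrg]
  | cons a w ih =>
    intro f g
    rw [O6_mrg_cons, O6_mrg_cons, O6_mrg_cons, ih]
    cases w with
    | nil => simp [O6_hd]
    | cons c w =>
      simp only [O6_hd, O6_mm_add]
      ring

private theorem O6_M1 (f : Wd → ℚ) (a c b : Bool × ℚ) (u v : Wd) :
    O6_sS u (b :: v) (O6_mm f a c) = O6_mm (fun t => O6_sS t (b :: v) f) a c u -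
      O6_mm (fun t => O6_sS t v fun t => f (b :: t)) a c u := by
  have h : O6_mm f a c = fun t => O6_mm f a c t := rfl
  rw [h]
  unfold O6_mm
  by_cases h1 : a.1 = c.1
  · simp only [if_pos h1]
    rw [O6_sS_zero, sub_zero]
  · by_cases h2 : c.1 = true
    · simp only [if_neg h1, if_pos h2]
      rw [O6_sS_sub]
      simp only [O6_sS_cons]
      ring
    · simp only [if_neg h1, if_neg h2]
      rw [O6_sS_sub]
      simp only [O6_sS_cons]
      ring

private theorem O6_M2 (f : Wd → ℚ) (a b d : Bool × ℚ) (u v : Wd) :
    O6_sS (a :: u) v (O6_mm f b d) = O6_mm (fun t => O6_sS (a :: u) t f) b d v -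
      O6_mm (fun t => O6_sS u t fun t => f (a :: t)) b d v := by
  have h : O6_mm f b d = fun t => O6_mm f b d t := rfl
  rw [h]
  unfold O6_mm
  by_cases h1 : b.1 = d.1
  · simp only [if_pos h1]
    rw [O6_sS_zero, sub_zero]
  · by_cases h2 : d.1 = true
    · simp only [if_neg h1, if_pos h2]
      rw [O6_sS_sub]
      simp only [O6_sS_cons]
      ring
    · simp only [if_neg h1, if_neg h2]
      rw [O6_sS_sub]
      simp only [O6_sS_cons]
      ring

/-- the merging operator is a derivation for the shuffle product -/
private theorem O6_mrg_sS : ∀ (n : ℕ) (u v : Wd) (f : Wd → ℚ), u.length + v.length = n →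
    O6_sS u v (mrg f) = mrg (fun t => O6_sS t v f) u + mrg (fun t => O6_sS u t f) v := by
  intro n
  induction n with
  | zero =>
    intro u v f h
    have hu : u = [] := List.length_eq_zero_iff.1 (by omega)
    have hv : v = [] := List.length_eq_zero_iff.1 (by omega)
    subst hu hv
    simp [O6_sS_nil_left, mrg]
  | succ n ih =>
    intro u v f h
    cases u with
    | nil =>
      simp only [O6_sS_nil_left]
      simp [mrg]
    | cons a u =>
      cases v with
      | nil =>
        simp only [O6_sS_nil_right]
        simp [mrg]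
      | cons b v =>
        have h1 := ih u (b :: v) (fun t => f (a :: t)) (by simp at h ⊢; omega)
        have h2 := ih (a :: u) v (fun t => f (b :: t)) (by simp at h ⊢; omega)
        rw [O6_sS_cons]
        have e1 : (fun t => mrg f (a :: t)) = fun t => O6_hd f a t + mrg (fun s => f (a :: s)) t :=
          funext fun t => O6_mrg_cons f a t
        have e2 : (fun t => mrg f (b :: t)) = fun t => O6_hd f b t + mrg (fun s => f (b :: s)) t :=
          funext fun t => O6_mrg_cons f b t
        rw [e1, e2, O6_sS_add, O6_sS_add]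
        have h1' : O6_sS u (b :: v) (fun t => mrg (fun s => f (a :: s)) t) =
            mrg (fun t => O6_sS t (b :: v) fun t => f (a :: t)) u +
            mrg (fun t => O6_sS u t fun t => f (a :: t)) (b :: v) := h1
        have h2' : O6_sS (a :: u) v (fun t => mrg (fun s => f (b :: s)) t) =
            mrg (fun t => O6_sS t v fun t => f (b :: t)) (a :: u) +
            mrg (fun t => O6_sS (a :: u) t fun t => f (b :: t)) v := h2
        rw [h1', h2']
        rw [O6_mrg_cons (fun t => O6_sS t (b :: v) f) a u,
          O6_mrg_cons (fun t => O6_sS (a :: u) t f) b v,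
          O6_mrg_cons (fun t => O6_sS u t fun t => f (a :: t)) b v,
          O6_mrg_cons (fun t => O6_sS t v fun t => f (b :: t)) a u]
        simp only [O6_sS_cons]
        rw [O6_mrg_add, O6_mrg_add]
        -- the first letters
        have k1 : O6_sS u (b :: v) (O6_hd f a) =
            O6_hd (fun t => O6_sS t (b :: v) f) a u - O6_hd (fun t => O6_sS t v fun t => f (b :: t)) a u
            + O6_sS u v (O6_mm f a b) := by
          cases u with
          | nil =>
            rw [O6_sS_nil_left, O6_sS_nil_left]
            simp [O6_hd]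
          | cons c u =>
            rw [O6_sS_cons]
            have : O6_sS u (b :: v) (fun t => O6_hd f a (c :: t)) =
                O6_sS u (b :: v) (O6_mm f a c) := rfl
            rw [this]
            have : O6_sS (c :: u) v (fun t => O6_hd f a (b :: t)) =
                O6_sS (c :: u) v (O6_mm f a b) := rfl
            rw [this, O6_M1]
            rfl
        have k2 : O6_sS (a :: u) v (O6_hd f b) =
            O6_hd (fun t => O6_sS (a :: u) t f) b v -
              O6_hd (fun t => O6_sS u t fun t => f (a :: t)) b v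
            + O6_sS u v (O6_mm f b a) := by
          cases v with
          | nil =>
            rw [O6_sS_nil_right, O6_sS_nil_right]
            simp [O6_hd]
          | cons d v =>
            rw [O6_sS_cons]
            have : O6_sS u (d :: v) (fun t => O6_hd f b (a :: t)) =
                O6_sS u (d :: v) (O6_mm f b a) := rfl
            rw [this]
            have : O6_sS (a :: u) v (fun t => O6_hd f b (d :: t)) =
                O6_sS (a :: u) v (O6_mm f b d) := rfl
            rw [this, O6_M2]
            simp only [O6_hd]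
            ring
        have k3 : O6_sS u v (O6_mm f b a) = - O6_sS u v (O6_mm f a b) := by
          rw [← O6_sS_neg]
          exact congrArg (O6_sS u v) (funext fun t => O6_mm_anti f b a t)
        rw [k1, k2, k3]
        ring

private theorem O6_mrg_bw (u : List ℚ) : ∀ f : Wd → ℚ, mrg f (bw u) = 0 := by
  induction u with
  | nil => intro f; simp [bw, mrg]
  | cons a u ih =>
    intro f
    have : bw (a :: u) = (false, a) :: bw u := rfl
    rw [this, O6_mrg_cons, ih]
    cases u with
    | nil => simp [bw, O6_hd]
    | cons c u =>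
      have : bw (c :: u) = (false, c) :: bw u := rfl
      rw [this]
      simp [O6_hd, O6_mm]

private theorem O6_mrg_cw (u : List ℚ) : ∀ f : Wd → ℚ, mrg f (cw u) = 0 := by
  induction u with
  | nil => intro f; simp [cw, mrg]
  | cons a u ih =>
    intro f
    have : cw (a :: u) = (true, a) :: cw u := rfl
    rw [this, O6_mrg_cons, ih]
    cases u with
    | nil => simp [cw, O6_hd]
    | cons c u =>
      have : cw (c :: u) = (true, c) :: cw u := rfl
      rw [this]
      simp [O6_hd, O6_mm]

/-- merging of the last letter of a word and `z` -/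
private def O6_tl (z : Bool × ℚ) : (Wd → ℚ) → Wd → ℚ
  | _, [] => 0
  | f, [y] => O6_mm f y z []
  | f, y :: y' :: w => O6_tl z (fun t => f (y :: t)) (y' :: w)

private theorem O6_mrg_snoc (z : Bool × ℚ) (w : Wd) : ∀ f : Wd → ℚ,
    mrg f (w ++ [z]) = mrg (fun t => f (t ++ [z])) w + O6_tl z f w := by
  induction w with
  | nil => intro f; simp [mrg, O6_tl]
  | cons y w ih =>
    intro f
    cases w with
    | nil =>
      rw [List.cons_append, List.nil_append, O6_mrg_cons_cons, O6_mrg_cons]
      simp [O6_tl, O6_hd, mrg]
    | cons y' w =>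
      rw [List.cons_append, List.cons_append, O6_mrg_cons_cons, O6_mrg_cons_cons]
      have := ih (fun t => f (y :: t))
      rw [List.cons_append] at this
      rw [this]
      have h2 : O6_tl z f (y :: y' :: w) = O6_tl z (fun t => f (y :: t)) (y' :: w) := rfl
      rw [h2]
      have h3 : O6_mm f y y' (w ++ [z]) = O6_mm (fun t => f (t ++ [z])) y y' w := rfl
      rw [h3]
      simp only [List.cons_append]
      ring

private theorem O6_tl_snoc (z y : Bool × ℚ) (w : Wd) : ∀ f : Wd → ℚ,
    O6_tl z f (w ++ [y]) = O6_mm (fun t => f (w ++ t)) y z [] := by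
  induction w with
  | nil => intro f; rfl
  | cons x w ih =>
    intro f
    cases w with
    | nil => rfl
    | cons x' w =>
      have := ih (fun t => f (x :: t))
      rw [List.cons_append] at this
      exact this

/-- the words that are empty or end with `c` -/
private def O6_E (w : Wd) : Prop := w = [] ∨ ∃ (w0 : Wd) (y : ℚ), w = w0 ++ [(true, y)]

private theorem O6_cw_E (v : List ℚ) : O6_E (cw v) := by
  rcases List.eq_nil_or_concat v with rfl | ⟨v0, y, rfl⟩
  · exact Or.inl rfl
  · exact Or.inr ⟨cw v0, y, by simp [cw]⟩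

private theorem O6_tl_E (z : ℚ) (f : Wd → ℚ) (w : Wd) (y : ℚ) :
    O6_tl (true, z) f (w ++ [(true, y)]) = 0 := by
  rw [O6_tl_snoc]
  simp [O6_mm]

private theorem O6_lemB (z : ℚ) (f : Wd → ℚ) {w v : Wd} (hw : O6_E w) (hv : O6_E v) :
    O6_sS w v (O6_tl (true, z) f) = 0 := by
  rcases hw with rfl | ⟨w0, y, rfl⟩
  · rw [O6_sS_nil_left]
    rcases hv with rfl | ⟨v0, x, rfl⟩
    · rfl
    · exact O6_tl_E z f v0 x
  · rcases hv with rfl | ⟨v0, x, rfl⟩
    · rw [O6_sS_nil_right]
      exact O6_tl_E z f w0 y
    · rw [O6_sS_snoc _ _ _ _ _ _ rfl]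
      simp only [O6_tl_E]
      rw [O6_sS_zero, O6_sS_zero, add_zero]

private theorem O6_lemA (z x : ℚ) (f : Wd → ℚ) (w : Wd) {v : Wd} (hv : O6_E v) :
    O6_sS (w ++ [(false, x)]) v (O6_tl (true, z) f) =
      O6_sS w v (fun t => f (t ++ [(false, x + z)]) - f (t ++ [(true, x + z)])) := by
  have h1 : ∀ t : Wd, O6_tl (true, z) f (t ++ [(false, x)]) =
      f (t ++ [(false, x + z)]) - f (t ++ [(true, x + z)]) := by
    intro t
    rw [O6_tl_snoc]
    simp [O6_mm]
  rcases hv with rfl | ⟨v0, y, rfl⟩
  · rw [O6_sS_nil_right, O6_sS_nil_right]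
    exact h1 w
  · rw [O6_sS_snoc _ _ _ _ _ _ rfl]
    simp only [O6_tl_E, h1]
    rw [O6_sS_zero, add_zero]

/-- the sum of `f` over `ostep [w] (u, V ++ [z])` -/
private def O6_T1 (f : Wd → ℚ) (u V : List ℚ) (z : Bool × ℚ) (w : Wd) : ℚ :=
  O6_sS w (bw u) fun w' => O6_sS w' (cw V) fun t => f (t ++ [z])

private theorem O6_sum_flatMap {α β : Type} (l : List α) (F : α → List β) (f : β → ℚ) :
    ((l.flatMap F).map f).sum = (l.map fun a => ((F a).map f).sum).sum := by
  induction l with
  | nil => simp
  | cons a l ih => simp [List.flatMap_cons, ih]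

private theorem O6_gen (f : Wd → ℚ) (ws : List Wd) (u V : List ℚ) (z : Bool × ℚ) :
    ((ws.flatMap fun w => ((shuffle w (bw u)).flatMap fun w' => shuffle w' (cw V)).map
      (· ++ [z])).map f).sum = (ws.map (O6_T1 f u V z)).sum := by
  rw [O6_sum_flatMap]
  congr 1
  refine List.map_congr_left fun w _ => ?_
  rw [List.map_map, O6_sum_flatMap]
  rfl

private theorem O6_ostep (f : Wd → ℚ) (ws : List Wd) (u V : List ℚ) (z : ℚ) :
    ((ostep ws (u, V ++ [z])).map f).sum = (ws.map (O6_T1 f u V (true, z))).sum := by
  rw [← O6_gen]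
  unfold ostep
  simp [cw]

private theorem O6_mrgT1 (f : Wd → ℚ) (U V : List ℚ) (x z : ℚ) {w : Wd} (hw : O6_E w) :
    O6_T1 (mrg f) (U ++ [x]) V (true, z) w = mrg (O6_T1 f (U ++ [x]) V (true, z)) w +
      (O6_T1 f U V (false, x + z) w - O6_T1 f U V (true, x + z) w) := by
  unfold O6_T1
  have e1 : ∀ w', (O6_sS w' (cw V) fun t => mrg f (t ++ [(true, z)])) =
      mrg (fun t => O6_sS t (cw V) fun s => f (s ++ [(true, z)])) w' +
        O6_sS w' (cw V) (O6_tl (true, z) f) := by
    intro w'
    have : (fun t => mrg f (t ++ [(true, z)])) = fun t =>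
        mrg (fun s => f (s ++ [(true, z)])) t + O6_tl (true, z) f t :=
      funext fun t => O6_mrg_snoc (true, z) t f
    rw [this, O6_sS_add]
    have h := O6_mrg_sS _ w' (cw V) (fun s => f (s ++ [(true, z)])) rfl
    rw [O6_mrg_cw, add_zero] at h
    have h' : O6_sS w' (cw V) (fun t => mrg (fun s => f (s ++ [(true, z)])) t) =
      mrg (fun t => O6_sS t (cw V) fun s => f (s ++ [(true, z)])) w' := h
    rw [h']
  have e2 : (fun w' => O6_sS w' (cw V) fun t => mrg f (t ++ [(true, z)])) =
      fun w' => mrg (fun t => O6_sS t (cw V) fun s => f (s ++ [(true, z)])) w' +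
        O6_sS w' (cw V) (O6_tl (true, z) f) := funext e1
  rw [e2, O6_sS_add]
  have h := O6_mrg_sS _ w (bw (U ++ [x])) (fun t => O6_sS t (cw V) fun s => f (s ++ [(true, z)])) rfl
  rw [O6_mrg_bw, add_zero] at h
  have h' : O6_sS w (bw (U ++ [x])) (fun w' => mrg (fun t => O6_sS t (cw V)
      fun s => f (s ++ [(true, z)])) w') =
    mrg (fun t => O6_sS t (bw (U ++ [x])) fun t => O6_sS t (cw V) fun s => f (s ++ [(true, z)])) w := h
  rw [h']
  have hb : bw (U ++ [x]) = bw U ++ [(false, x)] := by simp [bw]
  congr 1
  rw [← O6_sS_sub]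
  have e3 : (fun t => (O6_sS t (cw V) fun t => f (t ++ [(false, x + z)])) -
      O6_sS t (cw V) fun t => f (t ++ [(true, x + z)])) = fun t => O6_sS t (cw V) fun t =>
        f (t ++ [(false, x + z)]) - f (t ++ [(true, x + z)]) :=
    funext fun t => (O6_sS_sub _ _ _ _).symm
  rw [e3, hb]
  rcases hw with rfl | ⟨w0, y, rfl⟩
  · rw [O6_sS_nil_left, O6_sS_nil_left]
    exact O6_lemA z x f (bw U) (O6_cw_E V)
  · rw [O6_sS_snoc _ _ _ _ _ _ rfl]
    have e4 : (fun t => O6_sS (t ++ [(true, y)]) (cw V) (O6_tl (true, z) f)) = fun _ => (0 : ℚ) :=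
      funext fun t => O6_lemB z f (Or.inr ⟨t, y, rfl⟩) (O6_cw_E V)
    have e5 : (fun t => O6_sS (t ++ [(false, x)]) (cw V) (O6_tl (true, z) f)) =
        fun t => O6_sS t (cw V) (fun t => f (t ++ [(false, x + z)]) - f (t ++ [(true, x + z)])) :=
      funext fun t => O6_lemA z x f t (O6_cw_E V)
    rw [e4, e5, O6_sS_zero, zero_add]

/-- the sum of `f` over `gs.foldl ostep [w]` -/
private def O6_TT (f : Wd → ℚ) (gs : List Sl) (w : Wd) : ℚ := ((gs.foldl ostep [w]).map f).sum

private theorem O6_ostep_append (ws ws' : List Wd) (g : Sl) :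
    ostep (ws ++ ws') g = ostep ws g ++ ostep ws' g := by
  unfold ostep
  rw [List.flatMap_append]

private theorem O6_foldl_append (gs : List Sl) : ∀ ws ws' : List Wd,
    gs.foldl ostep (ws ++ ws') = gs.foldl ostep ws ++ gs.foldl ostep ws' := by
  induction gs with
  | nil => intro ws ws'; rfl
  | cons g gs ih =>
    intro ws ws'
    rw [List.foldl_cons, List.foldl_cons, List.foldl_cons, O6_ostep_append, ih]

private theorem O6_foldl_nil (gs : List Sl) : gs.foldl ostep ([] : List Wd) = [] := by
  induction gs with
  | nil => rfl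
  | cons g gs ih =>
    rw [List.foldl_cons]
    exact ih

private theorem O6_foldl (f : Wd → ℚ) (gs : List Sl) (ws : List Wd) :
    ((gs.foldl ostep ws).map f).sum = (ws.map (O6_TT f gs)).sum := by
  induction ws with
  | nil => rw [O6_foldl_nil]; simp
  | cons w ws ih =>
    have : w :: ws = [w] ++ ws := rfl
    rw [this, O6_foldl_append, List.map_append, List.sum_append, ih, List.map_append,
      List.sum_append]
    simp [O6_TT]

private theorem O6_OS_E (hs : List Sl) (hv : vok hs) : ∀ w ∈ (OS hs : List Wd), O6_E w := by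
  rcases List.eq_nil_or_concat hs with rfl | ⟨hs0, g, rfl⟩
  · intro w hw
    simp only [OS, List.foldl_nil, List.mem_singleton] at hw
    exact Or.inl hw
  · intro w hw
    have hg : g.2 ≠ [] := hv g (by simp)
    obtain ⟨V, z, hV⟩ : ∃ V z, g.2 = V ++ [z] := by
      rcases List.eq_nil_or_concat g.2 with h | ⟨V, z, h⟩
      · exact absurd h hg
      · exact ⟨V, z, by simpa using h⟩
    simp only [OS, List.concat_eq_append, List.foldl_append, List.foldl_cons, List.foldl_nil] at hw
    unfold ostep at hw
    rw [List.mem_flatMap] at hw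
    obtain ⟨w1, -, hw⟩ := hw
    rw [List.mem_map] at hw
    obtain ⟨w2, -, rfl⟩ := hw
    refine Or.inr ⟨w2, z, ?_⟩
    rw [hV]
    simp [cw]

/-- Piece `O6`: merging. -/
theorem p_O6 (h1 : S_free) (h2 : S_O2) : S_O6 := by
  intro p f hp hf hL
  have key : ∀ (gs hs : List Sl), hs.length + gs.length = p + 1 → uvok hs → uvok gs →
      ((gs.foldl ostep (OS hs)).map (mrg f)).sum = ((OS hs).map (mrg (O6_TT f gs))).sum -
        osum gam (fun _ t => ((t.foldl ostep (OS hs)).map f).sum) gs := by
    intro gs
    induction gs with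
    | nil =>
      intro hs _ _ _
      have : O6_TT f [] = f := by
        funext w
        simp [O6_TT]
      rw [this]
      simp [osum]
    | cons g gs ih =>
      intro hs hlen huv huv'
      have hg : g.1 ≠ [] ∧ g.2 ≠ [] := huv' g (by simp)
      have huvgs : uvok gs := fun x hx => huv' x (by simp [hx])
      have hih := ih (hs ++ [g]) (by simp at hlen ⊢; omega) (by
        intro x hx
        rcases List.mem_append.1 hx with hx | hx
        · exact huv x hx
        · rw [List.mem_singleton] at hx
          rw [hx]
          exact hg) huvgs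
      have hOS : (OS (hs ++ [g]) : List Wd) = ostep (OS hs) g := by
        simp [OS, List.foldl_append]
      rw [hOS] at hih
      obtain ⟨u, v⟩ := g
      obtain ⟨U, x, rfl⟩ : ∃ U x, u = U ++ [x] := by
        rcases List.eq_nil_or_concat u with h | ⟨V, z, h⟩
        · exact absurd h hg.1
        · exact ⟨V, z, by simpa using h⟩
      obtain ⟨V, z, rfl⟩ : ∃ V z, v = V ++ [z] := by
        rcases List.eq_nil_or_concat v with h | ⟨V, z, h⟩
        · exact absurd h hg.2
        · exact ⟨V, z, by simpa using h⟩
      rw [List.foldl_cons, hih]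
      have hvok : vok hs := fun y hy => (huv y hy).2
      have hvokgs : vok gs := fun y hy => (huvgs y hy).2
      -- the merges in the slot
      have e1 : ((ostep (OS hs) (U ++ [x], V ++ [z])).map (mrg (O6_TT f gs))).sum =
          ((OS hs).map (mrg (O6_TT f ((U ++ [x], V ++ [z]) :: gs)))).sum +
          (((OS hs).map (O6_T1 (O6_TT f gs) U V (false, x + z))).sum -
            ((OS hs).map (O6_T1 (O6_TT f gs) U V (true, x + z))).sum) := by
        rw [O6_ostep]
        have e2 : O6_TT f ((U ++ [x], V ++ [z]) :: gs) =
            O6_T1 (O6_TT f gs) (U ++ [x]) V (true, z) := by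
          funext w
          unfold O6_TT
          rw [List.foldl_cons, O6_foldl, O6_ostep]
          simp
          rfl
        rw [e2]
        have e3 : ((OS hs).map (O6_T1 (mrg (O6_TT f gs)) (U ++ [x]) V (true, z))) =
            (OS hs).map (fun w => mrg (O6_T1 (O6_TT f gs) (U ++ [x]) V (true, z)) w +
              (O6_T1 (O6_TT f gs) U V (false, x + z) w -
                O6_T1 (O6_TT f gs) U V (true, x + z) w)) :=
          List.map_congr_left fun w hw => O6_mrgT1 _ _ _ _ _ (O6_OS_E hs hvok w hw)
        rw [e3, List.sum_map_add]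
        congr 1
        rw [eq_sub_iff_add_eq, ← List.sum_map_add]
        simp
      rw [e1]
      -- the part with `c`
      have ec : ((OS hs).map (O6_T1 (O6_TT f gs) U V (true, x + z))).sum =
          LL f (hs ++ (U, V ++ [x + z]) :: gs) := by
        rw [← O6_ostep, ← O6_foldl]
        simp [LL, OS, List.foldl_append]
      have ec2 : U = [] → LL f (hs ++ (U, V ++ [x + z]) :: gs) = 0 := by
        intro hU
        refine h2 p f hp hf hL _ (by simp at hlen ⊢; omega) ?_ ⟨(U, V ++ [x + z]), by simp, hU⟩
        intro y hy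
        rcases List.mem_append.1 hy with hy | hy
        · exact hvok y hy
        · rcases List.mem_cons.1 hy with hy | hy
          · rw [hy]; simp
          · exact hvokgs y hy
      -- the part with `b`
      have eb := h1 p f hp hf hL hs gs (U ++ [x + z]) V (by simp at hlen ⊢; omega) hvok hvokgs
        (Or.inl (by simp))
      have eb2 : ((gs.foldl ostep (fstep (OS hs) (U ++ [x + z]) V)).map f).sum =
          (if V = [] then 0 else LL f (hs ++ (U ++ [x + z], V) :: gs)) +
          ((OS hs).map (O6_T1 (O6_TT f gs) U V (false, x + z))).sum := by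
        unfold fstep
        rw [O6_foldl_append, List.map_append, List.sum_append]
        congr 1
        · by_cases hV : V = []
          · rw [if_pos hV, if_pos hV, O6_foldl_nil]
            simp
          · rw [if_neg hV, if_neg hV]
            simp [LL, OS, List.foldl_append, ostep]
        · rw [O6_foldl, ← O6_gen]
          simp [bw]
      rw [eb2] at eb
      rw [ec]
      have hgam : osum gam (fun _ t => ((t.foldl ostep (OS hs)).map f).sum)
          ((U ++ [x], V ++ [z]) :: gs) =
          (if U = [] then 0 else LL f (hs ++ (U, V ++ [x + z]) :: gs)) +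
          (if V = [] then 0 else LL f (hs ++ (U ++ [x + z], V) :: gs)) +
          osum gam (fun _ t => ((t.foldl ostep (ostep (OS hs) (U ++ [x], V ++ [z]))).map f).sum)
            gs := by
        have hU2 : (2 ≤ (U ++ [x]).length) ↔ ¬ U = [] := by
          rw [List.length_append, List.length_singleton, ← List.length_eq_zero_iff]
          omega
        have hV2 : (2 ≤ (V ++ [z]).length) ↔ ¬ V = [] := by
          rw [List.length_append, List.length_singleton, ← List.length_eq_zero_iff]
          omega
        have el : ∀ l : List ℚ, ∀ y : ℚ, (l ++ [y]).getLastD 0 = y := by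
          intro l y
          rw [List.getLastD_eq_getLast?]
          simp
        have hos : ∀ (F : ℚ → List Sl → ℚ) (g : Sl) (gs : List Sl), osum gam F (g :: gs) =
            ((gam g).map fun p => F p.1 (p.2 :: gs)).sum + osum gam (fun r t => F r (g :: t)) gs :=
          fun _ _ _ => rfl
        rw [hos]
        congr 1
        unfold gam
        simp only [hU2, hV2, List.dropLast_concat, el]
        by_cases hU : U = []
        · by_cases hV : V = []
          · simp [hU, hV]
          · simp [hU, hV, LL, OS, List.foldl_append]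
        · by_cases hV : V = []
          · simp [hU, hV, LL, OS, List.foldl_append]
          · simp [hU, hV, LL, OS, List.foldl_append]
      rw [hgam]
      by_cases hU : U = []
      · have := ec2 hU
        rw [if_pos hU]
        linarith
      · rw [if_neg hU]
        linarith
  intro gs hlen huv
  have := key gs [] (by simpa using hlen) (by intro x hx; simp at hx) huv
  have e : (OS ([] : List Sl) : List Wd) = [[]] := rfl
  rw [e] at this
  unfold LL
  have e2 : (OS gs : List Wd) = gs.foldl ostep [[]] := rfl
  rw [e2, this]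
  simp [mrg, OS]

end Pent
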