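import Pool.Agent.Lib.MP_a57f33_nt.PN.Stm1

/-!
# Pentagon project (MP_a57f33_nt), piece Rp: the formula for `inv3 R`
-/

namespace Pent

open Pool.Agent.MP_a57f33_nt

universe v w

noncomputable section

/-- algebra homomorphisms commute with the evaluation -/
private theorem Rp_map {A : Type v} {B : Type w} [Ring A] [Algebra ℚ A] [Ring B] [Algebra ℚ B]
    (F : A →ₐ[ℚ] B) (φ : QX) (a b : A) : F (ev2 φ a b) = ev2 φ (F a) (F b) := by
  unfold ev2
  have h : F.comp (FreeAlgebra.lift ℚ (fun s : Bool => if s then b else a))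
      = FreeAlgebra.lift ℚ (fun s : Bool => if s then F b else F a) := by
    apply FreeAlgebra.hom_ext
    funext s
    cases s <;> simp
  exact DFunLike.congr_fun h φ

private theorem Rp_ev2_iota {A : Type v} [Ring A] [Algebra ℚ A] (a b : A) (s : Bool) :
    ev2 (FreeAlgebra.ι ℚ s) a b = if s then b else a := by
  simp [ev2]

private theorem Rp_ev2_mul {A : Type v} [Ring A] [Algebra ℚ A] (f g : QX) (a b : A) :
    ev2 (f * g) a b = ev2 f a b * ev2 g a b := by
  simp [ev2]

private theorem Rp_ev2_add {A : Type v} [Ring A] [Algebra ℚ A] (f g : QX) (a b : A) :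
    ev2 (f + g) a b = ev2 f a b + ev2 g a b := by
  simp [ev2]

private theorem Rp_ev2_sub {A : Type v} [Ring A] [Algebra ℚ A] (f g : QX) (a b : A) :
    ev2 (f - g) a b = ev2 f a b - ev2 g a b := by
  simp [ev2]

private theorem Rp_ev2_smul {A : Type v} [Ring A] [Algebra ℚ A] (r : ℚ) (f : QX) (a b : A) :
    ev2 (r • f) a b = r • ev2 f a b := by
  simp [ev2]

/-- an element which commutes with `a` and `b` commutes with all values -/
private theorem Rp_comm {A : Type v} [Ring A] [Algebra ℚ A] {z a b : A} (ha : Commute z a)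
    (hb : Commute z b) (f : QX) : Commute z (ev2 f a b) := by
  induction f using FreeAlgebra.induction with
  | grade0 r =>
    have : ev2 (algebraMap ℚ QX r) a b = algebraMap ℚ A r := by
      simp [ev2]
    rw [this]
    exact Algebra.commutes' r z |>.symm
  | grade1 s =>
    rw [Rp_ev2_iota]
    split_ifs
    · exact hb
    · exact ha
  | mul f g hf hg =>
    rw [Rp_ev2_mul]
    exact hf.mul_right hg
  | add f g hf hg =>
    rw [Rp_ev2_add]
    exact hf.add_right hg

/-- central elements may be dropped -/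
private theorem Rp_cen {A : Type v} [Ring A] [Algebra ℚ A] {φ : QX} (hφ : Good φ) {z a b : A}
    (ha : Commute z a) (hb : Commute z b) : ev2 φ (z + a) b = ev2 φ a b := by
  have key : ev2 φ (z + a) b = ev2 φ a b + coeff φ [false] • z := by
    refine lie_induction (P := fun φ => ev2 φ (z + a) b = ev2 φ a b + coeff φ [false] • z)
      ?_ ?_ ?_ ?_ ?_ hφ.1
    · intro s
      rw [Rp_ev2_iota, Rp_ev2_iota, coeff_iota]
      cases s
      · simp [add_comm]
      · simp
    · rw [coeff_zero, zero_smul, add_zero]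
      simp [ev2]
    · intro x y hx hy
      rw [Rp_ev2_add, Rp_ev2_add, hx, hy, coeff_add, add_smul]
      abel
    · intro r x hx
      rw [Rp_ev2_smul, Rp_ev2_smul, hx, coeff_smul, smul_add, mul_smul]
    · intro x y hx hy hx' hy'
      have h1 : coeff (x * y - y * x) [false] = 0 := by
        rw [coeff_sub, coeff_mul, coeff_mul]
        simp only [conv]
        rw [(lie_ins hx).1, (lie_ins hy).1]
        ring
      have hzx : z * ev2 x a b = ev2 x a b * z := Rp_comm ha hb x
      have hzy : z * ev2 y a b = ev2 y a b * z := Rp_comm ha hb y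
      rw [Rp_ev2_sub, Rp_ev2_mul, Rp_ev2_mul, hx', hy', Rp_ev2_sub, Rp_ev2_mul, Rp_ev2_mul, h1,
        zero_smul, add_zero]
      simp only [add_mul, mul_add, smul_mul_assoc, mul_smul_comm, hzx, hzy, smul_add]
      rw [smul_comm (coeff y [false]) (coeff x [false]) (z * z)]
      abel
  rw [key, hφ.2.1, zero_smul, add_zero]

/-- operators which kill `1` -/
private theorem Rp_one {φ : QX} (hφ : φ ∈ LieX) {d e : Module.End ℚ T3} (hd : d 1 = 0)
    (he : e 1 = 0) : (ev2 φ d e) 1 = 0 := by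
  refine lie_induction (P := fun φ => (ev2 φ d e) 1 = 0) ?_ ?_ ?_ ?_ ?_ hφ
  · intro s
    rw [Rp_ev2_iota]
    split_ifs
    · exact he
    · exact hd
  · simp [ev2]
  · intro x y hx hy
    rw [Rp_ev2_add, LinearMap.add_apply, hx, hy, add_zero]
  · intro r x hx
    rw [Rp_ev2_smul, LinearMap.smul_apply, hx, smul_zero]
  · intro x y _ _ hx hy
    rw [Rp_ev2_sub, Rp_ev2_mul, Rp_ev2_mul, LinearMap.sub_apply, Module.End.mul_apply,
      Module.End.mul_apply, hx, hy, map_zero, map_zero, sub_zero]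

/-- intertwiners -/
private theorem Rp_int {F d e d' e' : Module.End ℚ T3} (hd : ∀ f, F (d f) = d' (F f))
    (he : ∀ f, F (e f) = e' (F f)) (φ : QX) : ∀ f, F ((ev2 φ d e) f) = (ev2 φ d' e') (F f) := by
  induction φ using FreeAlgebra.induction with
  | grade0 r =>
    intro f
    simp [ev2, Algebra.algebraMap_eq_smul_one]
  | grade1 s =>
    intro f
    rw [Rp_ev2_iota, Rp_ev2_iota]
    cases s
    · exact hd f
    · exact he f
  | mul x y hx hy =>
    intro f
    rw [Rp_ev2_mul, Rp_ev2_mul, Module.End.mul_apply, Module.End.mul_apply, hx, hy]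
  | add x y hx hy =>
    intro f
    rw [Rp_ev2_add, Rp_ev2_add, LinearMap.add_apply, LinearMap.add_apply, map_add, hx, hy]

/-- left multiplications -/
private theorem Rp_L (φ : QX) (f g : T3) :
    ev2 φ (LinearMap.mulLeft ℚ f) (LinearMap.mulLeft ℚ g) = LinearMap.mulLeft ℚ (ev2 φ f g) :=
  (Rp_map (Algebra.lmul ℚ T3) φ f g).symm

private theorem Rp_tau_mul {i j : Fin 3} (h : i ≠ j) (f g : T3) :
    tau (some i) (some j) (f * g) = tau (some i) (some j) f * g + f * tau (some i) (some j) g := by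
  simp only [tau, if_neg h]
  exact der_mul _ f g

private theorem Rp_tau_one {i j : Fin 3} (h : i ≠ j) : tau (some i) (some j) (1 : T3) = 0 := by
  simp only [tau, if_neg h]
  exact der_one _

private theorem Rp_tau_iota {i j : Fin 3} (h : i ≠ j) (k : Fin 3) :
    tau (some i) (some j) (FreeAlgebra.ι ℚ k : T3) =
      if k = i then FreeAlgebra.ι ℚ i * FreeAlgebra.ι ℚ j - FreeAlgebra.ι ℚ j * FreeAlgebra.ι ℚ i
        else if k = j then
          FreeAlgebra.ι ℚ j * FreeAlgebra.ι ℚ i - FreeAlgebra.ι ℚ i * FreeAlgebra.ι ℚ j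
        else 0 := by
  simp only [tau, if_neg h]
  exact der_iota _ k

private theorem Rp_d12 : d12 xa = xa * xb - xb * xa ∧ d12 xb = xb * xa - xa * xb ∧ d12 xc = 0 := by
  unfold d12 xa xb xc
  refine ⟨?_, ?_, ?_⟩ <;> rw [Rp_tau_iota (by decide)] <;> simp

private theorem Rp_d13 : d13 xa = xa * xc - xc * xa ∧ d13 xb = 0 ∧ d13 xc = xc * xa - xa * xc := by
  unfold d13 xa xb xc
  refine ⟨?_, ?_, ?_⟩ <;> rw [Rp_tau_iota (by decide)] <;> simp

private theorem Rp_d23 : d23 xa = 0 ∧ d23 xb = xb * xc - xc * xb ∧ d23 xc = xc * xb - xb * xc := by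
  unfold d23 xa xb xc
  refine ⟨?_, ?_, ?_⟩ <;> rw [Rp_tau_iota (by decide)] <;> simp

private theorem Rp_m12 (f g : T3) : d12 (f * g) = d12 f * g + f * d12 g :=
  Rp_tau_mul (by decide) f g
private theorem Rp_m13 (f g : T3) : d13 (f * g) = d13 f * g + f * d13 g :=
  Rp_tau_mul (by decide) f g
private theorem Rp_m23 (f g : T3) : d23 (f * g) = d23 f * g + f * d23 g :=
  Rp_tau_mul (by decide) f g

/-- an intertwiner of derivations is determined on letters -/
private theorem Rp_der (F : T3 →ₐ[ℚ] T3) (d e : Module.End ℚ T3)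
    (hd : ∀ f g, d (f * g) = d f * g + f * d g) (he : ∀ f g, e (f * g) = e f * g + f * e g)
    (h : ∀ i : Fin 3, F (d (FreeAlgebra.ι ℚ i)) = e (F (FreeAlgebra.ι ℚ i))) (f : T3) :
    F (d f) = e (F f) := by
  have hd1 : d 1 = 0 := by
    have := hd 1 1
    simpa using this
  have he1 : e 1 = 0 := by
    have := he 1 1
    simpa using this
  induction f using FreeAlgebra.induction with
  | grade0 r =>
    have h1 : F ((1 : T3)) = 1 := map_one F
    rw [Algebra.algebraMap_eq_smul_one, map_smul, hd1, map_smul, map_zero, map_smul, h1, map_smul,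
      he1]
  | grade1 i => exact h i
  | mul x y hx hy => rw [hd, map_add, map_mul, map_mul, hx, hy, map_mul, he]
  | add x y hx hy => rw [map_add, map_add, map_add, map_add, hx, hy]

private theorem Rp_inv : inv3 xa = -xa - xb - xc ∧ inv3 xb = xb ∧ inv3 xc = xc := by
  unfold inv3
  refine ⟨?_, ?_, ?_⟩
  · exact FreeAlgebra.lift_ι_apply _ _
  · exact FreeAlgebra.lift_ι_apply _ _
  · exact FreeAlgebra.lift_ι_apply _ _

private theorem Rp_dX : dX xa = 0 ∧ dX xb = (xa + xc) * xb - xb * (xa + xc) ∧ dX xc = 0 := by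
  refine ⟨?_, ?_, ?_⟩
  · exact der_iota _ _
  · exact der_iota _ _
  · exact der_iota _ _

private theorem Rp_i12 (f : T3) : inv3 (d12 f) = dX (inv3 f) := by
  refine Rp_der inv3 d12 dX Rp_m12 (der_mul _) ?_ f
  intro i
  obtain ⟨h1, h2, h3⟩ := Rp_d12
  obtain ⟨g1, g2, g3⟩ := Rp_inv
  obtain ⟨k1, k2, k3⟩ := Rp_dX
  fin_cases i
  · show inv3 (d12 xa) = dX (inv3 xa)
    rw [h1, g1, map_sub, map_mul, map_mul, g1, g2, map_sub, map_sub, map_neg, k1, k2, k3]
    noncomm_ring
  · show inv3 (d12 xb) = dX (inv3 xb)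
    rw [h2, g2, map_sub, map_mul, map_mul, g1, g2, k2]
    noncomm_ring
  · show inv3 (d12 xc) = dX (inv3 xc)
    rw [h3, g3, map_zero, k3]

private theorem Rp_i23 (f : T3) : inv3 (d23 f) = d23 (inv3 f) := by
  refine Rp_der inv3 d23 d23 Rp_m23 Rp_m23 ?_ f
  intro i
  obtain ⟨h1, h2, h3⟩ := Rp_d23
  obtain ⟨g1, g2, g3⟩ := Rp_inv
  fin_cases i
  · show inv3 (d23 xa) = d23 (inv3 xa)
    rw [h1, g1, map_zero, map_sub, map_sub, map_neg, h1, h2, h3]
    noncomm_ring
  · show inv3 (d23 xb) = d23 (inv3 xb)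
    rw [h2, g2, map_sub, map_mul, map_mul, g3, g2, h2]
  · show inv3 (d23 xc) = d23 (inv3 xc)
    rw [h3, g3, map_sub, map_mul, map_mul, g3, g2, h3]

theorem p_Rp (h1 : S_tau) : S_Rp := by
  have _h := h1
  intro φ hφ
  obtain ⟨a1, a2, a3⟩ := Rp_d12
  obtain ⟨b1, b2, b3⟩ := Rp_d13
  obtain ⟨c1, c2, c3⟩ := Rp_d23
  obtain ⟨g1, g2, g3⟩ := Rp_inv
  have hR : Rw φ wR = (ev2 φ d23 Lc) 1 - (ev2 φ (d13 + d23) Lc) 1
      + (ev2 φ (d12 + d13) (Lb + Lc)) 1 - (ev2 φ d12 (d23 + Lb)) 1 + (ev2 φ d12 d23) 1 := rfl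
  have hL1 : ev2 φ d23 Lc = LinearMap.mulLeft ℚ (ev2 φ (-xb - xc) xc) := by
    rw [← Rp_L]
    have e : d23 = (d23 + Lb + Lc) + LinearMap.mulLeft ℚ (-xb - xc) := by
      apply LinearMap.ext
      intro f
      show d23 f = (d23 f + xb * f + xc * f) + (-xb - xc) * f
      noncomm_ring
    conv_lhs => rw [e]
    apply Rp_cen hφ
    · apply LinearMap.ext
      intro f
      show d23 ((-xb - xc) * f) + xb * ((-xb - xc) * f) + xc * ((-xb - xc) * f)
        = (-xb - xc) * (d23 f + xb * f + xc * f)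
      rw [Rp_m23, map_sub, map_neg, c2, c3]
      noncomm_ring
    · apply LinearMap.ext
      intro f
      show d23 (xc * f) + xb * (xc * f) + xc * (xc * f) = xc * (d23 f + xb * f + xc * f)
      rw [Rp_m23, c3]
      noncomm_ring
  have hL2 : ev2 φ (d13 + d23) Lc = LinearMap.mulLeft ℚ (ev2 φ (-xa - xb - xc) xc) := by
    rw [← Rp_L]
    have e : d13 + d23 = (d13 + d23 + LinearMap.mulLeft ℚ (xa + xb + xc))
        + LinearMap.mulLeft ℚ (-xa - xb - xc) := by
      apply LinearMap.ext
      intro f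
      show d13 f + d23 f = (d13 f + d23 f + (xa + xb + xc) * f) + (-xa - xb - xc) * f
      noncomm_ring
    conv_lhs => rw [e]
    apply Rp_cen hφ
    · apply LinearMap.ext
      intro f
      show d13 ((-xa - xb - xc) * f) + d23 ((-xa - xb - xc) * f)
          + (xa + xb + xc) * ((-xa - xb - xc) * f)
        = (-xa - xb - xc) * (d13 f + d23 f + (xa + xb + xc) * f)
      rw [Rp_m23, Rp_m13]
      simp only [map_sub, map_neg, c1, c2, c3, b1, b2, b3]
      noncomm_ring
    · apply LinearMap.ext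
      intro f
      show d13 (xc * f) + d23 (xc * f) + (xa + xb + xc) * (xc * f)
        = xc * (d13 f + d23 f + (xa + xb + xc) * f)
      rw [Rp_m23, Rp_m13, c3, b3]
      noncomm_ring
  have hL3 : ev2 φ (d12 + d13) (Lb + Lc) = LinearMap.mulLeft ℚ (ev2 φ (-xa - xb - xc) (xb + xc)) := by
    rw [← Rp_L]
    have e : d12 + d13 = (d12 + d13 + LinearMap.mulLeft ℚ (xa + xb + xc))
        + LinearMap.mulLeft ℚ (-xa - xb - xc) := by
      apply LinearMap.ext
      intro f
      show d12 f + d13 f = (d12 f + d13 f + (xa + xb + xc) * f) + (-xa - xb - xc) * f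
      noncomm_ring
    have e2 : Lb + Lc = LinearMap.mulLeft ℚ (xb + xc) := by
      apply LinearMap.ext
      intro f
      show xb * f + xc * f = (xb + xc) * f
      rw [add_mul]
    rw [e2]
    conv_lhs => rw [e]
    apply Rp_cen hφ
    · apply LinearMap.ext
      intro f
      show d12 ((-xa - xb - xc) * f) + d13 ((-xa - xb - xc) * f)
          + (xa + xb + xc) * ((-xa - xb - xc) * f)
        = (-xa - xb - xc) * (d12 f + d13 f + (xa + xb + xc) * f)
      rw [Rp_m12, Rp_m13]
      simp only [map_sub, map_neg, a1, a2, a3, b1, b2, b3]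
      noncomm_ring
    · apply LinearMap.ext
      intro f
      show d12 ((xb + xc) * f) + d13 ((xb + xc) * f) + (xa + xb + xc) * ((xb + xc) * f)
        = (xb + xc) * (d12 f + d13 f + (xa + xb + xc) * f)
      rw [Rp_m12, Rp_m13]
      simp only [map_add, a2, a3, b2, b3]
      noncomm_ring
  have hL4 : (ev2 φ d12 d23) 1 = 0 :=
    Rp_one hφ.1 (Rp_tau_one (by decide)) (Rp_tau_one (by decide))
  have hL5 : inv3 ((ev2 φ d12 (d23 + Lb)) 1) = (ev2 φ dX dC) 1 := by
    have h := Rp_int (F := inv3.toLinearMap) (d := d12) (e := d23 + Lb) (d' := dX) (e' := dC)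
      Rp_i12 (by
        intro f
        show inv3 (d23 f + xb * f) = xb * inv3 f + d23 (inv3 f)
        rw [map_add, map_mul, g2, Rp_i23, add_comm]) φ 1
    have h1 : inv3.toLinearMap (1 : T3) = 1 := map_one inv3
    rw [h1] at h
    exact h
  rw [hR, hL1, hL2, hL3, hL4, add_zero, map_sub, hL5, map_add, map_sub]
  simp only [LinearMap.mulLeft_apply, mul_one]
  rw [Rp_map, Rp_map, Rp_map]
  simp only [map_sub, map_add, map_neg, g1, g2, g3]
  have e1 : -(-xa - xb - xc) - xb - xc = xa := by abel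
  rw [e1]

end

end Pent
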