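import Pool.Agent.Lib.MP_a57f33_nt.PN.Stm1

/-!
# Pentagon project (MP_a57f33_nt): piece `coc`
-/

namespace Pent

open Pool.Agent.MP_a57f33_nt

universe v

noncomputable section

/-! ### Coefficients -/

section coeffs

variable {I : Type} [DecidableEq I]

theorem coc_coeff_mul_iota (f : FreeAlgebra ℚ I) (a b : I) (v : List I) :
    coeff (f * FreeAlgebra.ι ℚ a) (v ++ [b]) = if b = a then coeff f v else 0 := by
  have h : (coeffL (v ++ [b])).comp (LinearMap.mulRight ℚ (FreeAlgebra.ι ℚ a)) =
      (if b = a then (1 : ℚ) else 0) • coeffL v := by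
    apply linear_ext
    intro u
    have e : word u * FreeAlgebra.ι ℚ a = word (u ++ [a]) := by rw [word_append]; simp
    simp only [LinearMap.comp_apply, LinearMap.mulRight_apply, LinearMap.smul_apply,
      coeffL_apply, e, coeff_word, smul_eq_mul]
    by_cases h : b = a
    · subst h; simp
    · have h2 : ¬ u ++ [a] = v ++ [b] := by
        intro h2
        have h3 := List.append_inj' h2 rfl
        exact h (by simpa using h3.2.symm)
      simp [h, h2]
  have h2 := LinearMap.congr_fun h f
  simp only [LinearMap.comp_apply, LinearMap.mulRight_apply, LinearMap.smul_apply,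
      coeffL_apply, smul_eq_mul] at h2
  rw [h2]
  split_ifs <;> simp

theorem coc_coeff_one (v : List I) : coeff (1 : FreeAlgebra ℚ I) v = if v = [] then 1 else 0 := by
  rw [← word_nil, coeff_word]
  by_cases h : v = []
  · simp [h]
  · simp [h, Ne.symm h]

omit [DecidableEq I] in
theorem coc_d_one {d : Module.End ℚ (FreeAlgebra ℚ I)}
    (hd : ∀ f g, d (f * g) = d f * g + f * d g) : d 1 = 0 := by
  have := hd 1 1
  simp only [mul_one, one_mul] at this
  simpa using this

/-- the data of a derivation `x_p ↦ [x_p, x_j]`, `x_j ↦ [x_j, x_p]` -/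
structure IsD (p j : I) (d : Module.End ℚ (FreeAlgebra ℚ I)) : Prop where
  ne : p ≠ j
  leib : ∀ f g, d (f * g) = d f * g + f * d g
  atp : d (FreeAlgebra.ι ℚ p) = FreeAlgebra.ι ℚ p * FreeAlgebra.ι ℚ j
    - FreeAlgebra.ι ℚ j * FreeAlgebra.ι ℚ p
  atj : d (FreeAlgebra.ι ℚ j) = FreeAlgebra.ι ℚ j * FreeAlgebra.ι ℚ p
    - FreeAlgebra.ι ℚ p * FreeAlgebra.ι ℚ j
  oth : ∀ k, k ≠ p → k ≠ j → d (FreeAlgebra.ι ℚ k) = 0

theorem coc_isD1 {p j : I} (h : p ≠ j) : IsD p j (tau (some p) (some j)) := by
  have e : (tau (some p) (some j) : Module.End ℚ (FreeAlgebra ℚ I)) = der fun k =>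
      if k = p then FreeAlgebra.ι ℚ p * FreeAlgebra.ι ℚ j - FreeAlgebra.ι ℚ j * FreeAlgebra.ι ℚ p
        else if k = j then
          FreeAlgebra.ι ℚ j * FreeAlgebra.ι ℚ p - FreeAlgebra.ι ℚ p * FreeAlgebra.ι ℚ j
        else 0 := by
    simp [tau, h]
  rw [e]
  refine ⟨h, der_mul _, ?_, ?_, ?_⟩
  · rw [der_iota]; simp
  · rw [der_iota]; simp [Ne.symm h]
  · intro k h1 h2; rw [der_iota]; simp [h1, h2]

theorem coc_isD2 {p j : I} (h : p ≠ j) : IsD p j (tau (some j) (some p)) := by
  have e : (tau (some j) (some p) : Module.End ℚ (FreeAlgebra ℚ I)) = der fun k =>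
      if k = j then FreeAlgebra.ι ℚ j * FreeAlgebra.ι ℚ p - FreeAlgebra.ι ℚ p * FreeAlgebra.ι ℚ j
        else if k = p then
          FreeAlgebra.ι ℚ p * FreeAlgebra.ι ℚ j - FreeAlgebra.ι ℚ j * FreeAlgebra.ι ℚ p
        else 0 := by
    simp [tau, Ne.symm h]
  rw [e]
  refine ⟨h, der_mul _, ?_, ?_, ?_⟩
  · rw [der_iota]; simp [h]
  · rw [der_iota]; simp
  · intro k h1 h2; rw [der_iota]; simp [h1, h2]

theorem coc_iota_mul_nc {a : I} {v : List I} (hv : a ∉ v) (g : FreeAlgebra ℚ I) :
    coeff (FreeAlgebra.ι ℚ a * g) v = 0 := by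
  cases v with
  | nil => exact coeff_iota_mul_nil _ _
  | cons b v =>
    rw [coeff_iota_mul_cons]
    have : b ≠ a := fun e => hv (by simp [e])
    simp [this]

/-- words without the letter `p` do not occur in `d g` -/
theorem coc_B {p j : I} {d : Module.End ℚ (FreeAlgebra ℚ I)} (h : IsD p j d) (g : FreeAlgebra ℚ I)
    (v : List I) (hv : p ∉ v) : coeff (d g) v = 0 := by
  have key : (coeffL v).comp d = 0 := by
    apply linear_ext
    intro u
    simp only [LinearMap.comp_apply, coeffL_apply, LinearMap.zero_apply]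
    induction u generalizing v with
    | nil => rw [word_nil, coc_d_one h.leib, coeff_zero]
    | cons a u ih =>
      rw [word_cons, h.leib, coeff_add]
      have h2 : coeff (FreeAlgebra.ι ℚ a * d (word u)) v = 0 := by
        cases v with
        | nil => exact coeff_iota_mul_nil _ _
        | cons b v =>
          rw [coeff_iota_mul_cons]
          split_ifs
          · exact ih v (fun hh => hv (by simp [hh]))
          · rfl
      have h1 : coeff (d (FreeAlgebra.ι ℚ a) * word u) v = 0 := by
        have hjp : ∀ q : FreeAlgebra ℚ I,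
            coeff (FreeAlgebra.ι ℚ j * (FreeAlgebra.ι ℚ p * q)) v = 0 := by
          intro q
          cases v with
          | nil => exact coeff_iota_mul_nil _ _
          | cons b v =>
            rw [coeff_iota_mul_cons]
            split_ifs
            · exact coc_iota_mul_nc (fun hh => hv (by simp [hh])) _
            · rfl
        by_cases ha : a = p
        · subst ha
          rw [h.atp, sub_mul, coeff_sub, mul_assoc, mul_assoc, coc_iota_mul_nc hv, hjp]
          ring
        · by_cases hb : a = j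
          · subst hb
            rw [h.atj, sub_mul, coeff_sub, mul_assoc, mul_assoc, coc_iota_mul_nc hv, hjp]
            ring
          · rw [h.oth a ha hb, zero_mul, coeff_zero]
      rw [h1, h2, add_zero]
  exact LinearMap.congr_fun key g

theorem coc_A0 {p j : I} {d : Module.End ℚ (FreeAlgebra ℚ I)} (h : IsD p j d)
    (g : FreeAlgebra ℚ I) : coeff (d g) [p] = 0 := by
  have key : (coeffL [p]).comp d = 0 := by
    apply linear_ext
    intro u
    simp only [LinearMap.comp_apply, coeffL_apply, LinearMap.zero_apply]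
    rcases List.eq_nil_or_concat' u with rfl | ⟨u, a, rfl⟩
    · rw [word_nil, coc_d_one h.leib, coeff_zero]
    · rw [word_append, show word [a] = FreeAlgebra.ι ℚ a by simp, h.leib, coeff_add]
      have h1 : coeff (d (word u) * FreeAlgebra.ι ℚ a) [p] = 0 := by
        have := coc_coeff_mul_iota (d (word u)) a p []
        simp only [List.nil_append] at this
        rw [this, coc_B h _ [] (by simp)]
        simp
      have h2 : ∀ x y : I, coeff (word u * (FreeAlgebra.ι ℚ x * FreeAlgebra.ι ℚ y)) [p] = 0 := by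
        intro x y
        have := coc_coeff_mul_iota (word u * FreeAlgebra.ι ℚ x) y p []
        simp only [List.nil_append] at this
        rw [← mul_assoc, this]
        split_ifs
        · have e : word u * FreeAlgebra.ι ℚ x = word (u ++ [x]) := by rw [word_append]; simp
          rw [e, coeff_word]; simp
        · rfl
      rw [h1, zero_add]
      by_cases ha : a = p
      · subst ha
        rw [h.atp, mul_sub, coeff_sub, h2, h2, sub_zero]
      · by_cases hb : a = j
        · subst hb
          rw [h.atj, mul_sub, coeff_sub, h2, h2, sub_zero]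
        · rw [h.oth a ha hb, mul_zero, coeff_zero]
  exact LinearMap.congr_fun key g

theorem coc_A1 {p j : I} {d : Module.End ℚ (FreeAlgebra ℚ I)} (h : IsD p j d)
    (g : FreeAlgebra ℚ I) (v : List I) (i : I) (hv : p ∉ v) (hi : i ≠ p) :
    coeff (d g) (v ++ [i] ++ [p]) =
      if i = j then coeff g (v ++ [j]) - coeff g (v ++ [p]) else 0 := by
  have key : (coeffL (v ++ [i] ++ [p])).comp d =
      (if i = j then (1 : ℚ) else 0) • (coeffL (v ++ [j]) - coeffL (v ++ [p])) := by
    apply linear_ext
    intro u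
    simp only [LinearMap.comp_apply, coeffL_apply, LinearMap.smul_apply, LinearMap.sub_apply,
      smul_eq_mul]
    rcases List.eq_nil_or_concat' u with rfl | ⟨u, a, rfl⟩
    · rw [word_nil, coc_d_one h.leib, coeff_zero, coc_coeff_one, coc_coeff_one]
      simp
    · have e1 : word (u ++ [a]) = word u * FreeAlgebra.ι ℚ a := by rw [word_append]; simp
      rw [e1, h.leib, coeff_add, coc_coeff_mul_iota, coc_coeff_mul_iota, coc_coeff_mul_iota]
      have hvi : p ∉ v ++ [i] := by simp [hv, Ne.symm hi]
      rw [coc_B h _ _ hvi, ite_self, zero_add]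
      by_cases ha : a = p
      · subst ha
        rw [h.atp, mul_sub, coeff_sub, ← mul_assoc, ← mul_assoc]
        simp only [coc_coeff_mul_iota]
        have h1 : ¬ j = a := Ne.symm h.ne
        have h2 : ¬ a = j := h.ne
        simp only [h1, h2, if_false, if_true]
        by_cases hij : i = j <;> simp [hij]
      · by_cases hb : a = j
        · subst hb
          rw [h.atj, mul_sub, coeff_sub, ← mul_assoc, ← mul_assoc]
          simp only [coc_coeff_mul_iota]
          have h2 : ¬ p = a := h.ne
          simp only [h2, if_false, if_true]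
          by_cases hij : i = a <;> simp [hij]
        · rw [h.oth a ha hb, mul_zero, coeff_zero]
          simp [Ne.symm ha, Ne.symm hb]
  have := LinearMap.congr_fun key g
  simp only [LinearMap.comp_apply, coeffL_apply, LinearMap.smul_apply, LinearMap.sub_apply,
      smul_eq_mul] at this
  rw [this]
  split_ifs <;> simp

end coeffs

/-! ### The rule for the last strand `p` -/

section rule

variable {p : Fin 4} {σ : Fin 3 → Fin 4} {X : Fin 3 → Module.End ℚ T4}
  {d : Fin 3 → Module.End ℚ T4}

theorem coc_pσ {w : List (Fin 3)} (hσ : ∀ i, σ i ≠ p) : p ∉ w.map σ := by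
  intro h
  obtain ⟨i, _, hi⟩ := List.mem_map.mp h
  exact hσ i hi

theorem coc_rule (hσ : Function.Injective σ) (hp : ∀ i, σ i ≠ p) (hd : ∀ i, IsD p (σ i) (d i))
    (h0 : X 0 = d 0) (h1 : X 1 = d 1) (h2 : X 2 = d 2 + LinearMap.mulLeft ℚ (yl p))
    (F : T3) (w : List (Fin 3)) :
    coeff ((FreeAlgebra.lift ℚ X F) 1) (w.map σ ++ [p]) =
      (-1) ^ w.length * coeff F (w.reverse ++ [2]) := by
  have hstep : ∀ (i : Fin 3) (g : T4), X i g = d i g + (if i = 2 then yl p * g else 0) := by
    intro i g
    fin_cases i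
    · simp [h0]
    · simp [h1]
    · simp [h2]
  have hnil : (FreeAlgebra.lift ℚ X (word ([] : List (Fin 3)))) 1 = 1 := by
    have e : (FreeAlgebra.lift ℚ X) (1 : T3) = 1 := map_one _
    rw [word_nil, e]; rfl
  have hcons : ∀ (i : Fin 3) (u : List (Fin 3)), (FreeAlgebra.lift ℚ X (word (i :: u))) 1 =
      X i ((FreeAlgebra.lift ℚ X (word u)) 1) := by
    intro i u
    rw [word_cons, map_mul, FreeAlgebra.lift_ι_apply]
    rfl
  have c1 : ∀ (u : List (Fin 3)) (v : List (Fin 4)), p ∉ v →
      coeff ((FreeAlgebra.lift ℚ X (word u)) 1) v = if u = [] ∧ v = [] then 1 else 0 := by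
    intro u v hv
    cases u with
    | nil =>
      rw [hnil, coc_coeff_one]
      simp
    | cons i u =>
      rw [hcons, hstep, coeff_add, coc_B (hd i) _ v hv]
      simp only [reduceCtorEq, false_and, if_false, zero_add]
      split_ifs
      · exact coc_iota_mul_nc hv _
      · exact coeff_zero _
  have c2 : ∀ (u w : List (Fin 3)), coeff ((FreeAlgebra.lift ℚ X (word u)) 1) (w.map σ ++ [p]) =
      if u = w.reverse ++ [2] then (-1 : ℚ) ^ w.length else 0 := by
    intro u
    induction u with
    | nil =>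
      intro w
      rw [hnil, coc_coeff_one]
      simp
    | cons i u ih =>
      intro w
      rw [hcons, hstep, coeff_add]
      rcases List.eq_nil_or_concat' w with rfl | ⟨w, k, rfl⟩
      · simp only [List.map_nil, List.nil_append, List.reverse_nil, List.length_nil, pow_zero]
        rw [coc_A0 (hd i), zero_add]
        by_cases hi : i = 2
        · subst hi
          rw [if_pos rfl, yl, coeff_iota_mul_cons, if_pos rfl, c1 u [] (by simp)]
          simp
        · rw [if_neg hi, coeff_zero]
          simp [hi]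
      · have e : (w ++ [k]).map σ ++ [p] = w.map σ ++ [σ k] ++ [p] := by simp
        rw [e, coc_A1 (hd i) _ _ _ (coc_pσ hp) (hp k)]
        have h3 : coeff (if i = 2 then yl p * (FreeAlgebra.lift ℚ X (word u)) 1 else 0)
            (w.map σ ++ [σ k] ++ [p]) = 0 := by
          split_ifs
          · cases w with
            | nil =>
              simp only [List.map_nil, List.nil_append, List.cons_append, yl]
              rw [coeff_iota_mul_cons, if_neg (hp k)]
            | cons a w =>
              simp only [List.map_cons, List.cons_append, yl]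
              rw [coeff_iota_mul_cons, if_neg (hp a)]
          · exact coeff_zero _
        rw [h3, add_zero, ih w, c1 u _ (by
          intro h
          rcases List.mem_append.mp h with h | h
          · exact coc_pσ hp h
          · exact hp i (List.mem_singleton.mp h).symm)]
        have h4 : ¬ (u = [] ∧ w.map σ ++ [σ i] = []) := by simp
        rw [if_neg h4]
        have h5 : (w ++ [k]).reverse ++ [2] = k :: (w.reverse ++ [2]) := by simp
        rw [h5]
        by_cases hk : k = i
        · subst hk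
          simp only [if_true, List.cons.injEq, true_and, List.length_append, List.length_cons,
            List.length_nil, zero_add, pow_succ]
          split_ifs <;> simp
        · have h6 : ¬ σ k = σ i := fun h => hk (hσ h)
          rw [if_neg h6, if_neg (by
            intro h
            exact hk (by simpa using (List.cons.inj h).1.symm))]
  let ev1 : Module.End ℚ T4 →ₗ[ℚ] T4 := LinearMap.applyₗ (1 : T4)
  have key : (coeffL (w.map σ ++ [p])).comp (ev1.comp (FreeAlgebra.lift ℚ X).toLinearMap) =
      ((-1 : ℚ) ^ w.length) • coeffL (w.reverse ++ [2]) := by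
    apply linear_ext
    intro u
    simp only [LinearMap.comp_apply, coeffL_apply, LinearMap.smul_apply, smul_eq_mul,
      AlgHom.toLinearMap_apply, coeff_word]
    change coeff ((FreeAlgebra.lift ℚ X (word u)) 1) (w.map σ ++ [p]) = _
    rw [c2]
    simp
  have h3 := LinearMap.congr_fun key F
  exact h3

end rule

/-! ### Special operators -/

/-- operators `L_r + d`, `d` a special derivation -/
def coc_Sp (O : Module.End ℚ T4) : Prop :=
  ∃ (r : T4) (d : Module.End ℚ T4), O = LinearMap.mulLeft ℚ r + d ∧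
    (∀ f g, d (f * g) = d f * g + f * d g) ∧
    (∀ i, ∃ a, d (yl i) = yl i * a - a * yl i) ∧ ∑ i, d (yl i) = 0

theorem coc_Sp_add {O O' : Module.End ℚ T4} (h : coc_Sp O) (h' : coc_Sp O') :
    coc_Sp (O + O') := by
  obtain ⟨r, d, rfl, h1, h2, h3⟩ := h
  obtain ⟨s, e, rfl, k1, k2, k3⟩ := h'
  refine ⟨r + s, d + e, ?_, ?_, ?_, ?_⟩
  · ext g; simp [add_mul]; abel
  · intro f g; simp only [LinearMap.add_apply, h1, k1]; noncomm_ring
  · intro i
    obtain ⟨a, ha⟩ := h2 i
    obtain ⟨b, hb⟩ := k2 i
    exact ⟨a + b, by simp only [LinearMap.add_apply, ha, hb]; noncomm_ring⟩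
  · simp only [LinearMap.add_apply, Finset.sum_add_distrib, h3, k3, add_zero]

theorem coc_Sp_smul (c : ℚ) {O : Module.End ℚ T4} (h : coc_Sp O) : coc_Sp (c • O) := by
  obtain ⟨r, d, rfl, h1, h2, h3⟩ := h
  refine ⟨c • r, c • d, ?_, ?_, ?_, ?_⟩
  · ext g; simp
  · intro f g
    simp only [LinearMap.smul_apply, h1, smul_add, smul_mul_assoc, mul_smul_comm]
  · intro i
    obtain ⟨a, ha⟩ := h2 i
    exact ⟨c • a, by simp only [LinearMap.smul_apply, ha, smul_sub, smul_mul_assoc,
      mul_smul_comm]⟩
  · simp only [LinearMap.smul_apply, ← Finset.smul_sum, h3, smul_zero]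

theorem coc_Sp_zero : coc_Sp 0 :=
  ⟨0, 0, by ext g; simp, by simp, fun i => ⟨0, by simp⟩, by simp⟩

theorem coc_Sp_neg {O : Module.End ℚ T4} (h : coc_Sp O) : coc_Sp (-O) := by
  have e : -O = (-1 : ℚ) • O := by ext g; simp
  rw [e]
  exact coc_Sp_smul (-1) h

theorem coc_Sp_sub {O O' : Module.End ℚ T4} (h : coc_Sp O) (h' : coc_Sp O') :
    coc_Sp (O - O') := by
  rw [sub_eq_add_neg]
  exact coc_Sp_add h (coc_Sp_neg h')

theorem coc_Sp_comm {O O' : Module.End ℚ T4} (h : coc_Sp O) (h' : coc_Sp O') :
    coc_Sp (O * O' - O' * O) := by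
  obtain ⟨r, d, rfl, h1, h2, h3⟩ := h
  obtain ⟨s, e, rfl, k1, k2, k3⟩ := h'
  refine ⟨r * s - s * r + d s - e r, d * e - e * d, ?_, ?_, ?_, ?_⟩
  · apply LinearMap.ext
    intro g
    simp only [LinearMap.sub_apply, LinearMap.add_apply, Module.End.mul_apply,
      LinearMap.mulLeft_apply, map_add, h1, k1]
    noncomm_ring
  · intro f g
    simp only [LinearMap.sub_apply, Module.End.mul_apply, map_add, h1, k1]
    noncomm_ring
  · intro i
    obtain ⟨a, ha⟩ := h2 i
    obtain ⟨b, hb⟩ := k2 i
    refine ⟨a * b - b * a + d b - e a, ?_⟩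
    simp only [LinearMap.sub_apply, Module.End.mul_apply, ha, hb, map_sub, h1, k1]
    noncomm_ring
  · simp only [LinearMap.sub_apply, Module.End.mul_apply, Finset.sum_sub_distrib, ← map_sum,
      h3, k3, map_zero, sub_zero]

theorem coc_Sp_ev2 {φ : QX} (hφ : φ ∈ LieX) {X Y : Module.End ℚ T4} (hX : coc_Sp X)
    (hY : coc_Sp Y) : coc_Sp (ev2 φ X Y) := by
  refine lie_induction (P := fun φ => coc_Sp (ev2 φ X Y)) ?_ ?_ ?_ ?_ ?_ hφ
  · intro b
    cases b <;> simpa [ev2]
  · simpa [ev2] using coc_Sp_zero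
  · intro x y hx hy
    have : ev2 (x + y) X Y = ev2 x X Y + ev2 y X Y := by simp [ev2]
    rw [this]; exact coc_Sp_add hx hy
  · intro c x hx
    have : ev2 (c • x) X Y = c • ev2 x X Y := by simp [ev2]
    rw [this]; exact coc_Sp_smul c hx
  · intro x y _ _ hx hy
    have : ev2 (x * y - y * x) X Y = ev2 x X Y * ev2 y X Y - ev2 y X Y * ev2 x X Y := by
      simp [ev2]
    rw [this]; exact coc_Sp_comm hx hy

theorem coc_Sp_tau (p q : Option (Fin 4)) : coc_Sp (tau p q) := by
  rcases p with _ | i
  · rcases q with _ | j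
    · exact coc_Sp_zero
    · exact ⟨yl j, 0, by simp [tau, yl], by simp, fun i => ⟨0, by simp⟩, by simp⟩
  · rcases q with _ | j
    · exact ⟨yl i, 0, by simp [tau, yl], by simp, fun i => ⟨0, by simp⟩, by simp⟩
    · by_cases hij : i = j
      · subst hij
        simpa [tau] using coc_Sp_zero
      · have h := coc_isD1 (I := Fin 4) hij
        refine ⟨0, tau (some i) (some j), by ext g; simp, h.leib, ?_, ?_⟩
        · intro k
          by_cases hk : k = i
          · subst hk
            exact ⟨yl j, h.atp⟩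
          · by_cases hk' : k = j
            · subst hk'
              exact ⟨yl i, h.atj⟩
            · exact ⟨0, by rw [yl, h.oth k hk hk']; simp⟩
        · simp only [yl]
          rw [Finset.sum_eq_add i j hij (fun k _ hk => h.oth k hk.1 hk.2)
            (fun h => absurd (Finset.mem_univ _) h) (fun h => absurd (Finset.mem_univ _) h)]
          simp only [h.atp, h.atj]
          abel

/-- (iv) -/
theorem coc_last {O : Module.End ℚ T4} (h : coc_Sp O)
    (hc : O * LinearMap.mulLeft ℚ (yl 3) = LinearMap.mulLeft ℚ (yl 3) * O) (w : List (Fin 4)) :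
    coeff (O 1) (w ++ [3]) = coeff (O 1) (3 :: w) := by
  obtain ⟨r, d, rfl, h1, h2, h3⟩ := h
  have d1 : d 1 = 0 := coc_d_one h1
  have e := LinearMap.congr_fun hc 1
  simp only [Module.End.mul_apply, LinearMap.add_apply, LinearMap.mulLeft_apply, mul_one, d1,
    add_zero] at e
  have hr : (LinearMap.mulLeft ℚ r + d) 1 = r := by simp [d1]
  rw [hr]
  have e2 := congrArg (fun f => coeff f (3 :: (w ++ [3]))) e
  simp only [coeff_add] at e2
  have l1 : coeff (yl 3 * r) (3 :: (w ++ [3])) = coeff r (w ++ [3]) := by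
    rw [yl, coeff_iota_mul_cons, if_pos rfl]
  have l2 : coeff (r * yl 3) (3 :: (w ++ [3])) = coeff r (3 :: w) := by
    have := coc_coeff_mul_iota r 3 3 (3 :: w)
    rw [if_pos rfl] at this
    exact this
  have l3 : ∀ i : Fin 4, i ≠ 3 → coeff (d (yl i)) (3 :: (w ++ [3])) = 0 := by
    intro i hi
    obtain ⟨a, ha⟩ := h2 i
    rw [ha, coeff_sub, yl, coeff_iota_mul_cons, if_neg (Ne.symm hi)]
    have := coc_coeff_mul_iota a i 3 (3 :: w)
    rw [if_neg (Ne.symm hi)] at this
    rw [show (3 :: (w ++ [3]) : List (Fin 4)) = (3 :: w) ++ [3] from rfl, this, sub_zero]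
  have l4 : coeff (d (yl 3)) (3 :: (w ++ [3])) = 0 := by
    have e3 := congrArg (fun f => coeff f (3 :: (w ++ [3]))) h3
    simp only [Fin.sum_univ_four, coeff_add, coeff_zero, l3 0 (by decide), l3 1 (by decide),
      l3 2 (by decide), zero_add] at e3
    exact e3
  rw [l1, l2, l4, add_zero] at e2
  exact e2.symm

/-! ### Merging strands -/

/-- merging of strands -/
def coc_mg {A : Type v} [AddCommMonoid A] {I J : Type} (S : J → Finset I) (t : I → I → A) :
    J → J → A :=
  fun j k => ∑ a ∈ S j, ∑ b ∈ S k, t a b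

theorem coc_mg_braid {A : Type v} [Ring A] {I J : Type} [DecidableEq I] {t : I → I → A}
    (ht : Braid t) (S : J → Finset I) (hS : ∀ j k, j ≠ k → Disjoint (S j) (S k)) :
    Braid (coc_mg S t) := by
  have hne : ∀ {j k : J} {a b : I}, j ≠ k → a ∈ S j → b ∈ S k → a ≠ b := by
    intro j k a b hjk ha hb e
    exact Finset.disjoint_left.mp (hS j k hjk) ha (e ▸ hb)
  refine ⟨?_, ?_, ?_⟩
  · intro i j
    simp only [coc_mg]
    rw [Finset.sum_comm]
    exact Finset.sum_congr rfl fun a _ => Finset.sum_congr rfl fun b _ => ht.symm _ _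
  · intro i j k l h1 h2 h3 h4 h5 h6
    simp only [coc_mg]
    refine Commute.sum_left _ _ _ fun a ha => Commute.sum_left _ _ _ fun b hb =>
      Commute.sum_right _ _ _ fun c hc => Commute.sum_right _ _ _ fun e he => ?_
    exact ht.four a b c e (hne h1 ha hb) (hne h2 ha hc) (hne h3 ha he) (hne h4 hb hc)
      (hne h5 hb he) (hne h6 hc he)
  · intro i j k hij hik hjk
    simp only [coc_mg]
    refine Commute.sum_left _ _ _ fun a ha => Commute.sum_left _ _ _ fun b hb => ?_
    rw [Finset.sum_comm, Finset.sum_comm (s := S j), ← Finset.sum_add_distrib]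
    refine Commute.sum_right _ _ _ fun c hc => ?_
    rw [← Finset.add_sum_erase (S i) (fun y => t y c) ha,
      ← Finset.add_sum_erase (S j) (fun y => t y c) hb]
    have e : (t a c + ∑ x ∈ (S i).erase a, t x c) + (t b c + ∑ x ∈ (S j).erase b, t x c) =
        (t a c + t b c) + ∑ x ∈ (S i).erase a, t x c + ∑ x ∈ (S j).erase b, t x c := by abel
    rw [e]
    refine Commute.add_right (Commute.add_right ?_ ?_) ?_
    · exact ht.three a b c (hne hij ha hb) (hne hik ha hc) (hne hjk hb hc)
    · refine Commute.sum_right _ _ _ fun x hx => ?_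
      have hx' := Finset.mem_erase.mp hx
      exact ht.four a b x c (hne hij ha hb) (Ne.symm hx'.1) (hne hik ha hc)
        (hne hij hx'.2 hb).symm (hne hjk hb hc) (hne hik hx'.2 hc)
    · refine Commute.sum_right _ _ _ fun x hx => ?_
      have hx' := Finset.mem_erase.mp hx
      exact ht.four a b x c (hne hij ha hb) (hne hij ha hx'.2) (hne hik ha hc)
        (Ne.symm hx'.1) (hne hjk hb hc) (hne hjk hx'.2 hc)

/-- the pentagon expression with merged strands -/
def coc_D {A : Type v} [Ring A] [Algebra ℚ A] {I : Type} (φ : QX) (t : I → I → A)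
    (S : Fin 4 → Finset I) : A :=
  pent φ (coc_mg S t)

/-- (i) the cocycle identity -/
theorem coc_cocycle {A : Type v} [Ring A] [Algebra ℚ A] (φ : QX)
    (t : Option (Fin 4) → Option (Fin 4) → A) :
    coc_D φ t ![{some 1}, {some 2}, {some 3}, {none}]
      - coc_D φ t ![{some 0, some 1}, {some 2}, {some 3}, {none}]
      + coc_D φ t ![{some 0}, {some 1, some 2}, {some 3}, {none}]
      - coc_D φ t ![{some 0}, {some 1}, {some 2, some 3}, {none}]
      + coc_D φ t ![{some 0}, {some 1}, {some 2}, {some 3, none}]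
      - coc_D φ t ![{some 0}, {some 1}, {some 2}, {some 3}] = 0 := by
  have e01 : ∀ f : Option (Fin 4) → A, ∑ a ∈ ({some 0, some 1} : Finset (Option (Fin 4))), f a =
      f (some 0) + f (some 1) := fun f => Finset.sum_pair (by decide)
  have e12 : ∀ f : Option (Fin 4) → A, ∑ a ∈ ({some 1, some 2} : Finset (Option (Fin 4))), f a =
      f (some 1) + f (some 2) := fun f => Finset.sum_pair (by decide)
  have e23 : ∀ f : Option (Fin 4) → A, ∑ a ∈ ({some 2, some 3} : Finset (Option (Fin 4))), f a =
      f (some 2) + f (some 3) := fun f => Finset.sum_pair (by decide)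
  have e3n : ∀ f : Option (Fin 4) → A, ∑ a ∈ ({some 3, none} : Finset (Option (Fin 4))), f a =
      f (some 3) + f none := fun f => Finset.sum_pair (by decide)
  simp only [coc_D, pent, coc_mg, Matrix.cons_val_zero, Matrix.cons_val_one, Matrix.cons_val,
    Finset.sum_singleton, e01, e12, e23, e3n]
  generalize t (some 0) (some 1) = T01
  generalize t (some 0) (some 2) = T02
  generalize t (some 0) (some 3) = T03
  generalize t (some 1) (some 2) = T12
  generalize t (some 1) (some 3) = T13
  generalize t (some 2) (some 3) = T23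
  generalize t (some 1) none = T14
  generalize t (some 2) none = T24
  generalize t (some 3) none = T34
  generalize (ev2 φ : A → A → A) = F
  rw [add_assoc T03 T13 T23, add_add_add_comm T02 T12 T03 T13, add_assoc T01 T02 T03,
    add_assoc T14 T24 T34, add_add_add_comm T13 T23 T14 T24, add_assoc T12 T13 T14]
  abel

theorem coc_univ (h1 : S_univ.{0}) (h2 : S_tau) {φ : QX} (hφ : Good φ)
    {w : Fin 4 → Option (Fin 3)} (hw : Function.Injective w)
    (S : Option (Fin 3) → Finset (Option (Fin 4)))
    (hS : ∀ j k, j ≠ k → Disjoint (S j) (S k)) (S4 : Fin 4 → Finset (Option (Fin 4)))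
    (h4 : ∀ i, S (w i) = S4 i) :
    coc_D φ (tau : Option (Fin 4) → Option (Fin 4) → Module.End ℚ T4) S4 =
      FreeAlgebra.lift ℚ (fun i => coc_mg S tau (some i) none) (Rw φ w) := by
  rw [← h1 φ hφ w hw (Module.End ℚ T4) (coc_mg S tau) (coc_mg_braid (h2 (Fin 4)) S hS)]
  have : S4 = fun i => S (w i) := by funext i; exact (h4 i).symm
  rw [this]
  rfl

theorem coc_lift_L (y : Fin 3 → T4) (F : T3) :
    (FreeAlgebra.lift ℚ (fun i => LinearMap.mulLeft ℚ (y i)) F) 1 = FreeAlgebra.lift ℚ y F := by
  have h : (Algebra.lmul ℚ T4).comp (FreeAlgebra.lift ℚ y) =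
      FreeAlgebra.lift ℚ (fun i => LinearMap.mulLeft ℚ (y i)) := by
    apply FreeAlgebra.hom_ext
    funext i
    simp
    rfl
  rw [← h]
  simp

theorem coc_ev2_one {φ : QX} (hφ : φ ∈ LieX) {X Y : Module.End ℚ T4} (hX : X 1 = 0)
    (hY : Y 1 = 0) : ev2 φ X Y 1 = 0 := by
  refine lie_induction (P := fun φ => ev2 φ X Y 1 = 0) ?_ ?_ ?_ ?_ ?_ hφ
  · intro b
    cases b <;> simpa [ev2]
  · simp [ev2]
  · intro x y hx hy
    have : ev2 (x + y) X Y = ev2 x X Y + ev2 y X Y := by simp [ev2]
    rw [this, LinearMap.add_apply, hx, hy, add_zero]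
  · intro c x hx
    have : ev2 (c • x) X Y = c • ev2 x X Y := by simp [ev2]
    rw [this, LinearMap.smul_apply, hx, smul_zero]
  · intro x y _ _ hx hy
    have : ev2 (x * y - y * x) X Y = ev2 x X Y * ev2 y X Y - ev2 y X Y * ev2 x X Y := by
      simp [ev2]
    rw [this, LinearMap.sub_apply, Module.End.mul_apply, Module.End.mul_apply, hx, hy, map_zero,
      map_zero, sub_zero]

theorem coc_tau_one (i j : Fin 4) : (tau (some i) (some j) : Module.End ℚ T4) 1 = 0 := by
  by_cases h : i = j
  · subst h; simp [tau]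
  · exact coc_d_one (coc_isD1 h).leib

theorem coc_D1234 {φ : QX} (hφ : Good φ) :
    coc_D φ (tau : Option (Fin 4) → Option (Fin 4) → Module.End ℚ T4)
      ![{some 0}, {some 1}, {some 2}, {some 3}] 1 = 0 := by
  have h : ∀ {X Y : Module.End ℚ T4}, X 1 = 0 → Y 1 = 0 → ev2 φ X Y 1 = 0 :=
    fun hX hY => coc_ev2_one hφ.1 hX hY
  have ha : ∀ {X Y : Module.End ℚ T4}, X 1 = 0 → Y 1 = 0 → (X + Y) 1 = 0 := by
    intro X Y hX hY; rw [LinearMap.add_apply, hX, hY, add_zero]
  simp only [coc_D, pent, coc_mg, Matrix.cons_val_zero, Matrix.cons_val_one, Matrix.cons_val,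
    Finset.sum_singleton, LinearMap.sub_apply, LinearMap.add_apply]
  rw [h (coc_tau_one _ _) (coc_tau_one _ _), h (ha (coc_tau_one _ _) (coc_tau_one _ _))
    (coc_tau_one _ _), h (ha (coc_tau_one _ _) (coc_tau_one _ _))
    (ha (coc_tau_one _ _) (coc_tau_one _ _)), h (coc_tau_one _ _)
    (ha (coc_tau_one _ _) (coc_tau_one _ _)), h (coc_tau_one _ _) (coc_tau_one _ _)]
  simp

/-- the element `E` as an operator -/
def coc_O (φ : QX) : Module.End ℚ T4 :=
  coc_D φ (tau : Option (Fin 4) → Option (Fin 4) → Module.End ℚ T4)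
    ![{some 0}, {some 1}, {some 2}, {some 3, none}]

theorem coc_sub3 (h1 : S_univ.{0}) (h2 : S_tau) {φ : QX} (hφ : Good φ)
    (S : Option (Fin 3) → Finset (Option (Fin 4)))
    (hS : ∀ j k, j ≠ k → Disjoint (S j) (S k)) (S4 : Fin 4 → Finset (Option (Fin 4)))
    (h4 : ∀ i, S (wR i) = S4 i) (y0 y1 y2 : T4)
    (hy : ∀ i : Fin 3, coc_mg S (tau : Option (Fin 4) → Option (Fin 4) → Module.End ℚ T4)
      (some i) none = LinearMap.mulLeft ℚ (![y0, y1, y2] i)) :
    coc_D φ (tau : Option (Fin 4) → Option (Fin 4) → Module.End ℚ T4) S4 1 =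
      sub3 (Rw φ wR) y0 y1 y2 := by
  have hw : Function.Injective wR := by decide
  rw [coc_univ h1 h2 hφ hw S hS S4 h4]
  have : (fun i => coc_mg S (tau : Option (Fin 4) → Option (Fin 4) → Module.End ℚ T4)
      (some i) none) = fun i => LinearMap.mulLeft ℚ (![y0, y1, y2] i) := funext hy
  rw [this, coc_lift_L]
  rfl

/-- blocks -/
def coc_S (b0 b1 b2 bn : Finset (Option (Fin 4))) : Option (Fin 3) → Finset (Option (Fin 4))
  | none => bn
  | some i => ![b0, b1, b2] i

theorem coc_mulLeft_add (x y : T4) :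
    LinearMap.mulLeft ℚ x + LinearMap.mulLeft ℚ y = LinearMap.mulLeft ℚ (x + y) := by
  ext g; simp [add_mul]

theorem coc_main (h1 : S_univ.{0}) (h2 : S_tau) {φ : QX} (hφ : Good φ) :
    coc_O φ 1 = - sub3 (Rw φ wR) (yl 1) (yl 2) (yl 3) + sub3 (Rw φ wR) (yl 0 + yl 1) (yl 2) (yl 3)
        - sub3 (Rw φ wR) (yl 0) (yl 1 + yl 2) (yl 3)
        + sub3 (Rw φ wR) (yl 0) (yl 1) (yl 2 + yl 3) := by
  have e01 : ∀ f : Option (Fin 4) → Module.End ℚ T4,
      ∑ a ∈ ({some 0, some 1} : Finset (Option (Fin 4))), f a =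
      f (some 0) + f (some 1) := fun f => Finset.sum_pair (by decide)
  have e12 : ∀ f : Option (Fin 4) → Module.End ℚ T4,
      ∑ a ∈ ({some 1, some 2} : Finset (Option (Fin 4))), f a =
      f (some 1) + f (some 2) := fun f => Finset.sum_pair (by decide)
  have e23 : ∀ f : Option (Fin 4) → Module.End ℚ T4,
      ∑ a ∈ ({some 2, some 3} : Finset (Option (Fin 4))), f a =
      f (some 2) + f (some 3) := fun f => Finset.sum_pair (by decide)
  have r1 := coc_sub3 h1 h2 hφ (coc_S {some 1} {some 2} {some 3} {none}) (by decide)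
    ![{some 1}, {some 2}, {some 3}, {none}] (by decide) (yl 1) (yl 2) (yl 3) (by
      intro i
      fin_cases i <;> simp [coc_mg, coc_S, tau, yl])
  have r2 := coc_sub3 h1 h2 hφ (coc_S {some 0, some 1} {some 2} {some 3} {none}) (by decide)
    ![{some 0, some 1}, {some 2}, {some 3}, {none}] (by decide) (yl 0 + yl 1) (yl 2) (yl 3) (by
      intro i
      fin_cases i
      · simp only [coc_mg, coc_S, Fin.zero_eta, Matrix.cons_val_zero, e01, Finset.sum_singleton]
        exact coc_mulLeft_add _ _
      · simp [coc_mg, coc_S, tau, yl]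
      · simp [coc_mg, coc_S, tau, yl])
  have r3 := coc_sub3 h1 h2 hφ (coc_S {some 0} {some 1, some 2} {some 3} {none}) (by decide)
    ![{some 0}, {some 1, some 2}, {some 3}, {none}] (by decide) (yl 0) (yl 1 + yl 2) (yl 3) (by
      intro i
      fin_cases i
      · simp [coc_mg, coc_S, tau, yl]
      · simp only [coc_mg, coc_S, Fin.mk_one, Matrix.cons_val_one, Matrix.cons_val_zero, e12,
          Finset.sum_singleton]
        exact coc_mulLeft_add _ _
      · simp [coc_mg, coc_S, tau, yl])
  have r4 := coc_sub3 h1 h2 hφ (coc_S {some 0} {some 1} {some 2, some 3} {none}) (by decide)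
    ![{some 0}, {some 1}, {some 2, some 3}, {none}] (by decide) (yl 0) (yl 1) (yl 2 + yl 3) (by
      intro i
      fin_cases i
      · simp [coc_mg, coc_S, tau, yl]
      · simp [coc_mg, coc_S, tau, yl]
      · simp only [coc_mg, coc_S, Fin.reduceFinMk, Matrix.cons_val, e23, Finset.sum_singleton]
        exact coc_mulLeft_add _ _)
  have hc := LinearMap.congr_fun (coc_cocycle φ
    (tau : Option (Fin 4) → Option (Fin 4) → Module.End ℚ T4)) 1
  simp only [LinearMap.sub_apply, LinearMap.add_apply, LinearMap.zero_apply, r1, r2, r3, r4,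
    coc_D1234 hφ, sub_zero] at hc
  rw [← sub_eq_zero, ← hc, coc_O]
  abel

/-- the rule with the last strand `p` -/
theorem coc_rule' (h1 : S_univ.{0}) (h2 : S_tau) {φ : QX} (hφ : Good φ)
    {w : Fin 4 → Option (Fin 3)} (hw : Function.Injective w) {p : Fin 4} {σ : Fin 3 → Fin 4}
    (hσ : Function.Injective σ) (hp : ∀ i, σ i ≠ p) (h3 : σ 2 = 3)
    (hd : ∀ j k, j ≠ k → Disjoint (coc_S {some (σ 0)} {some (σ 1)} {some 3, none} {some p} j)
      (coc_S {some (σ 0)} {some (σ 1)} {some 3, none} {some p} k))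
    (h4 : ∀ i, coc_S {some (σ 0)} {some (σ 1)} {some 3, none} {some p} (w i) =
      ![{some 0}, {some 1}, {some 2}, {some 3, none}] i) (u : List (Fin 3)) :
    coeff (coc_O φ 1) (u.map σ ++ [p]) = (-1) ^ u.length * coeff (Rw φ w) (u.reverse ++ [2]) := by
  have e3n : ∀ f : Option (Fin 4) → Module.End ℚ T4,
      ∑ a ∈ ({some 3, none} : Finset (Option (Fin 4))), f a =
      f (some 3) + f none := fun f => Finset.sum_pair (by decide)
  rw [coc_O, coc_univ h1 h2 hφ hw _ hd _ h4]
  refine coc_rule (d := fun i => tau (some (σ i)) (some p)) hσ hp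
    (fun i => coc_isD2 (hp i).symm) ?_ ?_ ?_ _ _
  · simp [coc_mg, coc_S]
  · simp [coc_mg, coc_S]
  · simp only [coc_mg, coc_S, Matrix.cons_val, e3n, Finset.sum_singleton, h3]
    rfl

theorem coc_comm {φ : QX} {A : Type v} [Ring A] [Algebra ℚ A] {X Y Z : A} (hX : Commute X Z)
    (hY : Commute Y Z) : Commute (ev2 φ X Y) Z := by
  unfold ev2
  induction φ using FreeAlgebra.induction with
  | grade0 r => rw [AlgHom.commutes]; exact Algebra.commutes r Z
  | grade1 b => cases b <;> simpa
  | mul a b ha hb => rw [map_mul]; exact ha.mul_left hb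
  | add a b ha hb => rw [map_add]; exact ha.add_left hb

theorem p_coc (h1 : S_univ.{0}) (h2 : S_tau) (h3 : S_lieR) : S_coc := by
  intro φ hφ
  refine ⟨coc_O φ 1, coc_main h1 h2 hφ, ?_, ?_, ?_⟩
  · intro w
    have := coc_rule' h1 h2 hφ (w := wP) (by decide) (p := 1) (σ := ![0, 2, 3]) (by decide)
      (by decide) rfl (by decide) (by decide) w
    exact this
  · intro w
    have := coc_rule' h1 h2 hφ (w := wQ) (by decide) (p := 2) (σ := ![0, 1, 3]) (by decide)
      (by decide) rfl (by decide) (by decide) w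
    exact this
  · intro w
    have e3n : ∀ f : Option (Fin 4) → Module.End ℚ T4,
        ∑ a ∈ ({some 3, none} : Finset (Option (Fin 4))), f a =
        f (some 3) + f none := fun f => Finset.sum_pair (by decide)
    have ht := h2 (Fin 4)
    have s1 : ∀ p q : Option (Fin 4), coc_Sp (tau p q) := coc_Sp_tau
    refine coc_last ?_ ?_ w
    · simp only [coc_O, coc_D, pent, coc_mg, Matrix.cons_val_zero, Matrix.cons_val_one,
        Matrix.cons_val, Finset.sum_singleton, e3n]
      exact coc_Sp_add (coc_Sp_sub (coc_Sp_add (coc_Sp_sub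
        (coc_Sp_ev2 hφ.1 (s1 _ _) (coc_Sp_add (s1 _ _) (s1 _ _)))
        (coc_Sp_ev2 hφ.1 (coc_Sp_add (s1 _ _) (s1 _ _)) (coc_Sp_add (s1 _ _) (s1 _ _))))
        (coc_Sp_ev2 hφ.1 (coc_Sp_add (s1 _ _) (s1 _ _))
          (coc_Sp_add (coc_Sp_add (s1 _ _) (s1 _ _)) (coc_Sp_add (s1 _ _) (s1 _ _)))))
        (coc_Sp_ev2 hφ.1 (s1 _ _) (coc_Sp_add (s1 _ _) (coc_Sp_add (s1 _ _) (s1 _ _)))))
        (coc_Sp_ev2 hφ.1 (s1 _ _) (s1 _ _))
    · have hZ : (LinearMap.mulLeft ℚ (yl 3) : Module.End ℚ T4) = tau (some 3) none := rfl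
      rw [hZ]
      have c4 : ∀ i j : Fin 4, i ≠ j → i ≠ 3 → j ≠ 3 →
          Commute (tau (some i) (some j) : Module.End ℚ T4) (tau (some 3) none) := by
        intro i j hij hi hj
        exact ht.four _ _ _ _ (by simpa using hij) (by simpa using hi) (by simp)
          (by simpa using hj) (by simp) (by simp)
      have c3 : ∀ i : Fin 4, i ≠ 3 →
          Commute (tau (some i) (some 3) + tau (some i) none : Module.End ℚ T4)
            (tau (some 3) none) := by
        intro i hi
        have := ht.three (some 3) none (some i) (by simp) (by simpa using Ne.symm hi) (by simp)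
        rw [ht.symm (some 3) (some i), ht.symm none (some i)] at this
        exact this.symm
      change Commute (coc_O φ) (tau (some 3) none)
      simp only [coc_O, coc_D, pent, coc_mg, Matrix.cons_val_zero, Matrix.cons_val_one,
        Matrix.cons_val, Finset.sum_singleton, e3n]
      have k01 := c4 0 1 (by decide) (by decide) (by decide)
      have k02 := c4 0 2 (by decide) (by decide) (by decide)
      have k12 := c4 1 2 (by decide) (by decide) (by decide)
      have l1 := c3 1 (by decide)
      have l2 := c3 2 (by decide)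
      exact Commute.add_left (Commute.sub_left (Commute.add_left (Commute.sub_left
        (coc_comm k12 l2) (coc_comm (k02.add_left k12) l2))
        (coc_comm (k01.add_left k02) (l1.add_left l2)))
        (coc_comm k01 (k12.add_left l1)))
        (coc_comm k01 k12)

end

end Pent
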