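import Pool.Agent.Lib.MP_a57f33_nt.PN.Stm1

/-!
# Pentagon project (MP_a57f33_nt), Half I: piece dual (coefficients of `(ev2 φ dX dC) 1`)
-/

namespace Pent

open Pool.Agent.MP_a57f33_nt

noncomputable section

/-! ### derivations on coefficient functions -/

/-- the transpose of a derivation, acting on functions on words -/
private def dual_D (e : (List (Fin 3) → ℚ) → Fin 3 → List (Fin 3) → ℚ) :
    (List (Fin 3) → ℚ) → List (Fin 3) → ℚ
  | _, [] => 0
  | G, y :: w => dual_D e (fun u => G (y :: u)) w + e G y w

private theorem dual_D_zero (e : (List (Fin 3) → ℚ) → Fin 3 → List (Fin 3) → ℚ)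
    (h0 : ∀ G y w, (∀ x u, G (x :: u) = 0) → e G y w = 0) :
    ∀ (w : List (Fin 3)) (G : List (Fin 3) → ℚ), (∀ x u, G (x :: u) = 0) → dual_D e G w = 0
  | [], _, _ => rfl
  | y :: w, G, h => by
    rw [dual_D, dual_D_zero e h0 w _ fun x u => h y (x :: u), h0 G y w h, add_zero]

private theorem dual_D_add (e : (List (Fin 3) → ℚ) → Fin 3 → List (Fin 3) → ℚ)
    (ha : ∀ G H y w, e (fun u => G u + H u) y w = e G y w + e H y w) :
    ∀ (w : List (Fin 3)) (G H : List (Fin 3) → ℚ),
      dual_D e (fun u => G u + H u) w = dual_D e G w + dual_D e H w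
  | [], _, _ => by simp [dual_D]
  | y :: w, G, H => by
    rw [dual_D, dual_D, dual_D, ha, dual_D_add e ha w (fun u => G (y :: u)) fun u => H (y :: u)]
    ring

private theorem dual_D_smul (e : (List (Fin 3) → ℚ) → Fin 3 → List (Fin 3) → ℚ)
    (hs : ∀ r G y w, e (fun u => r * G u) y w = r * e G y w) :
    ∀ (w : List (Fin 3)) (r : ℚ) (G : List (Fin 3) → ℚ),
      dual_D e (fun u => r * G u) w = r * dual_D e G w
  | [], _, _ => by simp [dual_D]
  | y :: w, r, G => by
    rw [dual_D, dual_D, hs, dual_D_smul e hs w r fun u => G (y :: u)]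
    ring

private theorem dual_der (U : Fin 3 → T3) (e : (List (Fin 3) → ℚ) → Fin 3 → List (Fin 3) → ℚ)
    (h0 : ∀ G y w, (∀ x u, G (x :: u) = 0) → e G y w = 0)
    (ha : ∀ G H y w, e (fun u => G u + H u) y w = e G y w + e H y w)
    (hs : ∀ r G y w, e (fun u => r * G u) y w = r * e G y w)
    (hU0 : ∀ x h, coeff (U x * h) [] = 0)
    (hU : ∀ x h y w, coeff (U x * h) (y :: w) = e (coeff (FreeAlgebra.ι ℚ x * h)) y w)
    (g : T3) (w : List (Fin 3)) : coeff (der U g) w = dual_D e (coeff g) w := by
  have key : ∀ (v w : List (Fin 3)), coeff (der U (word v)) w = dual_D e (coeff (word v)) w := by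
    intro v
    induction v with
    | nil =>
      intro w
      rw [word_nil, der_one, coeff_zero, dual_D_zero e h0]
      intro x u
      rw [← word_nil, coeff_word]
      simp
    | cons x v ih =>
      intro w
      rw [word_cons, der_mul, der_iota, coeff_add]
      cases w with
      | nil => rw [hU0, coeff_iota_mul_nil]; simp [dual_D]
      | cons y w =>
        rw [hU, coeff_iota_mul_cons, dual_D, add_comm]
        congr 1
        by_cases hy : y = x
        · rw [if_pos hy, ih]
          congr 1
          funext u
          rw [coeff_iota_mul_cons, if_pos hy]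
        · rw [if_neg hy, dual_D_zero e h0]
          intro z u
          rw [coeff_iota_mul_cons, if_neg hy]
  let F : T3 →ₗ[ℚ] ℚ :=
    { toFun := fun g => dual_D e (coeff g) w
      map_add' := by
        intro x y
        rw [← dual_D_add e ha]
        congr 1
        funext t; exact coeff_add _ _ _
      map_smul' := by
        intro r x
        simp only [RingHom.id_apply, smul_eq_mul]
        rw [← dual_D_smul e hs]
        congr 1
        funext t; exact coeff_smul _ _ _ }
  have h2 : (coeffL w).comp (der U) = F := by
    apply linear_ext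
    intro v
    exact key v w
  exact LinearMap.congr_fun h2 g

private def dual_eX (G : List (Fin 3) → ℚ) (y : Fin 3) : List (Fin 3) → ℚ
  | [] => 0
  | z :: v => if y ≠ 1 ∧ z = 1 then G (1 :: v) else if y = 1 ∧ z ≠ 1 then - G (1 :: v) else 0

private def dual_eD (G : List (Fin 3) → ℚ) (y : Fin 3) : List (Fin 3) → ℚ
  | [] => 0
  | z :: v => if y = 1 ∧ z = 2 then G (1 :: v) - G (2 :: v)
      else if y = 2 ∧ z = 1 then G (2 :: v) - G (1 :: v) else 0

private theorem dual_cX (g : T3) (w : List (Fin 3)) :
    coeff (dX g) w = dual_D dual_eX (coeff g) w := by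
  refine dual_der _ dual_eX ?_ ?_ ?_ ?_ ?_ g w
  · intro G y w h
    cases w with
    | nil => rfl
    | cons z v => simp [dual_eX, h]
  · intro G H y w
    cases w with
    | nil => simp [dual_eX]
    | cons z v =>
      simp only [dual_eX]
      split_ifs <;> ring
  · intro r G y w
    cases w with
    | nil => simp [dual_eX]
    | cons z v =>
      simp only [dual_eX]
      split_ifs <;> ring
  · intro x h
    fin_cases x
    · simp [coeff_zero]
    · show coeff (((xa + xc) * xb - xb * (xa + xc)) * h) [] = 0
      have : ((xa + xc) * xb - xb * (xa + xc)) * h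
          = xa * (xb * h) + xc * (xb * h) - xb * ((xa + xc) * h) := by noncomm_ring
      rw [this, coeff_sub, coeff_add]
      unfold xa xb xc
      rw [coeff_iota_mul_nil, coeff_iota_mul_nil, coeff_iota_mul_nil]
      ring
    · simp [coeff_zero]
  · intro x h y w
    fin_cases x
    · show coeff (0 * h) (y :: w) = _
      rw [zero_mul, coeff_zero]
      cases w with
      | nil => rfl
      | cons z v =>
        simp only [dual_eX]
        have : coeff (FreeAlgebra.ι ℚ (0 : Fin 3) * h) (1 :: v) = 0 := by
          rw [coeff_iota_mul_cons, if_neg (by decide)]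
        simp [this]
    · show coeff (((xa + xc) * xb - xb * (xa + xc)) * h) (y :: w) = _
      have : ((xa + xc) * xb - xb * (xa + xc)) * h
          = xa * (xb * h) + xc * (xb * h) - xb * (xa * h) - xb * (xc * h) := by noncomm_ring
      rw [this, coeff_sub, coeff_sub, coeff_add]
      unfold xa xb xc
      rw [coeff_iota_mul_cons, coeff_iota_mul_cons, coeff_iota_mul_cons, coeff_iota_mul_cons]
      cases w with
      | nil =>
        simp [coeff_iota_mul_nil, dual_eX]
      | cons z v =>
        rw [coeff_iota_mul_cons, coeff_iota_mul_cons, coeff_iota_mul_cons]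
        simp only [dual_eX]
        have : coeff (FreeAlgebra.ι ℚ (1 : Fin 3) * h) (1 :: v) = coeff h v := by
          rw [coeff_iota_mul_cons, if_pos rfl]
        show _ = if y ≠ 1 ∧ z = 1 then coeff (FreeAlgebra.ι ℚ (1 : Fin 3) * h) (1 :: v)
          else if y = 1 ∧ z ≠ 1 then - coeff (FreeAlgebra.ι ℚ (1 : Fin 3) * h) (1 :: v) else 0
        rw [this]
        fin_cases y <;> fin_cases z <;> simp
    · show coeff (0 * h) (y :: w) = _
      rw [zero_mul, coeff_zero]
      cases w with
      | nil => rfl
      | cons z v =>
        simp only [dual_eX]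
        have : coeff (FreeAlgebra.ι ℚ (2 : Fin 3) * h) (1 :: v) = 0 := by
          rw [coeff_iota_mul_cons, if_neg (by decide)]
        simp [this]

private theorem dual_d23 : d23 = der (![0, xb * xc - xc * xb, xc * xb - xb * xc] : Fin 3 → T3) := by
  have h : d23 = der (fun k : Fin 3 =>
      if k = 1 then FreeAlgebra.ι ℚ (1 : Fin 3) * FreeAlgebra.ι ℚ 2
        - FreeAlgebra.ι ℚ 2 * FreeAlgebra.ι ℚ 1
      else if k = 2 then
        FreeAlgebra.ι ℚ 2 * FreeAlgebra.ι ℚ 1 - FreeAlgebra.ι ℚ 1 * FreeAlgebra.ι ℚ 2
      else 0) := by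
    unfold d23 tau
    exact if_neg (by decide)
  rw [h]
  congr 1
  funext k
  fin_cases k
  · simp
  · simp [xb, xc]
  · simp [xb, xc]

private theorem dual_cD (g : T3) (w : List (Fin 3)) :
    coeff (d23 g) w = dual_D dual_eD (coeff g) w := by
  rw [dual_d23]
  refine dual_der _ dual_eD ?_ ?_ ?_ ?_ ?_ g w
  · intro G y w h
    cases w with
    | nil => rfl
    | cons z v => simp [dual_eD, h]
  · intro G H y w
    cases w with
    | nil => simp [dual_eD]
    | cons z v =>
      simp only [dual_eD]
      split_ifs <;> ring
  · intro r G y w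
    cases w with
    | nil => simp [dual_eD]
    | cons z v =>
      simp only [dual_eD]
      split_ifs <;> ring
  · intro x h
    fin_cases x
    · simp [coeff_zero]
    · show coeff ((xb * xc - xc * xb) * h) [] = 0
      have : (xb * xc - xc * xb) * h = xb * (xc * h) - xc * (xb * h) := by noncomm_ring
      rw [this, coeff_sub]
      unfold xb xc
      rw [coeff_iota_mul_nil, coeff_iota_mul_nil]
      ring
    · show coeff ((xc * xb - xb * xc) * h) [] = 0
      have : (xc * xb - xb * xc) * h = xc * (xb * h) - xb * (xc * h) := by noncomm_ring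
      rw [this, coeff_sub]
      unfold xb xc
      rw [coeff_iota_mul_nil, coeff_iota_mul_nil]
      ring
  · intro x h y w
    have g1 : ∀ v, coeff (FreeAlgebra.ι ℚ (1 : Fin 3) * h) (1 :: v) = coeff h v := fun v => by
      rw [coeff_iota_mul_cons, if_pos rfl]
    have g2 : ∀ v, coeff (FreeAlgebra.ι ℚ (1 : Fin 3) * h) (2 :: v) = 0 := fun v => by
      rw [coeff_iota_mul_cons, if_neg (by decide)]
    have g3 : ∀ v, coeff (FreeAlgebra.ι ℚ (2 : Fin 3) * h) (1 :: v) = 0 := fun v => by
      rw [coeff_iota_mul_cons, if_neg (by decide)]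
    have g4 : ∀ v, coeff (FreeAlgebra.ι ℚ (2 : Fin 3) * h) (2 :: v) = coeff h v := fun v => by
      rw [coeff_iota_mul_cons, if_pos rfl]
    have g5 : ∀ v, coeff (FreeAlgebra.ι ℚ (0 : Fin 3) * h) (1 :: v) = 0 := fun v => by
      rw [coeff_iota_mul_cons, if_neg (by decide)]
    have g6 : ∀ v, coeff (FreeAlgebra.ι ℚ (0 : Fin 3) * h) (2 :: v) = 0 := fun v => by
      rw [coeff_iota_mul_cons, if_neg (by decide)]
    fin_cases x
    · show coeff (0 * h) (y :: w) = dual_eD (coeff (FreeAlgebra.ι ℚ (0 : Fin 3) * h)) y w
      rw [zero_mul, coeff_zero]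
      cases w with
      | nil => rfl
      | cons z v =>
        simp only [dual_eD]
        rw [g5, g6]
        simp
    · show coeff ((xb * xc - xc * xb) * h) (y :: w)
        = dual_eD (coeff (FreeAlgebra.ι ℚ (1 : Fin 3) * h)) y w
      have : (xb * xc - xc * xb) * h = xb * (xc * h) - xc * (xb * h) := by noncomm_ring
      rw [this, coeff_sub]
      unfold xb xc
      rw [coeff_iota_mul_cons, coeff_iota_mul_cons]
      cases w with
      | nil => simp [coeff_iota_mul_nil, dual_eD]
      | cons z v =>
        rw [coeff_iota_mul_cons, coeff_iota_mul_cons]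
        simp only [dual_eD]
        rw [g1, g2]
        fin_cases y <;> fin_cases z <;> simp
    · show coeff ((xc * xb - xb * xc) * h) (y :: w)
        = dual_eD (coeff (FreeAlgebra.ι ℚ (2 : Fin 3) * h)) y w
      have : (xc * xb - xb * xc) * h = xc * (xb * h) - xb * (xc * h) := by noncomm_ring
      rw [this, coeff_sub]
      unfold xb xc
      rw [coeff_iota_mul_cons, coeff_iota_mul_cons]
      cases w with
      | nil => simp [coeff_iota_mul_nil, dual_eD]
      | cons z v =>
        rw [coeff_iota_mul_cons, coeff_iota_mul_cons]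
        simp only [dual_eD]
        rw [g3, g4]
        fin_cases y <;> fin_cases z <;> simp

/-! ### the words -/

private def dual_wP (p : List ℕ+) : List (Fin 3) :=
  List.flatMap (fun m : ℕ+ => List.replicate ((m : ℕ) - 1) 0 ++ [2]) p.reverse

private def dual_wV (V : List ℕ+) : List (Fin 3) :=
  List.flatMap (fun n : ℕ+ => List.replicate ((n : ℕ) - 1) 0 ++ [1]) V

private theorem dual_bind (f : ℕ → List (Fin 3)) (L : List ℕ+) :
    List.flatMap f (do let a ← L; pure (a : ℕ)) = List.flatMap (fun m : ℕ+ => f m) L := by
  induction L with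
  | nil => rfl
  | cons a L ih =>
    rw [List.flatMap_cons, ← ih]
    simp

private theorem dual_wPV (p V : List ℕ+) : wPV p V = dual_wP p ++ dual_wV V := by
  unfold wPV dual_wP dual_wV
  rw [dual_bind, dual_bind]

private theorem dual_wP_cons (k : ℕ) (p : List ℕ+) :
    dual_wP (k.succPNat :: p) = (dual_wP p ++ List.replicate k 0) ++ [2] := by
  unfold dual_wP
  rw [List.reverse_cons, List.flatMap_append]
  simp

private theorem dual_wV_cons (k : ℕ) (V : List ℕ+) :
    dual_wV (k.succPNat :: V) = List.replicate k 0 ++ 1 :: dual_wV V := by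
  unfold dual_wV
  rw [List.flatMap_cons]
  simp

private theorem dual_one_wP (p : List ℕ+) : (1 : Fin 3) ∉ dual_wP p := by
  unfold dual_wP
  intro h
  rw [List.mem_flatMap] at h
  obtain ⟨m, -, hm⟩ := h
  rw [List.mem_append] at hm
  rcases hm with hm | hm
  · have := List.eq_of_mem_replicate hm
    exact absurd this (by decide)
  · simp at hm

private theorem dual_two_wV (V : List ℕ+) : (2 : Fin 3) ∉ dual_wV V := by
  unfold dual_wV
  intro h
  rw [List.mem_flatMap] at h
  obtain ⟨m, -, hm⟩ := h
  rw [List.mem_append] at hm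
  rcases hm with hm | hm
  · have := List.eq_of_mem_replicate hm
    exact absurd this (by decide)
  · simp at hm

private theorem dual_one_al (p : List ℕ+) (k : ℕ) :
    (1 : Fin 3) ∉ dual_wP p ++ List.replicate k 0 := by
  rw [List.mem_append]
  rintro (h | h)
  · exact dual_one_wP p h
  · exact absurd (List.eq_of_mem_replicate h) (by decide)

/-! ### `dX` on these words -/

private theorem dual_X_no (w : List (Fin 3)) : (1 : Fin 3) ∉ w → ∀ G, dual_D dual_eX G w = 0 := by
  induction w with
  | nil => intro _ G; rfl
  | cons y w ih =>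
    intro h G
    rw [List.mem_cons, not_or] at h
    rw [dual_D, ih h.2]
    cases w with
    | nil => simp [dual_eX]
    | cons z v =>
      have hz : z ≠ 1 := fun e => h.2 (by rw [e]; exact List.mem_cons_self)
      have hy : ¬ y = 1 := fun e => h.1 e.symm
      simp [dual_eX, hz, hy]

private theorem dual_X_one (α : List (Fin 3)) (x : Fin 3) (hx : x ≠ 1) (β : List (Fin 3)) :
    (1 : Fin 3) ∉ α → ∀ G, dual_D dual_eX G (α ++ x :: 1 :: β)
      = dual_D dual_eX (fun u => G (α ++ x :: u)) (1 :: β) + G (α ++ 1 :: β) := by
  induction α with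
  | nil =>
    intro _ G
    rw [List.nil_append, dual_D]
    congr 1
    simp [dual_eX, hx]
  | cons y α ih =>
    intro h G
    rw [List.mem_cons, not_or] at h
    have hy : ¬ y = 1 := fun e => h.1 e.symm
    rw [List.cons_append, dual_D, ih h.2]
    have h2 : dual_eX G y (α ++ x :: 1 :: β) = 0 := by
      cases α with
      | nil => simp [dual_eX, hx, hy]
      | cons z v =>
        have hz : z ≠ 1 := fun e => h.2 (by rw [e]; exact List.mem_cons_self)
        simp [dual_eX, hz, hy]
    rw [h2, add_zero]
    rfl

private theorem dual_X_V (V : List ℕ+) : ∀ G, dual_D dual_eX G (1 :: dual_wV V) = 0 := by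
  induction V with
  | nil => intro G; simp [dual_wV, dual_D, dual_eX]
  | cons n V ih =>
    intro G
    obtain ⟨k, rfl⟩ : ∃ k, n = k.succPNat := ⟨n.natPred, (PNat.succPNat_natPred n).symm⟩
    rw [dual_wV_cons]
    cases k with
    | zero =>
      rw [dual_D]
      simp only [List.replicate_zero, List.nil_append]
      rw [ih]
      simp [dual_eX]
    | succ j =>
      rw [dual_D]
      have h1 : (List.replicate (j + 1) (0 : Fin 3)) ++ 1 :: dual_wV V
          = List.replicate j 0 ++ 0 :: 1 :: dual_wV V := by
        rw [List.replicate_succ', List.append_assoc]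
        rfl
      have h2 : (1 : Fin 3) ∉ List.replicate j (0 : Fin 3) := fun h =>
        absurd (List.eq_of_mem_replicate h) (by decide)
      rw [h1, dual_X_one _ 0 (by decide) _ h2, ih, ← h1, zero_add]
      rw [List.replicate_succ]
      simp [dual_eX]

private theorem dual_X1 (p V : List ℕ+) (j : ℕ) (G : List (Fin 3) → ℚ) :
    dual_D dual_eX G (wPV p ((j + 1).succPNat :: V)) = G (wPV p (j.succPNat :: V)) := by
  rw [dual_wPV, dual_wPV, dual_wV_cons, dual_wV_cons]
  have h1 : dual_wP p ++ (List.replicate (j + 1) (0 : Fin 3) ++ 1 :: dual_wV V)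
      = (dual_wP p ++ List.replicate j 0) ++ 0 :: 1 :: dual_wV V := by
    rw [List.replicate_succ']
    simp
  rw [h1, dual_X_one _ 0 (by decide) _ (dual_one_al p j), dual_X_V, zero_add, List.append_assoc]

private theorem dual_X3 (p V : List ℕ+) (k : ℕ) (G : List (Fin 3) → ℚ) :
    dual_D dual_eX G (wPV (k.succPNat :: p) ((0 : ℕ).succPNat :: V))
      = G (wPV p (k.succPNat :: V)) := by
  rw [dual_wPV, dual_wPV, dual_wV_cons, dual_wV_cons, dual_wP_cons]
  have h1 : ((dual_wP p ++ List.replicate k (0 : Fin 3)) ++ [2]) ++
      (List.replicate 0 (0 : Fin 3) ++ 1 :: dual_wV V)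
      = (dual_wP p ++ List.replicate k 0) ++ 2 :: 1 :: dual_wV V := by
    simp
  rw [h1, dual_X_one _ 2 (by decide) _ (dual_one_al p k), dual_X_V, zero_add, List.append_assoc]

/-! ### `dC` on these words -/

private theorem dual_C_no1 (w : List (Fin 3)) :
    (1 : Fin 3) ∉ w → ∀ G, dual_D dual_eD G w = 0 := by
  induction w with
  | nil => intro _ G; rfl
  | cons y w ih =>
    intro h G
    rw [List.mem_cons, not_or] at h
    rw [dual_D, ih h.2]
    cases w with
    | nil => simp [dual_eD]
    | cons z v =>
      have hz : z ≠ 1 := fun e => h.2 (by rw [e]; exact List.mem_cons_self)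
      have hy : ¬ y = 1 := fun e => h.1 e.symm
      simp [dual_eD, hz, hy]

private theorem dual_C_no2 (w : List (Fin 3)) :
    (2 : Fin 3) ∉ w → ∀ G, dual_D dual_eD G w = 0 := by
  induction w with
  | nil => intro _ G; rfl
  | cons y w ih =>
    intro h G
    rw [List.mem_cons, not_or] at h
    rw [dual_D, ih h.2]
    cases w with
    | nil => simp [dual_eD]
    | cons z v =>
      have hz : z ≠ 2 := fun e => h.2 (by rw [e]; exact List.mem_cons_self)
      have hy : ¬ y = 2 := fun e => h.1 e.symm
      simp [dual_eD, hz, hy]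

private theorem dual_C_mid (α β : List (Fin 3)) : (1 : Fin 3) ∉ α → (2 : Fin 3) ∉ β →
    ∀ G, dual_D dual_eD G (α ++ 0 :: β) = 0 := by
  induction α with
  | nil =>
    intro _ hβ G
    rw [List.nil_append]
    refine dual_C_no2 _ ?_ G
    rw [List.mem_cons, not_or]
    exact ⟨by decide, hβ⟩
  | cons y α ih =>
    intro h hβ G
    rw [List.mem_cons, not_or] at h
    have hy : ¬ y = 1 := fun e => h.1 e.symm
    rw [List.cons_append, dual_D, ih h.2 hβ, zero_add]
    cases α with
    | nil => simp [dual_eD, hy]
    | cons z v =>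
      have hz : z ≠ 1 := fun e => h.2 (by rw [e]; exact List.mem_cons_self)
      simp [dual_eD, hz, hy]

private theorem dual_C_two (α β : List (Fin 3)) : (1 : Fin 3) ∉ α → (2 : Fin 3) ∉ β →
    ∀ G, dual_D dual_eD G (α ++ 2 :: 1 :: β) = G (α ++ 2 :: β) - G (α ++ 1 :: β) := by
  induction α with
  | nil =>
    intro _ hβ G
    rw [List.nil_append, dual_D, dual_C_no2, zero_add]
    · simp [dual_eD]
    · rw [List.mem_cons, not_or]
      exact ⟨by decide, hβ⟩
  | cons y α ih =>
    intro h hβ G
    rw [List.mem_cons, not_or] at h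
    have hy : ¬ y = 1 := fun e => h.1 e.symm
    rw [List.cons_append, dual_D, ih h.2 hβ]
    have h2 : dual_eD G y (α ++ 2 :: 1 :: β) = 0 := by
      cases α with
      | nil => simp [dual_eD, hy]
      | cons z v =>
        have hz : z ≠ 1 := fun e => h.2 (by rw [e]; exact List.mem_cons_self)
        simp [dual_eD, hz, hy]
    rw [h2, add_zero]
    rfl

private theorem dual_Lb_no (g : T3) (α β : List (Fin 3)) (x : Fin 3) (hx : x ≠ 1)
    (h : (1 : Fin 3) ∉ α) : coeff (xb * g) (α ++ x :: β) = 0 := by
  unfold xb
  cases α with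
  | nil => rw [List.nil_append, coeff_iota_mul_cons, if_neg hx]
  | cons y α =>
    rw [List.mem_cons, not_or] at h
    rw [List.cons_append, coeff_iota_mul_cons, if_neg (fun e => h.1 e.symm)]

private theorem dual_C (g : T3) (w : List (Fin 3)) :
    coeff (dC g) w = coeff (xb * g) w + dual_D dual_eD (coeff g) w := by
  have : dC g = xb * g + d23 g := rfl
  rw [this, coeff_add, dual_cD]

private theorem dual_C0 (p : List ℕ+) (g : T3) : coeff (dC g) (wPV p []) = 0 := by
  have h : wPV p [] = dual_wP p := by
    rw [dual_wPV]
    simp [dual_wV]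
  rw [dual_C, h, dual_C_no1 _ (dual_one_wP p), add_zero]
  cases p with
  | nil =>
    unfold xb
    exact coeff_iota_mul_nil _ _
  | cons n p =>
    obtain ⟨k, rfl⟩ : ∃ k, n = k.succPNat := ⟨n.natPred, (PNat.succPNat_natPred n).symm⟩
    rw [dual_wP_cons]
    exact dual_Lb_no g _ [] 2 (by decide) (dual_one_al p k)

private theorem dual_C1 (p V : List ℕ+) (j : ℕ) (g : T3) :
    coeff (dC g) (wPV p ((j + 1).succPNat :: V)) = 0 := by
  have h : wPV p ((j + 1).succPNat :: V)
      = dual_wP p ++ 0 :: (List.replicate j 0 ++ 1 :: dual_wV V) := by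
    rw [dual_wPV, dual_wV_cons, List.replicate_succ]
    rfl
  rw [dual_C, h, dual_Lb_no g _ _ 0 (by decide) (dual_one_wP p),
    dual_C_mid _ _ (dual_one_wP p), add_zero]
  rw [List.mem_append, List.mem_cons]
  rintro (h1 | h1 | h1)
  · exact absurd (List.eq_of_mem_replicate h1) (by decide)
  · exact absurd h1 (by decide)
  · exact dual_two_wV V h1

private theorem dual_C2 (V : List ℕ+) (g : T3) :
    coeff (dC g) (wPV [] ((0 : ℕ).succPNat :: V)) = coeff g (wPV [] V) := by
  have h : wPV [] ((0 : ℕ).succPNat :: V) = 1 :: dual_wV V := by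
    rw [dual_wPV, dual_wV_cons]
    rfl
  have h2 : wPV [] V = dual_wV V := dual_wPV [] V
  rw [dual_C, h, h2, dual_C_no2, add_zero]
  · unfold xb
    rw [coeff_iota_mul_cons, if_pos rfl]
  · rw [List.mem_cons, not_or]
    exact ⟨by decide, dual_two_wV V⟩

private theorem dual_C3 (p V : List ℕ+) (k : ℕ) (g : T3) :
    coeff (dC g) (wPV (k.succPNat :: p) ((0 : ℕ).succPNat :: V))
      = coeff g (wPV (k.succPNat :: p) V) - coeff g (wPV p (k.succPNat :: V)) := by
  have h : wPV (k.succPNat :: p) ((0 : ℕ).succPNat :: V)
      = (dual_wP p ++ List.replicate k 0) ++ 2 :: 1 :: dual_wV V := by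
    rw [dual_wPV, dual_wV_cons, dual_wP_cons]
    simp
  rw [dual_C, h, dual_Lb_no g _ _ 2 (by decide) (dual_one_al p k),
    dual_C_two _ _ (dual_one_al p k) (dual_two_wV V), zero_add]
  congr 2
  · rw [dual_wPV, dual_wP_cons]
    simp
  · rw [dual_wPV, dual_wV_cons]
    simp

/-! ### the function `FF` -/

private theorem dual_FF_add : ∀ (n : ℕ) (p V : List ℕ+) (Z Z' : List ℕ+ → ℚ),
    p.length + V.length ≤ n → FF (fun u => Z u + Z' u) p V = FF Z p V + FF Z' p V := by
  intro n
  induction n with
  | zero =>
    intro p V Z Z' h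
    have hp : p = [] := List.eq_nil_of_length_eq_zero (by omega)
    subst hp
    simp only [FF]
  | succ n ih =>
    intro p V Z Z' h
    cases p with
    | nil => simp only [FF]
    | cons m p =>
      cases V with
      | nil => simp [FF]
      | cons k V =>
        simp only [List.length_cons] at h
        simp only [FF]
        rw [ih (m :: p) V (fun u => Z (k :: u)) (fun u => Z' (k :: u)) (by simp; omega),
          ih p (m :: V) (fun u => Z (k :: u)) (fun u => Z' (k :: u)) (by simp; omega),
          ih p ((m + k) :: V) Z Z' (by simp; omega)]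
        ring

private theorem dual_FF_smul : ∀ (n : ℕ) (p V : List ℕ+) (r : ℚ) (Z : List ℕ+ → ℚ),
    p.length + V.length ≤ n → FF (fun u => r * Z u) p V = r * FF Z p V := by
  intro n
  induction n with
  | zero =>
    intro p V r Z h
    have hp : p = [] := List.eq_nil_of_length_eq_zero (by omega)
    subst hp
    simp only [FF]
  | succ n ih =>
    intro p V r Z h
    cases p with
    | nil => simp only [FF]
    | cons m p =>
      cases V with
      | nil => simp [FF]
      | cons k V =>
        simp only [List.length_cons] at h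
        simp only [FF]
        rw [ih (m :: p) V r (fun u => Z (k :: u)) (by simp; omega),
          ih p (m :: V) r (fun u => Z (k :: u)) (by simp; omega),
          ih p ((m + k) :: V) r Z (by simp; omega)]
        ring

private theorem dual_FF_zero (p V : List ℕ+) : FF (fun _ => 0) p V = 0 := by
  have h := dual_FF_smul _ p V 0 (fun _ => 0) le_rfl
  simpa using h

private theorem dual_toX0 (u : List ℕ+) : toX ((0 : ℕ).succPNat :: u) = true :: toX u := by
  simp [toX]

private theorem dual_toX1 (j : ℕ) (u : List ℕ+) :
    toX ((j + 1).succPNat :: u) = false :: toX (j.succPNat :: u) := by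
  simp [toX, List.replicate_succ]

private theorem dual_add1 (k j : ℕ) :
    k.succPNat + (j + 1).succPNat = ((k + j + 1) + 1).succPNat := by
  apply PNat.eq
  rw [PNat.add_coe]
  simp only [Nat.succPNat_coe]
  omega

private theorem dual_add2 (k j : ℕ) : k.succPNat + j.succPNat = (k + j + 1).succPNat := by
  apply PNat.eq
  rw [PNat.add_coe]
  simp only [Nat.succPNat_coe]
  omega

private theorem dual_Zf0 (h : QX) : (fun u => coeff (FreeAlgebra.ι ℚ false * h)
    (toX ((0 : ℕ).succPNat :: u))) = fun _ => 0 := by
  funext u
  rw [dual_toX0, coeff_iota_mul_cons]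
  simp

private theorem dual_Zf1 (h : QX) (j : ℕ) : (fun u => coeff (FreeAlgebra.ι ℚ false * h)
    (toX ((j + 1).succPNat :: u))) = fun u => coeff h (toX (j.succPNat :: u)) := by
  funext u
  rw [dual_toX1, coeff_iota_mul_cons]
  simp

private theorem dual_Zt0 (h : QX) : (fun u => coeff (FreeAlgebra.ι ℚ true * h)
    (toX ((0 : ℕ).succPNat :: u))) = fun u => coeff h (toX u) := by
  funext u
  rw [dual_toX0, coeff_iota_mul_cons]
  simp

private theorem dual_Zt1 (h : QX) (j : ℕ) : (fun u => coeff (FreeAlgebra.ι ℚ true * h)
    (toX ((j + 1).succPNat :: u))) = fun _ => 0 := by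
  funext u
  rw [dual_toX1, coeff_iota_mul_cons]
  simp

private theorem dual_FA (h : QX) (p : List ℕ+) : ∀ (j : ℕ) (V : List ℕ+),
    FF (fun u => coeff (FreeAlgebra.ι ℚ false * h) (toX u)) p ((j + 1).succPNat :: V)
      = FF (fun u => coeff h (toX u)) p (j.succPNat :: V) := by
  induction p with
  | nil =>
    intro j V
    simp only [FF]
    exact congrFun (dual_Zf1 h j) V
  | cons m p ih =>
    intro j V
    obtain ⟨k, rfl⟩ : ∃ k, m = k.succPNat := ⟨m.natPred, (PNat.succPNat_natPred m).symm⟩
    simp only [FF]
    rw [dual_add1, dual_add2, ih, dual_Zf1]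

private theorem dual_FB (h : QX) (p : List ℕ+) : ∀ (j : ℕ) (V : List ℕ+),
    FF (fun u => coeff (FreeAlgebra.ι ℚ true * h) (toX u)) p ((j + 1).succPNat :: V) = 0 := by
  induction p with
  | nil =>
    intro j V
    simp only [FF]
    exact congrFun (dual_Zt1 h j) V
  | cons m p ih =>
    intro j V
    obtain ⟨k, rfl⟩ : ∃ k, m = k.succPNat := ⟨m.natPred, (PNat.succPNat_natPred m).symm⟩
    simp only [FF]
    rw [dual_add1, ih, dual_Zt1, dual_FF_zero, dual_FF_zero]
    ring

private theorem dual_coeff_one {X : Type} (w : List X) (h : w ≠ []) :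
    coeff (1 : FreeAlgebra ℚ X) w = 0 := by
  classical
  rw [← word_nil, coeff_word, if_neg (fun e => h e.symm)]

private theorem dual_Z1 (k : ℕ+) : (fun u => coeff (1 : QX) (toX (k :: u))) = fun _ => 0 := by
  funext u
  refine dual_coeff_one _ ?_
  simp [toX]

private theorem dual_FC (p : List ℕ+) : ∀ (k : ℕ+) (V : List ℕ+),
    FF (fun u => coeff (1 : QX) (toX u)) p (k :: V) = 0 := by
  induction p with
  | nil =>
    intro k V
    simp only [FF]
    exact congrFun (dual_Z1 k) V
  | cons m p ih =>
    intro k V
    simp only [FF]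
    rw [ih, dual_Z1, dual_FF_zero, dual_FF_zero]
    ring

/-! ### the statement for words -/

private theorem dual_ev_cons (s : Bool) (w : List Bool) :
    (ev2 (word (s :: w)) dX dC) 1 = (if s then dC else dX) ((ev2 (word w) dX dC) 1) := by
  unfold ev2
  rw [word_cons, map_mul, FreeAlgebra.lift_ι_apply]
  rfl

private theorem dual_word (w : List Bool) : ∀ (p V : List ℕ+),
    coeff ((ev2 (word w) dX dC) 1) (wPV p V) = FF (fun u => coeff (word w) (toX u)) p V := by
  induction w with
  | nil =>
    intro p V
    have h1 : (ev2 (word ([] : List Bool)) dX dC) 1 = 1 := by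
      unfold ev2
      rw [word_nil, map_one (FreeAlgebra.lift ℚ fun s : Bool => if s then dC else dX)]
      rfl
    rw [h1, word_nil]
    cases V with
    | cons k V =>
      rw [dual_FC, dual_coeff_one]
      rw [dual_wPV]
      simp [dual_wV]
    | nil =>
      cases p with
      | nil =>
        simp only [FF]
        have h2 : wPV [] [] = [] := rfl
        have h3 : toX [] = [] := rfl
        rw [h2, h3, ← word_nil, ← word_nil, coeff_word, coeff_word, if_pos rfl, if_pos rfl]
      | cons m p =>
        simp only [FF]
        rw [dual_coeff_one]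
        rw [dual_wPV]
        simp [dual_wP]
  | cons s w ih =>
    intro p V
    rw [dual_ev_cons]
    cases s with
    | false =>
      simp only [Bool.false_eq_true, if_false, word_cons]
      rw [dual_cX]
      cases V with
      | nil =>
        have h : wPV p [] = dual_wP p := by
          rw [dual_wPV]
          simp [dual_wV]
        rw [h, dual_X_no _ (dual_one_wP p)]
        cases p with
        | nil =>
          simp only [FF]
          exact (coeff_iota_mul_nil _ _).symm
        | cons m p => simp only [FF]
      | cons n V =>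
        obtain ⟨k, rfl⟩ : ∃ k, n = k.succPNat := ⟨n.natPred, (PNat.succPNat_natPred n).symm⟩
        cases k with
        | succ j => rw [dual_X1, ih, dual_FA]
        | zero =>
          cases p with
          | nil =>
            have h : wPV [] ((0 : ℕ).succPNat :: V) = 1 :: dual_wV V := by
              rw [dual_wPV, dual_wV_cons]
              rfl
            rw [h, dual_X_V]
            simp only [FF]
            exact (congrFun (dual_Zf0 (word w)) V).symm
          | cons m p =>
            obtain ⟨k, rfl⟩ : ∃ k, m = k.succPNat := ⟨m.natPred, (PNat.succPNat_natPred m).symm⟩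
            rw [dual_X3, ih]
            simp only [FF]
            rw [dual_Zf0, dual_FF_zero, dual_FF_zero]
            have h : k.succPNat + (0 : ℕ).succPNat = (k + 1).succPNat := by
              rw [dual_add2, add_zero]
            rw [h, dual_FA]
            ring
    | true =>
      simp only [if_true, word_cons]
      cases V with
      | nil =>
        rw [dual_C0]
        cases p with
        | nil =>
          simp only [FF]
          exact (coeff_iota_mul_nil _ _).symm
        | cons m p => simp only [FF]
      | cons n V =>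
        obtain ⟨k, rfl⟩ : ∃ k, n = k.succPNat := ⟨n.natPred, (PNat.succPNat_natPred n).symm⟩
        cases k with
        | succ j => rw [dual_C1, dual_FB]
        | zero =>
          cases p with
          | nil =>
            rw [dual_C2, ih]
            simp only [FF]
            exact (congrFun (dual_Zt0 (word w)) V).symm
          | cons m p =>
            obtain ⟨k, rfl⟩ : ∃ k, m = k.succPNat := ⟨m.natPred, (PNat.succPNat_natPred m).symm⟩
            rw [dual_C3, ih, ih]
            simp only [FF]
            rw [dual_Zt0]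
            have h : k.succPNat + (0 : ℕ).succPNat = (k + 1).succPNat := by
              rw [dual_add2, add_zero]
            rw [h, dual_FB]
            ring

theorem p_dual : S_dual := by
  intro φ p V _
  let F : QX →ₗ[ℚ] ℚ :=
    { toFun := fun φ => FF (fun u => coeff φ (toX u)) p V
      map_add' := by
        intro x y
        rw [← dual_FF_add _ p V _ _ le_rfl]
        congr 1
        funext t; exact coeff_add _ _ _
      map_smul' := by
        intro r x
        simp only [RingHom.id_apply, smul_eq_mul]
        rw [← dual_FF_smul _ p V _ _ le_rfl]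
        congr 1
        funext t; exact coeff_smul _ _ _ }
  let G : QX →ₗ[ℚ] ℚ :=
    { toFun := fun φ => coeff ((ev2 φ dX dC) 1) (wPV p V)
      map_add' := by
        intro x y
        have : (ev2 (x + y) dX dC) 1 = (ev2 x dX dC) 1 + (ev2 y dX dC) 1 := by
          unfold ev2
          rw [map_add]
          rfl
        rw [this, coeff_add]
      map_smul' := by
        intro r x
        have : (ev2 (r • x) dX dC) 1 = r • (ev2 x dX dC) 1 := by
          unfold ev2
          rw [map_smul]
          rfl
        rw [this, coeff_smul]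
        rfl }
  have h : G = F := by
    apply linear_ext
    intro w
    exact dual_word w p V
  exact LinearMap.congr_fun h φ

end

end Pent
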