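import Pool.Agent.Lib.MP_a57f33_nt.PN.Stm2
import Pool.Agent.Lib.MP_a57f33_nt.CycWords

/-!
# Pentagon project (MP_a57f33_nt), Half II: the free slot
-/

namespace Pent

open Pool.Agent.MP_a57f33_nt.Cyc (shuffle sh sh_nil_left sh_nil_right sh_cons_cons)

theorem free_snoc {α : Type} (x y : α) : ∀ (u v : List α) (f : List α → ℚ),
    sh (u ++ [x]) (v ++ [y]) f =
      sh u (v ++ [y]) (fun t => f (t ++ [x])) + sh (u ++ [x]) v (fun t => f (t ++ [y]))
  | [], [], f => by
      simp only [List.nil_append, sh_cons_cons, sh_nil_left, sh_nil_right, List.cons_append]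
      ring
  | [], b :: v, f => by
      have := free_snoc x y [] v (fun t => f (b :: t))
      simp only [List.nil_append, List.cons_append, sh_cons_cons, sh_nil_left] at this ⊢
      rw [this]
      ring
  | a :: u, [], f => by
      have := free_snoc x y u [] (fun t => f (a :: t))
      simp only [List.nil_append, List.cons_append, sh_cons_cons, sh_nil_right] at this ⊢
      rw [this]
      ring
  | a :: u, b :: v, f => by
      have h1 := free_snoc x y u (b :: v) (fun t => f (a :: t))
      have h2 := free_snoc x y (a :: u) v (fun t => f (b :: t))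
      simp only [List.cons_append, sh_cons_cons] at h1 h2 ⊢
      rw [h1, h2]
      ring
termination_by u v => u.length + v.length

theorem free_comm0 {α : Type} : ∀ (u v : List α) (f : List α → ℚ), sh u v f = sh v u f
  | [], v, f => by rw [sh_nil_left, sh_nil_right]
  | a :: u, [], f => by rw [sh_nil_left, sh_nil_right]
  | a :: u, b :: v, f => by
      rw [sh_cons_cons, sh_cons_cons, free_comm0 u (b :: v), free_comm0 (a :: u) v]
      ring
termination_by u v => u.length + v.length

theorem free_add {α : Type} (u v : List α) (F G : List α → ℚ) :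
    sh u v (fun t => F t + G t) = sh u v F + sh u v G := by
  unfold sh
  rw [← List.sum_map_add]

theorem free_sub {α : Type} (u v : List α) (F G : List α → ℚ) :
    sh u v (fun t => F t - G t) = sh u v F - sh u v G := by
  unfold sh
  generalize shuffle u v = l
  induction l with
  | nil => simp
  | cons a l ih => simp only [List.map_cons, List.sum_cons, ih]; ring

theorem free_swap {α β : Type} (u v : List α) (l : List β) (K : List α → β → ℚ) :
    (l.map fun w => sh u v (fun X => K X w)).sum = sh u v (fun X => (l.map (K X)).sum) := by
  unfold sh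
  generalize shuffle u v = m
  induction m with
  | nil => simp
  | cons a m ih =>
    simp only [List.map_cons, List.sum_cons]
    rw [List.sum_map_add, ih]

theorem free_assoc {α : Type} : ∀ (u v w : List α) (F : List α → ℚ),
    sh u v (fun t => sh t w F) = sh v w (fun t => sh u t F)
  | [], v, w, F => by simp only [sh_nil_left]
  | a :: u, [], w, F => by simp only [sh_nil_left, sh_nil_right]
  | a :: u, b :: v, [], F => by simp only [sh_nil_right]
  | a :: u, b :: v, c :: w, F => by
      have h1 := free_assoc u (b :: v) (c :: w) (fun t => F (a :: t))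
      have h2 := free_assoc (a :: u) v (c :: w) (fun t => F (b :: t))
      have h3 := free_assoc (a :: u) (b :: v) w (fun t => F (c :: t))
      have e1 : sh (a :: u) (b :: v) (fun t => sh t (c :: w) F) =
          sh u (b :: v) (fun t => sh t (c :: w) (fun t => F (a :: t))) +
          sh (a :: u) v (fun t => sh t (c :: w) (fun t => F (b :: t))) +
          sh (a :: u) (b :: v) (fun t => sh t w (fun t => F (c :: t))) := by
        rw [sh_cons_cons, sh_cons_cons a b u v (fun t => sh t w (fun t => F (c :: t)))]
        simp only [sh_cons_cons _ c, free_add]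
        ring
      have e2 : sh (b :: v) (c :: w) (fun t => sh (a :: u) t F) =
          sh (b :: v) (c :: w) (fun t => sh u t (fun t => F (a :: t))) +
          sh v (c :: w) (fun t => sh (a :: u) t (fun t => F (b :: t))) +
          sh (b :: v) w (fun t => sh (a :: u) t (fun t => F (c :: t))) := by
        rw [sh_cons_cons, sh_cons_cons b c v w (fun t => sh u t (fun t => F (a :: t)))]
        simp only [sh_cons_cons a _ , free_add]
        ring
      rw [e1, e2, h1, h2, h3]
termination_by u v w => u.length + v.length + w.length

theorem free_comm {α : Type} (t a b : List α) (H : List α → ℚ) :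
    sh t a (fun s => sh s b H) = sh t b (fun s => sh s a H) := by
  rw [free_assoc, free_assoc, free_comm0]

theorem free_map {α β : Type} (φ : α → β) : ∀ (u v : List α) (F : List β → ℚ),
    sh (u.map φ) (v.map φ) F = sh u v (fun t => F (t.map φ))
  | [], v, F => by rw [List.map_nil, sh_nil_left, sh_nil_left]
  | a :: u, [], F => by rw [List.map_nil, sh_nil_right, sh_nil_right]
  | a :: u, b :: v, F => by
      have h1 := free_map φ u (b :: v) (fun t => F (φ a :: t))
      have h2 := free_map φ (a :: u) v (fun t => F (φ b :: t))
      simp only [List.map_cons] at h1 h2 ⊢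
      rw [sh_cons_cons, sh_cons_cons, h1, h2]
      simp only [List.map_cons]
termination_by u v => u.length + v.length

theorem free_len {α : Type} : ∀ (u v w : List α), w ∈ shuffle u v →
    w.length = u.length + v.length
  | [], v, w, h => by
      rw [shuffle] at h
      simp at h
      simp [h]
  | a :: u, [], w, h => by
      rw [shuffle] at h
      simp at h
      simp [h]
  | a :: u, b :: v, w, h => by
      rw [shuffle] at h
      simp only [List.mem_append, List.mem_map] at h
      rcases h with ⟨t, ht, rfl⟩ | ⟨t, ht, rfl⟩
      · have := free_len u (b :: v) t ht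
        simp only [List.length_cons] at this ⊢
        omega
      · have := free_len (a :: u) v t ht
        simp only [List.length_cons] at this ⊢
        omega
termination_by u v => u.length + v.length

theorem free_zero {α : Type} (u v : List α) (F : List α → ℚ) (h : ∀ t ∈ shuffle u v, F t = 0) :
    sh u v F = 0 := by
  unfold sh
  rw [List.map_congr_left (g := fun _ => (0 : ℚ)) h]
  simp

/-- full shuffle with `bw U`, `cw V` -/
def free_S (U V : List ℚ) (F : Wd → ℚ) (w : Wd) : ℚ :=
  sh w (bw U) (fun t => sh t (cw V) F)

/-- dual of `ostep` -/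
def free_o (g : Sl) (F : Wd → ℚ) : Wd → ℚ :=
  free_S g.1 g.2.dropLast (fun s => F (s ++ cw (g.2.drop (g.2.length - 1))))

/-- dual of `fstep` -/
def free_f (U V : List ℚ) (F : Wd → ℚ) (w : Wd) : ℚ :=
  (if V = [] then 0 else
    free_S U V.dropLast (fun s => F (s ++ cw (V.drop (V.length - 1)))) w) +
  (if U = [] then 0 else
    free_S U.dropLast V (fun s => F (s ++ bw (U.drop (U.length - 1)))) w)

theorem free_S_sub (U V : List ℚ) (F G : Wd → ℚ) (w : Wd) :
    free_S U V (fun t => F t - G t) w = free_S U V F w - free_S U V G w := by
  unfold free_S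
  rw [← free_sub]
  congr 1
  funext t
  rw [free_sub]

theorem free_comb (u v U V : List ℚ) (F : Wd → ℚ) (w : Wd) :
    free_S u v (free_S U V F) w = sh u U (fun X => sh v V (fun Y => free_S X Y F w)) := by
  have e1 : free_S u v (free_S U V F) w =
      sh w (bw u) (fun t => sh t (cw v) (fun s => sh s (bw U) (fun r => sh r (cw V) F))) := rfl
  rw [e1]
  have e2 : (fun t : Wd => sh t (cw v) (fun s => sh s (bw U) (fun r => sh r (cw V) F)))
      = fun t : Wd => sh t (bw U) (fun s => sh s (cw v) (fun r => sh r (cw V) F)) := by
    funext t
    rw [free_comm]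
  rw [e2, free_assoc]
  have e3 : (fun s : Wd => sh s (cw v) (fun r => sh r (cw V) F))
      = fun s : Wd => sh (cw v) (cw V) (fun Y => sh s Y F) := by
    funext s
    rw [free_assoc]
  rw [e3]
  unfold bw
  rw [free_map]
  congr 1
  funext X
  unfold sh
  have := free_swap (cw v) (cw V) (shuffle w (List.map (fun μ => (false, μ)) X))
    (fun Y s => sh s Y F)
  unfold cw at this ⊢
  rw [free_map] at this
  exact this

theorem free_sum_flat {β : Type} (l : List β) (H : β → List Wd) (F : Wd → ℚ) :
    ((l.flatMap H).map F).sum = (l.map fun w => ((H w).map F).sum).sum := by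
  induction l with
  | nil => rfl
  | cons a l ih => simp [ih]

theorem free_ostep (ws : List Wd) (g : Sl) (F : Wd → ℚ) :
    ((ostep ws g).map F).sum = (ws.map (free_o g F)).sum := by
  unfold ostep
  rw [free_sum_flat]
  congr 1
  apply List.map_congr_left
  intro w _
  rw [List.map_map, free_sum_flat]
  rfl

theorem free_fstep (ws : List Wd) (U V : List ℚ) (F : Wd → ℚ) :
    ((fstep ws U V).map F).sum = (ws.map (free_f U V F)).sum := by
  unfold fstep free_f
  rw [List.map_append, List.sum_append, List.sum_map_add]
  congr 1
  · split_ifs with h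
    · simp
    · rw [free_sum_flat]
      congr 1
      apply List.map_congr_left
      intro w _
      rw [List.map_map, free_sum_flat]
      rfl
  · split_ifs with h
    · simp
    · rw [free_sum_flat]
      congr 1
      apply List.map_congr_left
      intro w _
      rw [List.map_map, free_sum_flat]
      rfl

theorem free_fold (gs : List Sl) (F : Wd → ℚ) : ∀ ws : List Wd,
    ((gs.foldl ostep ws).map F).sum = (ws.map (gs.foldr free_o F)).sum := by
  induction gs with
  | nil => intro ws; rfl
  | cons g gs ih =>
    intro ws
    rw [List.foldl_cons, ih, free_ostep]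
    rfl

theorem free_LL (gs : List Sl) (F : Wd → ℚ) : LL F gs = gs.foldr free_o F [] := by
  unfold LL OS
  rw [free_fold]
  simp

theorem free_LL_append (hs hs' : List Sl) (F : Wd → ℚ) :
    LL F (hs ++ hs') = LL (hs'.foldr free_o F) hs := by
  rw [free_LL, free_LL, List.foldr_append]

theorem free_LL_sub (F G : Wd → ℚ) (gs : List Sl) :
    LL (fun t => F t - G t) gs = LL F gs - LL G gs := by
  unfold LL
  generalize OS gs = l
  induction l with
  | nil => simp
  | cons a l ih => simp only [List.map_cons, List.sum_cons, ih]; ring

theorem free_LL_sh (F : List ℚ → Wd → ℚ) (u v : List ℚ) (gs : List Sl) :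
    LL (fun w => sh u v (fun X => F X w)) gs = sh u v (fun X => LL (F X) gs) := by
  unfold LL
  rw [free_swap]

theorem free_mark (X Y : List ℚ) (z : ℚ) (F : Wd → ℚ) :
    free_o (X, Y ++ [z]) F = free_S X Y (fun s => F (s ++ [(true, z)])) := by
  unfold free_o
  simp [cw]

theorem free_S_nil (U V : List ℚ) (h : U ≠ [] ∨ V ≠ []) (F : Wd → ℚ) :
    free_S U V F [] = free_f U V F [] := by
  unfold free_f free_S
  simp only [sh_nil_left]
  rcases List.eq_nil_or_concat U with rfl | ⟨U, x, rfl⟩
  · rcases List.eq_nil_or_concat V with rfl | ⟨V, y, rfl⟩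
    · simp at h
    · have e : bw ([] : List ℚ) = [] := rfl
      simp [e, sh_nil_left, cw]
  · rcases List.eq_nil_or_concat V with rfl | ⟨V, y, rfl⟩
    · have e : cw ([] : List ℚ) = [] := rfl
      simp [e, sh_nil_right, bw]
    · have := free_snoc (false, x) (true, y) (bw U) (cw V) F
      simp only [List.concat_eq_append]
      have e1 : bw (U ++ [x]) = bw U ++ [(false, x)] := by simp [bw]
      have e2 : cw (V ++ [y]) = cw V ++ [(true, y)] := by simp [cw]
      simp only [e1, e2]
      rw [this]
      simp [bw, cw]
      ring

theorem free_S_snoc (U V : List ℚ) (F : Wd → ℚ) (w : Wd) (a : Bool × ℚ) :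
    free_S U V F (w ++ [a]) = free_S U V (fun t => F (t ++ [a])) w + free_f U V F (w ++ [a]) := by
  unfold free_f free_S
  rcases List.eq_nil_or_concat U with rfl | ⟨U, x, rfl⟩
  · have e : bw ([] : List ℚ) = [] := rfl
    rcases List.eq_nil_or_concat V with rfl | ⟨V, y, rfl⟩
    · have e' : cw ([] : List ℚ) = [] := rfl
      simp [e, e', sh_nil_right]
    · have := free_snoc a (true, y) w (cw V) F
      simp only [List.concat_eq_append, e, sh_nil_right]
      have e2 : cw (V ++ [y]) = cw V ++ [(true, y)] := by simp [cw]
      rw [e2, this]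
      simp [cw]
  · simp only [List.concat_eq_append]
    have e1 : bw (U ++ [x]) = bw U ++ [(false, x)] := by simp [bw]
    rw [e1]
    rcases List.eq_nil_or_concat V with rfl | ⟨V, y, rfl⟩
    · have e' : cw ([] : List ℚ) = [] := rfl
      rw [free_snoc]
      simp [e', sh_nil_right, bw]
    · simp only [List.concat_eq_append]
      have e2 : cw (V ++ [y]) = cw V ++ [(true, y)] := by simp [cw]
      rw [e2]
      have h1 := free_snoc a (false, x) w (bw U) (fun t => sh t (cw V ++ [(true, y)]) F)
      have h2 := free_snoc a (false, x) w (bw U)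
        (fun t => sh t (cw V) (fun s => F (s ++ [(true, y)])))
      have h3 : sh w (bw U ++ [(false, x)]) (fun t => sh (t ++ [a]) (cw V ++ [(true, y)]) F) =
          sh w (bw U ++ [(false, x)])
            (fun t => sh t (cw V ++ [(true, y)]) (fun s => F (s ++ [a]))) +
          sh w (bw U ++ [(false, x)])
            (fun t => sh (t ++ [a]) (cw V) (fun s => F (s ++ [(true, y)]))) := by
        simp only [free_snoc, free_add]
      have h4 : sh (w ++ [a]) (bw U) (fun t => sh (t ++ [(false, x)]) (cw V ++ [(true, y)]) F) =
          sh (w ++ [a]) (bw U)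
            (fun t => sh t (cw V ++ [(true, y)]) (fun s => F (s ++ [(false, x)]))) +
          sh (w ++ [a]) (bw U)
            (fun t => sh (t ++ [(false, x)]) (cw V) (fun s => F (s ++ [(true, y)]))) := by
        simp only [free_snoc, free_add]
      have e3 : (U ++ [x]).dropLast = U := by simp
      have e4 : (V ++ [y]).dropLast = V := by simp
      have e5 : cw ((V ++ [y]).drop ((V ++ [y]).length - 1)) = [(true, y)] := by simp [cw]
      have e6 : bw ((U ++ [x]).drop ((U ++ [x]).length - 1)) = [(false, x)] := by simp [bw]
      rw [if_neg (by simp), if_neg (by simp), e3, e4, e5, e6, h1, h3, h4, h2]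
      ring

theorem free_kill (f : Wd → ℚ) (hf : LieFn f) (U V : List ℚ) (h : U ≠ [] ∨ V ≠ []) (w : Wd)
    (hw : w ≠ []) : free_S U V f w = 0 := by
  unfold free_S
  by_cases hV : V = []
  · subst hV
    have hU : U ≠ [] := by
      rcases h with h | h
      · exact h
      · exact absurd rfl h
    have e : cw ([] : List ℚ) = [] := rfl
    simp only [e, sh_nil_right]
    exact hf w (bw U) hw (by simpa [bw] using hU)
  · have e : ∀ t ∈ shuffle w (bw U), sh t (cw V) f = 0 := by
      intro t ht
      apply hf t (cw V) _ (by simpa [cw] using hV)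
      intro h0
      have := free_len w (bw U) t ht
      rw [h0] at this
      have h1 : 0 = List.length w + (bw U).length := this
      apply hw
      exact List.length_eq_zero_iff.mp (by omega)
    exact free_zero _ _ _ e

theorem free_OS_ne (gs : List Sl) (hne : gs ≠ []) (h : vok gs) : ∀ w ∈ OS gs, w ≠ [] := by
  rcases List.eq_nil_or_concat gs with rfl | ⟨gs, g, rfl⟩
  · exact absurd rfl hne
  · rw [List.concat_eq_append] at h ⊢
    intro w hw
    unfold OS at hw
    rw [List.foldl_append] at hw
    simp only [List.foldl_cons, List.foldl_nil, ostep, List.mem_flatMap, List.mem_map] at hw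
    obtain ⟨w1, hw1, w2, hw2, rfl⟩ := hw
    have hg : g.2 ≠ [] := h g (by simp)
    rcases List.eq_nil_or_concat g.2 with h0 | ⟨v, z, h0⟩
    · exact absurd h0 hg
    · rw [h0]
      simp [cw]

theorem free_two (f : Wd → ℚ) (p : ℕ)
    (hL : ∀ gs : List Sl, gs.length = p → vok gs → LL f gs = 0) (hs hs' : List Sl)
    (hlen : hs.length + (hs'.length + 1) = p) (hv : vok hs) (hv' : vok hs')
    (u v U V : List ℚ) (z : ℚ) :
    LL (free_S u v (free_S U V (fun s => hs'.foldr free_o f (s ++ [(true, z)])))) hs = 0 := by
  have e : free_S u v (free_S U V (fun s => hs'.foldr free_o f (s ++ [(true, z)]))) =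
      fun w => sh u U (fun X => sh v V (fun Y =>
        free_S X Y (fun s => hs'.foldr free_o f (s ++ [(true, z)])) w)) := by
    funext w
    rw [free_comb]
  rw [e, free_LL_sh]
  apply free_zero
  intro X _
  rw [free_LL_sh]
  apply free_zero
  intro Y _
  rw [← free_mark]
  have h1 := free_LL_append hs ((X, Y ++ [z]) :: hs') f
  rw [List.foldr_cons] at h1
  change LL (free_o (X, Y ++ [z]) (hs'.foldr free_o f)) hs = 0
  rw [← h1]
  apply hL
  · simp only [List.length_append, List.length_cons]
    exact hlen
  · intro g hg
    rcases List.mem_append.mp hg with hg | hg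
    · exact hv g hg
    · rcases List.mem_cons.mp hg with hg | hg
      · subst hg
        simp
      · exact hv' g hg

theorem free_last (g : Sl) (hg : g.2 ≠ []) : ∃ u v z, g = (u, v ++ [z]) := by
  obtain ⟨u, v⟩ := g
  rcases List.eq_nil_or_concat v with rfl | ⟨v', z, rfl⟩
  · exact absurd rfl hg
  · exact ⟨u, v', z, by rw [List.concat_eq_append]⟩

theorem p_free : S_free := by
  intro p f hp hf hL hs hs' U V hlen hv hv' hne
  rw [free_fold, free_fstep]
  change LL (free_f U V (hs'.foldr free_o f)) hs = 0
  -- the full shuffle gives zero
  have full : ∀ hs : List Sl, hs.length + hs'.length = p → vok hs →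
      LL (free_S U V (hs'.foldr free_o f)) hs = 0 := by
    intro hs hlen hv
    cases hs' with
    | nil =>
      simp only [List.foldr_nil]
      unfold LL
      rw [List.map_congr_left (g := fun _ => (0 : ℚ))]
      · simp
      · intro w hw
        apply free_kill f hf U V hne
        apply free_OS_ne hs _ hv w hw
        intro h0
        rw [h0] at hlen
        simp at hlen
        omega
    | cons h' hs'' =>
      obtain ⟨u, v, z, rfl⟩ := free_last h' (hv' h' (by simp))
      rw [List.foldr_cons, free_mark]
      apply free_two f p hL hs hs'' _ hv (fun g hg => hv' g (by simp [hg]))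
      simpa using hlen
  rcases List.eq_nil_or_concat hs with rfl | ⟨hs1, h, rfl⟩
  · have h1 := full [] hlen hv
    have e : ∀ G : Wd → ℚ, LL G [] = G [] := by
      intro G
      simp [LL, OS]
    rw [e] at h1 ⊢
    rw [← free_S_nil U V hne]
    exact h1
  · rw [List.concat_eq_append] at hlen hv ⊢
    obtain ⟨u, v, z, rfl⟩ := free_last h (hv h (by simp))
    have h1 := full _ hlen hv
    rw [free_LL_append] at h1 ⊢
    simp only [List.foldr_cons, List.foldr_nil, free_mark] at h1 ⊢
    have e : free_S u v (fun s => free_f U V (hs'.foldr free_o f) (s ++ [(true, z)])) =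
        fun w => free_S u v (fun s => free_S U V (hs'.foldr free_o f) (s ++ [(true, z)])) w -
          free_S u v (free_S U V (fun t => hs'.foldr free_o f (t ++ [(true, z)]))) w := by
      funext w
      rw [← free_S_sub]
      congr 1
      funext s
      have := free_S_snoc U V (hs'.foldr free_o f) s (true, z)
      linarith
    rw [e, free_LL_sub, h1, free_two f p hL hs1 hs' _ (fun g hg => hv g (by simp [hg])) hv']
    · ring
    · simp only [List.length_append, List.length_cons, List.length_nil] at hlen
      omega

end Pent
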