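import Pool.Agent.Lib.MP_a57f33_nt.PN.Stm1

/-!
# Pentagon project (MP_a57f33_nt), Half I: derivations and momentum functions
-/

set_option linter.unusedSimpArgs false

namespace Pent

open Pool.Agent.MP_a57f33_nt

noncomputable section

/-- the function on words concentrated on the empty word -/
def mder_e : Wd → ℚ := fun w => if w = [] then 1 else 0

theorem mder_MM (f : T3) : MM f = actM f mder_e := rfl

theorem mder_comm (N : Module.End ℚ (Wd → ℚ)) (u : Fin 3 → T3)
    (h : ∀ i, N * actM (FreeAlgebra.ι ℚ i) = actM (FreeAlgebra.ι ℚ i) * N + actM (u i))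
    (f : T3) : N * actM f = actM f * N + actM (der u f) := by
  induction f using FreeAlgebra.induction with
  | grade0 r =>
    rw [der_algebraMap, map_zero, add_zero, AlgHom.commutes]
    exact (Algebra.commutes r N).symm
  | grade1 i => rw [der_iota]; exact h i
  | mul a b ha hb =>
    rw [map_mul, der_mul, map_add, map_mul, map_mul, ← mul_assoc, ha, add_mul, mul_assoc, hb]
    noncomm_ring
  | add a b ha hb =>
    rw [map_add, map_add, map_add, mul_add, add_mul, ha, hb]
    abel

theorem mder_apply (N : Module.End ℚ (Wd → ℚ)) (u : Fin 3 → T3)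
    (h : ∀ i, N * actM (FreeAlgebra.ι ℚ i) = actM (FreeAlgebra.ι ℚ i) * N + actM (u i))
    (hN : N mder_e = 0) (f : T3) : MM (der u f) = N (MM f) := by
  have h1 := congrArg (fun F : Module.End ℚ (Wd → ℚ) => F mder_e) (mder_comm N u h f)
  simp only [Module.End.mul_apply, LinearMap.add_apply] at h1
  rw [hN, map_zero, zero_add] at h1
  rw [mder_MM, mder_MM, h1]

theorem mder_mrg_add (w : Wd) : ∀ f g : Wd → ℚ,
    mrg (fun t => f t + g t) w = mrg f w + mrg g w := by
  induction w with
  | nil => intro f g; simp [mrg]
  | cons a w ih =>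
    intro f g
    obtain ⟨x, μ⟩ := a
    cases w with
    | nil => simp [mrg]
    | cons b w =>
      obtain ⟨y, ν⟩ := b
      simp only [mrg]
      rw [ih (fun t => f ((x, μ) :: t)) (fun t => g ((x, μ) :: t))]
      split_ifs <;> ring

theorem mder_mrg_smul (w : Wd) : ∀ (r : ℚ) (f : Wd → ℚ),
    mrg (fun t => r * f t) w = r * mrg f w := by
  induction w with
  | nil => intro f g; simp [mrg]
  | cons a w ih =>
    intro r f
    obtain ⟨x, μ⟩ := a
    cases w with
    | nil => simp [mrg]
    | cons b w =>
      obtain ⟨y, ν⟩ := b
      simp only [mrg]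
      rw [ih r (fun t => f ((x, μ) :: t))]
      split_ifs <;> ring

/-- merging as a linear map -/
def mder_M : Module.End ℚ (Wd → ℚ) where
  toFun G := mrg G
  map_add' G H := by funext w; exact mder_mrg_add w G H
  map_smul' r G := by funext w; exact mder_mrg_smul w r G

theorem mder_a : actM (FreeAlgebra.ι ℚ 0) = mTot := by simp [actM]
theorem mder_b : actM (FreeAlgebra.ι ℚ 1) = mFst false := by simp [actM]
theorem mder_c : actM (FreeAlgebra.ι ℚ 2) = mFst true := by simp [actM]

theorem mder_mrg_tot (w : Wd) : ∀ (s : ℚ) (G : Wd → ℚ),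
    mrg (fun t => (s + tot t) * G t) w = (s + tot w) * mrg G w := by
  induction w with
  | nil => intro s G; simp [mrg]
  | cons a w ih =>
    intro s G
    obtain ⟨x, μ⟩ := a
    cases w with
    | nil => simp [mrg]
    | cons b w =>
      obtain ⟨y, ν⟩ := b
      simp only [mrg]
      have e : (fun t => (s + tot ((x, μ) :: t)) * G ((x, μ) :: t)) =
          fun t => ((s + μ) + tot t) * (fun t => G ((x, μ) :: t)) t := by
        funext t
        simp only [tot, List.map_cons, List.sum_cons]
        ring
      rw [e, ih]
      have e2 : ∀ z : Bool, tot ((z, μ + ν) :: w) = μ + ν + tot w := by intro z; simp [tot]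
      have e3 : tot ((x, μ) :: (y, ν) :: w) = μ + ν + tot w := by simp [tot]; ring
      have e4 : tot ((y, ν) :: w) = ν + tot w := by simp [tot]
      rw [e2, e2, e3, e4]
      split_ifs <;> ring

theorem mder_M_fst (x : Bool) (G : Wd → ℚ) (w : Wd) :
    mrg (fstL x G) w = fstL x (mrg G) w +
      (if x then fstL true (fstL false G) w - fstL false (fstL true G) w
        else fstL false (fstL true G) w - fstL true (fstL false G) w) := by
  cases w with
  | nil => simp [mrg, fstL]
  | cons a w =>
    obtain ⟨z, μ⟩ := a
    cases w with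
    | nil => cases x <;> cases z <;> simp [mrg, fstL]
    | cons b w =>
      obtain ⟨y, ν⟩ := b
      have e1 : (fun t => fstL x G ((z, μ) :: t)) = fun t => (if z = x then 1 else 0) * G t := by
        funext t
        simp only [fstL]
        split_ifs <;> ring
      simp only [mrg]
      rw [e1, mder_mrg_smul]
      cases x <;> cases z <;> cases y <;> simp [fstL, add_comm]

theorem mder_d23 : d23 = der ![0, FreeAlgebra.ι ℚ 1 * FreeAlgebra.ι ℚ 2 -
    FreeAlgebra.ι ℚ 2 * FreeAlgebra.ι ℚ 1, FreeAlgebra.ι ℚ 2 * FreeAlgebra.ι ℚ 1 -
    FreeAlgebra.ι ℚ 1 * FreeAlgebra.ι ℚ 2] := by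
  have h : ¬ (1 : Fin 3) = 2 := by decide
  simp only [d23, tau, if_neg h]
  congr 1
  funext k
  fin_cases k <;> simp

theorem mder_1 (f : T3) : MM (d23 f) = mrg (MM f) := by
  rw [mder_d23]
  apply mder_apply mder_M
  · intro i
    ext G w
    fin_cases i
    · have := mder_mrg_tot w 0 G
      simp only [zero_add] at this
      simpa [mder_a, mTot, mder_M] using this
    · have := mder_M_fst false G w
      simpa [mder_b, mder_c, mFst, mder_M] using this
    · have := mder_M_fst true G w
      simpa [mder_b, mder_c, mFst, mder_M] using this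
  · funext w
    have h0 : ∀ w : Wd, mrg (fun _ => 0) w = 0 := by
      intro w
      have := mder_mrg_smul w 0 (fun _ => 0)
      simpa using this
    change mrg mder_e w = 0
    cases w with
    | nil => simp [mrg]
    | cons a w =>
      obtain ⟨z, μ⟩ := a
      cases w with
      | nil => simp [mrg]
      | cons b w =>
        obtain ⟨y, ν⟩ := b
        have e1 : (fun t => mder_e ((z, μ) :: t)) = fun _ => 0 := by
          funext t
          simp [mder_e]
        simp only [mrg]
        rw [e1, h0]
        simp [mder_e]

/-- sum of the momenta of the letters of type `x` -/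
def mder_ms (x : Bool) (w : Wd) : ℚ := (w.map fun y => if y.1 = x then y.2 else 0).sum

theorem mder_ms_true (w : Wd) : mder_ms true w = csum w := rfl

theorem mder_ms_false (w : Wd) : mder_ms false w = bsum w := by
  unfold mder_ms bsum
  congr 1
  apply List.map_congr_left
  intro y _
  cases y.1 <;> simp

/-- multiplication by `mder_ms x` -/
def mder_C (x : Bool) : Module.End ℚ (Wd → ℚ) where
  toFun G w := - (mder_ms x w * G w)
  map_add' G H := by funext w; simp [mul_add]; ring
  map_smul' r G := by funext w; simp; ring

theorem mder_C_fst (x z : Bool) (G : Wd → ℚ) (w : Wd) :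
    - (mder_ms x w * fstL z G w) = fstL z (fun t => - (mder_ms x t * G t)) w +
      (if z = x then fstL x (fun t => tot t * G t) w - tot w * fstL x G w else 0) := by
  cases w with
  | nil => simp [fstL]
  | cons a w =>
    obtain ⟨y, μ⟩ := a
    simp only [fstL, mder_ms, tot, List.map_cons, List.sum_cons]
    by_cases h1 : y = z
    · subst h1
      by_cases h2 : y = x
      · subst h2
        simp only [if_true]
        ring
      · simp [h2]
    · by_cases h2 : z = x
      · subst h2
        simp [h1]
      · simp [h1, h2]

/-- the part of `d13`, `d12` acting on the letter `c`, `b` -/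
def mder_d (x : Bool) : Fin 3 → T3 := fun k =>
  if k = lt3 x then FreeAlgebra.ι ℚ (lt3 x) * FreeAlgebra.ι ℚ 0 -
    FreeAlgebra.ι ℚ 0 * FreeAlgebra.ι ℚ (lt3 x) else 0

/-- the part of `d13`, `d12` acting on the letter `a` -/
def mder_d' (x : Bool) : Fin 3 → T3 := fun k =>
  if k = 0 then FreeAlgebra.ι ℚ 0 * FreeAlgebra.ι ℚ (lt3 x) -
    FreeAlgebra.ι ℚ (lt3 x) * FreeAlgebra.ι ℚ 0 else 0

theorem mder_2 (x : Bool) (f : T3) (w : Wd) :
    MM (der (mder_d x) f) w = - (mder_ms x w * MM f w) := by
  have := mder_apply (mder_C x) (mder_d x) (by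
    intro i
    ext G w
    cases x
    · fin_cases i
      · simp [mder_a, mder_b, mder_c, mTot, mFst, mder_C, mder_d, lt3]
        ring
      · have := mder_C_fst false false G w
        simpa [mder_a, mder_b, mder_c, mTot, mFst, mder_C, mder_d, lt3] using this
      · have := mder_C_fst false true G w
        simpa [mder_a, mder_b, mder_c, mTot, mFst, mder_C, mder_d, lt3] using this
    · fin_cases i
      · simp [mder_a, mder_b, mder_c, mTot, mFst, mder_C, mder_d, lt3]
        ring
      · have := mder_C_fst true false G w
        simpa [mder_a, mder_b, mder_c, mTot, mFst, mder_C, mder_d, lt3] using this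
      · have := mder_C_fst true true G w
        simpa [mder_a, mder_b, mder_c, mTot, mFst, mder_C, mder_d, lt3] using this) (by
    funext w
    cases w with
    | nil => simp [mder_C, mder_ms]
    | cons a w => simp [mder_C, mder_e]) f
  rw [this]
  rfl

theorem mder_ext (f : T3) (φ : T3 →ₗ[ℚ] ℚ) (h : ∀ u, coeff f u ≠ 0 → φ (word u) = 0) :
    φ f = 0 := by
  rw [← (FreeAlgebra.basisFreeMonoid ℚ (Fin 3)).linearCombination_repr f,
    Finsupp.linearCombination_apply, map_finsuppSum]
  apply Finset.sum_eq_zero
  intro i hi
  have hi' : coeff f i.toList ≠ 0 := by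
    rw [Finsupp.mem_support_iff] at hi
    exact hi
  have h1 := basis_apply (X := Fin 3) i.toList
  rw [FreeMonoid.ofList_toList] at h1
  change φ (_ • (FreeAlgebra.basisFreeMonoid ℚ (Fin 3)) i) = 0
  rw [map_smul, h1, h _ hi', smul_zero]

theorem mder_MM_mul (i : Fin 3) (f : T3) :
    MM (FreeAlgebra.ι ℚ i * f) = actM (FreeAlgebra.ι ℚ i) (MM f) := by
  rw [mder_MM, map_mul]
  rfl

theorem mder_MM_add (f g : T3) (w : Wd) : MM (f + g) w = MM f w + MM g w := by
  rw [mder_MM, map_add]
  rfl

theorem mder_MM_sub (f g : T3) (w : Wd) : MM (f - g) w = MM f w - MM g w := by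
  rw [mder_MM, map_sub]
  rfl

theorem mder_nbc_cons (i : Fin 3) (u : List (Fin 3)) :
    nbc (i :: u) = nbc u + if i = 0 then 0 else 1 := by
  unfold nbc
  by_cases h : i = 0 <;> simp [h]

theorem mder_len (u : List (Fin 3)) : ∀ w : Wd, w.length ≠ nbc u → MM (word u) w = 0 := by
  induction u with
  | nil =>
    intro w hw
    have : w ≠ [] := by
      intro h0
      apply hw
      simp [h0, nbc]
    rw [word_nil, mder_MM, map_one]
    simp [mder_e, this]
  | cons i u ih =>
    intro w hw
    rw [mder_nbc_cons] at hw
    rw [word_cons, mder_MM_mul]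
    fin_cases i
    · have h1 := ih w (by simpa using hw)
      simp [mder_a, mTot, h1]
    · cases w with
      | nil => simp [mder_b, mFst, fstL]
      | cons y w =>
        have h1 := ih w (by simpa using hw)
        simp [mder_b, mFst, fstL, h1]
    · cases w with
      | nil => simp [mder_c, mFst, fstL]
      | cons y w =>
        have h1 := ih w (by simpa using hw)
        simp [mder_c, mFst, fstL, h1]

theorem mder_lt3 (x : Bool) : actM (FreeAlgebra.ι ℚ (lt3 x)) = mFst x := by
  cases x
  · exact mder_b
  · exact mder_c

theorem mder_3 (x : Bool) (u : List (Fin 3)) : ∀ w : Wd, w.length ≤ nbc u →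
    MM (der (mder_d' x) (word u)) w = 0 := by
  induction u with
  | nil =>
    intro w _
    rw [word_nil, der_one, mder_MM, map_zero]
    rfl
  | cons i u ih =>
    intro w hw
    rw [mder_nbc_cons] at hw
    rw [word_cons, der_mul, der_iota, mder_MM_add, mder_MM_mul]
    have h0 : actM (FreeAlgebra.ι ℚ i) (MM (der (mder_d' x) (word u))) w = 0 := by
      fin_cases i
      · have h1 := ih w (by simpa using hw)
        simp [mder_a, mTot, h1]
      · cases w with
        | nil => simp [mder_b, mFst, fstL]
        | cons y w =>
          have h1 := ih w (by simpa using hw)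
          simp [mder_b, mFst, fstL, h1]
      · cases w with
        | nil => simp [mder_c, mFst, fstL]
        | cons y w =>
          have h1 := ih w (by simpa using hw)
          simp [mder_c, mFst, fstL, h1]
    rw [h0, add_zero]
    by_cases hi : i = 0
    · subst hi
      simp only [mder_d', if_true]
      rw [sub_mul, mder_MM_sub, mul_assoc, mul_assoc, mder_MM_mul, mder_MM_mul, mder_MM_mul,
        mder_MM_mul, mder_a, mder_lt3]
      have h2 : ∀ G : Wd → ℚ, (∀ t : Wd, t.length < w.length → G t = 0) → fstL x G w = 0 := by
        intro G hG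
        cases w with
        | nil => rfl
        | cons y w => simp [fstL, hG w (by simp)]
      have hw' : w.length ≤ nbc u := by simpa using hw
      have h3 : fstL x (MM (word u)) w = 0 := by
        apply h2
        intro t ht
        apply mder_len
        omega
      have h4 : fstL x (mTot (MM (word u))) w = 0 := by
        apply h2
        intro t ht
        have : MM (word u) t = 0 := mder_len _ _ (by omega)
        simp [mTot, this]
      have h5 : (mTot (mFst x (MM (word u)))) w = tot w * fstL x (MM (word u)) w := rfl
      have h6 : (mFst x (mTot (MM (word u)))) w = fstL x (mTot (MM (word u))) w := rfl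
      rw [h5, h6, h3, h4]
      ring
    · simp only [mder_d', if_neg hi]
      rw [zero_mul, mder_MM, map_zero]
      rfl

theorem mder_split (x : Bool) :
    (tau (some 0) (some (lt3 x)) : Module.End ℚ T3) = der (mder_d x) + der (mder_d' x) := by
  have h : ¬ (0 : Fin 3) = lt3 x := by cases x <;> decide
  simp only [tau, if_neg h]
  symm
  apply der_unique
  · intro f g
    simp only [LinearMap.add_apply, der_mul]
    noncomm_ring
  · intro i
    rw [LinearMap.add_apply, der_iota, der_iota]
    unfold mder_d mder_d'
    by_cases h1 : i = 0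
    · subst h1
      rw [if_neg h, if_pos rfl, zero_add]
    · rw [if_neg h1, if_neg h1, add_zero]

/-- `MM` as a linear map -/
def mder_L (d : Module.End ℚ T3) (c : ℚ) (w : Wd) : T3 →ₗ[ℚ] ℚ where
  toFun f := MM (d f) w + c * MM f w
  map_add' f g := by
    rw [map_add, mder_MM_add, mder_MM_add]
    ring
  map_smul' r f := by
    rw [map_smul, mder_MM, mder_MM, map_smul, map_smul]
    simp only [LinearMap.smul_apply, Pi.smul_apply, smul_eq_mul, RingHom.id_apply, mder_MM]
    ring

theorem mder_4 (x : Bool) (f : T3) (k : ℕ) (w : Wd) (hf : Fil k f) (hw : w.length = k) :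
    MM (tau (some 0) (some (lt3 x)) f) w = - (mder_ms x w * MM f w) := by
  have h := mder_ext f (mder_L (tau (some 0) (some (lt3 x))) (mder_ms x w) w) (by
    intro u hu
    have hk : k ≤ nbc u := by
      by_contra hlt
      exact hu (hf u (by omega))
    change MM (tau (some 0) (some (lt3 x)) (word u)) w + mder_ms x w * MM (word u) w = 0
    rw [mder_split, LinearMap.add_apply, mder_MM_add, mder_2, mder_3 x u w (by omega)]
    ring)
  have h' : MM (tau (some 0) (some (lt3 x)) f) w + mder_ms x w * MM f w = 0 := h
  linarith

theorem p_mder : S_mder := by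
  refine ⟨fun f w => by rw [mder_1], ?_⟩
  intro f k w hf hw
  constructor
  · have := mder_4 true f k w hf hw
    rw [mder_ms_true] at this
    exact this
  · have := mder_4 false f k w hf hw
    rw [mder_ms_false] at this
    exact this

end

end Pent
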