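import Pool.Agent.Lib.MP_a57f33_nt.PN.Stm1

/-!
# Pentagon project (MP_a57f33_nt), Half I: injectivity of the momentum function
-/

namespace Pent

open Pool.Agent.MP_a57f33_nt
open Pool.Agent.MP_a57f33_nt.Cyc (shuffle)

theorem minj_perm {α : Type} : ∀ (u v w : List α), w ∈ shuffle u v → w.Perm (u ++ v)
  | [], v, w, h => by
      simp only [shuffle, List.mem_singleton] at h
      subst h
      simp
  | a :: u, [], w, h => by
      simp only [shuffle, List.mem_singleton] at h
      subst h
      simp
  | a :: u, b :: v, w, h => by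
      rw [shuffle, List.mem_append, List.mem_map, List.mem_map] at h
      rcases h with ⟨t, ht, rfl⟩ | ⟨t, ht, rfl⟩
      · exact (minj_perm u (b :: v) t ht).cons a
      · exact ((minj_perm (a :: u) v t ht).cons b).trans List.perm_middle.symm
termination_by u v => u.length + v.length

theorem minj_shuffle_ne {α : Type} : ∀ (u v : List α), shuffle u v ≠ []
  | [], v => by simp [shuffle]
  | a :: u, [] => by simp [shuffle]
  | a :: u, b :: v => by
      rw [shuffle]
      intro h
      have h1 := (List.append_eq_nil_iff.mp h).1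
      rw [List.map_eq_nil_iff] at h1
      exact minj_shuffle_ne u (b :: v) h1
termination_by u v => u.length + v.length

theorem minj_nbc_perm {u v : List (Fin 3)} (h : u.Perm v) : nbc u = nbc v := by
  unfold nbc
  exact (h.filter _).length_eq

theorem minj_nbc_append (u v : List (Fin 3)) : nbc (u ++ v) = nbc u + nbc v := by
  unfold nbc
  rw [List.filter_append, List.length_append]

theorem minj_nbc_rep (j : ℕ) : nbc (List.replicate j 0) = 0 := by
  unfold nbc
  simp

/-- every word is a power of `a`, or begins with `a^i x`, `x = b, c` -/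
theorem minj_head (u : List (Fin 3)) :
    (∃ j, u = List.replicate j 0) ∨
      ∃ (i : ℕ) (x : Bool) (v : List (Fin 3)), u = List.replicate i 0 ++ lt3 x :: v := by
  induction u with
  | nil => exact Or.inl ⟨0, rfl⟩
  | cons y u ih =>
    fin_cases y
    · rcases ih with ⟨j, rfl⟩ | ⟨i, x, v, rfl⟩
      · exact Or.inl ⟨j + 1, rfl⟩
      · exact Or.inr ⟨i + 1, x, v, rfl⟩
    · exact Or.inr ⟨0, false, u, rfl⟩
    · exact Or.inr ⟨0, true, u, rfl⟩

/-- every word is a power of `a`, or ends with `x a^i`, `x = b, c` -/
theorem minj_last (u : List (Fin 3)) :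
    (∃ j, u = List.replicate j 0) ∨
      ∃ (i : ℕ) (x : Bool) (v : List (Fin 3)), u = v ++ lt3 x :: List.replicate i 0 := by
  rcases minj_head u.reverse with ⟨j, h⟩ | ⟨i, x, v, h⟩
  · left
    refine ⟨j, ?_⟩
    rw [← List.reverse_reverse u, h, List.reverse_replicate]
  · right
    refine ⟨i, x, v.reverse, ?_⟩
    rw [← List.reverse_reverse u, h]
    simp

theorem minj_span (P : T3 → Prop) (h1 : P 1) (hadd : ∀ f g, P f → P g → P (f + g))
    (hsmul : ∀ (r : ℚ) f, P f → P (r • f))
    (hmul : ∀ (i : Fin 3) f, P f → P (FreeAlgebra.ι ℚ i * f)) : ∀ f, P f := by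
  have hw : ∀ u : List (Fin 3), P (word u) := by
    intro u
    induction u with
    | nil => exact h1
    | cons i u ih =>
      rw [word_cons]
      exact hmul i _ ih
  intro f
  have hf : f ∈ Submodule.span ℚ (Set.range (FreeAlgebra.basisFreeMonoid ℚ (Fin 3))) := by
    rw [Module.Basis.span_eq]
    trivial
  induction hf using Submodule.span_induction with
  | mem x hx =>
    obtain ⟨m, rfl⟩ := hx
    have := basis_apply (X := Fin 3) m.toList
    rw [FreeMonoid.ofList_toList] at this
    rw [this]
    exact hw _
  | zero =>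
    have := hsmul 0 1 h1
    rwa [zero_smul] at this
  | add x y _ _ hx hy => exact hadd x y hx hy
  | smul r x _ hx => exact hsmul r x hx

theorem minj_MM_one (w : Wd) : MM 1 w = if w = [] then 1 else 0 := by
  unfold MM
  rw [map_one]
  rfl

theorem minj_MM_add (f g : T3) (w : Wd) : MM (f + g) w = MM f w + MM g w := by
  unfold MM
  rw [map_add]
  rfl

theorem minj_MM_smul (r : ℚ) (f : T3) (w : Wd) : MM (r • f) w = r * MM f w := by
  unfold MM
  rw [map_smul]
  rfl

theorem minj_MM_zero (w : Wd) : MM 0 w = 0 := by
  unfold MM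
  rw [map_zero]
  rfl

theorem minj_MM_a (f : T3) (w : Wd) : MM (FreeAlgebra.ι ℚ 0 * f) w = tot w * MM f w := by
  unfold MM
  rw [map_mul]
  simp only [actM, FreeAlgebra.lift_ι_apply]
  rfl

theorem minj_MM_x (x : Bool) (f : T3) (w : Wd) :
    MM (FreeAlgebra.ι ℚ (lt3 x) * f) w = fstL x (MM f) w := by
  unfold MM
  rw [map_mul]
  cases x <;>
  · simp only [actM, FreeAlgebra.lift_ι_apply, lt3]
    rfl

/-- the decomposition of `f` with respect to the first letter `x = b, c` -/
theorem minj_dec (x : Bool) (f : T3) : ∃ (N : ℕ) (g : ℕ → T3),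
    (∀ i, N ≤ i → g i = 0) ∧
    (∀ (i : ℕ) (u : List (Fin 3)), coeff f (List.replicate i 0 ++ lt3 x :: u) = coeff (g i) u) ∧
    (∀ (μ : ℚ) (w : Wd), MM f ((x, μ) :: w) =
      ∑ i ∈ Finset.range N, (μ + tot w) ^ i * MM (g i) w) := by
  refine minj_span (fun f => ∃ (N : ℕ) (g : ℕ → T3),
    (∀ i, N ≤ i → g i = 0) ∧
    (∀ (i : ℕ) (u : List (Fin 3)), coeff f (List.replicate i 0 ++ lt3 x :: u) = coeff (g i) u) ∧
    (∀ (μ : ℚ) (w : Wd), MM f ((x, μ) :: w) =
      ∑ i ∈ Finset.range N, (μ + tot w) ^ i * MM (g i) w)) ?_ ?_ ?_ ?_ f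
  · refine ⟨0, fun _ => 0, fun _ _ => rfl, ?_, ?_⟩
    · intro i u
      rw [coeff_zero, ← word_nil, coeff_word, if_neg]
      simp
    · intro μ w
      rw [minj_MM_one]
      simp
  · rintro f f' ⟨N, g, h1, h2, h3⟩ ⟨N', g', h1', h2', h3'⟩
    refine ⟨N + N', fun i => g i + g' i, ?_, ?_, ?_⟩
    · intro i hi
      change g i + g' i = 0
      rw [h1 i (by omega), h1' i (by omega), add_zero]
    · intro i u
      rw [coeff_add, coeff_add, h2, h2']
    · intro μ w
      rw [minj_MM_add, h3, h3']
      have e1 : ∑ i ∈ Finset.range N, (μ + tot w) ^ i * MM (g i) w =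
          ∑ i ∈ Finset.range (N + N'), (μ + tot w) ^ i * MM (g i) w := by
        refine Finset.sum_subset (Finset.range_mono (by omega)) ?_
        intro i _ hi
        rw [h1 i (by simpa using hi), minj_MM_zero, mul_zero]
      have e2 : ∑ i ∈ Finset.range N', (μ + tot w) ^ i * MM (g' i) w =
          ∑ i ∈ Finset.range (N + N'), (μ + tot w) ^ i * MM (g' i) w := by
        refine Finset.sum_subset (Finset.range_mono (by omega)) ?_
        intro i _ hi
        rw [h1' i (by simpa using hi), minj_MM_zero, mul_zero]
      rw [e1, e2, ← Finset.sum_add_distrib]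
      refine Finset.sum_congr rfl fun i _ => ?_
      rw [minj_MM_add]
      ring
  · rintro r f ⟨N, g, h1, h2, h3⟩
    refine ⟨N, fun i => r • g i, ?_, ?_, ?_⟩
    · intro i hi
      change r • g i = 0
      rw [h1 i hi, smul_zero]
    · intro i u
      rw [coeff_smul, coeff_smul, h2]
    · intro μ w
      rw [minj_MM_smul, h3, Finset.mul_sum]
      refine Finset.sum_congr rfl fun i _ => ?_
      rw [minj_MM_smul]
      ring
  · rintro y f ⟨N, g, h1, h2, h3⟩
    have hy : y = 0 ∨ ∃ z : Bool, y = lt3 z := by
      fin_cases y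
      · exact Or.inl rfl
      · exact Or.inr ⟨false, rfl⟩
      · exact Or.inr ⟨true, rfl⟩
    rcases hy with rfl | ⟨z, rfl⟩
    · obtain ⟨g', hg0, hg1⟩ : ∃ g' : ℕ → T3, g' 0 = 0 ∧ ∀ i, g' (i + 1) = g i :=
        ⟨fun i => Nat.casesOn i 0 g, rfl, fun _ => rfl⟩
      refine ⟨N + 1, g', ?_, ?_, ?_⟩
      · intro i hi
        obtain ⟨i, rfl⟩ : ∃ j, i = j + 1 := ⟨i - 1, by omega⟩
        rw [hg1, h1 i (by omega)]
      · intro i u
        cases i with
        | zero =>
          rw [List.replicate_zero, List.nil_append, coeff_iota_mul_cons, if_neg, hg0,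
            coeff_zero]
          cases x <;> decide
        | succ i =>
          rw [List.replicate_succ, List.cons_append, coeff_iota_mul_cons, if_pos rfl, hg1, h2]
      · intro μ w
        rw [minj_MM_a, h3, Finset.sum_range_succ', Finset.mul_sum]
        have ht : tot ((x, μ) :: w) = μ + tot w := by simp [tot]
        rw [hg0, minj_MM_zero, mul_zero, add_zero, ht]
        refine Finset.sum_congr rfl fun i _ => ?_
        rw [hg1]
        ring
    · by_cases hzx : z = x
      · subst hzx
        obtain ⟨g', hg0, hg1⟩ : ∃ g' : ℕ → T3, g' 0 = f ∧ ∀ i, g' (i + 1) = 0 :=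
          ⟨fun i => Nat.casesOn i f (fun _ => 0), rfl, fun _ => rfl⟩
        refine ⟨1, g', ?_, ?_, ?_⟩
        · intro i hi
          obtain ⟨i, rfl⟩ : ∃ j, i = j + 1 := ⟨i - 1, by omega⟩
          rw [hg1]
        · intro i u
          cases i with
          | zero =>
            rw [List.replicate_zero, List.nil_append, coeff_iota_mul_cons, if_pos rfl, hg0]
          | succ i =>
            rw [List.replicate_succ, List.cons_append, coeff_iota_mul_cons, if_neg, hg1,
              coeff_zero]
            cases z <;> decide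
        · intro μ w
          rw [minj_MM_x]
          simp [fstL, hg0]
      · refine ⟨0, fun _ => 0, fun _ _ => rfl, ?_, ?_⟩
        · intro i u
          cases i with
          | zero =>
            rw [List.replicate_zero, List.nil_append, coeff_iota_mul_cons, if_neg, coeff_zero]
            intro h
            apply hzx
            cases z <;> cases x <;> first | rfl | (exact absurd h (by decide))
          | succ i =>
            rw [List.replicate_succ, List.cons_append, coeff_iota_mul_cons, if_neg, coeff_zero]
            cases z <;> decide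
        · intro μ w
          rw [minj_MM_x]
          have : ¬ x = z := fun h => hzx h.symm
          simp [fstL, this]

/-- a polynomial with the given values -/
theorem minj_poly (N : ℕ) (c : ℕ → ℚ) (h : ∀ T : ℚ, ∑ i ∈ Finset.range N, T ^ i * c i = 0) :
    ∀ i < N, c i = 0 := by
  intro j hj
  have hp : (∑ i ∈ Finset.range N, Polynomial.C (c i) * Polynomial.X ^ i : Polynomial ℚ) = 0 := by
    apply Polynomial.funext
    intro T
    rw [Polynomial.eval_finsetSum, Polynomial.eval_zero, ← h T]
    refine Finset.sum_congr rfl fun i _ => ?_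
    rw [Polynomial.eval_mul, Polynomial.eval_C, Polynomial.eval_pow, Polynomial.eval_X]
    ring
  have hc := congrArg (fun p => Polynomial.coeff p j) hp
  simp only [Polynomial.finsetSum_coeff, Polynomial.coeff_C_mul_X_pow, Polynomial.coeff_zero]
    at hc
  rw [Finset.sum_eq_single j] at hc
  · simpa using hc
  · intro i _ hij
    rw [if_neg]
    exact fun h => hij h.symm
  · intro hjn
    exact absurd (Finset.mem_range.mpr hj) hjn

theorem minj_MM_nil (f : T3) : MM f [] = coeff f [] := by
  refine minj_span (fun f => MM f [] = coeff f []) ?_ ?_ ?_ ?_ f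
  · rw [minj_MM_one, ← word_nil, coeff_word]
    simp
  · intro f g hf hg
    rw [minj_MM_add, coeff_add, hf, hg]
  · intro r f hf
    rw [minj_MM_smul, coeff_smul, hf]
  · intro i f _
    rw [coeff_iota_mul_nil]
    have hy : i = 0 ∨ ∃ z : Bool, i = lt3 z := by
      fin_cases i
      · exact Or.inl rfl
      · exact Or.inr ⟨false, rfl⟩
      · exact Or.inr ⟨true, rfl⟩
    rcases hy with rfl | ⟨z, rfl⟩
    · rw [minj_MM_a]
      simp [tot]
    · rw [minj_MM_x]
      rfl

/-- if `MM f` vanishes on words of length `k`, then the coefficients of `f` at the words with `k`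
letters `b`, `c` that do not end with `a` vanish -/
theorem minj_van : ∀ (k : ℕ) (f : T3), (∀ w : Wd, w.length = k → MM f w = 0) →
    (k = 0 → coeff f [] = 0) ∧
    ∀ (v : List (Fin 3)) (x : Bool), nbc (v ++ [lt3 x]) = k → coeff f (v ++ [lt3 x]) = 0 := by
  intro k
  induction k with
  | zero =>
    intro f hf
    refine ⟨fun _ => ?_, ?_⟩
    · rw [← minj_MM_nil]
      exact hf [] rfl
    · intro v x h
      exfalso
      rw [minj_nbc_append] at h
      have : nbc [lt3 x] = 1 := by cases x <;> rfl
      omega
  | succ k ih =>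
    intro f hf
    refine ⟨fun h => by omega, ?_⟩
    intro v x h
    -- the first letter `b`, `c` of the word
    have key : ∀ (i : ℕ) (y : Bool) (t : List (Fin 3)),
        v ++ [lt3 x] = List.replicate i 0 ++ lt3 y :: t → coeff f (v ++ [lt3 x]) = 0 := by
      intro i y t e
      obtain ⟨N, g, h1, h2, h3⟩ := minj_dec y f
      rw [e, h2]
      by_cases hi : N ≤ i
      · rw [h1 i hi, coeff_zero]
      push Not at hi
      have hg : ∀ w : Wd, w.length = k → MM (g i) w = 0 := by
        intro w hw
        refine minj_poly N (fun i => MM (g i) w) ?_ i hi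
        intro T
        have := h3 (T - tot w) w
        rw [hf _ (by simp [hw]), sub_add_cancel] at this
        exact this.symm
      obtain ⟨j1, j2⟩ := ih (g i) hg
      rw [e, minj_nbc_append, minj_nbc_rep] at h
      have hy : nbc (lt3 y :: t) = 1 + nbc t := by
        have := minj_nbc_append [lt3 y] t
        have h' : nbc [lt3 y] = 1 := by cases y <;> rfl
        rw [h'] at this
        exact this
      rw [hy] at h
      -- `t` is empty or ends with `lt3 x`
      rcases List.eq_nil_or_concat t with rfl | ⟨t', z, rfl⟩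
      · have : nbc ([] : List (Fin 3)) = 0 := rfl
        exact j1 (by omega)
      · have ez : z = lt3 x := by
          have e' : v ++ [lt3 x] = (List.replicate i 0 ++ lt3 y :: t') ++ [z] := by
            rw [e, List.concat_eq_append]
            simp
          have := List.append_inj_right' e' rfl
          simpa using this.symm
        subst ez
        rw [List.concat_eq_append] at h ⊢
        exact j2 t' x (by omega)
    rcases minj_head (v ++ [lt3 x]) with ⟨j, e⟩ | ⟨i, y, t, e⟩
    · exfalso
      have := minj_nbc_rep j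
      rw [← e] at this
      omega
    · exact key i y t e

theorem p_minj (h1 : S_clie) (h2 : S_mov) : S_minj := by
  intro f k hf h0 hM u hu
  obtain ⟨c1, c2⟩ := h1 (Fin 3) f hf
  obtain ⟨m1, -, -⟩ := h2 (Fin 3) (coeff f) c2
  obtain ⟨-, hv⟩ := minj_van k f hM
  rcases minj_last u with ⟨j, rfl⟩ | ⟨j, x, v, rfl⟩
  · -- powers of `a`
    rcases j with _ | _ | j
    · exact c1
    · exact h0
    · have h := c2 [0] (List.replicate (j + 1) 0) (by simp) (by simp)
      have hs : ∀ t ∈ shuffle [0] (List.replicate (j + 1) (0 : Fin 3)),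
          coeff f t = coeff f (List.replicate (j + 1 + 1) 0) := by
        intro t ht
        have hp := minj_perm _ _ _ ht
        have : [0] ++ List.replicate (j + 1) (0 : Fin 3) = List.replicate (j + 1 + 1) 0 := rfl
        rw [this] at hp
        rw [List.perm_replicate.mp hp]
      rw [List.map_congr_left hs, List.map_const', List.sum_replicate, nsmul_eq_mul] at h
      rcases mul_eq_zero.mp h with h | h
      · exfalso
        have h' : (shuffle [0] (List.replicate (j + 1) (0 : Fin 3))).length = 0 := by
          exact_mod_cast h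
        exact minj_shuffle_ne _ _ (List.length_eq_zero_iff.mp h')
      · exact h
  · rw [m1, List.sum_eq_zero, mul_zero]
    intro r hr
    obtain ⟨t, ht, rfl⟩ := List.mem_map.mp hr
    apply hv
    rw [List.reverse_replicate] at ht
    have hp := minj_nbc_perm (minj_perm _ _ _ ht)
    rw [minj_nbc_append, hp, ← hu, minj_nbc_append, minj_nbc_rep]
    have e : nbc (v ++ lt3 x :: List.replicate j 0) = nbc v + (nbc [lt3 x] + nbc (List.replicate j 0)) := by
      rw [← minj_nbc_append, ← minj_nbc_append]
      rfl
    rw [e, minj_nbc_rep]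
    ring

end Pent
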