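import Pool.Agent.Lib.MP_a57f33_nt.PN.Stm1
import Pool.Agent.Lib.MP_a57f33_nt.CycLie

/-!
# Pentagon project (MP_a57f33_nt), Half I: momentum functions of Lie elements

Every Lie element `f` acts as `r • mTot + conv M ·` with `M` primitive and `r` the coefficient of
the letter `a`.
-/

namespace Pent

open Pool.Agent.MP_a57f33_nt
open Pool.Agent.MP_a57f33_nt.Cyc (shuffle sh cut cut_add cut_mul cut_congr cut_zero cut_snoc
  sh_add sh_mul sh_length IsPrim)

attribute [local instance 100] LieRing.ofAssociativeRing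

theorem mlie_induction {I : Type} {P : FreeAlgebra ℚ I → Prop}
    (hι : ∀ b, P (FreeAlgebra.ι ℚ b)) (h0 : P 0)
    (hadd : ∀ x y, P x → P y → P (x + y)) (hsmul : ∀ (r : ℚ) x, P x → P (r • x))
    (hlie : ∀ x y, P x → P y → P (x * y - y * x)) {ψ : FreeAlgebra ℚ I}
    (h : ψ ∈ LieT I) : P ψ := by
  unfold LieT at h
  have h' : ψ ∈ LieSubalgebra.lieSpan ℚ (FreeAlgebra ℚ I) (Set.range (FreeAlgebra.ι ℚ)) := h
  induction h' using LieSubalgebra.lieSpan_induction with
  | mem x hx =>
    obtain ⟨b, rfl⟩ := hx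
    exact hι b
  | zero => exact h0
  | add x y h1 h2 hx hy => exact hadd x y (hx h1) (hy h2)
  | smul r x h1 hx => exact hsmul r x (hx h1)
  | lie x y h1 h2 hx hy => exact hlie x y (hx h1) (hy h2)

theorem mlie_tot_cons (y : Bool × ℚ) (w : Wd) : tot (y :: w) = y.2 + tot w := by
  simp [tot]

theorem mlie_tot_append (u v : Wd) : tot (u ++ v) = tot u + tot v := by
  simp [tot]

/-- multiplication by `c + tot` and shuffles -/
theorem mlie_sh_tot (n : ℕ) : ∀ u v : Wd, u.length + v.length = n → ∀ (c : ℚ) (f : Wd → ℚ),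
    sh u v (fun t => (c + tot t) * f t) = (c + tot u + tot v) * sh u v f := by
  induction n using Nat.strong_induction_on with
  | _ n ih =>
    intro u v hn c f
    cases u with
    | nil => rw [Cyc.sh_nil_left, Cyc.sh_nil_left]; simp [tot]
    | cons a u =>
      cases v with
      | nil => rw [Cyc.sh_nil_right, Cyc.sh_nil_right]; simp [tot]
      | cons b v =>
        rw [Cyc.sh_cons_cons, Cyc.sh_cons_cons]
        have h1 := ih (u.length + (b :: v).length) (by simp at hn ⊢; omega) u (b :: v) rfl
          (c + a.2) (fun t => f (a :: t))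
        have h2 := ih ((a :: u).length + v.length) (by simp at hn ⊢; omega) (a :: u) v rfl
          (c + b.2) (fun t => f (b :: t))
        have e1 : (fun t => (c + tot (a :: t)) * f (a :: t)) =
            fun t => (c + a.2 + tot t) * f (a :: t) := by
          funext t; rw [mlie_tot_cons]; ring
        have e2 : (fun t => (c + tot (b :: t)) * f (b :: t)) =
            fun t => (c + b.2 + tot t) * f (b :: t) := by
          funext t; rw [mlie_tot_cons]; ring
        rw [e1, e2, h1, h2, mlie_tot_cons, mlie_tot_cons]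
        ring

/-- the indicator of the words with one letter, of type `x` -/
def mlieE (x : Bool) (w : Wd) : ℚ := fstL x (fun t => if t = [] then 1 else 0) w

theorem mlieE_nil (x : Bool) : mlieE x [] = 0 := rfl

theorem mlieE_cons (x : Bool) (y : Bool × ℚ) (w : Wd) :
    mlieE x (y :: w) = if y.1 = x then (if w = [] then 1 else 0) else 0 := rfl

theorem mlieE_prim (x : Bool) : IsPrim (mlieE x) := by
  refine ⟨rfl, fun u v hu hv => ?_⟩
  rw [sh_length _ u v rfl _ (fun t => 0 * (0 : ℚ)) ?_, sh_mul]
  · ring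
  · intro t ht
    have h1 := List.length_pos_iff.mpr hu
    have h2 := List.length_pos_iff.mpr hv
    match t with
    | [] => rw [mlieE_nil]; ring
    | [_] => simp at ht; omega
    | y :: z :: w => rw [mlieE_cons]; simp

theorem mlieE_conv (x : Bool) (G : Wd → ℚ) (w : Wd) :
    Cyc.conv (mlieE x) G w = fstL x G w := by
  cases w with
  | nil => simp [Cyc.conv, cut, mlieE_nil, fstL]
  | cons y w =>
    have h1 : Cyc.conv (mlieE x) G (y :: w) =
        mlieE x [] * G (y :: w) + cut w (fun p q => mlieE x (y :: p) * G q) := rfl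
    rw [h1, mlieE_nil]
    cases w with
    | nil =>
      simp [cut, mlieE_cons, fstL]
    | cons z w =>
      have h2 : cut (z :: w) (fun p q => mlieE x (y :: p) * G q) =
          mlieE x [y] * G (z :: w) + cut w (fun p q => mlieE x (y :: z :: p) * G q) := rfl
      have h3 : cut w (fun p q => mlieE x (y :: z :: p) * G q) = cut w (fun _ _ => 0) := by
        apply cut_congr
        intro p q _
        rw [mlieE_cons]; simp
      rw [h2, h3, cut_zero, mlieE_cons]
      simp [fstL]

theorem mlie_conv_E (x : Bool) (M : Wd → ℚ) (w : Wd) :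
    Cyc.conv M (mlieE x) w = lstL x M w := by
  rcases List.eq_nil_or_concat w with rfl | ⟨w, z, rfl⟩
  · simp [Cyc.conv, cut, mlieE_nil, lstL, fstL]
  · rw [List.concat_eq_append, Cyc.conv, cut_snoc, mlieE_nil]
    have h4 : lstL x M (w ++ [z]) = if z.1 = x then M w else 0 := by
      unfold lstL
      rw [List.reverse_append, List.reverse_singleton, List.singleton_append]
      simp [fstL]
    rw [h4]
    rcases List.eq_nil_or_concat w with rfl | ⟨w, y, rfl⟩
    · simp [cut, mlieE_cons]
    · rw [List.concat_eq_append, cut_snoc]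
      have h3 : cut w (fun p q => M p * mlieE x (q ++ [y] ++ [z])) = cut w (fun _ _ => 0) := by
        apply cut_congr
        intro p q _
        have : mlieE x (q ++ [y] ++ [z]) = 0 := by
          cases q with
          | nil => simp [mlieE_cons]
          | cons a q => simp [mlieE_cons]
        rw [this]; ring
      rw [h3, cut_zero]
      simp [mlieE_cons]

/-- `f` acts as `r • mTot + conv M ·` with `M` primitive -/
def MlieQ (f : T3) : Prop :=
  ∃ M : Wd → ℚ, IsPrim M ∧ ∀ (G : Wd → ℚ) (w : Wd),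
    actM f G w = coeff f [0] * (tot w * G w) + Cyc.conv M G w

theorem mlie_conv_zero (G : Wd → ℚ) (w : Wd) : Cyc.conv (fun _ => (0 : ℚ)) G w = 0 := by
  have := congrFun (Cyc.conv_mul_left (0 : ℚ) (fun _ => (0 : ℚ)) G) w
  simpa using this

theorem mlie_prim_zero : IsPrim (fun _ : Wd => (0 : ℚ)) := by
  refine ⟨rfl, fun u v _ _ => ?_⟩
  have := sh_mul u v (0 : ℚ) (fun _ : Wd => (0 : ℚ))
  simpa using this

/-- `tot` is a derivation of the convolution -/
theorem mlie_tot_conv (M G : Wd → ℚ) (w : Wd) :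
    tot w * Cyc.conv M G w =
      Cyc.conv (fun t => tot t * M t) G w + Cyc.conv M (fun t => tot t * G t) w := by
  unfold Cyc.conv
  rw [← cut_mul, ← cut_add]
  apply cut_congr
  intro p q hpq
  rw [← hpq, mlie_tot_append]
  ring

theorem mlie_prim_tot {M : Wd → ℚ} (h : IsPrim M) : IsPrim (fun t => tot t * M t) := by
  refine ⟨by simp only [h.1]; ring, fun u v hu hv => ?_⟩
  have := mlie_sh_tot _ u v rfl 0 M
  simp only [zero_add] at this
  rw [this, h.2 u v hu hv]; ring

theorem mlie_prim_add {M N : Wd → ℚ} (h : IsPrim M) (h' : IsPrim N) :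
    IsPrim (fun t => M t + N t) := by
  refine ⟨by simp only [h.1, h'.1]; ring, fun u v hu hv => ?_⟩
  rw [sh_add _ u v rfl, h.2 u v hu hv, h'.2 u v hu hv]; ring

theorem mlie_prim_mul {M : Wd → ℚ} (r : ℚ) (h : IsPrim M) : IsPrim (fun t => r * M t) := by
  refine ⟨by simp only [h.1]; ring, fun u v hu hv => ?_⟩
  rw [sh_mul, h.2 u v hu hv]; ring

theorem mlie_prim_comm {M N : Wd → ℚ} (h : IsPrim M) (h' : IsPrim N) :
    IsPrim (fun t => Cyc.conv M N t + (-1) * Cyc.conv N M t) := by
  refine ⟨by simp only [Cyc.conv, cut, h.1, h'.1]; ring, fun u v hu hv => ?_⟩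
  have e1 := sh_add _ u v rfl (Cyc.conv M N) (fun t => (-1) * Cyc.conv N M t)
  rw [e1, sh_mul, h.sh_conv h' hu hv, h'.sh_conv h hu hv]
  ring

theorem mlie_act_mul (f g : T3) (G : Wd → ℚ) (w : Wd) :
    actM (f * g) G w = actM f (actM g G) w := by
  rw [map_mul]; rfl

theorem mlie_Q {f : T3} (h : f ∈ LieT (Fin 3)) : MlieQ f := by
  refine mlie_induction (P := MlieQ) ?_ ?_ ?_ ?_ ?_ h
  · intro i
    fin_cases i
    · refine ⟨fun _ => 0, mlie_prim_zero, fun G w => ?_⟩
      rw [mlie_conv_zero, coeff_iota]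
      simp [actM, mTot]
    · refine ⟨mlieE false, mlieE_prim _, fun G w => ?_⟩
      rw [mlieE_conv, coeff_iota]
      simp [actM, mFst]
    · refine ⟨mlieE true, mlieE_prim _, fun G w => ?_⟩
      rw [mlieE_conv, coeff_iota]
      simp [actM, mFst]
  · refine ⟨fun _ => 0, mlie_prim_zero, fun G w => ?_⟩
    rw [mlie_conv_zero, coeff_zero]
    simp
  · rintro x y ⟨M, hM, h1⟩ ⟨N, hN, h2⟩
    refine ⟨fun t => M t + N t, mlie_prim_add hM hN, fun G w => ?_⟩
    have e := congrFun (Cyc.conv_add_left M N G) w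
    rw [e, coeff_add, map_add, LinearMap.add_apply, Pi.add_apply, h1, h2]
    ring
  · rintro r x ⟨M, hM, h1⟩
    refine ⟨fun t => r * M t, mlie_prim_mul r hM, fun G w => ?_⟩
    have e := congrFun (Cyc.conv_mul_left r M G) w
    rw [e, coeff_smul, map_smul, LinearMap.smul_apply, Pi.smul_apply, smul_eq_mul, h1]
    ring
  · rintro x y ⟨M, hM, h1⟩ ⟨N, hN, h2⟩
    refine ⟨fun t => (coeff x [0] * (tot t * N t) + (-coeff y [0]) * (tot t * M t)) +
      (Cyc.conv M N t + (-1) * Cyc.conv N M t),
      mlie_prim_add (mlie_prim_add (mlie_prim_mul _ (mlie_prim_tot hN))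
        (mlie_prim_mul _ (mlie_prim_tot hM))) (mlie_prim_comm hM hN), fun G w => ?_⟩
    have hc : coeff (x * y - y * x) [(0 : Fin 3)] = 0 := by
      rw [coeff_sub, coeff_mul, coeff_mul]
      simp only [conv]
      ring
    rw [hc, map_sub, LinearMap.sub_apply, Pi.sub_apply, mlie_act_mul, mlie_act_mul]
    have ey : actM y G = fun t => coeff y [0] * (tot t * G t) + Cyc.conv N G t := by
      funext t; exact h2 G t
    have ex : actM x G = fun t => coeff x [0] * (tot t * G t) + Cyc.conv M G t := by
      funext t; exact h1 G t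
    rw [ey, ex, h1, h2]
    have a1 := congrFun (Cyc.conv_add_right M (fun t => coeff y [0] * (tot t * G t))
      (Cyc.conv N G)) w
    have a2 := congrFun (Cyc.conv_mul_right (coeff y [0]) M (fun t => tot t * G t)) w
    have b1 := congrFun (Cyc.conv_add_right N (fun t => coeff x [0] * (tot t * G t))
      (Cyc.conv M G)) w
    have b2 := congrFun (Cyc.conv_mul_right (coeff x [0]) N (fun t => tot t * G t)) w
    have c1 := congrFun (Cyc.conv_add_left
      (fun t => coeff x [0] * (tot t * N t) + (-coeff y [0]) * (tot t * M t))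
      (fun t => Cyc.conv M N t + (-1) * Cyc.conv N M t) G) w
    have c2 := congrFun (Cyc.conv_add_left (fun t => coeff x [0] * (tot t * N t))
      (fun t => (-coeff y [0]) * (tot t * M t)) G) w
    have c3 := congrFun (Cyc.conv_mul_left (coeff x [0]) (fun t => tot t * N t) G) w
    have c4 := congrFun (Cyc.conv_mul_left (-coeff y [0]) (fun t => tot t * M t) G) w
    have c5 := congrFun (Cyc.conv_add_left (Cyc.conv M N) (fun t => (-1) * Cyc.conv N M t) G) w
    have c6 := congrFun (Cyc.conv_mul_left (-1) (Cyc.conv N M) G) w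
    have c7 := congrFun (Cyc.conv_assoc M N G) w
    have c8 := congrFun (Cyc.conv_assoc N M G) w
    have d1 := mlie_tot_conv M G w
    have d2 := mlie_tot_conv N G w
    rw [a1, a2, b1, b2, c1, c2, c3, c4, c5, c6, c7, c8]
    linear_combination (coeff x [0]) * d2 - (coeff y [0]) * d1

theorem mlie_MM_mul (f g : T3) (w : Wd) :
    MM (f * g) w = actM f (MM g) w := by
  unfold MM
  exact mlie_act_mul f g _ w

theorem p_mlie : S_mlie := by
  intro f hf h0
  obtain ⟨M, hM, hQ⟩ := mlie_Q hf
  have hact : ∀ (G : Wd → ℚ) (w : Wd), actM f G w = Cyc.conv M G w := by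
    intro G w
    rw [hQ, h0]; ring
  have hMM : MM f = M := by
    funext w
    unfold MM
    rw [hact]
    exact congrFun (Cyc.conv_ee_right M) w
  have hx : ∀ (x : Bool) (w : Wd),
      MM (FreeAlgebra.ι ℚ (if x then 2 else 1) * f
        - f * FreeAlgebra.ι ℚ (if x then 2 else 1)) w = brk x (MM f) w := by
    intro x w
    have e0 : ∀ G : Wd → ℚ, actM (FreeAlgebra.ι ℚ (if x then 2 else 1)) G = fstL x G := by
      intro G
      cases x <;> simp [actM, mFst]
    have e1 : MM (FreeAlgebra.ι ℚ (if x then 2 else 1) * f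
        - f * FreeAlgebra.ι ℚ (if x then 2 else 1)) w =
        MM (FreeAlgebra.ι ℚ (if x then 2 else 1) * f) w
        - MM (f * FreeAlgebra.ι ℚ (if x then 2 else 1)) w := by
      unfold MM
      rw [map_sub, LinearMap.sub_apply, Pi.sub_apply]
    rw [e1, mlie_MM_mul, mlie_MM_mul, e0, hact]
    have e2 : MM (FreeAlgebra.ι ℚ (if x then 2 else 1)) = mlieE x := by
      funext t
      unfold MM
      rw [e0]
      rfl
    rw [e2, mlie_conv_E, hMM]
    rfl
  refine ⟨?_, ?_, fun w => hx false w, fun w => hx true w⟩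
  · intro u v hu hv
    rw [hMM]
    exact hM.2 u v hu hv
  · rw [hMM]; exact hM.1

end Pent
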