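import Pool.Agent.Lib.MP_a57f33_nt.PN.Stm1
import Pool.Agent.Lib.MP_a57f33_nt.CycWords

/-!
# Pentagon project (MP_a57f33_nt), Half I: basic Lie identities for functions on words
-/

namespace Pent

open Pool.Agent.MP_a57f33_nt.Cyc (shuffle sh sh_nil_left sh_nil_right sh_cons_cons)

theorem mov_snoc {α : Type} (x y : α) : ∀ (u v : List α) (f : List α → ℚ),
    sh (u ++ [x]) (v ++ [y]) f =
      sh u (v ++ [y]) (fun t => f (t ++ [x])) + sh (u ++ [x]) v (fun t => f (t ++ [y]))
  | [], [], f => by
      simp only [List.nil_append, sh_cons_cons, sh_nil_left, sh_nil_right, List.cons_append]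
      ring
  | [], b :: v, f => by
      have := mov_snoc x y [] v (fun t => f (b :: t))
      simp only [List.nil_append, List.cons_append, sh_cons_cons, sh_nil_left] at this ⊢
      rw [this]
      ring
  | a :: u, [], f => by
      have := mov_snoc x y u [] (fun t => f (a :: t))
      simp only [List.nil_append, List.cons_append, sh_cons_cons, sh_nil_right] at this ⊢
      rw [this]
      ring
  | a :: u, b :: v, f => by
      have h1 := mov_snoc x y u (b :: v) (fun t => f (a :: t))
      have h2 := mov_snoc x y (a :: u) v (fun t => f (b :: t))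
      simp only [List.cons_append, sh_cons_cons] at h1 h2 ⊢
      rw [h1, h2]
      ring
termination_by u v => u.length + v.length

theorem mov_lie {α : Type} (f : List α → ℚ)
    (hf : ∀ u v : List α, u ≠ [] → v ≠ [] → ((shuffle u v).map f).sum = 0) (B : List α) :
    ∀ (A : List α) (x : α),
      f (A ++ x :: B) = (-1) ^ B.length * sh A B.reverse (fun t => f (t ++ [x])) := by
  induction B with
  | nil => intro A x; simp [sh_nil_right]
  | cons b B ih =>
    intro A x
    have h1 := ih (A ++ [x]) b
    have h2 := mov_snoc x b A B.reverse f
    have h3 : sh (A ++ [x]) (B.reverse ++ [b]) f = 0 :=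
      hf (A ++ [x]) (B.reverse ++ [b]) (by simp) (by simp)
    rw [h3] at h2
    have h4 : A ++ x :: b :: B = A ++ [x] ++ b :: B := by simp
    rw [h4, h1, List.reverse_cons, List.length_cons, pow_succ]
    linear_combination (-1) ^ B.length * (-h2)

theorem mov_lie' {α : Type} (f : List α → ℚ)
    (hf : ∀ u v : List α, u ≠ [] → v ≠ [] → ((shuffle u v).map f).sum = 0) (A : List α) :
    ∀ (B : List α) (x : α),
      f (A ++ x :: B) = (-1) ^ A.length * sh A.reverse B (fun t => f (x :: t)) := by
  induction A using List.reverseRecOn with
  | nil => intro B x; simp [sh_nil_left]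
  | append_singleton A a ih =>
    intro B x
    have h1 := ih (x :: B) a
    have h2 := sh_cons_cons a x A.reverse B f
    have h3 : sh (a :: A.reverse) (x :: B) f = 0 :=
      hf (a :: A.reverse) (x :: B) (by simp) (by simp)
    rw [h3] at h2
    have h4 : A ++ [a] ++ x :: B = A ++ a :: x :: B := by simp
    rw [h4, h1, List.reverse_append, List.length_append, pow_add]
    simp only [List.reverse_cons, List.reverse_nil, List.nil_append, List.cons_append,
      List.length_cons, List.length_nil, zero_add, pow_one]
    linear_combination (-1) ^ A.length * (-h2)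

theorem p_mov : S_mov := by
  intro α g hg
  refine ⟨fun A B x => mov_lie g hg B A x, fun A B x => mov_lie' g hg A B x, ?_⟩
  intro w hw
  cases w with
  | nil => exact absurd rfl hw
  | cons x B =>
    have h := mov_lie g hg B [] x
    rw [sh_nil_left, List.nil_append] at h
    have h1 : ((-1 : ℚ) ^ B.length) * (-1) ^ B.length = 1 := by
      rw [← mul_pow]; simp
    rw [h, List.reverse_cons, List.length_cons, pow_add, pow_add, pow_one]
    linear_combination (-g (B.reverse ++ [x])) * h1

end Pent
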