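import Pool.Agent.Lib.MP_a57f33_nt.PN.Stm1

/-!
# Pentagon project (MP_a57f33_nt), piece mwrd: momentum functions on words
-/

namespace Pent

open Pool.Agent.MP_a57f33_nt

noncomputable section

/-- the function of the element `1` -/
def mwrd_one : Wd → ℚ := fun w => if w = [] then 1 else 0

/-- the momentum function as a linear map -/
def mwrd_L : T3 →ₗ[ℚ] (Wd → ℚ) := (LinearMap.applyₗ mwrd_one) ∘ₗ actM.toLinearMap

theorem mwrd_fst_cons (x : Bool) (G : Wd → ℚ) (y : Bool × ℚ) (w : Wd) :
    fstL x G (y :: w) = if y.1 = x then G w else 0 := rfl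

theorem mwrd_L_apply (f : T3) : mwrd_L f = MM f := rfl

theorem mwrd_MM_one : MM 1 = mwrd_one := by
  unfold MM
  rw [map_one]
  rfl

theorem mwrd_xa (f : T3) (w : Wd) : MM (xa * f) w = tot w * MM f w := by
  unfold MM
  rw [map_mul]
  have h : actM xa = mTot := by
    unfold actM xa
    rw [FreeAlgebra.lift_ι_apply]
    rfl
  rw [h]
  rfl

theorem mwrd_xb (f : T3) (w : Wd) : MM (xb * f) w = fstL false (MM f) w := by
  unfold MM
  rw [map_mul]
  have h : actM xb = mFst false := by
    unfold actM xb
    rw [FreeAlgebra.lift_ι_apply]
    rfl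
  rw [h]
  rfl

theorem mwrd_xc (f : T3) (w : Wd) : MM (xc * f) w = fstL true (MM f) w := by
  unfold MM
  rw [map_mul]
  have h : actM xc = mFst true := by
    unfold actM xc
    rw [FreeAlgebra.lift_ι_apply]
    rfl
  rw [h]
  rfl

theorem mwrd_mul_xa (f : T3) (w : Wd) : MM (f * xa) w = 0 := by
  unfold MM
  rw [map_mul]
  have h : actM xa = mTot := by
    unfold actM xa
    rw [FreeAlgebra.lift_ι_apply]
    rfl
  rw [h]
  have h2 : mTot (fun w : Wd => if w = [] then (1 : ℚ) else 0) = 0 := by
    funext w
    change tot w * (if w = [] then (1 : ℚ) else 0) = 0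
    by_cases hw : w = []
    · subst hw
      simp [tot]
    · simp [hw]
  change (actM f * mTot) (fun w : Wd => if w = [] then (1 : ℚ) else 0) w = 0
  rw [Module.End.mul_apply, h2, map_zero]
  rfl

theorem mwrd_lt3_ne (x : Bool) : lt3 x ≠ 0 := by
  cases x <;> decide

theorem mwrd_word_zero (u : List (Fin 3)) : ∀ w : Wd, (∀ y ∈ w, y.2 = 0) →
    MM (word u) w = coeff (word u) (w.map fun y => lt3 y.1) := by
  induction u with
  | nil =>
    intro w _
    rw [word_nil, mwrd_MM_one, ← word_nil, coeff_word]
    unfold mwrd_one
    cases w with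
    | nil => simp
    | cons y w => simp
  | cons i u ih =>
    intro w hw
    rw [word_cons]
    have htail : ∀ (y : Bool × ℚ) (w' : Wd), w = y :: w' → ∀ z ∈ w', z.2 = 0 := by
      intro y w' h z hz
      apply hw
      rw [h]
      exact List.mem_cons_of_mem _ hz
    fin_cases i
    · have h1 := mwrd_xa (word u) w
      have h2 : tot w = 0 := by
        unfold tot
        apply List.sum_eq_zero
        intro x hx
        obtain ⟨y, hy, rfl⟩ := List.mem_map.1 hx
        exact hw y hy
      rw [h2, zero_mul] at h1
      refine h1.trans ?_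
      cases w with
      | nil => exact (coeff_iota_mul_nil _ _).symm
      | cons y w =>
        rw [List.map_cons, coeff_iota_mul_cons]
        exact (if_neg (mwrd_lt3_ne y.1)).symm
    · have h1 := mwrd_xb (word u) w
      refine h1.trans ?_
      cases w with
      | nil => exact (coeff_iota_mul_nil _ _).symm
      | cons y w =>
        rw [List.map_cons, coeff_iota_mul_cons]
        rw [mwrd_fst_cons]
        rw [ih w (htail y w rfl)]
        rcases y with ⟨x, μ⟩
        cases x <;> simp [lt3]
    · have h1 := mwrd_xc (word u) w
      refine h1.trans ?_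
      cases w with
      | nil => exact (coeff_iota_mul_nil _ _).symm
      | cons y w =>
        rw [List.map_cons, coeff_iota_mul_cons]
        rw [mwrd_fst_cons]
        rw [ih w (htail y w rfl)]
        rcases y with ⟨x, μ⟩
        cases x <;> simp [lt3]

theorem mwrd_pattern (u : List (Fin 3)) : ∀ w : Wd,
    u.filter (· ≠ 0) ≠ w.map (fun y => lt3 y.1) → MM (word u) w = 0 := by
  induction u with
  | nil =>
    intro w hw
    rw [word_nil, mwrd_MM_one]
    unfold mwrd_one
    rw [if_neg]
    rintro rfl
    exact hw rfl
  | cons i u ih =>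
    intro w hw
    rw [word_cons]
    fin_cases i
    · refine (mwrd_xa (word u) w).trans ?_
      rw [ih w (fun h => hw (by simpa using h)), mul_zero]
    · refine (mwrd_xb (word u) w).trans ?_
      cases w with
      | nil => rfl
      | cons y w =>
        rw [mwrd_fst_cons]
        by_cases hy : y.1 = false
        · rw [if_pos hy]
          apply ih w
          intro h
          apply hw
          rw [List.map_cons, hy]
          simpa [lt3] using h
        · rw [if_neg hy]
    · refine (mwrd_xc (word u) w).trans ?_
      cases w with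
      | nil => rfl
      | cons y w =>
        rw [mwrd_fst_cons]
        by_cases hy : y.1 = true
        · rw [if_pos hy]
          apply ih w
          intro h
          apply hw
          rw [List.map_cons, hy]
          simpa [lt3] using h
        · rw [if_neg hy]

/-- the submodule spanned by the words is everything -/
theorem mwrd_top (S : Submodule ℚ T3) (h : ∀ u, word u ∈ S) : S = ⊤ := by
  have h1 : S.mkQ = 0 := by
    apply linear_ext
    intro w
    rw [LinearMap.zero_apply, Submodule.mkQ_apply, Submodule.Quotient.mk_eq_zero]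
    exact h w
  rw [← Submodule.ker_mkQ S, h1, LinearMap.ker_zero]

theorem mwrd_poly_tot {G : Wd → ℚ} (hG : PolyW G) : PolyW fun w => tot w * G w := by
  intro p
  obtain ⟨F, hF⟩ := hG p
  refine ⟨(∑ i ∈ Finset.range p.length, MvPolynomial.X i) * F, ?_⟩
  intro l hl
  have h1 := hF l hl
  simp only at h1 ⊢
  rw [h1, map_mul]
  congr 1
  have h2 : tot (p.zip l) = l.sum := by
    unfold tot
    congr 1
    rw [List.map_snd_zip]
    exact hl.le
  rw [h2, map_sum]
  simp only [MvPolynomial.eval_X]
  rw [← hl, ← Fin.sum_univ_eq_sum_range (fun i => l.getD i 0) l.length]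
  have h3 : ∀ i : Fin l.length, l.getD i.1 0 = l.get i := by
    intro i
    rw [List.getD_eq_getElem _ _ i.2]
    rfl
  rw [Finset.sum_congr rfl fun i _ => h3 i]
  exact (List.sum_ofFn (f := l.get)).symm.trans (by rw [List.ofFn_get]) |>.symm

theorem mwrd_poly_fst (x : Bool) {G : Wd → ℚ} (hG : PolyW G) : PolyW (fstL x G) := by
  intro p
  cases p with
  | nil =>
    refine ⟨0, ?_⟩
    intro l _
    rw [map_zero]
    rfl
  | cons b p =>
    obtain ⟨F, hF⟩ := hG p
    by_cases hb : b = x
    · refine ⟨MvPolynomial.rename Nat.succ F, ?_⟩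
      intro l hl
      cases l with
      | nil => simp at hl
      | cons m l =>
        have h1 := hF l (by simpa using hl)
        simp only at h1 ⊢
        rw [List.zip_cons_cons]
        rw [mwrd_fst_cons]
        rw [if_pos hb, h1, MvPolynomial.eval_rename]
        rfl
    · refine ⟨0, ?_⟩
      intro l hl
      cases l with
      | nil => simp at hl
      | cons m l =>
        simp only
        rw [List.zip_cons_cons]
        rw [mwrd_fst_cons]
        rw [if_neg hb, map_zero]

theorem mwrd_poly_word (u : List (Fin 3)) : PolyW (MM (word u)) := by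
  induction u with
  | nil =>
    rw [word_nil, mwrd_MM_one]
    intro p
    refine ⟨MvPolynomial.C (if p = [] then 1 else 0), ?_⟩
    intro l hl
    rw [MvPolynomial.eval_C]
    unfold mwrd_one
    cases p with
    | nil => simp
    | cons b p =>
      cases l with
      | nil => simp at hl
      | cons m l => simp
  | cons i u ih =>
    rw [word_cons]
    fin_cases i
    · have h1 : MM (FreeAlgebra.ι ℚ 0 * word u) = fun w => tot w * MM (word u) w := by
        funext w
        exact mwrd_xa (word u) w
      exact h1 ▸ mwrd_poly_tot ih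
    · have h1 : MM (FreeAlgebra.ι ℚ 1 * word u) = fstL false (MM (word u)) := by
        funext w
        exact mwrd_xb (word u) w
      exact h1 ▸ mwrd_poly_fst false ih
    · have h1 : MM (FreeAlgebra.ι ℚ 2 * word u) = fstL true (MM (word u)) := by
        funext w
        exact mwrd_xc (word u) w
      exact h1 ▸ mwrd_poly_fst true ih

theorem mwrd_polyW (f : T3) : PolyW (MM f) := by
  let S : Submodule ℚ T3 :=
    { carrier := {f | PolyW (MM f)}
      zero_mem' := by
        intro p
        refine ⟨0, ?_⟩
        intro l _
        rw [map_zero, ← mwrd_L_apply, map_zero]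
        rfl
      add_mem' := by
        intro f g hf hg p
        obtain ⟨F, hF⟩ := hf p
        obtain ⟨G, hG⟩ := hg p
        refine ⟨F + G, ?_⟩
        intro l hl
        have h1 := hF l hl
        have h2 := hG l hl
        simp only at h1 h2 ⊢
        rw [map_add, ← h1, ← h2, ← mwrd_L_apply, map_add]
        rfl
      smul_mem' := by
        intro c f hf p
        obtain ⟨F, hF⟩ := hf p
        refine ⟨MvPolynomial.C c * F, ?_⟩
        intro l hl
        have h1 := hF l hl
        simp only at h1 ⊢
        rw [map_mul, MvPolynomial.eval_C, ← h1, ← mwrd_L_apply, map_smul]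
        rfl }
  have h : S = ⊤ := mwrd_top S mwrd_poly_word
  have h1 : f ∈ S := by
    rw [h]
    exact Submodule.mem_top
  exact h1

theorem mwrd_ev2 (v : List Bool) : ∀ w : Wd,
    MM (ev2 (word v) xb xc) w = coeff (word v) (w.map fun y => y.1) := by
  induction v with
  | nil =>
    intro w
    have h1 : ev2 (word []) xb xc = 1 := by
      unfold ev2
      rw [word_nil, map_one]
    rw [h1, mwrd_MM_one, coeff_word]
    unfold mwrd_one
    cases w with
    | nil => simp
    | cons y w => simp
  | cons s v ih =>
    intro w
    have h1 : ev2 (word (s :: v)) xb xc = (if s then xc else xb) * ev2 (word v) xb xc := by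
      unfold ev2
      rw [word_cons, map_mul, FreeAlgebra.lift_ι_apply]
    rw [h1, word_cons]
    cases w with
    | nil =>
      rw [List.map_nil, coeff_iota_mul_nil]
      cases s
      · exact mwrd_xb _ _
      · exact mwrd_xc _ _
    | cons y w =>
      rw [List.map_cons, coeff_iota_mul_cons]
      cases s
      · refine (mwrd_xb _ _).trans ?_
        rw [mwrd_fst_cons]
        rw [ih]
      · refine (mwrd_xc _ _).trans ?_
        rw [mwrd_fst_cons]
        rw [ih]

theorem p_mwrd : S_mwrd := by
  refine ⟨?_, ?_, ?_, mwrd_polyW, mwrd_xa, mwrd_mul_xa, ?_, ?_⟩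
  · intro f g w
    rw [← mwrd_L_apply, map_add]
    rfl
  · intro f w
    rw [← mwrd_L_apply, map_neg]
    rfl
  · intro f w hw
    have h : (LinearMap.proj w) ∘ₗ mwrd_L = coeffL (w.map fun y => lt3 y.1) := by
      apply linear_ext
      intro u
      exact mwrd_word_zero u w hw
    exact LinearMap.congr_fun h f
  · intro f w hf
    have h1 : MM f w = ((LinearMap.proj w) ∘ₗ mwrd_L) f := rfl
    rw [h1, ← (FreeAlgebra.basisFreeMonoid ℚ (Fin 3)).linearCombination_repr f,
      Finsupp.linearCombination_apply, Finsupp.sum, map_sum]
    apply Finset.sum_eq_zero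
    intro u _
    rw [map_smul]
    have hb := basis_apply (X := Fin 3) u.toList
    rw [FreeMonoid.ofList_toList] at hb
    rw [hb]
    by_cases hu : u.toList.filter (· ≠ 0) = w.map (fun y => lt3 y.1)
    · have h2 := hf u.toList hu
      unfold coeff at h2
      rw [FreeMonoid.ofList_toList] at h2
      rw [h2, zero_smul]
    · have h2 : ((LinearMap.proj w) ∘ₗ mwrd_L) (word u.toList) = 0 := mwrd_pattern u.toList w hu
      rw [h2, smul_zero]
  · intro V w
    have h : (LinearMap.proj w) ∘ₗ mwrd_L ∘ₗ
        (FreeAlgebra.lift ℚ (fun s : Bool => if s then xc else xb)).toLinearMap =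
        coeffL (w.map fun y => y.1) := by
      apply linear_ext
      intro v
      exact mwrd_ev2 v w
    exact LinearMap.congr_fun h V

end

end Pent
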