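import Pool.Agent.Lib.MP_a57f33_nt.PN.Stm2
import Pool.Agent.Lib.MP_a57f33_nt.CycWords

/-!
# Pentagon project (MP_a57f33_nt), Half II: one slot
-/

namespace Pent

open Pool.Agent.MP_a57f33_nt.Cyc (shuffle sh sh_nil_left sh_nil_right sh_cons_cons)

theorem one_snoc {α : Type} (x y : α) : ∀ (u v : List α) (f : List α → ℚ),
    sh (u ++ [x]) (v ++ [y]) f =
      sh u (v ++ [y]) (fun t => f (t ++ [x])) + sh (u ++ [x]) v (fun t => f (t ++ [y]))
  | [], [], f => by
      simp only [List.nil_append, sh_cons_cons, sh_nil_left, sh_nil_right, List.cons_append]
      ring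
  | [], b :: v, f => by
      have := one_snoc x y [] v (fun t => f (b :: t))
      simp only [List.nil_append, List.cons_append, sh_cons_cons, sh_nil_left] at this ⊢
      rw [this]
      ring
  | a :: u, [], f => by
      have := one_snoc x y u [] (fun t => f (a :: t))
      simp only [List.nil_append, List.cons_append, sh_cons_cons, sh_nil_right] at this ⊢
      rw [this]
      ring
  | a :: u, b :: v, f => by
      have h1 := one_snoc x y u (b :: v) (fun t => f (a :: t))
      have h2 := one_snoc x y (a :: u) v (fun t => f (b :: t))
      simp only [List.cons_append, sh_cons_cons] at h1 h2 ⊢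
      rw [h1, h2]
      ring
termination_by u v => u.length + v.length

theorem one_comm {α : Type} : ∀ (u v : List α) (f : List α → ℚ), sh u v f = sh v u f
  | [], v, f => by rw [sh_nil_left, sh_nil_right]
  | a :: u, [], f => by rw [sh_nil_left, sh_nil_right]
  | a :: u, b :: v, f => by
      rw [sh_cons_cons, sh_cons_cons, one_comm u (b :: v), one_comm (a :: u) v]
      ring
termination_by u v => u.length + v.length

theorem one_lie (f : Wd → ℚ) (hf : LieFn f) (B : Wd) : ∀ (A : Wd) (x : Bool × ℚ),
    f (A ++ x :: B) = (-1) ^ B.length * sh A B.reverse (fun t => f (t ++ [x])) := by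
  induction B with
  | nil => intro A x; simp [sh_nil_right]
  | cons b B ih =>
    intro A x
    have h1 := ih (A ++ [x]) b
    have h2 := one_snoc x b A B.reverse f
    have h3 : sh (A ++ [x]) (B.reverse ++ [b]) f = 0 :=
      hf (A ++ [x]) (B.reverse ++ [b]) (by simp) (by simp)
    rw [h3] at h2
    have h4 : A ++ x :: b :: B = A ++ [x] ++ b :: B := by simp
    rw [h4, h1, List.reverse_cons, List.length_cons, pow_succ]
    linear_combination (-1) ^ B.length * (-h2)

theorem one_lie' (f : Wd → ℚ) (hf : LieFn f) (A : Wd) : ∀ (B : Wd) (x : Bool × ℚ),
    f (A ++ x :: B) = (-1) ^ A.length * sh A.reverse B (fun t => f (x :: t)) := by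
  induction A using List.reverseRecOn with
  | nil => intro B x; simp [sh_nil_left]
  | append_singleton A a ih =>
    intro B x
    have h1 := ih (x :: B) a
    have h2 := sh_cons_cons a x A.reverse B f
    have h3 : sh (a :: A.reverse) (x :: B) f = 0 :=
      hf (a :: A.reverse) (x :: B) (by simp) (by simp)
    rw [h3] at h2
    have h4 : A ++ [a] ++ x :: B = A ++ a :: x :: B := by simp
    rw [h4, h1, List.reverse_append, List.length_append, pow_add]
    simp only [List.reverse_cons, List.reverse_nil, List.nil_append, List.cons_append,
      List.length_cons, List.length_nil, zero_add, pow_one]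
    linear_combination (-1) ^ A.length * (-h2)

theorem one_perm {α : Type} : ∀ (u v w : List α), w ∈ shuffle u v → w.Perm (u ++ v)
  | [], v, w, h => by
      rw [shuffle] at h
      simp at h
      simp [h]
  | a :: u, [], w, h => by
      rw [shuffle] at h
      simp at h
      simp [h]
  | a :: u, b :: v, w, h => by
      rw [shuffle] at h
      simp only [List.mem_append, List.mem_map] at h
      rcases h with ⟨t, ht, rfl⟩ | ⟨t, ht, rfl⟩
      · exact (one_perm u (b :: v) t ht).cons a
      · have := (one_perm (a :: u) v t ht).cons b
        refine this.trans ?_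
        exact (List.perm_middle (a := b) (l₁ := a :: u) (l₂ := v)).symm
termination_by u v => u.length + v.length

theorem one_LL (f : Wd → ℚ) (u v : List ℚ) (z : ℚ) :
    LL f [(u, v ++ [z])] = sh (bw u) (cw v) (fun t => f (t ++ [(true, z)])) := by
  simp [LL, OS, ostep, sh, shuffle, cw, Function.comp_def]

theorem one_sum (F G : Wd → ℚ) (u v : Wd) (h : ∀ t ∈ shuffle u v, F t = G t) :
    sh u v F = sh u v G := by
  unfold sh
  rw [List.map_congr_left h]

theorem p_one : S_one := by
  intro m P R h g hg
  obtain ⟨u, v⟩ := g
  obtain ⟨v', z, rfl⟩ : ∃ v' z, v = v' ++ [z] := by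
    rcases List.eq_nil_or_concat v with rfl | ⟨v', z, rfl⟩
    · exact absurd rfl hg
    · exact ⟨v', z, by rw [List.concat_eq_append]⟩
  rw [one_LL, one_LL]
  constructor
  · by_cases hm : u.length + v'.length + 1 = m
    · have e1 : ∀ t ∈ shuffle (bw u) (cw v'), P (t ++ [(true, z)])
          = - R ((false, -(tot (bw u ++ cw v') + z)) :: t) := by
        intro t ht
        have hp := one_perm _ _ _ ht
        have hl : t.length = u.length + v'.length := by
          rw [hp.length_eq]
          simp [bw, cw]
        have ht : tot t = tot (bw u ++ cw v') := (hp.map _).sum_eq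
        have h1 := h.K2 ((false, -(tot (bw u ++ cw v') + z)) :: (t ++ [(true, z)])) (by
          simp only [List.length_cons, List.length_append, List.length_nil]
          omega) (by
          rw [← ht]
          simp [tot])
        have e2 : (false, -(tot (bw u ++ cw v') + z)) :: (t ++ [(true, z)])
            = ((false, -(tot (bw u ++ cw v') + z)) :: t) ++ [(true, z)] := rfl
        simp only [brk, fstL] at h1
        rw [e2] at h1
        simp only [lstL, List.reverse_append, List.reverse_cons, List.reverse_nil,
          List.nil_append, List.cons_append, fstL, List.reverse_reverse] at h1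
        simp at h1
        have e3 : -z + -tot (bw u ++ cw v') = -(tot (bw u ++ cw v') + z) := by ring
        rw [e3] at h1
        exact h1.symm
      rw [one_sum _ _ _ _ e1]
      have h2 := one_lie' R h.lieR (cw v'.reverse) (bw u) (false, -(tot (bw u ++ cw v') + z))
      have h3 : cw v'.reverse ++ (false, -(tot (bw u ++ cw v') + z)) :: bw u
          = cw v'.reverse ++ bw (-(tot (bw u ++ cw v') + z) :: u) := rfl
      rw [h3, h.cbR] at h2
      have h4 : (cw v'.reverse).reverse = cw v' := by simp [cw]
      rw [h4, one_comm] at h2
      have h5 : sh (bw u) (cw v') (fun t => R ((false, -(tot (bw u ++ cw v') + z)) :: t)) = 0 := by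
        have : (-1 : ℚ) ^ (cw v'.reverse).length ≠ 0 := by
          apply pow_ne_zero
          norm_num
        rcases mul_eq_zero.mp h2.symm with h | h
        · exact absurd h this
        · exact h
      have h6 : sh (bw u) (cw v') (fun t => - R ((false, -(tot (bw u ++ cw v') + z)) :: t))
          = - sh (bw u) (cw v') (fun t => R ((false, -(tot (bw u ++ cw v') + z)) :: t)) := by
        unfold sh
        generalize shuffle (bw u) (cw v') = l
        induction l with
        | nil => simp
        | cons a l ih =>
          simp only [List.map_cons, List.sum_cons, ih]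
          ring
      rw [h6, h5, neg_zero]
    · have e1 : ∀ t ∈ shuffle (bw u) (cw v'), P (t ++ [(true, z)]) = 0 := by
        intro t ht
        apply h.suppP
        rw [List.length_append, (one_perm _ _ _ ht).length_eq]
        simp only [bw, cw, List.length_append, List.length_map, List.length_cons,
          List.length_nil]
        omega
      rw [one_sum _ (fun _ => 0) _ _ e1]
      simp [sh]
  · have h1 := one_lie R h.lieR (bw u.reverse) (cw v') (true, z)
    have h2 : cw v' ++ (true, z) :: bw u.reverse = cw (v' ++ [z]) ++ bw u.reverse := by
      simp [cw]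
    have h3 : (bw u.reverse).reverse = bw u := by simp [bw]
    rw [h2, h.cbR, h3, one_comm] at h1
    have : (-1 : ℚ) ^ (bw u.reverse).length ≠ 0 := by
      apply pow_ne_zero
      norm_num
    rcases mul_eq_zero.mp h1.symm with h | h
    · exact absurd h this
    · exact h

end Pent
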