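import Pool.Agent.Lib.MP_a57f33_nt.PN.Stm2

/-!
# Pentagon project (MP_a57f33_nt), piece pol: polynomiality of the slot sums
-/

namespace Pent

open Pool.Agent.MP_a57f33_nt.Cyc (shuffle)

/-- shuffles commute with maps of the letters -/
theorem pol_shuffle {α β : Type} (φ : α → β) (u v : List α) :
    shuffle (u.map φ) (v.map φ) = (shuffle u v).map (List.map φ) := by
  induction u generalizing v with
  | nil =>
    simp [shuffle]
  | cons a u ihu =>
    induction v with
    | nil => simp [shuffle]
    | cons b v ihv =>
      rw [List.map_cons, List.map_cons, shuffle, shuffle, ← List.map_cons, ihu (b :: v),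
        ← List.map_cons, ihv]
      simp only [List.map_append, List.map_map]
      rfl

/-- the change of the momenta of a word -/
def pol_m {K K' : Type} (h : K → K') (w : List (Bool × K)) : List (Bool × K') :=
  w.map (Prod.map id h)

/-- the change of the momenta of a slot -/
def pol_g {K K' : Type} (h : K → K') (g : List K × List K) : List K' × List K' :=
  (g.1.map h, g.2.map h)

theorem pol_bw {K K' : Type} (h : K → K') (u : List K) : bw (u.map h) = pol_m h (bw u) := by
  unfold bw pol_m
  rw [List.map_map, List.map_map]
  rfl

theorem pol_cw {K K' : Type} (h : K → K') (u : List K) : cw (u.map h) = pol_m h (cw u) := by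
  unfold cw pol_m
  rw [List.map_map, List.map_map]
  rfl

theorem pol_sh {K K' : Type} (h : K → K') (u v : List (Bool × K)) :
    shuffle (pol_m h u) (pol_m h v) = (shuffle u v).map (pol_m h) :=
  pol_shuffle (Prod.map id h) u v

theorem pol_ostep {K K' : Type} (h : K → K') (ws : List (List (Bool × K))) (g : List K × List K) :
    ostep (ws.map (pol_m h)) (pol_g h g) = (ostep ws g).map (pol_m h) := by
  unfold ostep pol_g
  simp only
  rw [List.length_map, ← List.map_drop, ← List.map_dropLast, pol_bw, pol_cw, pol_cw,
    List.flatMap_map, List.map_flatMap]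
  apply List.flatMap_congr
  intro w _
  rw [pol_sh, List.flatMap_map, List.map_map]
  have h1 : (shuffle w (bw g.1)).flatMap (fun a => shuffle (pol_m h a) (pol_m h (cw g.2.dropLast)))
      = ((shuffle w (bw g.1)).flatMap (fun a => shuffle a (cw g.2.dropLast))).map (pol_m h) := by
    rw [List.map_flatMap]
    apply List.flatMap_congr
    intro a _
    exact pol_sh h a _
  rw [h1, List.map_map]
  apply List.map_congr_left
  intro a _
  simp only [Function.comp]
  unfold pol_m
  rw [List.map_append]

theorem pol_foldl {K K' : Type} (h : K → K') (gs : List (List K × List K)) :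
    ∀ ws : List (List (Bool × K)), (gs.map (pol_g h)).foldl ostep (ws.map (pol_m h)) =
      (gs.foldl ostep ws).map (pol_m h) := by
  induction gs with
  | nil => intro ws; rfl
  | cons g gs ih =>
    intro ws
    rw [List.map_cons, List.foldl_cons, List.foldl_cons, pol_ostep, ih]

theorem pol_OS {K K' : Type} (h : K → K') (gs : List (List K × List K)) :
    OS (gs.map (pol_g h)) = (OS gs).map (pol_m h) :=
  pol_foldl h gs [[]]

/-- the slots of a shape whose momenta are the positions -/
def pol_mk : ℕ → List (ℕ × ℕ) → List (List ℕ × List ℕ)
  | _, [] => []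
  | off, p :: sh =>
      (List.range' off p.1, List.range' (off + p.1) p.2) :: pol_mk (off + p.1 + p.2) sh

theorem pol_range (l0 u r : List ℚ) :
    (List.range' l0.length u.length).map (fun i => (l0 ++ (u ++ r)).getD i 0) = u := by
  apply List.ext_getElem
  · simp
  · intro i h1 h2
    rw [List.getElem_map, List.getElem_range']
    have h3 : l0.length + 1 * i = l0.length + i := by ring
    rw [h3, List.getD_append_right _ _ _ _ (Nat.le_add_right _ _), Nat.add_sub_cancel_left,
      List.getD_append _ _ _ _ h2, List.getD_eq_getElem _ _ h2]

theorem pol_mk_map (gs : List Sl) : ∀ (l0 : List ℚ),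
    (pol_mk l0.length (gs.map fun g => (g.1.length, g.2.length))).map
      (pol_g fun i => (l0 ++ flat gs).getD i 0) = gs := by
  induction gs with
  | nil => intro l0; rfl
  | cons g gs ih =>
    intro l0
    have hflat : flat (g :: gs) = g.1 ++ (g.2 ++ flat gs) := by
      unfold flat
      rw [List.flatMap_cons, List.append_assoc]
    rw [List.map_cons]
    unfold pol_mk
    rw [List.map_cons, hflat]
    congr 1
    · unfold pol_g
      simp only
      have h1 := pol_range l0 g.1 (g.2 ++ flat gs)
      have h2 := pol_range (l0 ++ g.1) g.2 (flat gs)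
      rw [List.length_append] at h2
      simp only [List.append_assoc] at h2
      rw [h1, h2]
    · have h3 := ih (l0 ++ (g.1 ++ g.2))
      simp only [List.append_assoc] at h3
      have h4 : (l0 ++ (g.1 ++ g.2)).length = l0.length + g.1.length + g.2.length := by
        simp only [List.length_append]
        omega
      rw [h4] at h3
      exact h3

theorem pol_flat_length (gs : List Sl) :
    (flat gs).length = ((gs.map fun g => (g.1.length, g.2.length)).map fun p => p.1 + p.2).sum := by
  induction gs with
  | nil => rfl
  | cons g gs ih =>
    unfold flat at ih ⊢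
    rw [List.flatMap_cons, List.length_append, ih, List.length_append, List.map_cons,
      List.map_cons, List.sum_cons]

theorem p_pol : S_pol := by
  intro f hf sh
  choose F hF using hf
  let N : ℕ := (sh.map fun p => p.1 + p.2).sum
  refine ⟨((OS (pol_mk 0 sh)).map fun w0 => MvPolynomial.rename
    (fun k => (w0.map Prod.snd).getD k N) (F (w0.map Prod.fst))).sum, ?_⟩
  intro gs hgs
  obtain ⟨h, hh⟩ : ∃ h : ℕ → ℚ, ∀ i, h i = (flat gs).getD i 0 := ⟨_, fun _ => rfl⟩
  have hN : h N = 0 := by
    rw [hh]
    apply List.getD_eq_default
    have h1 := pol_flat_length gs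
    rw [hgs] at h1
    exact h1.le
  have e1 : (pol_mk 0 sh).map (pol_g h) = gs := by
    have h1 := pol_mk_map gs []
    rw [hgs] at h1
    have h2 : (fun i => ([] ++ flat gs).getD i 0) = h := by
      funext i
      rw [List.nil_append, hh]
    rw [h2] at h1
    exact h1
  have e2 : (fun i => (flat gs).getD i 0) = h := by
    funext i
    rw [hh]
  rw [e2, map_list_sum, List.map_map]
  unfold LL
  rw [← e1, pol_OS, List.map_map]
  congr 1
  apply List.map_congr_left
  intro w0 _
  simp only [Function.comp]
  rw [MvPolynomial.eval_rename]
  have h3 := hF (w0.map Prod.fst) ((w0.map Prod.snd).map h) (by simp)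
  have h4 : (w0.map Prod.fst).zip ((w0.map Prod.snd).map h) = pol_m h w0 := by
    unfold pol_m
    rw [List.map_map, List.zip_map']
    rfl
  simp only at h3
  rw [h4] at h3
  rw [h3]
  have h5 : (fun i => ((w0.map Prod.snd).map h).getD i 0) =
      h ∘ fun k => (w0.map Prod.snd).getD k N := by
    funext k
    simp only [Function.comp]
    rw [← hN, List.getD_map]
  rw [h5]

end Pent
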