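import Pool.Agent.Lib.MP_a57f33_nt.PN.Stm1

/-!
# Pentagon project (MP_a57f33_nt): piece `tra` (transfer)
-/

namespace Pent

open Pool.Agent.MP_a57f33_nt

noncomputable section

private theorem tra_lift_mul (f : T3) :
    FreeAlgebra.lift ℚ (fun i : Fin 3 => LinearMap.mulLeft ℚ (FreeAlgebra.ι ℚ i : T3)) f =
      LinearMap.mulLeft ℚ f := by
  have h : FreeAlgebra.lift ℚ (fun i : Fin 3 => LinearMap.mulLeft ℚ (FreeAlgebra.ι ℚ i : T3)) =
      Algebra.lmul ℚ T3 := by
    apply FreeAlgebra.hom_ext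
    funext i
    simp only [Function.comp_apply, FreeAlgebra.lift_ι_apply]
    rfl
  rw [h]
  rfl

private theorem tra_pent (h1 : S_univ.{0}) (h2 : S_tau) (φ : QX) (hφ : Good φ)
    (w : Fin 4 → Option (Fin 3)) (hw : Function.Injective w) :
    pent φ (fun i j => tau (w i) (w j)) = LinearMap.mulLeft ℚ (Rw φ w) := by
  rw [h1 φ hφ w hw (Module.End ℚ T3) tau (h2 (Fin 3)), ← tra_lift_mul]
  rfl

private theorem tra_braid (h2 : S_tau) (w' : Option (Fin 3) → Option (Fin 3))
    (hw : Function.Injective w') :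
    Braid (fun i j => (tau (w' i) (w' j) : Module.End ℚ T3)) := by
  have hb := h2 (Fin 3)
  refine ⟨fun i j => hb.symm _ _, fun i j k l h1 h2 h3 h4 h5 h6 => ?_, fun i j k h1 h2 h3 => ?_⟩
  · exact hb.four _ _ _ _ (hw.ne h1) (hw.ne h2) (hw.ne h3) (hw.ne h4) (hw.ne h5) (hw.ne h6)
  · exact hb.three _ _ _ (hw.ne h1) (hw.ne h2) (hw.ne h3)

private theorem tra_theta (h1 : S_univ.{0}) (h2 : S_tau) (φ : QX) (hφ : Good φ)
    (w' : Option (Fin 3) → Option (Fin 3)) (hw' : Function.Injective w')
    (w : Fin 4 → Option (Fin 3)) (hw : Function.Injective w) :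
    FreeAlgebra.lift ℚ (fun i => (tau (w' (some i)) (w' none) : Module.End ℚ T3)) (Rw φ w) =
      LinearMap.mulLeft ℚ (Rw φ (fun i => w' (w i))) := by
  rw [← tra_pent h1 h2 φ hφ (fun i => w' (w i)) (hw'.comp hw)]
  exact (h1 φ hφ w hw (Module.End ℚ T3) (fun i j => tau (w' i) (w' j))
    (tra_braid h2 w' hw')).symm

private theorem tra_ev2 {A B : Type} [Ring A] [Algebra ℚ A] [Ring B] [Algebra ℚ B]
    (θ : A →ₐ[ℚ] B) (V : QX) (x y : A) : θ (ev2 V x y) = ev2 V (θ x) (θ y) := by
  unfold ev2
  rw [← AlgHom.comp_apply]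
  congr 1
  apply FreeAlgebra.hom_ext
  funext s
  simp only [Function.comp_apply, AlgHom.comp_apply, FreeAlgebra.lift_ι_apply]
  cases s <;> simp

private theorem tra_tau_one (i j : Fin 3) : (tau (some i) (some j) : Module.End ℚ T3) 1 = 0 := by
  simp only [tau]
  split_ifs
  · rfl
  · exact der_one _

private theorem tra_tau_mul (i j : Fin 3) (f g : T3) :
    (tau (some i) (some j) : Module.End ℚ T3) (f * g) =
      (tau (some i) (some j) : Module.End ℚ T3) f * g +
        f * (tau (some i) (some j) : Module.End ℚ T3) g := by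
  simp only [tau]
  split_ifs
  · simp
  · exact der_mul _ _ _

/-- bijection for `i4` -/
private def tra_w : Option (Fin 3) → Option (Fin 3)
  | some 0 => some 0
  | some 1 => none
  | some 2 => some 1
  | none => some 2

/-- bijection for `i4'` -/
private def tra_w2 : Option (Fin 3) → Option (Fin 3)
  | some 0 => some 0
  | some 1 => none
  | some 2 => some 2
  | none => some 1

private theorem tra_w_inj : Function.Injective tra_w := by
  unfold Function.Injective; decide

private theorem tra_w2_inj : Function.Injective tra_w2 := by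
  unfold Function.Injective; decide

private theorem tra_wR_inj : Function.Injective wR := by
  unfold Function.Injective; decide
private theorem tra_wQ_inj : Function.Injective wQ := by
  unfold Function.Injective; decide
private theorem tra_wP_inj : Function.Injective wP := by
  unfold Function.Injective; decide

/-- the general computation -/
private theorem tra_gen (da db dc : Module.End ℚ T3) (θ : T3 →ₐ[ℚ] Module.End ℚ T3)
    (y : T3) (hda : da 1 = 0) (hdb : db = LinearMap.mulLeft ℚ y) (hdc : dc 1 = 0)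
    (ha : θ xa = da) (hb : θ xb = db) (hc : θ xc = dc)
    (R Q P R' Q' P' : T3) (V : QX) (hR : θ R = LinearMap.mulLeft ℚ R')
    (hQ : θ Q = LinearMap.mulLeft ℚ Q') (hP : θ P = LinearMap.mulLeft ℚ P')
    (h : ((xa + xb + xc) * R - R * (xa + xb + xc)) - ((xa + xb) * Q - Q * (xa + xb))
      + (xa * P - P * xa) = ev2 V xb xc * xa - xa * ev2 V xb xc) :
    da R' + dc R' + (y * R' - R' * y) - da Q' - (y * Q' - Q' * y) + da P' =
      - da ((ev2 V db dc) 1) := by
  have h' := congrArg (fun z => (θ z) 1) h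
  simp only [map_add, map_sub, map_mul, tra_ev2, ha, hb, hc, hR, hQ, hP] at h'
  simp only [LinearMap.sub_apply, LinearMap.add_apply, Module.End.mul_apply, LinearMap.mulLeft_apply,
    hda, hdc, mul_one, map_zero, zero_sub] at h'
  rw [← h']
  simp only [hdb, LinearMap.mulLeft_apply, mul_one, add_zero, zero_add]
  abel

theorem p_tra (h1 : S_univ.{0}) (h2 : S_tau) : S_tra := by
  intro φ V hφ heq
  refine ⟨heq, ?_, ?_⟩
  · have hR := tra_theta h1 h2 φ hφ tra_w tra_w_inj wR tra_wR_inj
    have hQ := tra_theta h1 h2 φ hφ tra_w tra_w_inj wQ tra_wQ_inj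
    have hP := tra_theta h1 h2 φ hφ tra_w tra_w_inj wP tra_wP_inj
    have eR : (fun i => tra_w (wR i)) = wP := by decide
    have eQ : (fun i => tra_w (wQ i)) = wN := by decide
    have eP : (fun i => tra_w (wP i)) = wS := by decide
    rw [eR] at hR
    rw [eQ] at hQ
    rw [eP] at hP
    have := tra_gen d13 Lc d23 _ xc (tra_tau_one 0 2) rfl (tra_tau_one 1 2)
      (by rw [xa, FreeAlgebra.lift_ι_apply]; rfl) (by rw [xb, FreeAlgebra.lift_ι_apply]; rfl)
      (by rw [xc, FreeAlgebra.lift_ι_apply]; rfl) _ _ _ _ _ _ V hR hQ hP heq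
    exact this
  · have hR := tra_theta h1 h2 φ hφ tra_w2 tra_w2_inj wR tra_wR_inj
    have hQ := tra_theta h1 h2 φ hφ tra_w2 tra_w2_inj wQ tra_wQ_inj
    have hP := tra_theta h1 h2 φ hφ tra_w2 tra_w2_inj wP tra_wP_inj
    have eR : (fun i => tra_w2 (wR i)) = wN := by decide
    have eQ : (fun i => tra_w2 (wQ i)) = wP := by decide
    have eP : (fun i => tra_w2 (wP i)) = wQ := by decide
    rw [eR] at hR
    rw [eQ] at hQ
    rw [eP] at hP
    have := tra_gen d12 Lb d23 _ xb (tra_tau_one 0 1) rfl (tra_tau_one 1 2)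
      (by rw [xa, FreeAlgebra.lift_ι_apply]; rfl) (by rw [xb, FreeAlgebra.lift_ι_apply]; rfl)
      (by rw [xc, FreeAlgebra.lift_ι_apply]; exact (h2 (Fin 3)).symm _ _) _ _ _ _ _ _ V hR hQ hP heq
    exact this

end

end Pent
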