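import Pool.Agent.Lib.MP_a57f33_nt.PN.Stm2
import Pool.Agent.Lib.MP_a57f33_nt.CycWords

/-!
# Pentagon project (MP_a57f33_nt), Half II: triangularity
-/

namespace Pent

open Pool.Agent.MP_a57f33_nt.Cyc (shuffle sh sh_nil_left sh_nil_right sh_cons_cons)

theorem tri_snoc {α : Type} (x y : α) : ∀ (u v : List α) (f : List α → ℚ),
    sh (u ++ [x]) (v ++ [y]) f =
      sh u (v ++ [y]) (fun t => f (t ++ [x])) + sh (u ++ [x]) v (fun t => f (t ++ [y]))
  | [], [], f => by
      simp only [List.nil_append, sh_cons_cons, sh_nil_left, sh_nil_right, List.cons_append]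
      ring
  | [], b :: v, f => by
      have := tri_snoc x y [] v (fun t => f (b :: t))
      simp only [List.nil_append, List.cons_append, sh_cons_cons, sh_nil_left] at this ⊢
      rw [this]
      ring
  | a :: u, [], f => by
      have := tri_snoc x y u [] (fun t => f (a :: t))
      simp only [List.nil_append, List.cons_append, sh_cons_cons, sh_nil_right] at this ⊢
      rw [this]
      ring
  | a :: u, b :: v, f => by
      have h1 := tri_snoc x y u (b :: v) (fun t => f (a :: t))
      have h2 := tri_snoc x y (a :: u) v (fun t => f (b :: t))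
      simp only [List.cons_append, sh_cons_cons] at h1 h2 ⊢
      rw [h1, h2]
      ring
termination_by u v => u.length + v.length

theorem tri_lie (f : Wd → ℚ) (hf : LieFn f) (B : Wd) : ∀ (A : Wd) (x : Bool × ℚ),
    f (A ++ x :: B) = (-1) ^ B.length * sh A B.reverse (fun t => f (t ++ [x])) := by
  induction B with
  | nil => intro A x; simp [sh_nil_right]
  | cons b B ih =>
    intro A x
    have h1 := ih (A ++ [x]) b
    have h2 := tri_snoc x b A B.reverse f
    have h3 : sh (A ++ [x]) (B.reverse ++ [b]) f = 0 :=
      hf (A ++ [x]) (B.reverse ++ [b]) (by simp) (by simp)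
    rw [h3] at h2
    have h4 : A ++ x :: b :: B = A ++ [x] ++ b :: B := by simp
    rw [h4, h1, List.reverse_cons, List.length_cons, pow_succ]
    linear_combination (-1) ^ B.length * (-h2)

/-- number of letters `b` -/
def tri_nb : Wd → ℕ
  | [] => 0
  | (false, _) :: w => tri_nb w + 1
  | (true, _) :: w => tri_nb w

/-- number of letters `c` -/
def tri_nc : Wd → ℕ
  | [] => 0
  | (false, _) :: w => tri_nc w
  | (true, _) :: w => tri_nc w + 1

/-- number of pairs `c` before `b` -/
def tri_N : Wd → ℕ
  | [] => 0
  | (false, _) :: w => tri_N w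
  | (true, _) :: w => tri_N w + tri_nb w

theorem tri_nb_append (u v : Wd) : tri_nb (u ++ v) = tri_nb u + tri_nb v := by
  induction u with
  | nil => simp [tri_nb]
  | cons a u ih =>
    obtain ⟨x, μ⟩ := a
    cases x <;> simp [tri_nb, ih] <;> omega

theorem tri_nc_append (u v : Wd) : tri_nc (u ++ v) = tri_nc u + tri_nc v := by
  induction u with
  | nil => simp [tri_nc]
  | cons a u ih =>
    obtain ⟨x, μ⟩ := a
    cases x <;> simp [tri_nc, ih] <;> omega

theorem tri_N_append (u v : Wd) : tri_N (u ++ v) = tri_N u + tri_N v + tri_nc u * tri_nb v := by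
  induction u with
  | nil => simp [tri_N, tri_nc]
  | cons a u ih =>
    obtain ⟨x, μ⟩ := a
    cases x
    · simp [tri_N, tri_nc, ih]
    · simp only [List.cons_append, tri_N, tri_nc, ih, tri_nb_append]
      ring

theorem tri_nb_bw (u : List ℚ) : tri_nb (bw u) = u.length := by
  induction u with
  | nil => rfl
  | cons a u ih => simpa [bw, tri_nb] using ih

theorem tri_nc_bw (u : List ℚ) : tri_nc (bw u) = 0 := by
  induction u with
  | nil => rfl
  | cons a u ih => simpa [bw, tri_nc] using ih

theorem tri_N_bw (u : List ℚ) : tri_N (bw u) = 0 := by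
  induction u with
  | nil => rfl
  | cons a u ih => simpa [bw, tri_N] using ih

/-- counts in a shuffle -/
theorem tri_shuffle : ∀ (w : Wd) (u : List ℚ) (t : Wd), t ∈ shuffle w (bw u) →
    tri_nb t = tri_nb w + u.length ∧ tri_nc t = tri_nc w ∧
      tri_N t ≤ tri_N w + tri_nc w * u.length
  | [], u, t, h => by
      rw [shuffle] at h
      simp only [List.mem_singleton] at h
      subst h
      simp [tri_nb_bw, tri_nc_bw, tri_N_bw, tri_nb, tri_nc, tri_N]
  | a :: w, [], t, h => by
      have e : bw ([] : List ℚ) = [] := rfl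
      rw [e, shuffle] at h
      simp only [List.mem_singleton] at h
      subst h
      simp
  | a :: w, μ :: u, t, h => by
      have e : bw (μ :: u) = (false, μ) :: bw u := rfl
      rw [e, shuffle] at h
      simp only [List.mem_append, List.mem_map] at h
      rcases h with ⟨s, hs, rfl⟩ | ⟨s, hs, rfl⟩
      · rw [← e] at hs
        obtain ⟨h1, h2, h3⟩ := tri_shuffle w (μ :: u) s hs
        obtain ⟨x, ν⟩ := a
        cases x
        · simp only [tri_nb, tri_nc, tri_N, h1, h2, List.length_cons] at h3 ⊢
          refine ⟨by omega, trivial, by omega⟩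
        · simp only [tri_nb, tri_nc, tri_N, h1, h2, List.length_cons] at h3 ⊢
          refine ⟨trivial, trivial, ?_⟩
          have : (tri_nc w + 1) * (u.length + 1) = tri_nc w * (u.length + 1) + u.length + 1 := by
            ring
          omega
      · obtain ⟨h1, h2, h3⟩ := tri_shuffle (a :: w) u s hs
        simp only [List.length_cons]
        have e1 : tri_nb ((false, μ) :: s) = tri_nb s + 1 := rfl
        have e2 : tri_nc ((false, μ) :: s) = tri_nc s := rfl
        have e3 : tri_N ((false, μ) :: s) = tri_N s := rfl
        rw [e1, e2, e3, h1, h2]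
        refine ⟨by omega, rfl, ?_⟩
        have : tri_nc (a :: w) * (u.length + 1) = tri_nc (a :: w) * u.length + tri_nc (a :: w) := by
          ring
        omega
termination_by w u => w.length + u.length

/-- empty or ending in `c` -/
def tri_end (w : Wd) : Prop := w = [] ∨ ∃ w' y, w = w' ++ [(true, y)]

theorem tri_sum (F : Wd → ℚ) (l : List Wd) (h : ∀ t ∈ l, F t = 0) : (l.map F).sum = 0 := by
  rw [List.map_congr_left (g := fun _ => (0 : ℚ)) h]
  simp

/-- the top term of a shuffle -/
theorem tri_top : ∀ (w : Wd) (u : List ℚ) (F : Wd → ℚ), tri_end w →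
    (∀ t ∈ shuffle w (bw u), tri_N t < tri_N w + tri_nc w * u.length → F t = 0) →
    sh w (bw u) F = F (w ++ bw u)
  | [], u, F, _, _ => by
      rw [sh_nil_left]; rfl
  | a :: w, [], F, _, _ => by
      have e : bw ([] : List ℚ) = [] := rfl
      rw [e, sh_nil_right, List.append_nil]
  | a :: w, μ :: u, F, hw, hF => by
      have e : bw (μ :: u) = (false, μ) :: bw u := rfl
      have hc : 1 ≤ tri_nc (a :: w) := by
        rcases hw with hw | ⟨w', y, hw⟩
        · exact absurd hw (by simp)
        · rw [hw, tri_nc_append]
          simp [tri_nc]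
      have hw' : tri_end w := by
        rcases hw with hw | ⟨w', y, hw⟩
        · exact absurd hw (by simp)
        · cases w' with
          | nil =>
            left
            simp at hw
            exact hw.2
          | cons b w' =>
            right
            refine ⟨w', y, ?_⟩
            simp at hw
            exact hw.2
      rw [e, sh_cons_cons]
      have h2 : sh (a :: w) (bw u) (fun t => F ((false, μ) :: t)) = 0 := by
        apply tri_sum
        intro t ht
        apply hF
        · rw [e, shuffle]
          simp only [List.mem_append, List.mem_map]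
          right
          exact ⟨t, ht, rfl⟩
        · obtain ⟨h1, h2, h3⟩ := tri_shuffle (a :: w) u t ht
          have e3 : tri_N ((false, μ) :: t) = tri_N t := rfl
          have : tri_nc (a :: w) * (μ :: u).length
              = tri_nc (a :: w) * u.length + tri_nc (a :: w) := by
            simp only [List.length_cons]
            ring
          rw [e3, this]
          omega
      rw [h2, add_zero, ← e]
      have h1 := tri_top w (μ :: u) (fun t => F (a :: t)) hw' (by
        intro t ht hlt
        apply hF
        · rw [e, shuffle]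
          simp only [List.mem_append, List.mem_map]
          left
          exact ⟨t, ht, rfl⟩
        · obtain ⟨h1, h2, h3⟩ := tri_shuffle w (μ :: u) t ht
          obtain ⟨x, ν⟩ := a
          cases x
          · simp only [tri_nc, tri_N, List.length_cons] at hlt ⊢
            omega
          · simp only [tri_nc, tri_N, List.length_cons, h1] at hlt ⊢
            have : (tri_nc w + 1) * (u.length + 1) = tri_nc w * (u.length + 1) + u.length + 1 := by
              ring
            omega)
      rw [h1]
      rfl
termination_by w u => w.length + u.length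

/-- the word of a list of slots -/
def tri_word (gs : List Sl) : Wd := gs.flatMap fun g => bw g.1 ++ cw g.2

theorem tri_word_snoc (gs : List Sl) (u : List ℚ) (y : ℚ) :
    tri_word (gs ++ [(u, [y])]) = tri_word gs ++ bw u ++ [(true, y)] := by
  simp [tri_word, cw]

theorem tri_word_end (gs : List Sl) (h : ∀ g ∈ gs, g.2.length = 1) : tri_end (tri_word gs) := by
  rcases List.eq_nil_or_concat gs with rfl | ⟨gs, g, rfl⟩
  · left; rfl
  · right
    rw [List.concat_eq_append] at h ⊢
    obtain ⟨u, v⟩ := g
    have hv : v.length = 1 := h (u, v) (by simp)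
    obtain ⟨y, rfl⟩ := List.length_eq_one_iff.mp hv
    exact ⟨tri_word gs ++ bw u, y, tri_word_snoc gs u y⟩

theorem tri_OS_snoc (gs : List Sl) (u : List ℚ) (y : ℚ) :
    OS (gs ++ [(u, [y])]) =
      (OS gs).flatMap fun w => (shuffle w (bw u)).map (· ++ [(true, y)]) := by
  unfold OS
  rw [List.foldl_append]
  simp only [List.foldl_cons, List.foldl_nil, ostep]
  congr 1
  funext w
  have e : ∀ w' : Wd, shuffle w' [] = [w'] := by
    intro w'
    cases w' <;> simp [shuffle]
  simp [e, cw]

theorem tri_LL_snoc (F : Wd → ℚ) (gs : List Sl) (u : List ℚ) (y : ℚ) :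
    LL F (gs ++ [(u, [y])]) = LL (fun w => sh w (bw u) (fun t => F (t ++ [(true, y)]))) gs := by
  unfold LL
  rw [tri_OS_snoc]
  generalize OS gs = l
  induction l with
  | nil => rfl
  | cons w l ih =>
    simp only [List.flatMap_cons, List.map_append, List.sum_append, List.map_cons, List.sum_cons]
    rw [ih]
    congr 1
    simp [sh, Function.comp_def]

theorem tri_N_snoc (t : Wd) (y : ℚ) : tri_N (t ++ [(true, y)]) = tri_N t := by
  rw [tri_N_append]
  simp [tri_N, tri_nb]

theorem tri_nc_snoc (t : Wd) (y : ℚ) : tri_nc (t ++ [(true, y)]) = tri_nc t + 1 := by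
  rw [tri_nc_append]
  simp [tri_nc]

theorem tri_append_mem {α : Type} (u v : List α) : u ++ v ∈ shuffle u v := by
  induction u with
  | nil => simp [shuffle]
  | cons a u ih =>
    cases v with
    | nil => simp [shuffle]
    | cons b v =>
      rw [shuffle]
      simp only [List.mem_append, List.mem_map]
      left
      exact ⟨_, ih, rfl⟩

theorem tri_mem (gs : List Sl) : (∀ g ∈ gs, g.2.length = 1) → tri_word gs ∈ OS gs := by
  induction gs using List.reverseRecOn with
  | nil => intro _; simp [OS, tri_word]
  | append_singleton gs g ih =>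
    intro h
    obtain ⟨u, v⟩ := g
    have hv : v.length = 1 := h (u, v) (by simp)
    obtain ⟨y, rfl⟩ := List.length_eq_one_iff.mp hv
    have hgs : ∀ g ∈ gs, g.2.length = 1 := fun g hg => h g (by simp [hg])
    rw [tri_word_snoc, tri_OS_snoc]
    simp only [List.mem_flatMap, List.mem_map]
    exact ⟨_, ih hgs, _, tri_append_mem _ _, rfl⟩

theorem tri_OS (gs : List Sl) : (∀ g ∈ gs, g.2.length = 1) →
    (∀ t ∈ OS gs, tri_nc t = tri_nc (tri_word gs) ∧ tri_N t ≤ tri_N (tri_word gs)) ∧
    ∀ F : Wd → ℚ, (∀ t ∈ OS gs, tri_N t < tri_N (tri_word gs) → F t = 0) →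
      LL F gs = F (tri_word gs) := by
  induction gs using List.reverseRecOn with
  | nil =>
    intro _
    refine ⟨?_, ?_⟩
    · intro t ht
      simp only [OS, List.foldl_nil, List.mem_singleton] at ht
      subst ht
      simp [tri_word]
    · intro F _
      simp [LL, OS, tri_word]
  | append_singleton gs g ih =>
    intro h
    obtain ⟨u, v⟩ := g
    have hv : v.length = 1 := h (u, v) (by simp)
    obtain ⟨y, rfl⟩ := List.length_eq_one_iff.mp hv
    have hgs : ∀ g ∈ gs, g.2.length = 1 := fun g hg => h g (by simp [hg])
    obtain ⟨ih1, ih2⟩ := ih hgs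
    rw [tri_word_snoc]
    have eN : tri_N (tri_word gs ++ bw u ++ [(true, y)])
        = tri_N (tri_word gs) + tri_nc (tri_word gs) * u.length := by
      rw [tri_N_snoc, tri_N_append, tri_N_bw, tri_nb_bw]
      omega
    have eC : tri_nc (tri_word gs ++ bw u ++ [(true, y)]) = tri_nc (tri_word gs) + 1 := by
      rw [tri_nc_snoc, tri_nc_append, tri_nc_bw]
    rw [eN, eC]
    refine ⟨?_, ?_⟩
    · intro t ht
      rw [tri_OS_snoc] at ht
      simp only [List.mem_flatMap, List.mem_map] at ht
      obtain ⟨w, hw, s, hs, rfl⟩ := ht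
      obtain ⟨h1, h2, h3⟩ := tri_shuffle w u s hs
      obtain ⟨h4, h5⟩ := ih1 w hw
      rw [tri_nc_snoc, tri_N_snoc, h2, h4]
      refine ⟨rfl, ?_⟩
      rw [h4] at h3
      omega
    · intro F hF
      rw [tri_LL_snoc, ih2]
      · rw [tri_top _ _ _ (tri_word_end gs hgs)]
        intro t ht hlt
        apply hF
        · rw [tri_OS_snoc]
          simp only [List.mem_flatMap, List.mem_map]
          exact ⟨_, tri_mem gs hgs, t, ht, rfl⟩
        · rw [tri_N_snoc]
          exact hlt
      · intro w hw hlt
        apply tri_sum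
        intro t ht
        apply hF
        · rw [tri_OS_snoc]
          simp only [List.mem_flatMap, List.mem_map]
          exact ⟨w, hw, t, ht, rfl⟩
        · obtain ⟨h1, h2, h3⟩ := tri_shuffle w u t ht
          obtain ⟨h4, h5⟩ := ih1 w hw
          rw [tri_N_snoc]
          rw [h4] at h3
          omega

theorem tri_end_mem (gs : List Sl) (hne : gs ≠ []) (h : ∀ g ∈ gs, g.2.length = 1) (t : Wd)
    (ht : t ∈ OS gs) : ∃ t' y, t = t' ++ [(true, y)] := by
  rcases List.eq_nil_or_concat gs with rfl | ⟨gs, g, rfl⟩
  · exact absurd rfl hne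
  · rw [List.concat_eq_append] at h ht
    obtain ⟨u, v⟩ := g
    have hv : v.length = 1 := h (u, v) (by simp)
    obtain ⟨y, rfl⟩ := List.length_eq_one_iff.mp hv
    rw [tri_OS_snoc] at ht
    simp only [List.mem_flatMap, List.mem_map] at ht
    obtain ⟨w, hw, s, hs, rfl⟩ := ht
    exact ⟨s, y, rfl⟩

theorem tri_parse (w : Wd) : ∃ (gs : List Sl) (u : List ℚ), (∀ g ∈ gs, g.2.length = 1) ∧
    w = tri_word gs ++ bw u := by
  induction w using List.reverseRecOn with
  | nil => exact ⟨[], [], by simp, rfl⟩
  | append_singleton w a ih =>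
    obtain ⟨gs, u, h1, h2⟩ := ih
    obtain ⟨x, μ⟩ := a
    cases x
    · refine ⟨gs, u ++ [μ], h1, ?_⟩
      rw [h2]
      simp [bw]
    · refine ⟨gs ++ [(u, [μ])], [], ?_, ?_⟩
      · intro g hg
        rcases List.mem_append.mp hg with hg | hg
        · exact h1 g hg
        · simp only [List.mem_singleton] at hg
          subst hg
          rfl
      · rw [tri_word_snoc, h2]
        simp [bw]

theorem tri_c (f : Wd → ℚ) (hL : ∀ gs : List Sl, gs ≠ [] → vok gs → LL f gs = 0) :
    ∀ (n : ℕ) (w : Wd) (y : ℚ), tri_N (w ++ [(true, y)]) = n → f (w ++ [(true, y)]) = 0 := by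
  intro n
  induction n using Nat.strong_induction_on with
  | _ n ih =>
    intro w y hn
    obtain ⟨gs, u, h1, h2⟩ := tri_parse w
    have hg : ∀ g ∈ gs ++ [(u, [y])], g.2.length = 1 := by
      intro g hg
      rcases List.mem_append.mp hg with hg | hg
      · exact h1 g hg
      · simp only [List.mem_singleton] at hg
        subst hg
        rfl
    have hw : w ++ [(true, y)] = tri_word (gs ++ [(u, [y])]) := by
      rw [tri_word_snoc, h2]
    have hne : gs ++ [(u, [y])] ≠ [] := by simp
    have h3 := (tri_OS (gs ++ [(u, [y])]) hg).2 f (by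
      intro t ht hlt
      obtain ⟨t', z, rfl⟩ := tri_end_mem _ hne hg t ht
      rw [← hw, hn] at hlt
      exact ih _ hlt t' z rfl)
    rw [hw, ← h3]
    apply hL _ hne
    intro g hgg
    have := hg g hgg
    intro h0
    rw [h0] at this
    simp at this

theorem p_tri : S_tri := by
  intro f hf hpure hL w
  obtain ⟨gs, u, h1, rfl⟩ := tri_parse w
  rcases List.eq_nil_or_concat gs with rfl | ⟨gs, g, rfl⟩
  · apply hpure false
    intro y hy
    simp only [tri_word, List.flatMap_nil, List.nil_append, bw, List.mem_map] at hy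
    obtain ⟨a, _, rfl⟩ := hy
    rfl
  · rw [List.concat_eq_append] at h1 ⊢
    obtain ⟨u', v⟩ := g
    have hv : v.length = 1 := h1 (u', v) (by simp)
    obtain ⟨y, rfl⟩ := List.length_eq_one_iff.mp hv
    rw [tri_word_snoc]
    have e : tri_word gs ++ bw u' ++ [(true, y)] ++ bw u
        = (tri_word gs ++ bw u') ++ (true, y) :: bw u := by simp
    rw [e, tri_lie f hf]
    have : sh (tri_word gs ++ bw u') (bw u).reverse (fun t => f (t ++ [(true, y)])) = 0 := by
      apply tri_sum
      intro t _
      exact tri_c f hL _ t y rfl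
    rw [this, mul_zero]

end Pent
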