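import Pool.Agent.Lib.MP_a57f33_nt.PN.Stm1

set_option autoImplicit false

namespace Pent

private def van_lw (c : Bool → Bool) (w : Wd) : ℚ := (w.map fun y => if c y.1 then y.2 else 0).sum

private theorem van_tot (w : Wd) : tot w = van_lw (fun _ => true) w := by
  unfold tot van_lw
  simp

private theorem van_csum (w : Wd) : csum w = van_lw (fun b => b) w := rfl

private theorem van_bsum (w : Wd) : bsum w = van_lw (fun b => !b) w := by
  unfold bsum van_lw
  congr 1
  refine List.map_congr_left fun y _ => ?_
  cases y.1 <;> simp

private theorem van_set (c : Bool → Bool) (s : ℚ) : ∀ (p : List Bool) (μ : List ℚ) (i : ℕ),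
    μ.length = p.length → i < p.length → c (p.getD i false) = true →
    van_lw c (p.zip (μ.set i (μ.getD i 0 + s))) = van_lw c (p.zip μ) + s := by
  intro p
  induction p with
  | nil => intro μ i _ h _; simp at h
  | cons b p ih =>
    intro μ i hl hi hc
    cases μ with
    | nil => simp at hl
    | cons x μ =>
      cases i with
      | zero =>
        simp only [List.getD_cons_zero] at hc
        simp only [List.set_cons_zero, List.getD_cons_zero, List.zip_cons_cons, van_lw,
          List.map_cons, List.sum_cons, hc, if_true]
        ring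
      | succ i =>
        simp only [List.length_cons, Nat.add_right_cancel_iff] at hl
        simp only [List.length_cons, Nat.add_lt_add_iff_right] at hi
        simp only [List.getD_cons_succ] at hc
        have h1 := ih μ i hl hi hc
        simp only [van_lw] at h1
        simp only [List.set_cons_succ, List.getD_cons_succ, List.zip_cons_cons, van_lw,
          List.map_cons, List.sum_cons]
        rw [h1]
        ring

private theorem van_gen (f : Wd → ℚ) (hf : PolyW f) (c : Bool → Bool) (p : List Bool) (i : ℕ)
    (hi : i < p.length) (hc : c (p.getD i false) = true)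
    (h : ∀ μ : List ℚ, μ.length = p.length → van_lw c (p.zip μ) ≠ 0 → f (p.zip μ) = 0) :
    ∀ μ : List ℚ, μ.length = p.length → f (p.zip μ) = 0 := by
  intro μ hμ
  obtain ⟨F, hF⟩ := hf p
  let G : Polynomial ℚ := MvPolynomial.eval₂ Polynomial.C
    (fun j => Polynomial.C (μ.getD j 0) + if j = i then Polynomial.X else 0) F
  have hG : ∀ s : ℚ, G.eval s = f (p.zip (μ.set i (μ.getD i 0 + s))) := by
    intro s
    have h0 : f (p.zip (μ.set i (μ.getD i 0 + s))) =
        MvPolynomial.eval (fun j => (μ.set i (μ.getD i 0 + s)).getD j 0) F :=
      hF (μ.set i (μ.getD i 0 + s)) (by rw [List.length_set, hμ])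
    rw [h0]
    have h1 : Polynomial.eval s G = (Polynomial.evalRingHom s) G := rfl
    rw [h1]
    show (Polynomial.evalRingHom s) (MvPolynomial.eval₂ _ _ F) = _
    rw [MvPolynomial.hom_eval₂]
    have h2 : (Polynomial.evalRingHom s).comp Polynomial.C = RingHom.id ℚ := by
      refine RingHom.ext fun x => ?_
      simp
    rw [h2]
    show MvPolynomial.eval₂ _ _ F = MvPolynomial.eval₂ _ _ F
    congr 1
    funext j
    simp only [Function.comp_apply, map_add, Polynomial.coe_evalRingHom, Polynomial.eval_C]
    by_cases hj : j = i
    · subst hj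
      have h3 : j < μ.length := by omega
      simp [h3]
    · simp only [hj, if_false, Polynomial.eval_zero, add_zero]
      rw [List.getD_eq_getElem?_getD, List.getD_eq_getElem?_getD, List.getElem?_set_ne (Ne.symm hj)]
  have hG0 : G = 0 := by
    apply Polynomial.eq_zero_of_infinite_isRoot
    have h4 : {s : ℚ | s ≠ - van_lw c (p.zip μ)} ⊆ {s | G.IsRoot s} := by
      intro s hs
      show G.eval s = 0
      rw [hG]
      refine h _ (by rw [List.length_set, hμ]) ?_
      rw [van_set c s p μ i hμ hi hc]
      intro h5
      exact hs (by linarith)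
    refine Set.Infinite.mono h4 ?_
    exact (Set.finite_singleton (- van_lw c (p.zip μ))).infinite_compl
  have h6 := hG 0
  rw [hG0, Polynomial.eval_zero, add_zero] at h6
  have h7 : μ.set i (μ.getD i 0) = μ := by
    have h3 : i < μ.length := by omega
    rw [List.getD_eq_getElem _ _ h3]
    exact List.set_getElem_self h3
  rw [h7] at h6
  exact h6.symm

theorem p_van : S_van := by
  intro f hf
  refine ⟨?_, ?_, ?_⟩
  · intro p hp h
    refine van_gen f hf (fun _ => true) p 0 (List.length_pos_iff.2 hp) rfl ?_
    intro μ hμ h1
    exact h μ hμ (by rw [van_tot]; exact h1)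
  · intro p hp h
    obtain ⟨i, hi, hi2⟩ := List.getElem_of_mem hp
    refine van_gen f hf (fun b => b) p i hi ?_ ?_
    · rw [List.getD_eq_getElem _ _ hi]
      exact hi2
    · intro μ hμ h1
      exact h μ hμ (by rw [van_csum]; exact h1)
  · intro p hp h
    obtain ⟨i, hi, hi2⟩ := List.getElem_of_mem hp
    refine van_gen f hf (fun b => !b) p i hi ?_ ?_
    · rw [List.getD_eq_getElem _ _ hi, hi2]
      rfl
    · intro μ hμ h1
      exact h μ hμ (by rw [van_bsum]; exact h1)

end Pent
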