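import Pool.Agent.Lib.MP_a57f33_nt.PN.Stm1

/-!
# Pentagon project (MP_a57f33_nt), piece `few`
-/

namespace Pent

open Pool.Agent.MP_a57f33_nt
open Pool.Agent.MP_a57f33_nt.Cyc (shuffle)

/-- the words of a shuffle are permutations of the concatenation -/
private theorem few_perm {α : Type} : ∀ (n : ℕ) (u v w : List α), u.length + v.length = n →
    w ∈ shuffle u v → w.Perm (u ++ v) := by
  intro n
  induction n with
  | zero =>
    intro u v w h hw
    have hu : u = [] := List.length_eq_zero_iff.1 (by omega)
    have hv : v = [] := List.length_eq_zero_iff.1 (by omega)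
    subst hu hv
    rw [shuffle, List.mem_singleton] at hw
    subst hw
    exact List.Perm.refl _
  | succ n ih =>
    intro u v w h hw
    cases u with
    | nil =>
      rw [shuffle, List.mem_singleton] at hw
      subst hw
      exact List.Perm.refl _
    | cons a u =>
      cases v with
      | nil =>
        rw [shuffle, List.mem_singleton] at hw
        subst hw
        rw [List.append_nil]
      | cons b v =>
        rw [shuffle, List.mem_append, List.mem_map, List.mem_map] at hw
        simp only [List.length_cons] at h
        rcases hw with ⟨t, ht, rfl⟩ | ⟨t, ht, rfl⟩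
        · have h1 := ih u (b :: v) t (by simp only [List.length_cons]; omega) ht
          exact h1.cons a
        · have h1 := ih (a :: u) v t (by simp only [List.length_cons]; omega) ht
          exact (h1.cons b).trans (List.perm_middle (l₁ := a :: u) (a := b) (l₂ := v)).symm

private theorem few_sum {α : Type} (l : List (List α)) (g : List α → ℚ)
    (h : ∀ t ∈ l, g t = 0) : (l.map g).sum = 0 := by
  apply List.sum_eq_zero
  intro x hx
  obtain ⟨t, ht, rfl⟩ := List.mem_map.1 hx
  exact h t ht

private theorem few_split {α : Type} [DecidableEq α] (x : α) (w : List α)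
    (h : w.count x ≤ 1) : x ∉ w ∨ ∃ A B : List α, w = A ++ x :: B ∧ x ∉ A ∧ x ∉ B := by
  by_cases hx : x ∈ w
  · right
    obtain ⟨A, B, rfl⟩ := List.append_of_mem hx
    rw [List.count_append, List.count_cons_self] at h
    refine ⟨A, B, rfl, ?_, ?_⟩
    · intro h1
      have h2 := List.count_pos_iff.2 h1
      omega
    · intro h1
      have h2 := List.count_pos_iff.2 h1
      omega
  · exact Or.inl hx

theorem p_few (h1 : S_clie) (h2 : S_mov) : S_few := by
  intro R hR hC w hw
  have hsh := (h1 (Fin 3) R hR).2
  obtain ⟨hm1, hm2, -⟩ := h2 (Fin 3) (coeff R) hsh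
  rcases hw with hw | hw
  · rcases few_split 1 w hw with h | ⟨A, B, rfl, hA, hB⟩
    · have h3 := hC w [] h (by simp)
      rw [List.append_nil] at h3
      exact h3
    · rw [hm1 A B 1, few_sum _ _ ?_, mul_zero]
      intro t ht
      refine hC t [1] ?_ (by decide)
      intro h3
      have h4 := (few_perm _ A B.reverse t rfl ht).mem_iff.1 h3
      rw [List.mem_append, List.mem_reverse] at h4
      exact h4.elim hA hB
  · rcases few_split 2 w hw with h | ⟨A, B, rfl, hA, hB⟩
    · exact hC [] w (by simp) h
    · rw [hm2 A B 2, few_sum _ _ ?_, mul_zero]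
      intro t ht
      refine hC [2] t (by decide) ?_
      intro h3
      have h4 := (few_perm _ A.reverse B t rfl ht).mem_iff.1 h3
      rw [List.mem_append, List.mem_reverse] at h4
      exact h4.elim hA hB

end Pent
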